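import Pool.Agent.NSL.Iter

/-!
# MP_fd8964_an, soft waves: approximation by smooth functions with compact support in `L^p(Ω)`, `p < 1`
-/

open MeasureTheory Set Filter Topology
open scoped RealInnerProductSpace ContDiff

noncomputable section

namespace Pool.Agent.NSL

open Pool.Agent.NSD Pool.Agent.NSK

variable {Ω : Set E}

theorem isBump_add {a b : E → ℝ} (ha : IsBump Ω a) (hb : IsBump Ω b) : IsBump Ω (fun x => a x + b x) :=
  ⟨ha.1.add hb.1, ha.2.1.add hb.2.1, (tsupport_add a b).trans (union_subset ha.2.2 hb.2.2)⟩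

theorem isBump_zero : IsBump Ω (fun _ => (0 : ℝ)) := by
  refine ⟨contDiff_const, HasCompactSupport.zero, ?_⟩
  have : tsupport (fun _ : E => (0 : ℝ)) = ∅ := by
    rw [tsupport_eq_empty_iff]; rfl
  rw [this]; exact empty_subset _

theorem isBump_smul {a : E → ℝ} (c : ℝ) (ha : IsBump Ω a) : IsBump Ω (fun x => c * a x) :=
  ⟨contDiff_const.mul ha.1, ha.2.1.mul_left,
    (tsupport_mul_subset_right (f := fun _ => c) (g := a)).trans ha.2.2⟩

theorem memLp_bump {a : E → ℝ} (ha : IsBump Ω a) : MemLp a 2 (volume.restrict Ω) :=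
  ha.1.continuous.memLp_of_hasCompactSupport ha.2.1

/-- The classes of the bumps. -/
def bumps (Ω : Set E) : Submodule ℝ (Lp ℝ 2 (volume.restrict Ω)) where
  carrier := {f | ∃ b, IsBump Ω b ∧ (f : E → ℝ) =ᵐ[volume.restrict Ω] b}
  add_mem' := by
    rintro f g ⟨b, hb, hfb⟩ ⟨c, hc, hgc⟩
    exact ⟨_, isBump_add hb hc, (Lp.coeFn_add f g).trans (hfb.add hgc)⟩
  zero_mem' := ⟨_, isBump_zero, Lp.coeFn_zero ℝ 2 _⟩
  smul_mem' := by
    rintro c f ⟨b, hb, hfb⟩
    refine ⟨_, isBump_smul c hb, (Lp.coeFn_smul c f).trans ?_⟩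
    filter_upwards [hfb] with x hx
    simp [hx]

theorem bumps_dense (hΩ : IsOpen Ω) (hb : Bornology.IsBounded Ω) : (bumps Ω).topologicalClosure = ⊤ := by
  rw [Submodule.topologicalClosure_eq_top_iff, Submodule.eq_bot_iff]
  intro f hf
  rw [Submodule.mem_orthogonal] at hf
  have : IsFiniteMeasure (volume.restrict Ω) := Weak.finiteMeasure hb
  have hfi : Integrable (f : E → ℝ) (volume.restrict Ω) :=
    (Lp.memLp f).integrable (by norm_num)
  have hloc : LocallyIntegrableOn (f : E → ℝ) Ω volume := by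
    have : IntegrableOn (f : E → ℝ) Ω volume := hfi
    exact this.locallyIntegrableOn
  have h1 := hΩ.ae_eq_zero_of_integral_contDiff_smul_eq_zero (μ := volume) hloc (by
    intro g hg hgc hgs
    have hgb : IsBump Ω g := ⟨hg, hgc, hgs⟩
    have h2 := hf ((memLp_bump hgb).toLp g) ⟨g, hgb, (memLp_bump hgb).coeFn_toLp⟩
    rw [L2.inner_def] at h2
    have h3 : ∫ x in Ω, ⟪((memLp_bump hgb).toLp g : E → ℝ) x, (f : E → ℝ) x⟫ = ∫ x in Ω, g x • (f : E → ℝ) x := by
      refine integral_congr_ae ?_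
      filter_upwards [(memLp_bump hgb).coeFn_toLp] with x hx
      rw [hx]
      simp [mul_comm]
    rw [h3] at h2
    rw [← h2]
    symm
    refine setIntegral_eq_integral_of_forall_compl_eq_zero fun x hx => ?_
    have : g x = 0 := image_eq_zero_of_notMem_tsupport fun h => hx (hgs h)
    rw [this, zero_smul])
  refine Lp.ext ?_
  refine Filter.EventuallyEq.trans ?_ (Lp.coeFn_zero ℝ 2 _).symm
  rw [Filter.EventuallyEq, ae_restrict_iff' hΩ.measurableSet]
  exact h1

theorem Ip_eq_eLpNorm {X : Type*} [NormedAddCommGroup X] {p : ℝ} (hp0 : 0 < p) (f : E → X) :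
    Ip Ω p f = eLpNorm f (ENNReal.ofReal p) (volume.restrict Ω) ^ p := by
  unfold Ip
  rw [eLpNorm_eq_lintegral_rpow_enorm_toReal (by simpa using hp0) ENNReal.ofReal_ne_top,
    ENNReal.toReal_ofReal hp0.le, ← ENNReal.rpow_mul, one_div, inv_mul_cancel₀ hp0.ne', ENNReal.rpow_one]

theorem rpow_lt_small {p δ : ℝ} (hp0 : 0 < p) (hδ : 0 < δ) : ∃ η : ENNReal, η ≠ 0 ∧ η ≠ ⊤ ∧ η ^ p ≤ ENNReal.ofReal δ := by
  refine ⟨ENNReal.ofReal δ ^ (1 / p), ?_, ?_, ?_⟩
  · rw [ne_eq, ENNReal.rpow_eq_zero_iff_of_pos (by positivity)]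
    simpa using hδ
  · exact ENNReal.rpow_ne_top_of_nonneg (by positivity) ENNReal.ofReal_ne_top
  · rw [← ENNReal.rpow_mul, one_div, inv_mul_cancel₀ hp0.ne', ENNReal.rpow_one]

/-- Approximation of one function. -/
theorem approx_bump (hΩ : IsOpen Ω) (hb : Bornology.IsBounded Ω) {p : ℝ} (hp0 : 0 < p) (hp1 : p < 1) {f : E → ℝ}
    (hf : AEStronglyMeasurable f (volume.restrict Ω)) (hfi : Ip Ω p f < ⊤) {δ : ℝ} (hδ : 0 < δ) :
    ∃ b, IsBump Ω b ∧ Ip Ω p (fun y => f y - b y) ≤ ENNReal.ofReal δ := by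
  have : IsFiniteMeasure (volume.restrict Ω) := Weak.finiteMeasure hb
  have hmem : MemLp f (ENNReal.ofReal p) (volume.restrict Ω) := by
    refine ⟨hf, ?_⟩
    rw [Ip_eq_eLpNorm hp0] at hfi
    by_contra h
    rw [not_lt, top_le_iff] at h
    rw [h, ENNReal.top_rpow_of_pos hp0] at hfi
    exact lt_irrefl _ hfi
  obtain ⟨η, hη0, -, hη⟩ := rpow_lt_small hp0 (half_pos hδ)
  obtain ⟨s, hs, -⟩ := hmem.exists_simpleFunc_eLpNorm_sub_lt ENNReal.ofReal_ne_top hη0
  have hs2 : MemLp s 2 (volume.restrict Ω) := SimpleFunc.memLp_of_isFiniteMeasure s 2 _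
  -- `L²` approximation
  set vol : ENNReal := (volume.restrict Ω) univ ^ (1 / p - 1 / 2) with hvol
  have hvt : vol ≠ ⊤ := by
    refine ENNReal.rpow_ne_top_of_nonneg ?_ (measure_ne_top _ _)
    have : 1 ≤ 1 / p := by rw [le_div_iff₀ hp0]; linarith
    linarith
  obtain ⟨κ, hκ0, hκ⟩ : ∃ κ : ℝ, 0 < κ ∧ ENNReal.ofReal κ * vol ≤ η := by
    by_cases hηt : η = ⊤
    · exact ⟨1, one_pos, by rw [hηt]; exact le_top⟩
    refine ⟨(η / (vol + 1)).toReal, ENNReal.toReal_pos ?_ ?_, ?_⟩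
    · exact (ENNReal.div_pos hη0 (by simp [hvt])).ne'
    · exact ENNReal.div_ne_top hηt (by simp)
    · rw [ENNReal.ofReal_toReal (ENNReal.div_ne_top hηt (by simp))]
      calc η / (vol + 1) * vol ≤ η / (vol + 1) * (vol + 1) := by gcongr; exact le_self_add
        _ = η := ENNReal.div_mul_cancel (by simp) (by simp [hvt])
  have hcl : hs2.toLp s ∈ (bumps Ω).topologicalClosure := by rw [bumps_dense hΩ hb]; trivial
  rw [← SetLike.mem_coe, Submodule.topologicalClosure_coe, Metric.mem_closure_iff] at hcl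
  obtain ⟨g, ⟨b, hbb, hgb⟩, hdist⟩ := hcl κ hκ0
  refine ⟨b, hbb, ?_⟩
  have h2 : eLpNorm (fun y => s y - b y) 2 (volume.restrict Ω) ≤ ENNReal.ofReal κ := by
    have h3 : eLpNorm (fun y => s y - b y) 2 (volume.restrict Ω) = ENNReal.ofReal (dist (hs2.toLp s) g) := by
      rw [dist_eq_norm, Lp.norm_def, ENNReal.ofReal_toReal (Lp.eLpNorm_ne_top _)]
      refine eLpNorm_congr_ae ?_
      filter_upwards [Lp.coeFn_sub (hs2.toLp s) g, hs2.coeFn_toLp, hgb] with y h4 h5 h6
      rw [h4, Pi.sub_apply, h5, h6]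
    rw [h3]
    exact ENNReal.ofReal_le_ofReal hdist.le
  have hp2 : ENNReal.ofReal p ≤ 2 := by
    rw [← ENNReal.ofReal_ofNat]
    exact ENNReal.ofReal_le_ofReal (by linarith)
  have h4 : eLpNorm (fun y => s y - b y) (ENNReal.ofReal p) (volume.restrict Ω) ≤ η := by
    have h5 := eLpNorm_le_eLpNorm_mul_rpow_measure_univ (μ := volume.restrict Ω) hp2
      (f := fun y => s y - b y) (s.aestronglyMeasurable.sub hbb.1.continuous.aestronglyMeasurable)
    refine h5.trans ?_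
    rw [ENNReal.toReal_ofReal hp0.le]
    refine le_trans ?_ hκ
    have e2 : (2 : ENNReal).toReal = 2 := by norm_num
    rw [e2]
    exact mul_le_mul_left h2 vol
  have e1 : (fun y => f y - b y) = fun y => (f y - s y) + (s y - b y) := by funext y; ring
  rw [e1]
  refine (Ip_add hp0.le hp1.le (hf.sub s.aestronglyMeasurable)).trans ?_
  have e2 : Ip Ω p (fun y => f y - s y) ≤ ENNReal.ofReal (δ / 2) := by
    rw [Ip_eq_eLpNorm hp0]
    exact (ENNReal.rpow_le_rpow hs.le hp0.le).trans hη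
  have e3 : Ip Ω p (fun y => s y - b y) ≤ ENNReal.ofReal (δ / 2) := by
    rw [Ip_eq_eLpNorm hp0]
    exact (ENNReal.rpow_le_rpow h4 hp0.le).trans hη
  refine (add_le_add e2 e3).trans ?_
  rw [← ENNReal.ofReal_add (by positivity) (by positivity), add_halves]

section
variable {X : Type*} [NormedAddCommGroup X] [NormedSpace ℝ X]

omit [NormedSpace ℝ X] in
theorem Ip_sum {p : ℝ} (hp0 : 0 < p) (hp1 : p ≤ 1) {ι : Type*} (s : Finset ι) {f : ι → E → X}
    (hf : ∀ i, AEStronglyMeasurable (f i) (volume.restrict Ω)) :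
    Ip Ω p (fun y => ∑ i ∈ s, f i y) ≤ ∑ i ∈ s, Ip Ω p (f i) := by
  classical
  induction s using Finset.induction_on with
  | empty =>
    simp only [Finset.sum_empty]
    unfold Ip
    simp [hp0]
  | insert i s hi ih =>
    simp only [Finset.sum_insert hi]
    refine (Ip_add hp0.le hp1 (hf i)).trans ?_
    gcongr

theorem Ip_smul_const {p : ℝ} (hp0 : 0 < p) (f : E → ℝ) (T : X) :
    Ip Ω p (fun y => f y • T) = Ip Ω p f * ‖T‖ₑ ^ p := by
  unfold Ip
  rw [← lintegral_mul_const' _ _ (ENNReal.rpow_ne_top_of_nonneg hp0.le enorm_ne_top)]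
  refine lintegral_congr fun y => ?_
  rw [enorm_smul, ENNReal.mul_rpow_of_nonneg _ _ hp0.le]

/-- Approximation of a target. -/
theorem approx_target (hΩ : IsOpen Ω) (hb : Bornology.IsBounded Ω) {p : ℝ} (hp0 : 0 < p) (hp1 : p < 1)
    {ι : Type*} [Fintype ι] {c : ι → E → ℝ} (hc : ∀ j, AEStronglyMeasurable (c j) (volume.restrict Ω))
    (hci : ∀ j, Ip Ω p (c j) < ⊤) (T : ι → X) {δ : ℝ} (hδ : 0 < δ) :
    ∃ b : ι → E → ℝ, (∀ j, IsBump Ω (b j)) ∧
      Ip Ω p (fun y => ∑ j, c j y • T j - ∑ j, b j y • T j) ≤ ENNReal.ofReal δ := by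
  have hpos : ∀ j, 0 < δ / ((Fintype.card ι + 1) * (‖T j‖ ^ p + 1)) := by
    intro j
    have : 0 ≤ ‖T j‖ ^ p := Real.rpow_nonneg (norm_nonneg _) _
    positivity
  choose b hbb hbi using fun j => approx_bump hΩ hb hp0 hp1 (hc j) (hci j) (hpos j)
  refine ⟨b, hbb, ?_⟩
  have e1 : (fun y => ∑ j, c j y • T j - ∑ j, b j y • T j) = fun y => ∑ j, (c j y - b j y) • T j := by
    funext y
    rw [← Finset.sum_sub_distrib]
    simp only [sub_smul]
  rw [e1]
  refine (Ip_sum hp0 hp1.le Finset.univ (f := fun j y => (c j y - b j y) • T j) fun j => ?_).trans ?_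
  · exact ((hc j).sub (hbb j).1.continuous.aestronglyMeasurable).smul_const _
  have e2 : ∀ j, Ip Ω p (fun y => (c j y - b j y) • T j) ≤ ENNReal.ofReal (δ / (Fintype.card ι + 1)) := by
    intro j
    rw [Ip_smul_const hp0]
    have h1 : ‖T j‖ₑ ^ p = ENNReal.ofReal (‖T j‖ ^ p) := by
      rw [← ofReal_norm, ENNReal.ofReal_rpow_of_nonneg (norm_nonneg _) hp0.le]
    have h0 : 0 ≤ ‖T j‖ ^ p := Real.rpow_nonneg (norm_nonneg _) _
    rw [h1]
    calc Ip Ω p (fun y => c j y - b j y) * ENNReal.ofReal (‖T j‖ ^ p)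
        ≤ ENNReal.ofReal (δ / ((Fintype.card ι + 1) * (‖T j‖ ^ p + 1))) * ENNReal.ofReal (‖T j‖ ^ p) := by
          gcongr; exact hbi j
      _ = ENNReal.ofReal (δ / ((Fintype.card ι + 1) * (‖T j‖ ^ p + 1)) * ‖T j‖ ^ p) := by
          rw [← ENNReal.ofReal_mul (hpos j).le]
      _ ≤ ENNReal.ofReal (δ / (Fintype.card ι + 1)) := by
          refine ENNReal.ofReal_le_ofReal ?_
          rw [div_mul_eq_mul_div, div_le_div_iff₀ (by positivity) (by positivity)]
          have h3 : (0 : ℝ) < Fintype.card ι + 1 := by positivity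
          nlinarith [mul_pos hδ h3]
  calc ∑ j, Ip Ω p (fun y => (c j y - b j y) • T j) ≤ ∑ _j : ι, ENNReal.ofReal (δ / (Fintype.card ι + 1)) :=
        Finset.sum_le_sum fun j _ => e2 j
    _ = ENNReal.ofReal (Fintype.card ι * (δ / (Fintype.card ι + 1))) := by
        rw [Finset.sum_const, Finset.card_univ, nsmul_eq_mul, ENNReal.ofReal_mul (by positivity),
          ENNReal.ofReal_natCast]
    _ ≤ ENNReal.ofReal δ := by
        refine ENNReal.ofReal_le_ofReal ?_
        rw [mul_div_assoc', div_le_iff₀ (by positivity)]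
        nlinarith

end

end Pool.Agent.NSL
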