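import Mathlib

/-!
# MP_fd8964_an, soft waves: multiplication by `1 + cos (N k·x + φ)` contracts in `L^p`, `p < 1`
-/

open MeasureTheory Set Filter Topology
open scoped RealInnerProductSpace ContDiff FourierTransform

noncomputable section

namespace Pool.Agent.NSL

theorem rpow_le_quad {p : ℝ} (hp0 : 0 < p) (hp1 : p < 1) {y : ℝ} (hy0 : 0 ≤ y) (hy2 : y ≤ 2) :
    y ^ p ≤ 1 + p * (y - 1) - p * (1 - p) / 8 * (y - 1) ^ 2 := by
  set γ : ℝ := p * (1 - p) / 8 with hγ
  have hγ0 : 0 < γ := by have : 0 < 1 - p := by linarith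
                         positivity
  set f : ℝ → ℝ := fun y => 1 + p * (y - 1) - γ * (y - 1) ^ 2 - y ^ p with hf
  set f' : ℝ → ℝ := fun y => p - 2 * γ * (y - 1) - p * y ^ (p - 1) with hf'
  set f'' : ℝ → ℝ := fun y => -2 * γ - p * ((p - 1) * y ^ (p - 2)) with hf''
  have d1 : ∀ y : ℝ, 0 < y → HasDerivAt f (f' y) y := by
    intro y hy
    have h1 : HasDerivAt (fun y : ℝ => y ^ p) (p * y ^ (p - 1)) y :=
      Real.hasDerivAt_rpow_const (Or.inl hy.ne')
    have h2 : HasDerivAt (fun y : ℝ => y - 1) 1 y := (hasDerivAt_id y).sub_const 1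
    have h3 := ((((h2.const_mul p).const_add 1).sub ((h2.pow 2).const_mul γ)).sub h1)
    refine h3.congr_deriv ?_
    simp only [hf']
    push_cast
    ring
  have d2 : ∀ y : ℝ, 0 < y → HasDerivAt f' (f'' y) y := by
    intro y hy
    have h1 : HasDerivAt (fun y : ℝ => y ^ (p - 1)) ((p - 1) * y ^ (p - 1 - 1)) y :=
      Real.hasDerivAt_rpow_const (Or.inl hy.ne')
    have h2 : HasDerivAt (fun y : ℝ => y - 1) 1 y := (hasDerivAt_id y).sub_const 1
    have h3 := (((h2.const_mul (2 * γ)).const_sub p).sub (h1.const_mul p))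
    refine h3.congr_deriv ?_
    simp only [hf'']
    have : p - 1 - 1 = p - 2 := by ring
    rw [this]; ring
  have hconv : ConvexOn ℝ (Icc 0 2) f := by
    refine convexOn_of_hasDerivWithinAt2_nonneg (convex_Icc 0 2) ?_ (f' := f') (f'' := f'') ?_ ?_ ?_
    · refine Continuous.continuousOn ?_
      have : Continuous fun y : ℝ => y ^ p := Real.continuous_rpow_const hp0.le
      fun_prop
    · intro x hx
      rw [interior_Icc] at hx
      exact (d1 x hx.1).hasDerivWithinAt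
    · intro x hx
      rw [interior_Icc] at hx
      exact (d2 x hx.1).hasDerivWithinAt
    · intro x hx
      rw [interior_Icc] at hx
      have h1 : (1 / 4 : ℝ) ≤ x ^ (p - 2) := by
        have h2 : (2 : ℝ) ^ (p - 2) ≤ x ^ (p - 2) :=
          Real.rpow_le_rpow_of_nonpos hx.1 hx.2.le (by linarith)
        have h3 : (2 : ℝ) ^ (-2 : ℝ) ≤ 2 ^ (p - 2) :=
          Real.rpow_le_rpow_of_exponent_le (by norm_num) (by linarith)
        have h4 : (1 / 4 : ℝ) = (2 : ℝ) ^ (-2 : ℝ) := by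
          rw [Real.rpow_neg (by norm_num)]; norm_num
        rw [h4]
        exact h3.trans h2
      have h5 : 0 < p * (1 - p) := mul_pos hp0 (by linarith)
      simp only [hf'', hγ]
      nlinarith
  have hf1 : f 1 = 0 := by simp [hf]
  have hf'1 : f' 1 = 0 := by simp [hf']
  have hder : HasDerivAt f 0 1 := by rw [← hf'1]; exact d1 1 one_pos
  have key : 0 ≤ f y := by
    rcases lt_trichotomy y 1 with h | h | h
    · have h1 := hconv.slope_le_of_hasDerivAt (x := y) (y := 1) ⟨hy0, hy2⟩ ⟨by norm_num, by norm_num⟩ h hder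
      rw [slope_def_field, hf1] at h1
      have h2 : 0 < 1 - y := by linarith
      rw [div_le_iff₀ h2] at h1
      linarith
    · rw [h, hf1]
    · have h1 := hconv.le_slope_of_hasDerivAt (x := 1) (y := y) ⟨by norm_num, by norm_num⟩ ⟨hy0, hy2⟩ h hder
      rw [slope_def_field, hf1] at h1
      have h2 : 0 < y - 1 := by linarith
      rw [le_div_iff₀ h2] at h1
      linarith
  simp only [hf] at key
  linarith

section
variable {F : Type*} [NormedAddCommGroup F] [InnerProductSpace ℝ F] [FiniteDimensional ℝ F] [MeasurableSpace F]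
  [BorelSpace F]

/-- The Riemann-Lebesgue lemma along a ray. -/
theorem rl_cos {f : F → ℝ} (hf : Integrable f) {k : F} (hk : k ≠ 0) (φ : ℝ) :
    Tendsto (fun N : ℝ => ∫ x, f x * Real.cos (N * ⟪k, x⟫ + φ)) atTop (𝓝 0) := by
  set g : F → ℂ := fun x => Complex.exp (-(φ * Complex.I)) * (f x : ℂ) with hg
  have h1 := tendsto_integral_exp_inner_smul_cocompact (V := F) (f := g)
  have h2 : Tendsto (fun N : ℝ => (N / (2 * Real.pi)) • k) atTop (cocompact F) := by
    rw [← Metric.cobounded_eq_cocompact, ← tendsto_norm_atTop_iff_cobounded]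
    have h3 : ∀ N : ℝ, ‖(N / (2 * Real.pi)) • k‖ = |N| * (‖k‖ / (2 * Real.pi)) := by
      intro N
      rw [norm_smul, norm_div, Real.norm_eq_abs, Real.norm_of_nonneg (by positivity)]
      ring
    simp_rw [h3]
    have h4 : 0 < ‖k‖ := norm_pos_iff.2 hk
    exact tendsto_abs_atTop_atTop.atTop_mul_const (by positivity)
  have h3 := h1.comp h2
  have h4 : Tendsto (fun N : ℝ => (∫ v : F, 𝐞 (-⟪v, (N / (2 * Real.pi)) • k⟫) • g v).re) atTop (𝓝 0) := by
    have := (Complex.continuous_re.tendsto (0 : ℂ)).comp h3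
    rw [Complex.zero_re] at this
    exact this
  refine h4.congr fun N => ?_
  have hgi : Integrable (fun v : F => 𝐞 (-⟪v, (N / (2 * Real.pi)) • k⟫) • g v) := by
    rw [Real.fourierIntegral_convergent_iff]
    exact (hf.ofReal).const_mul _
  have h5 : (∫ v : F, 𝐞 (-⟪v, (N / (2 * Real.pi)) • k⟫) • g v).re
      = ∫ v : F, (𝐞 (-⟪v, (N / (2 * Real.pi)) • k⟫) • g v).re := by
    have := integral_re hgi
    exact this.symm
  rw [h5]
  refine integral_congr_ae (Eventually.of_forall fun v => ?_)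
  simp only [hg, Circle.smul_def, Real.fourierChar_apply, smul_eq_mul]
  rw [← mul_assoc, ← Complex.exp_add, Complex.re_mul_ofReal, mul_comm (f v)]
  congr 1
  rw [Complex.exp_re]
  simp only [Complex.add_re, Complex.add_im, Complex.neg_re, Complex.neg_im, Complex.mul_re, Complex.mul_im,
    Complex.ofReal_re, Complex.ofReal_im, Complex.I_re, Complex.I_im]
  have e1 : ⟪v, (N / (2 * Real.pi)) • k⟫ = N / (2 * Real.pi) * ⟪k, v⟫ := by
    rw [real_inner_smul_right, real_inner_comm]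
  rw [e1]
  have e2 : 2 * Real.pi * -(N / (2 * Real.pi) * ⟪k, v⟫) = -(N * ⟪k, v⟫) := by
    field_simp
  rw [e2]
  simp only [mul_zero, mul_one, sub_zero, add_zero, neg_zero, Real.exp_zero, one_mul]
  rw [← Real.cos_neg]
  congr 1
  ring

/-- Multiplication by `1 + cos (N k·x + φ)` contracts in `L^p`, `p < 1`. -/
theorem contr {p : ℝ} (hp0 : 0 < p) (hp1 : p < 1) {R : F → ℝ} (hR : Continuous R) (hc : HasCompactSupport R)
    {k : F} (hk : k ≠ 0) (φ : ℝ) {κ : ℝ} (hκ : 0 < κ) : ∃ N₀ : ℝ, ∀ N : ℝ, N₀ ≤ N →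
      ∫ x, |R x * (1 + Real.cos (N * ⟪k, x⟫ + φ))| ^ p ≤ (1 - p * (1 - p) / 16) * (∫ x, |R x| ^ p) + κ := by
  set f : F → ℝ := fun x => |R x| ^ p with hf
  have hfc : Continuous f := hR.abs.rpow_const fun _ => Or.inr hp0.le
  have hfs : HasCompactSupport f := by
    refine HasCompactSupport.intro hc fun x hx => ?_
    have : R x = 0 := image_eq_zero_of_notMem_tsupport hx
    simp only [hf, this, abs_zero, Real.zero_rpow hp0.ne']
  have hfi : Integrable f := hfc.integrable_of_hasCompactSupport hfs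
  set γ : ℝ := p * (1 - p) / 8 with hγ
  have hlim : Tendsto (fun N : ℝ => (1 - γ / 2) * (∫ x, f x) + p * (∫ x, f x * Real.cos (N * ⟪k, x⟫ + φ))
      - γ / 2 * (∫ x, f x * Real.cos (N * ⟪(2 : ℝ) • k, x⟫ + 2 * φ))) atTop
      (𝓝 ((1 - γ / 2) * (∫ x, f x) + p * 0 - γ / 2 * 0)) :=
    ((rl_cos hfi hk φ).const_mul p |>.const_add _).sub
      ((rl_cos hfi (smul_ne_zero two_ne_zero hk) (2 * φ)).const_mul _)
  have hlt : (1 - γ / 2) * (∫ x, f x) + p * 0 - γ / 2 * 0 < (1 - p * (1 - p) / 16) * (∫ x, |R x| ^ p) + κ := by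
    have : (1 - γ / 2) = 1 - p * (1 - p) / 16 := by rw [hγ]; ring
    rw [this]
    simp only [mul_zero, add_zero, sub_zero]
    linarith
  obtain ⟨N₀, hN₀⟩ := eventually_atTop.1 (hlim.eventually_lt_const hlt)
  refine ⟨N₀, fun N hN => le_trans ?_ (hN₀ N hN).le⟩
  have hci : ∀ (c : F) (ψ : ℝ), Integrable fun x => f x * Real.cos (N * ⟪c, x⟫ + ψ) := by
    intro c ψ
    have h1 : Continuous fun x : F => Real.cos (N * ⟪c, x⟫ + ψ) := by fun_prop
    exact (hfc.mul h1).integrable_of_hasCompactSupport hfs.mul_right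
  have hi1 : Integrable fun x => (1 - γ / 2) * f x + p * (f x * Real.cos (N * ⟪k, x⟫ + φ)) :=
    (hfi.const_mul _).add ((hci k φ).const_mul _)
  have e1 : (1 - γ / 2) * (∫ x, f x) + p * (∫ x, f x * Real.cos (N * ⟪k, x⟫ + φ))
      - γ / 2 * (∫ x, f x * Real.cos (N * ⟪(2 : ℝ) • k, x⟫ + 2 * φ))
      = ∫ x, ((1 - γ / 2) * f x + p * (f x * Real.cos (N * ⟪k, x⟫ + φ))
        - γ / 2 * (f x * Real.cos (N * ⟪(2 : ℝ) • k, x⟫ + 2 * φ))) := by
    rw [integral_sub hi1 ((hci _ _).const_mul _), integral_add (hfi.const_mul _) ((hci k φ).const_mul _)]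
    simp only [integral_const_mul]
  rw [e1]
  refine integral_mono_of_nonneg (Eventually.of_forall fun x => ?_)
    (hi1.sub ((hci _ _).const_mul _)) (Eventually.of_forall fun x => ?_)
  · exact Real.rpow_nonneg (abs_nonneg _) _
  · have hc1 := Real.neg_one_le_cos (N * ⟪k, x⟫ + φ)
    have hc2 := Real.cos_le_one (N * ⟪k, x⟫ + φ)
    have h0 : 0 ≤ 1 + Real.cos (N * ⟪k, x⟫ + φ) := by linarith
    have h1 := rpow_le_quad hp0 hp1 h0 (by linarith)
    have hf0 : 0 ≤ f x := Real.rpow_nonneg (abs_nonneg _) _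
    beta_reduce
    rw [abs_mul, abs_of_nonneg h0, Real.mul_rpow (abs_nonneg _) h0]
    have h2 : Real.cos (N * ⟪(2 : ℝ) • k, x⟫ + 2 * φ) = 2 * Real.cos (N * ⟪k, x⟫ + φ) ^ 2 - 1 := by
      rw [← Real.cos_two_mul, real_inner_smul_left]
      congr 1; ring
    rw [h2]
    calc |R x| ^ p * (1 + Real.cos (N * ⟪k, x⟫ + φ)) ^ p
        ≤ |R x| ^ p * (1 + p * (1 + Real.cos (N * ⟪k, x⟫ + φ) - 1)
          - p * (1 - p) / 8 * (1 + Real.cos (N * ⟪k, x⟫ + φ) - 1) ^ 2) := mul_le_mul_of_nonneg_left h1 hf0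
      _ = _ := by rw [hγ]; simp only [hf]; ring

end

end Pool.Agent.NSL
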