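import Pool.Agent.NSL.FinalL

/-!
# MP_fd8964_an: where a good datum agrees with a smooth field, the gradients agree almost everywhere
-/

open MeasureTheory Set Filter Topology
open scoped RealInnerProductSpace ContDiff

noncomputable section

namespace Pool.Agent.NSL

open Pool.Agent.NSD Pool.Agent.NSK Pool.Agent.NSN

variable {Ω : Set E}

/-- The measure of the set of the points of `U` where the value or the gradient is not the one of `g`. -/
def ExJ {Ω : Set E} (x : V Ω) (U : Set E) (g : E → E) : ENNReal :=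
  volume {y | y ∈ U ∧ ((fld x : E → E) y ≠ g y ∨ (grd x : E → G) y ≠ gradField g y)}

/-- On the set where two differentiable fields agree, their derivatives agree almost everywhere. -/
theorem fderiv_zero_ae {S : Set E} (hS : MeasurableSet S) {F : E → E} (h0 : ∀ y ∈ S, F y = 0)
    (hd : ∀ y ∈ S, DifferentiableAt ℝ F y) : ∀ᵐ y ∂(volume : Measure E), y ∈ S → fderiv ℝ F y = 0 := by
  have ha : ApproximatesLinearOn F (0 : E →L[ℝ] E) S 0 := by
    intro x hx y hy
    rw [h0 x hx, h0 y hy]
    simp
  have h := ha.norm_fderiv_sub_le volume hS (fderiv ℝ F) fun x hx => (hd x hx).hasFDerivAt.hasFDerivWithinAt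
  rw [ae_restrict_iff' hS] at h
  filter_upwards [h] with y hy hyS
  have := hy hyS
  rw [sub_zero] at this
  exact nnnorm_eq_zero.1 (le_antisymm this bot_le)

theorem exJ_le (hΩ : IsOpen Ω) {x : V Ω} (hx : InTest x) {U : Set E} (hU : IsOpen U) (hUΩ : U ⊆ Ω) {g : E → E}
    (hg : ContDiffOn ℝ ∞ g U) : ExJ x U g ≤ Ex x U g := by
  obtain ⟨s, hs, hxs⟩ := hx
  have hgd : ∀ y ∈ U, DifferentiableAt ℝ g y := fun y hy =>
    ((hg y hy).contDiffAt (hU.mem_nhds hy)).differentiableAt (by simp)
  have hsd : ∀ y, DifferentiableAt ℝ s y := hs.smooth.differentiable (by simp)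
  set F : E → E := fun y => s y - g y with hF
  have hFc : ContinuousOn F U := hs.smooth.continuous.continuousOn.sub hg.continuousOn
  set S : Set E := {y | y ∈ U ∧ F y = 0} with hSdef
  have hSm : MeasurableSet S := by
    have h1 : IsOpen (U ∩ F ⁻¹' {0}ᶜ) := hFc.isOpen_inter_preimage hU isOpen_compl_singleton
    have h2 : S = U \ (U ∩ F ⁻¹' {0}ᶜ) := by
      ext y
      simp only [hSdef, mem_ofPred_eq, Set.mem_sdiff, mem_inter_iff, mem_preimage, mem_compl_iff, mem_singleton_iff,
        not_and, not_not]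
      exact ⟨fun h => ⟨h.1, fun _ => h.2⟩, fun h => ⟨h.1, h.2 h.1⟩⟩
    rw [h2]
    exact hU.measurableSet.diff h1.measurableSet
  have hae := fderiv_zero_ae hSm (F := F) (fun y hy => hy.2) fun y hy => (hsd y).sub (hgd y hy.1)
  have h1 := hxs.1
  have h2 := hxs.2
  rw [Filter.EventuallyEq, ae_restrict_iff' hΩ.measurableSet] at h1 h2
  refine measure_mono_ae ?_
  filter_upwards [hae, h1, h2] with y g0 g1 g2 hy
  obtain ⟨hyU, hy⟩ := hy
  refine ⟨hyU, fun hc => ?_⟩
  have g1' : (fld x : E → E) y = s y := g1 (hUΩ hyU)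
  have g2' : (grd x : E → G) y = gradField s y := g2 (hUΩ hyU)
  rcases hy with hy | hy
  · exact hy hc
  · apply hy
    have e1 : F y = 0 := by
      show s y - g y = 0
      rw [← g1', hc, sub_self]
    have e2 := g0 ⟨hyU, e1⟩
    have e3 : fderiv ℝ F y = fderiv ℝ s y - fderiv ℝ g y := fderiv_fun_sub (hsd y) (hgd y hyU)
    rw [e3, sub_eq_zero] at e2
    rw [g2']
    unfold gradField
    rw [e2]

end Pool.Agent.NSL
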