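import Pool.Agent.NSL.Final

/-!
# MP_fd8964_an: transfer of the theorem with prescribed values and gradients
-/

open MeasureTheory Set Filter Topology
open scoped RealInnerProductSpace ContDiff

noncomputable section

namespace Pool.Agent.NSLT

open Pool.Agent Pool.Agent.NSKT Pool.Agent.NSCT

def PreS (Ω : Set NSDS.R3) (p : ℝ) (g : NSDS.R3 → NSDS.R3) (Γ : NSDS.R3 → NSDS.G3) : Prop :=
  MemLp g (ENNReal.ofReal p) (volume.restrict Ω) ∧ MemLp Γ (ENNReal.ofReal p) (volume.restrict Ω) ∧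
    ∀ᵐ y ∂(volume.restrict Ω), ∑ i : Fin 3, NSDS.coord (NSDS.row (Γ y) i) i = 0

def DvS {Ω : Set NSDS.R3} (w : NSDS.V Ω) (g : NSDS.R3 → NSDS.R3) (p : ℝ) : ENNReal :=
  ∫⁻ y in Ω, ‖NSDS.fn (NSDS.fld w) y - g y‖ₑ ^ p
def DgS {Ω : Set NSDS.R3} (w : NSDS.V Ω) (Γ : NSDS.R3 → NSDS.G3) (p : ℝ) : ENNReal :=
  ∫⁻ y in Ω, ‖NSDS.gfn (NSDS.grd w) y - Γ y‖ₑ ^ p

theorem key (Ω : Set NSD.E) :
    AbsJ (NSD.V Ω) (NSD.L2 Ω) (NSD.L2G Ω) (NSD.E → NSD.E) (NSD.E → NSD.G) NSD.fld NSD.grd NSD.trilin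
      (NSD.Hspace Ω) NSK.InTest NSN.besov WD (NSL.Pre Ω) NSL.Dv NSL.Dg →
    AbsJ (NSDS.V Ω) (NSDS.L2E Ω) (NSDS.L2G Ω) (NSDS.R3 → NSDS.R3) (NSDS.R3 → NSDS.G3) NSDS.fld NSDS.grd NSDS.trilin
      (NSDS.H Ω) NSKS.IsSmooth NSBS.besov WS (PreS Ω) DvS DgS := by
  delta WD WS PreS DvS DgS NSL.Pre NSL.Dv NSL.Dg NSCS.angMom NSCS.cross NSCS.curlDiv NSCS.curl NSCS.divMat NSN.angMom NSN.cross NSN.curlDiv NSN.curl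
    NSN.divMat NSBS.besov NSBS.heatExt NSBS.heatK NSN.besov NSN.heatExt NSN.heatK NSKS.IsSmooth NSDS.trilin NSDS.fld
    NSDS.grd NSDS.H NSDS.vI NSDS.vN NSDS.V NSDS.Vsub NSDS.pgrd
    NSDS.pfld NSDS.pairI NSDS.pairN NSDS.Pair NSDS.gfn NSDS.l2gI NSDS.l2gN NSDS.L2G NSDS.fn NSDS.l2I
    NSDS.l2N NSDS.L2E NSDS.IsTest NSDS.divField NSDS.gradField NSDS.row NSDS.g3I NSDS.g3N NSDS.G3
    NSDS.bas NSDS.coord NSDS.r3M NSDS.r3I NSDS.r3N NSDS.R3 NSK.InTest NSD.trilin NSD.fld NSD.grd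
    NSD.Hspace NSD.V NSD.Represents NSD.IsTest NSD.divField NSD.gradField NSD.e NSD.L2 NSD.L2G NSD.H1
    NSD.G NSD.E
  exact fun h => h

theorem absJ_all (Ω : Set NSDS.R3) (hΩ : IsOpen Ω) (hb : Bornology.IsBounded Ω) :
    AbsJ (NSDS.V Ω) (NSDS.L2E Ω) (NSDS.L2G Ω) (NSDS.R3 → NSDS.R3) (NSDS.R3 → NSDS.G3) NSDS.fld NSDS.grd NSDS.trilin
      (NSDS.H Ω) NSKS.IsSmooth NSBS.besov WS (PreS Ω) DvS DgS := key Ω (absJ_unsealed Ω hΩ hb)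

end Pool.Agent.NSLT
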