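import Pool.Agent.NSL.GenQ
import Pool.Agent.NSL.Jet
import Pool.Agent.NSL.TransferJ
import Pool.Agent.NSN.TransferB

/-!
# MP_fd8964_an: good data near an arbitrary element of `V'`, which agree with a given smooth field outside a small set of
an open set `U`, with values prescribed in `L^p`, `p < 1`, and with the gradient prescribed in `L^p` outside `U`
-/

open MeasureTheory Set Filter Topology
open scoped RealInnerProductSpace ContDiff

noncomputable section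

namespace Pool.Agent.NSL

open Pool.Agent.NSD Pool.Agent.NSK Pool.Agent.NSN

variable {Ω : Set E}

/-- From a good datum `x` to a good datum with prescribed values and gradients. -/
theorem finish_q (hΩ : IsOpen Ω) (hb : Bornology.IsBounded Ω) {η : ℝ} (hη : 0 < η) {Gd : ℝ → Set (V Ω)}
    (hS : SoftClosed Ω Gd) (hM : MultiClosed Ω η Gd) (hT : ∀ ε, 0 < ε → ∀ x ∈ Gd ε, InTest x)
    {U : Set E} {g : E → E} {Γ : E → G} {p : ℝ} (hpre : PreQ Ω U g Γ p) {q ε δ : ℝ}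
    (hq : 1 ≤ q) (hε : 0 < ε) (hδ0 : 0 < δ) (hδ7 : 7 * δ ≤ ε) {x : V Ω} (hx' : x ∈ Gd (ε / 4)) :
    ∃ x' ∈ Gd ε, Near q δ 6 x x' ∧ Ex x' U g ≤ ENNReal.ofReal ε ∧ Dv x' g p ≤ ENNReal.ofReal ε ∧
      DgQ x' U Γ p ≤ ENNReal.ofReal ε := by
  obtain ⟨hU, hUΩ, hw, hdiv, hp0, hp1, hgp, hΓp, htr⟩ := hpre
  have hUm := hU.measurableSet
  have hDm : MeasurableSet (Ω \ U) := hΩ.measurableSet.diff hUm
  have hfin : ∀ {X : Type} [NormedAddCommGroup X] {f : E → X} {S : Set E},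
      MemLp f (ENNReal.ofReal p) (volume.restrict S) → Ip S p f < ⊤ := by
    intro X _ f S hf
    rw [Ip_eq_eLpNorm hp0]
    exact ENNReal.rpow_lt_top_of_nonneg hp0.le hf.2.ne
  have hgU : MemLp g (ENNReal.ofReal p) (volume.restrict U) := hgp.mono_measure (Measure.restrict_mono hUΩ le_rfl)
  -- the gradient
  set Γ' : E → G := (Ω \ U).indicator Γ with hΓ'
  have hΓ'p : MemLp Γ' (ENNReal.ofReal p) (volume.restrict Ω) :=
    ((memLp_indicator_iff_restrict hDm).2 hΓp).restrict Ω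
  have htr' : ∀ᵐ y ∂(volume.restrict Ω), ∑ i : Fin 3, Γ' y i i = 0 := by
    rw [ae_restrict_iff' hDm] at htr
    refine ae_restrict_of_ae ?_
    filter_upwards [htr] with y hy
    by_cases h : y ∈ Ω \ U
    · rw [hΓ', Set.indicator_of_mem h]; exact hy h
    · rw [hΓ', Set.indicator_of_notMem h]
      exact Finset.sum_eq_zero fun i _ => rfl
  obtain ⟨W₀, W₁, k1, k2, k3, k4, k5, k6, k7⟩ := joint hΩ hb hS hp0 hp1 (show 0 < ε / 4 by linarith)
    (show ε / 4 < ε / 2 by linarith) hx' (hT _ (by linarith) x hx') hgp.1 (hfin hgp) hΓ'p.1 (hfin hΓ'p) htr'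
    hq hδ0
  have hN : Near q δ (0 + 1 + 1) x (x + W₀ + W₁) :=
    ((Near.refl q δ x).step hb hq k2 k4).step hb hq k3 k5
  obtain ⟨x', hx'mem, hnear, hex, hexp, F, W, hF, hW, hxW⟩ := lusin_p hΩ hb hη hM hU hUΩ hw hdiv hp0 hp1
    (hfin hgU) (half_pos hε) (half_lt_self hε) k1 (hT _ (half_pos hε) _ k1) hq hδ0
    (half_pos hε) hN
  have hun := unchanged (x := x + W₀ + W₁) hF hW
  rw [← hxW, ae_restrict_iff' hΩ.measurableSet] at hun
  have hunD : ∀ᵐ y ∂(volume.restrict (Ω \ U)), (fld x' : E → E) y = (fld (x + W₀ + W₁) : E → E) y ∧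
      (grd x' : E → G) y = (grd (x + W₀ + W₁) : E → G) y := by
    rw [ae_restrict_iff' hDm]
    filter_upwards [hun] with y hy hyD
    exact hy hyD.1 hyD.2
  refine ⟨x', hx'mem, hnear, hex.trans (ENNReal.ofReal_le_ofReal (by linarith)), ?_, ?_⟩
  · have e0 : Ω ∩ U = U := inter_eq_right.2 hUΩ
    unfold Dv
    rw [← lintegral_inter_add_sdiff _ Ω hUm, e0]
    have e1 : ∫⁻ y in Ω \ U, ‖(fld x' : E → E) y - g y‖ₑ ^ p
        = ∫⁻ y in Ω \ U, ‖(fld (x + W₀ + W₁) : E → E) y - g y‖ₑ ^ p := by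
      refine lintegral_congr_ae ?_
      filter_upwards [hunD] with y hy
      rw [hy.1]
    rw [e1]
    calc (∫⁻ y in U, ‖(fld x' : E → E) y - g y‖ₑ ^ p) + ∫⁻ y in Ω \ U, ‖(fld (x + W₀ + W₁) : E → E) y - g y‖ₑ ^ p
        ≤ ENNReal.ofReal (ε / 2) + ENNReal.ofReal (δ + δ) := by
          refine add_le_add hexp (le_trans ?_ k6)
          exact lintegral_mono_set Set.sdiff_subset
      _ = ENNReal.ofReal (ε / 2 + (δ + δ)) := (ENNReal.ofReal_add (by positivity) (by positivity)).symm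
      _ ≤ ENNReal.ofReal ε := ENNReal.ofReal_le_ofReal (by linarith)
  · unfold DgQ
    have e1 : ∫⁻ y in Ω \ U, ‖(grd x' : E → G) y - Γ y‖ₑ ^ p
        = ∫⁻ y in Ω \ U, ‖(grd (x + W₀ + W₁) : E → G) y - Γ' y‖ₑ ^ p := by
      refine lintegral_congr_ae ?_
      filter_upwards [hunD, ae_restrict_mem hDm] with y hy hyD
      rw [hy.2, hΓ', Set.indicator_of_mem hyD]
    rw [e1]
    calc ∫⁻ y in Ω \ U, ‖(grd (x + W₀ + W₁) : E → G) y - Γ' y‖ₑ ^ p
        ≤ ∫⁻ y in Ω, ‖(grd (x + W₀ + W₁) : E → G) y - Γ' y‖ₑ ^ p := lintegral_mono_set Set.sdiff_subset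
      _ ≤ ENNReal.ofReal δ := k7
      _ ≤ ENNReal.ofReal ε := ENNReal.ofReal_le_ofReal (by linarith)

/-- Elements of `V'`. -/
theorem dual_q (hΩ : IsOpen Ω) (hb : Bornology.IsBounded Ω) {η : ℝ} (hη : 0 < η) {Gd : ℝ → Set (V Ω)}
    (hGd : KickClosed Ω η Gd) (hS : SoftClosed Ω Gd) (hM : MultiClosed Ω η Gd)
    (hT : ∀ ε, 0 < ε → ∀ x ∈ Gd ε, InTest x)
    {v₀ : V Ω} (hv0 : ∀ ε, 0 < ε → v₀ ∈ Gd ε) (l : V Ω →L[ℝ] ℝ)
    {U : Set E} {g : E → E} {Γ : E → G} {p : ℝ} (hpre : PreQ Ω U g Γ p) {K : Set (V Ω)} {q ε : ℝ}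
    (hK : IsCompact K) (hq : 2 < q) (hε : 0 < ε) :
    ∃ x ∈ Gd ε, ∃ y : V Ω, (∀ φ : V Ω, |⟪fld y, fld φ⟫ - l φ| ≤ ε * ‖φ‖) ∧
      (∀ φ ∈ K, |⟪fld x, fld φ⟫ - l φ| < ε) ∧ besov (x - y) q ≤ ENNReal.ofReal ε ∧
      Ex x U g ≤ ENNReal.ofReal ε ∧ Dv x g p ≤ ENNReal.ofReal ε ∧ DgQ x U Γ p ≤ ENNReal.ofReal ε := by
  -- constants
  obtain ⟨R, hR0, hR⟩ : ∃ R : ℝ, 0 < R ∧ ∀ φ ∈ K, ‖φ‖ ≤ R := by
    obtain ⟨R, hR⟩ := hK.isBounded.exists_norm_le
    exact ⟨max R 1, lt_max_of_lt_right one_pos, fun φ hφ => (hR φ hφ).trans (le_max_left _ _)⟩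
  set B : ℝ := 2 ^ (q - 1) with hB
  have hB1 : 1 ≤ B := Real.one_le_rpow (by norm_num) (by linarith)
  set δ : ℝ := ε / (7 * (B ^ 6 + R + 1)) with hδ
  have hB6 : 0 < B ^ 6 := by positivity
  have hδ0 : 0 < δ := by positivity
  have hδe : δ * (7 * (B ^ 6 + R + 1)) = ε := by
    rw [hδ]; field_simp
  have hδ7 : 7 * δ ≤ ε := by nlinarith [mul_pos hδ0 hR0, mul_pos hδ0 hB6]
  obtain ⟨x, hx, y, h1, h2, h3⟩ := NSN.besov_all Ω hΩ hb η hη (fun r => Gd (r * (ε / (4 * δ))))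
    (by
      intro a b ha hab y hy n aa k ξ qq G hk
      have hc : 0 < ε / (4 * δ) := by positivity
      exact hGd _ _ (by positivity) (mul_lt_mul_of_pos_right hab hc) y hy n aa k ξ qq G hk)
    v₀ (fun a ha => hv0 _ (by positivity)) l K hK q δ hq hδ0
  have hx' : x ∈ Gd (ε / 4) := by
    have e1 : δ * (ε / (4 * δ)) = ε / 4 := by field_simp
    simpa only [e1] using hx
  obtain ⟨x', hx'mem, ⟨hbes, hdual⟩, h4, h5, h6⟩ := finish_q hΩ hb hη hS hM hT hpre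
    (show 1 ≤ q by linarith) hε hδ0 hδ7 hx'
  refine ⟨x', hx'mem, y, fun φ => (h1 φ).trans ?_, fun φ hφ => ?_, ?_, h4, h5, h6⟩
  · exact mul_le_mul_of_nonneg_right (by linarith) (norm_nonneg _)
  · have a1 := h2 φ hφ
    have a2 := hdual φ
    have a3 : ((6 : ℕ) : ℝ) * δ * ‖φ‖ ≤ 6 * δ * R := by
      have e3 : ((6 : ℕ) : ℝ) = 6 := by norm_num
      rw [e3]
      exact mul_le_mul_of_nonneg_left (hR φ hφ) (by positivity)
    have a4 : ⟪fld x', fld φ⟫ - l φ = (⟪fld x', fld φ⟫ - ⟪fld x, fld φ⟫) + (⟪fld x, fld φ⟫ - l φ) := by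
      ring
    rw [a4]
    refine (abs_add_le _ _).trans_lt ?_
    nlinarith [mul_pos hδ0 hR0, mul_pos hδ0 hB6]
  · refine (hbes y).trans ?_
    have e2 : (2 : ENNReal) ^ (q - 1) = ENNReal.ofReal B := by
      rw [hB, ← ENNReal.ofReal_rpow_of_pos (by norm_num)]
      norm_num
    rw [e2, ← ENNReal.ofReal_pow (by positivity)]
    calc ENNReal.ofReal (B ^ 6) * (NSN.besov (x - y) q + ((6 : ℕ) : ENNReal) * ENNReal.ofReal δ)
        ≤ ENNReal.ofReal (B ^ 6) * (ENNReal.ofReal δ + ((6 : ℕ) : ENNReal) * ENNReal.ofReal δ) := by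
          gcongr
      _ = ENNReal.ofReal (B ^ 6 * (7 * δ)) := by
          have e3 : ((6 : ℕ) : ENNReal) = ENNReal.ofReal 6 := by norm_num
          rw [e3, ← ENNReal.ofReal_mul (by norm_num), ← ENNReal.ofReal_add hδ0.le (by positivity),
            ← ENNReal.ofReal_mul (by positivity)]
          congr 1; ring
      _ ≤ ENNReal.ofReal ε := by
          refine ENNReal.ofReal_le_ofReal ?_
          nlinarith [mul_pos hδ0 hR0, mul_pos hδ0 hB6]

end Pool.Agent.NSL
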