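import Pool.Agent.NSL.Joint
import Pool.Agent.NSN.TransferC

/-!
# MP_fd8964_an: good data with prescribed values and gradients
-/

open MeasureTheory Set Filter Topology
open scoped RealInnerProductSpace ContDiff

noncomputable section

namespace Pool.Agent.NSL

open Pool.Agent.NSD Pool.Agent.NSK Pool.Agent.NSN

variable {Ω : Set E}

/-- The targets. -/
def Pre (Ω : Set E) (p : ℝ) (g : E → E) (Γ : E → G) : Prop :=
  MemLp g (ENNReal.ofReal p) (volume.restrict Ω) ∧ MemLp Γ (ENNReal.ofReal p) (volume.restrict Ω) ∧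
    ∀ᵐ y ∂(volume.restrict Ω), ∑ i : Fin 3, Γ y i i = 0

def Dv {Ω : Set E} (w : V Ω) (g : E → E) (p : ℝ) : ENNReal := ∫⁻ y in Ω, ‖(fld w : E → E) y - g y‖ₑ ^ p
def Dg {Ω : Set E} (w : V Ω) (Γ : E → G) (p : ℝ) : ENNReal := ∫⁻ y in Ω, ‖(grd w : E → G) y - Γ y‖ₑ ^ p

/-- From a good datum `x` to a good datum with prescribed values and gradients. -/
theorem upgrade (hΩ : IsOpen Ω) (hb : Bornology.IsBounded Ω) {Gd : ℝ → Set (V Ω)} (hS : SoftClosed Ω Gd)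
    {p : ℝ} (hp0 : 0 < p) (hp1 : p < 1) {g : E → E} {Γ : E → G} (hpre : Pre Ω p g Γ)
    {ε : ℝ} (hε : 0 < ε) {x : V Ω} (hx : x ∈ Gd (ε / 2)) (hxt : InTest x) {q δ : ℝ} (hq : 1 ≤ q) (hδ : 0 < δ) :
    ∃ x' ∈ Gd ε, (∀ a : V Ω, besov (x' - a) q ≤ 2 ^ (q - 1) * (2 ^ (q - 1) * (besov (x - a) q + ENNReal.ofReal δ)
        + ENNReal.ofReal δ)) ∧
      (∀ φ : V Ω, |⟪fld x', fld φ⟫ - ⟪fld x, fld φ⟫| ≤ (δ + δ) * ‖φ‖) ∧
      Dv x' g p ≤ ENNReal.ofReal (δ + δ) ∧ Dg x' Γ p ≤ ENNReal.ofReal δ := by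
  obtain ⟨hg, hΓ, htr⟩ := hpre
  have hfin : ∀ {X : Type} [NormedAddCommGroup X] {f : E → X}, MemLp f (ENNReal.ofReal p) (volume.restrict Ω) →
      Ip Ω p f < ⊤ := by
    intro X _ f hf
    rw [Ip_eq_eLpNorm hp0]
    exact ENNReal.rpow_lt_top_of_nonneg hp0.le hf.2.ne
  obtain ⟨W₀, W₁, h1, h2, h3, h4, h5, h6, h7⟩ := joint hΩ hb hS hp0 hp1 (half_pos hε) (half_lt_self hε) hx hxt
    hg.1 (hfin hg) hΓ.1 (hfin hΓ) htr hq hδ
  refine ⟨x + W₀ + W₁, h1, fun a => ?_, fun φ => ?_, h6, h7⟩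
  · have e1 : x + W₀ + W₁ - a = ((x - a) + W₀) + W₁ := by abel
    rw [e1]
    refine (besov_add_small hb hq h3).trans ?_
    gcongr
    exact besov_add_small hb hq h2
  · have e1 : ⟪fld (x + W₀ + W₁), fld φ⟫ - ⟪fld x, fld φ⟫ = ⟪fld W₀, fld φ⟫ + ⟪fld W₁, fld φ⟫ := by
      rw [fld_add', fld_add', inner_add_left, inner_add_left]; ring
    rw [e1, add_mul]
    exact (abs_add_le _ _).trans (add_le_add (h4 φ) (h5 φ))

end Pool.Agent.NSL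

namespace Pool.Agent.NSLT

open Pool.Agent Pool.Agent.NSKT Pool.Agent.NSCT

section
variable (VV LE LG GE GG : Type) [NormedAddCommGroup VV] [InnerProductSpace ℝ VV] [NormedAddCommGroup LE]
  [InnerProductSpace ℝ LE] [NormedAddCommGroup LG] [InnerProductSpace ℝ LG]

/-- The theorem for a fixed domain, in terms of abstract spaces. -/
def AbsJ (fl : VV → LE) (gr : VV → LG) (tri : VV → VV → VV → ℝ) (Hs : Submodule ℝ LE) (Test : VV → Prop)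
    (Bes : VV → ℝ → ENNReal) (W : VV → Prop) (Pre : ℝ → GE → GG → Prop) (Dv : VV → GE → ℝ → ENNReal)
    (Dg : VV → GG → ℝ → ENNReal) : Prop :=
  ∀ (η : ℝ), 0 < η → ∀ (f : ℝ → (VV →L[ℝ] ℝ)), Adm VV LE fl Hs f →
    ∀ (J : Set ℝ), (J = Ici 0 ∨ ∃ T : ℝ, 0 < T ∧ J = Icc 0 T) →
    ∀ (v : ℝ → VV), ((f = 0 ∧ v = 0) ∨ (Test (v 0) ∧ RegJ VV LE LG fl gr tri η J f v)) →
    ∀ (u₀ : VV), W (u₀ - v 0) → ∀ (p : ℝ), 0 < p → p < 1 → ∀ (g : GE) (Γ : GG), Pre p g Γ →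
    ∀ (K : Set VV) (q ε : ℝ), IsCompact K → 2 < q → 0 < ε →
      ∃ u : ℝ → VV, Test (u 0) ∧ RegJ VV LE LG fl gr tri η J f u ∧
        Bes (u 0 - u₀) q ≤ ENNReal.ofReal ε ∧
        (∀ φ ∈ K, |⟪fl (u 0), fl φ⟫ - ⟪fl u₀, fl φ⟫| < ε) ∧
        Dv (u 0) g p ≤ ENNReal.ofReal ε ∧ Dg (u 0) Γ p ≤ ENNReal.ofReal ε ∧
        ∀ t ∈ J, ε ≤ t → ‖u t - v t‖ ≤ ε

end

theorem absJ_unsealed (Ω : Set NSD.E) (hΩ : IsOpen Ω) (hb : Bornology.IsBounded Ω) :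
    AbsJ (NSD.V Ω) (NSD.L2 Ω) (NSD.L2G Ω) (NSD.E → NSD.E) (NSD.E → NSD.G) NSD.fld NSD.grd NSD.trilin
      (NSD.Hspace Ω) NSK.InTest NSN.besov WD (NSL.Pre Ω) NSL.Dv NSL.Dg := by
  intro η hη f hf J hJ v hv u₀ hu₀ p hp0 hp1 g Γ hpre K q ε hK hq hε
  have hmem : u₀ - v 0 ∈ NSN.curlW Ω := by
    rcases hu₀ with ⟨⟨c, hc⟩, ha⟩ | h
    · exact NSN.mem_of_angMom hΩ hc hb ha
    · exact NSN.curlDiv_le Ω h
  obtain ⟨Gd, hGd, hS, hv0, hsol⟩ := NSL.good_soft Ω hΩ hb η hη f hf J hJ v hv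
  -- constants
  obtain ⟨R, hR0, hR⟩ : ∃ R : ℝ, 0 < R ∧ ∀ φ ∈ K, ‖φ‖ ≤ R := by
    obtain ⟨R, hR⟩ := hK.isBounded.exists_norm_le
    exact ⟨max R 1, lt_max_of_lt_right one_pos, fun φ hφ => (hR φ hφ).trans (le_max_left _ _)⟩
  set B : ℝ := 2 ^ (q - 1) with hB
  have hB1 : 1 ≤ B := Real.one_le_rpow (by norm_num) (by linarith)
  set δ : ℝ := ε / (4 * (B * (B * 2 + 1) + R + 1)) with hδ
  have hBB : 0 < B * (B * 2 + 1) := by positivity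
  have hδ0 : 0 < δ := by positivity
  have hδe : δ * (4 * (B * (B * 2 + 1) + R + 1)) = ε := by
    rw [hδ]; field_simp
  have hδ1 : δ ≤ ε / 4 := by
    rw [hδ]
    refine div_le_div_of_nonneg_left hε.le (by norm_num) ?_
    linarith
  obtain ⟨x, hx, h2, h3⟩ := NSN.pure_all Ω hΩ hb η hη (fun r => Gd (r * (ε / (2 * δ))))
    (by
      intro a b ha hab y hy n aa k ξ qq G hk
      have hc : 0 < ε / (2 * δ) := by positivity
      exact hGd _ _ (by positivity) (mul_lt_mul_of_pos_right hab hc) y hy n aa k ξ qq G hk)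
    (v 0) (fun a ha => hv0 _ (by positivity)) u₀ hmem K q δ hK hq hδ0
  have hx' : x ∈ Gd (ε / 2) := by
    have e1 : δ * (ε / (2 * δ)) = ε / 2 := by field_simp
    simpa only [e1] using hx
  obtain ⟨ux, hux0, huxt, -⟩ := hsol (ε / 2) (half_pos hε) x hx'
  have hxt : NSK.InTest x := by rw [← hux0]; exact huxt
  obtain ⟨x', hx'mem, hbes, hdual, hv1, hg1⟩ := NSL.upgrade hΩ hb hS hp0 hp1 hpre hε hx' hxt
    (show 1 ≤ q by linarith) hδ0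
  obtain ⟨u, hu0, hut, hus, huv⟩ := hsol ε hε x' hx'mem
  subst hu0
  refine ⟨u, hut, hus, ?_, fun φ hφ => ?_, hv1.trans (ENNReal.ofReal_le_ofReal (by linarith)),
    hg1.trans (ENNReal.ofReal_le_ofReal (by linarith)), huv⟩
  · refine (hbes u₀).trans ?_
    have e2 : (2 : ENNReal) ^ (q - 1) = ENNReal.ofReal B := by
      rw [hB, ← ENNReal.ofReal_rpow_of_pos (by norm_num)]
      norm_num
    rw [e2]
    calc ENNReal.ofReal B * (ENNReal.ofReal B * (NSN.besov (x - u₀) q + ENNReal.ofReal δ) + ENNReal.ofReal δ)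
        ≤ ENNReal.ofReal B * (ENNReal.ofReal B * (ENNReal.ofReal δ + ENNReal.ofReal δ) + ENNReal.ofReal δ) := by
          gcongr
      _ = ENNReal.ofReal (B * (B * (δ + δ) + δ)) := by
          rw [← ENNReal.ofReal_add hδ0.le hδ0.le, ← ENNReal.ofReal_mul (by positivity),
            ← ENNReal.ofReal_add (by positivity) hδ0.le, ← ENNReal.ofReal_mul (by positivity)]
      _ ≤ ENNReal.ofReal ε := by
          refine ENNReal.ofReal_le_ofReal ?_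
          nlinarith [mul_pos hδ0 hR0, mul_pos hδ0 hBB]
  · have a1 := h2 φ hφ
    have a2 := hdual φ
    have a3 : (δ + δ) * ‖φ‖ ≤ (δ + δ) * R := mul_le_mul_of_nonneg_left (hR φ hφ) (by positivity)
    have a4 : ⟪NSD.fld (u 0), NSD.fld φ⟫ - ⟪NSD.fld u₀, NSD.fld φ⟫
        = (⟪NSD.fld (u 0), NSD.fld φ⟫ - ⟪NSD.fld x, NSD.fld φ⟫) + (⟪NSD.fld x, NSD.fld φ⟫ - ⟪NSD.fld u₀, NSD.fld φ⟫) := by
      ring
    rw [a4]
    refine (abs_add_le _ _).trans_lt ?_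
    nlinarith [mul_pos hδ0 hR0, mul_pos hδ0 hBB]

end Pool.Agent.NSLT
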