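import Pool.Agent.NSL.Lusin
import Pool.Agent.NSL.Final

/-!
# MP_fd8964_an: good data which agree with a given field outside a small set
-/

open MeasureTheory Set Filter Topology
open scoped RealInnerProductSpace ContDiff

noncomputable section

namespace Pool.Agent.NSL

open Pool.Agent.NSD Pool.Agent.NSK Pool.Agent.NSN

/-- The targets. -/
def PreL (Ω U : Set E) (w : E → E) : Prop :=
  IsOpen U ∧ U ⊆ Ω ∧ ContDiffOn ℝ ∞ w U ∧ ∀ x ∈ U, divField w x = 0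

/-- The measure of the exceptional set. -/
def Ex {Ω : Set E} (x : V Ω) (U : Set E) (w : E → E) : ENNReal := volume {y | y ∈ U ∧ (fld x : E → E) y ≠ w y}

end Pool.Agent.NSL

namespace Pool.Agent.NSLT

open Pool.Agent Pool.Agent.NSKT Pool.Agent.NSCT

section
variable (VV LE LG SE GE : Type) [NormedAddCommGroup VV] [InnerProductSpace ℝ VV] [NormedAddCommGroup LE]
  [InnerProductSpace ℝ LE] [NormedAddCommGroup LG] [InnerProductSpace ℝ LG]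

/-- The theorem for a fixed domain, in terms of abstract spaces. -/
def AbsL (fl : VV → LE) (gr : VV → LG) (tri : VV → VV → VV → ℝ) (Hs : Submodule ℝ LE) (Test : VV → Prop)
    (Bes : VV → ℝ → ENNReal) (W : VV → Prop) (Pre : SE → GE → Prop) (Ex : VV → SE → GE → ENNReal) : Prop :=
  ∀ (η : ℝ), 0 < η → ∀ (f : ℝ → (VV →L[ℝ] ℝ)), Adm VV LE fl Hs f →
    ∀ (J : Set ℝ), (J = Ici 0 ∨ ∃ T : ℝ, 0 < T ∧ J = Icc 0 T) →
    ∀ (v : ℝ → VV), ((f = 0 ∧ v = 0) ∨ (Test (v 0) ∧ RegJ VV LE LG fl gr tri η J f v)) →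
    ∀ (u₀ : VV), W (u₀ - v 0) → ∀ (U : SE) (w : GE), Pre U w →
    ∀ (K : Set VV) (q ε : ℝ), IsCompact K → 2 < q → 0 < ε →
      ∃ u : ℝ → VV, Test (u 0) ∧ RegJ VV LE LG fl gr tri η J f u ∧
        Bes (u 0 - u₀) q ≤ ENNReal.ofReal ε ∧
        (∀ φ ∈ K, |⟪fl (u 0), fl φ⟫ - ⟪fl u₀, fl φ⟫| < ε) ∧
        Ex (u 0) U w ≤ ENNReal.ofReal ε ∧
        ∀ t ∈ J, ε ≤ t → ‖u t - v t‖ ≤ ε

end

theorem absL_unsealed (Ω : Set NSD.E) (hΩ : IsOpen Ω) (hb : Bornology.IsBounded Ω) :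
    AbsL (NSD.V Ω) (NSD.L2 Ω) (NSD.L2G Ω) (Set NSD.E) (NSD.E → NSD.E) NSD.fld NSD.grd NSD.trilin
      (NSD.Hspace Ω) NSK.InTest NSN.besov WD (NSL.PreL Ω) NSL.Ex := by
  intro η hη f hf J hJ v hv u₀ hu₀ U w hpre K q ε hK hq hε
  obtain ⟨hU, hUΩ, hw, hdiv⟩ := hpre
  have hmem : u₀ - v 0 ∈ NSN.curlW Ω := by
    rcases hu₀ with ⟨⟨c, hc⟩, ha⟩ | h
    · exact NSN.mem_of_angMom hΩ hc hb ha
    · exact NSN.curlDiv_le Ω h
  obtain ⟨Gd, hGd, hS, hM, hv0, hsol⟩ := NSL.good_all Ω hΩ hb η hη f hf J hJ v hv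
  -- constants
  obtain ⟨R, hR0, hR⟩ : ∃ R : ℝ, 0 < R ∧ ∀ φ ∈ K, ‖φ‖ ≤ R := by
    obtain ⟨R, hR⟩ := hK.isBounded.exists_norm_le
    exact ⟨max R 1, lt_max_of_lt_right one_pos, fun φ hφ => (hR φ hφ).trans (le_max_left _ _)⟩
  set B : ℝ := 2 ^ (q - 1) with hB
  have hB1 : 1 ≤ B := Real.one_le_rpow (by norm_num) (by linarith)
  set δ : ℝ := ε / (5 * (B ^ 4 + R + 1)) with hδ
  have hB4 : 0 < B ^ 4 := by positivity
  have hδ0 : 0 < δ := by positivity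
  have hδe : δ * (5 * (B ^ 4 + R + 1)) = ε := by
    rw [hδ]; field_simp
  obtain ⟨x, hx, h2, h3⟩ := NSN.pure_all Ω hΩ hb η hη (fun r => Gd (r * (ε / (2 * δ))))
    (by
      intro a b ha hab y hy n aa k ξ qq G hk
      have hc : 0 < ε / (2 * δ) := by positivity
      exact hGd _ _ (by positivity) (mul_lt_mul_of_pos_right hab hc) y hy n aa k ξ qq G hk)
    (v 0) (fun a ha => hv0 _ (by positivity)) u₀ hmem K q δ hK hq hδ0
  have hx' : x ∈ Gd (ε / 2) := by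
    have e1 : δ * (ε / (2 * δ)) = ε / 2 := by field_simp
    simpa only [e1] using hx
  obtain ⟨ux, hux0, huxt, -⟩ := hsol (ε / 2) (half_pos hε) x hx'
  have hxt : NSK.InTest x := by rw [← hux0]; exact huxt
  obtain ⟨x', hx'mem, ⟨hbes, hdual⟩, hex, -⟩ := NSL.lusin hΩ hb hη hM hU hUΩ hw hdiv (half_pos hε)
    (half_lt_self hε) hx' hxt (show 1 ≤ q by linarith) hδ0 hε (NSL.Near.refl q δ x)
  obtain ⟨u, hu0, hut, hus, huv⟩ := hsol ε hε x' hx'mem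
  subst hu0
  refine ⟨u, hut, hus, ?_, fun φ hφ => ?_, hex, huv⟩
  · refine (hbes u₀).trans ?_
    have e2 : (2 : ENNReal) ^ (q - 1) = ENNReal.ofReal B := by
      rw [hB, ← ENNReal.ofReal_rpow_of_pos (by norm_num)]
      norm_num
    rw [e2, ← ENNReal.ofReal_pow (by positivity)]
    calc ENNReal.ofReal (B ^ (0 + 4)) * (NSN.besov (x - u₀) q + ((0 + 4 : ℕ) : ENNReal) * ENNReal.ofReal δ)
        ≤ ENNReal.ofReal (B ^ (0 + 4)) * (ENNReal.ofReal δ + ((0 + 4 : ℕ) : ENNReal) * ENNReal.ofReal δ) := by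
          gcongr
      _ = ENNReal.ofReal (B ^ 4 * (5 * δ)) := by
          have e3 : ((0 + 4 : ℕ) : ENNReal) = ENNReal.ofReal 4 := by norm_num
          rw [e3, ← ENNReal.ofReal_mul (by norm_num), ← ENNReal.ofReal_add hδ0.le (by positivity),
            ← ENNReal.ofReal_mul (by positivity)]
          congr 1; ring
      _ ≤ ENNReal.ofReal ε := by
          refine ENNReal.ofReal_le_ofReal ?_
          nlinarith [mul_pos hδ0 hR0, mul_pos hδ0 hB4]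
  · have a1 := h2 φ hφ
    have a2 := hdual φ
    have a3 : ((0 + 4 : ℕ) : ℝ) * δ * ‖φ‖ ≤ 4 * δ * R := by
      have e3 : ((0 + 4 : ℕ) : ℝ) = 4 := by norm_num
      rw [e3]
      exact mul_le_mul_of_nonneg_left (hR φ hφ) (by positivity)
    have a4 : ⟪NSD.fld (u 0), NSD.fld φ⟫ - ⟪NSD.fld u₀, NSD.fld φ⟫
        = (⟪NSD.fld (u 0), NSD.fld φ⟫ - ⟪NSD.fld x, NSD.fld φ⟫) + (⟪NSD.fld x, NSD.fld φ⟫ - ⟪NSD.fld u₀, NSD.fld φ⟫) := by
      ring
    rw [a4]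
    refine (abs_add_le _ _).trans_lt ?_
    nlinarith [mul_pos hδ0 hR0, mul_pos hδ0 hB4]

end Pool.Agent.NSLT
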