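import Pool.Agent.NSK.Conc

/-!
Problem MP_fd8964_an, freezing: bounds for the remainders
-/

open MeasureTheory Set Filter Topology
open scoped RealInnerProductSpace ContDiff

noncomputable section

namespace Pool.Agent.NSL

open Pool.Agent.NSD Pool.Agent.NSK

namespace FreezeR

variable {X Y Z : Type} [NormedAddCommGroup X] [NormedSpace ℝ X] [NormedAddCommGroup Y]
  [NormedSpace ℝ Y] [NormedAddCommGroup Z] [NormedSpace ℝ Z]

/-- `F` is smooth and its derivatives of order `m ≤ M` are at most `C N^m`. -/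
def Bd (M : ℕ) (N C : ℝ) (F : E → X) : Prop :=
  ContDiff ℝ ∞ F ∧ ∀ m ≤ M, ∀ x, ‖iteratedFDeriv ℝ m F x‖ ≤ C * N ^ m

theorem le_inf (m : ℕ) : ((m : ℕ∞) : WithTop ℕ∞) ≤ ∞ := by
  exact_mod_cast le_top

theorem Bd.mono {M : ℕ} {N C C' : ℝ} {F : E → X} (hN : 1 ≤ N) (h : Bd M N C F) (hC : C ≤ C') :
    Bd M N C' F := by
  refine ⟨h.1, fun m hm x => (h.2 m hm x).trans ?_⟩
  have : 0 ≤ N ^ m := by positivity
  exact mul_le_mul_of_nonneg_right hC this

theorem Bd.nonneg {M : ℕ} {N C : ℝ} {F : E → X} (h : Bd M N C F) : 0 ≤ C := by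
  have := h.2 0 (Nat.zero_le _) 0
  rw [norm_iteratedFDeriv_zero, pow_zero, mul_one] at this
  exact (norm_nonneg _).trans this

theorem Bd.zero {M : ℕ} {N C : ℝ} {F : E → X} (h : Bd M N C F) (x : E) : ‖F x‖ ≤ C := by
  have := h.2 0 (Nat.zero_le _) x
  rwa [norm_iteratedFDeriv_zero, pow_zero, mul_one] at this

theorem Bd.sub {M : ℕ} {N C C' : ℝ} {F G : E → X} (h : Bd M N C F) (h' : Bd M N C' G) :
    Bd M N (C + C') (fun x => F x - G x) := by
  refine ⟨h.1.sub h'.1, fun m hm x => ?_⟩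
  have e : iteratedFDeriv ℝ m (fun x => F x - G x) x =
      iteratedFDeriv ℝ m F x - iteratedFDeriv ℝ m G x := by
    have := iteratedFDeriv_sub_apply (𝕜 := ℝ) (i := m) (f := F) (g := G) (x := x)
      ((h.1.of_le (le_inf m)).contDiffAt) ((h'.1.of_le (le_inf m)).contDiffAt)
    exact this
  rw [e]
  refine (norm_sub_le _ _).trans ?_
  rw [add_mul]
  exact add_le_add (h.2 m hm x) (h'.2 m hm x)

theorem Bd.bilin {M : ℕ} {N C C' : ℝ} {F : E → X} {G : E → Y} (B : X →L[ℝ] Y →L[ℝ] Z)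
    (h : Bd M N C F) (h' : Bd M N C' G) (hN : 1 ≤ N) :
    Bd M N (‖B‖ * (2 ^ M * (C * C'))) (fun x => B (F x) (G x)) := by
  have hC := h.nonneg
  have hC' := h'.nonneg
  refine ⟨?_, fun m hm x => ?_⟩
  · exact (B.contDiff.comp h.1).clm_apply h'.1
  · refine (B.norm_iteratedFDeriv_le_of_bilinear h.1 h'.1 x (le_inf m)).trans ?_
    rw [mul_assoc]
    refine mul_le_mul_of_nonneg_left ?_ B.opNorm_nonneg
    have h1 : ∀ i ∈ Finset.range (m + 1), (m.choose i : ℝ) * ‖iteratedFDeriv ℝ i F x‖ *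
        ‖iteratedFDeriv ℝ (m - i) G x‖ ≤ (m.choose i : ℝ) * ((C * C') * N ^ m) := by
      intro i hi
      have him : i ≤ m := Nat.lt_succ_iff.mp (Finset.mem_range.mp hi)
      rw [mul_assoc]
      refine mul_le_mul_of_nonneg_left ?_ (by positivity)
      have e1 := h.2 i (him.trans hm) x
      have e2 := h'.2 (m - i) ((Nat.sub_le _ _).trans hm) x
      have e3 : N ^ m = N ^ i * N ^ (m - i) := by
        rw [← pow_add, Nat.add_sub_cancel' him]
      calc ‖iteratedFDeriv ℝ i F x‖ * ‖iteratedFDeriv ℝ (m - i) G x‖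
          ≤ (C * N ^ i) * (C' * N ^ (m - i)) :=
            mul_le_mul e1 e2 (norm_nonneg _) (by positivity)
        _ = (C * C') * N ^ m := by rw [e3]; ring
    refine (Finset.sum_le_sum h1).trans ?_
    rw [← Finset.sum_mul]
    have h2 : (∑ i ∈ Finset.range (m + 1), (m.choose i : ℝ)) = 2 ^ m := by
      exact_mod_cast Nat.sum_range_choose m
    rw [h2]
    have h3 : (2 : ℝ) ^ m ≤ 2 ^ M := pow_le_pow_right₀ (by norm_num) hm
    have h4 : 0 ≤ (C * C') * N ^ m := by positivity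
    calc (2 : ℝ) ^ m * ((C * C') * N ^ m) ≤ 2 ^ M * ((C * C') * N ^ m) :=
          mul_le_mul_of_nonneg_right h3 h4
      _ = 2 ^ M * (C * C') * N ^ m := by ring

theorem Bd.clm {M : ℕ} {N C : ℝ} {F : E → X} (L : X →L[ℝ] Y) (h : Bd M N C F) :
    Bd M N (‖L‖ * C) (fun x => L (F x)) := by
  refine ⟨L.contDiff.comp h.1, fun m hm x => ?_⟩
  have := L.norm_iteratedFDeriv_comp_left (f := F) (x := x) (n := m) (N := ∞) h.1.contDiffAt
    (le_inf m)
  refine le_trans this ?_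
  rw [mul_assoc]
  exact mul_le_mul_of_nonneg_left (h.2 m hm x) (norm_nonneg _)

theorem Bd.csmul {M : ℕ} {N C s : ℝ} {F : E → X} (h : Bd M N C F) (hs : 0 ≤ s) :
    Bd M N (s * C) (fun x => s • F x) := by
  refine ⟨h.1.const_smul s, fun m hm x => ?_⟩
  have e1 : iteratedFDeriv ℝ m (fun y => s • F y) x = s • iteratedFDeriv ℝ m F x :=
    iteratedFDeriv_const_smul_apply' ((h.1.of_le (le_inf m)).contDiffAt)
  rw [e1, norm_smul, Real.norm_eq_abs, abs_of_nonneg hs, mul_assoc]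
  exact mul_le_mul_of_nonneg_left (h.2 m hm x) hs

theorem Bd.comp {M : ℕ} {N C C' : ℝ} {F : E → (Y →L[ℝ] Z)} {G : E → (X →L[ℝ] Y)}
    (h : Bd M N C F) (h' : Bd M N C' G) (hN : 1 ≤ N) :
    Bd M N (2 ^ M * (C * C')) (fun x => (F x).comp (G x)) := by
  have hb := h.bilin (ContinuousLinearMap.compL ℝ X Y Z) h' hN
  have hC := h.nonneg
  have hC' := h'.nonneg
  have h1 := ContinuousLinearMap.norm_compL_le ℝ X Y Z
  refine hb.mono hN ?_
  have h2 : 0 ≤ 2 ^ M * (C * C') := by positivity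
  exact mul_le_of_le_one_left h2 h1

theorem Bd.succ {M : ℕ} {N C : ℝ} {F : E → X} (hF : ContDiff ℝ ∞ F) (h0 : ∀ x, ‖F x‖ ≤ C)
    (h : Bd M N (C * N) (fderiv ℝ F)) : Bd (M + 1) N C F := by
  refine ⟨hF, fun m hm x => ?_⟩
  rcases m with _ | m
  · rw [norm_iteratedFDeriv_zero, pow_zero, mul_one]
    exact h0 x
  · rw [← norm_iteratedFDeriv_fderiv]
    have := h.2 m (Nat.succ_le_succ_iff.mp hm) x
    rwa [mul_assoc, ← pow_succ'] at this

theorem Bd.fderiv {M : ℕ} {N C : ℝ} {F : E → X} (h : Bd (M + 1) N C F) :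
    Bd M N (C * N) (fderiv ℝ F) := by
  refine ⟨h.1.fderiv_right (by exact_mod_cast le_top), fun m hm x => ?_⟩
  rw [norm_iteratedFDeriv_fderiv, mul_assoc, ← pow_succ']
  exact h.2 (m + 1) (Nat.succ_le_succ hm) x

theorem bd_const (f : E → X) (hf : ContDiff ℝ ∞ f) (hc : HasCompactSupport f) (M : ℕ) :
    ∃ C : ℝ, ∀ N : ℝ, 1 ≤ N → Bd M N C f := by
  have h1 : ∀ m : ℕ, ∃ C, ∀ x, ‖iteratedFDeriv ℝ m f x‖ ≤ C := by
    intro m
    exact (hf.continuous_iteratedFDeriv (le_inf m)).bounded_above_of_compact_support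
      (hc.iteratedFDeriv m)
  choose c hc' using h1
  refine ⟨∑ m ∈ Finset.range (M + 1), |c m|, fun N hN => ⟨hf, fun m hm x => ?_⟩⟩
  have h2 : |c m| ≤ ∑ m ∈ Finset.range (M + 1), |c m| :=
    Finset.single_le_sum (f := fun m => |c m|) (fun i _ => abs_nonneg _)
      (Finset.mem_range.mpr (Nat.lt_succ_of_le hm))
  have h3 : (1 : ℝ) ≤ N ^ m := one_le_pow₀ hN
  have h4 : ‖iteratedFDeriv ℝ m f x‖ ≤ |c m| := (hc' m x).trans (le_abs_self _)
  have h5 : 0 ≤ ∑ m ∈ Finset.range (M + 1), |c m| := (abs_nonneg _).trans h2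
  calc ‖iteratedFDeriv ℝ m f x‖ ≤ (∑ m ∈ Finset.range (M + 1), |c m|) * 1 := by linarith
    _ ≤ _ := mul_le_mul_of_nonneg_left h3 h5

theorem bd_phase' (k : E) (hk : ‖k‖ = 1) (T : ℝ → ℝ) (hT : ContDiff ℝ ∞ T) (M : ℕ) (N τ : ℝ)
    (hN : 1 ≤ N) (h : ∀ i : ℕ, i ≤ M → ∀ y, |iteratedDeriv i T y| ≤ τ) :
    Bd M N τ (fun x : E => T (N * ⟪k, x⟫)) := by
  have hg : (fun x : E => T (N * ⟪k, x⟫)) = T ∘ (N • innerSL ℝ k : E →L[ℝ] ℝ) := by
    funext x
    simp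
  rw [hg]
  refine ⟨hT.comp (ContinuousLinearMap.contDiff _), fun m hm x => ?_⟩
  rw [ContinuousLinearMap.iteratedFDeriv_comp_right _ hT x (le_inf m)]
  refine (ContinuousMultilinearMap.norm_compContinuousLinearMap_le _ _).trans ?_
  rw [norm_iteratedFDeriv_eq_norm_iteratedDeriv]
  have h1 : ‖(N • innerSL ℝ k : E →L[ℝ] ℝ)‖ = N := by
    rw [norm_smul, innerSL_apply_norm, hk, mul_one, Real.norm_eq_abs, abs_of_nonneg (by linarith)]
  simp only [Finset.prod_const, Finset.card_univ, Fintype.card_fin, h1]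
  exact mul_le_mul_of_nonneg_right (h m hm _) (by positivity)

theorem bd_phase (k : E) (hk : ‖k‖ = 1) (T : ℝ → ℝ) (hT : ContDiff ℝ ∞ T)
    (hp : ∀ y, T (y + 2 * Real.pi) = T y) (M : ℕ) :
    ∃ C : ℝ, ∀ N : ℝ, 1 ≤ N → Bd M N C (fun x : E => T (N * ⟪k, x⟫)) := by
  have hper : ∀ m : ℕ, Function.Periodic (iteratedDeriv m T) (2 * Real.pi) := by
    intro m y
    have h1 : (fun z => T (z + 2 * Real.pi)) = T := funext hp
    have h2 := congrFun (iteratedDeriv_comp_add_const m T (2 * Real.pi)) y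
    rw [h1] at h2
    exact h2.symm
  have h1 : ∀ m : ℕ, ∃ C : ℝ, ∀ y, |iteratedDeriv m T y| ≤ C := by
    intro m
    have hb := (hper m).isBounded_of_continuous (by positivity)
      (hT.continuous_iteratedDeriv m (le_inf m))
    obtain ⟨C, hC⟩ := hb.exists_norm_le
    exact ⟨C, fun y => hC _ (mem_range_self y)⟩
  choose c hc using h1
  refine ⟨∑ m ∈ Finset.range (M + 1), |c m|, fun N hN => ?_⟩
  apply bd_phase' k hk T hT M N _ hN
  intro i hi y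
  have h2 : |c i| ≤ ∑ m ∈ Finset.range (M + 1), |c m| :=
    Finset.single_le_sum (f := fun m => |c m|) (fun i _ => abs_nonneg _)
      (Finset.mem_range.mpr (Nat.lt_succ_of_le hi))
  exact ((hc i y).trans (le_abs_self _)).trans h2

/-- The staircase map. -/
def sig (k : E) (ρ : ℝ → ℝ) (N : ℝ) (x : E) : E := x - (N⁻¹ * ρ (N * ⟪k, x⟫)) • k

/-- The derivative of the staircase map. -/
def dsig (k : E) (ρ : ℝ → ℝ) (N : ℝ) (x : E) : E →L[ℝ] E :=
  ContinuousLinearMap.id ℝ E - deriv ρ (N * ⟪k, x⟫) • (innerSL ℝ k).smulRight k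

theorem hasFDerivAt_phase (k : E) (T : ℝ → ℝ) (hT : ContDiff ℝ ∞ T) (N : ℝ) (x : E) :
    HasFDerivAt (fun x : E => T (N * ⟪k, x⟫)) ((deriv T (N * ⟪k, x⟫) * N) • innerSL ℝ k) x := by
  have h1 : HasDerivAt T (deriv T (N * ⟪k, x⟫)) (N * ⟪k, x⟫) :=
    ((hT.differentiable (by simp)) _).hasDerivAt
  have h2 : HasFDerivAt (fun x : E => N * ⟪k, x⟫) (N • innerSL ℝ k) x := by
    exact (N • innerSL ℝ k : E →L[ℝ] ℝ).hasFDerivAt (x := x)
  have h3 := h1.comp_hasFDerivAt x h2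
  rw [mul_smul]
  exact h3

theorem hasFDerivAt_sig (k : E) (ρ : ℝ → ℝ) (hρ : ContDiff ℝ ∞ ρ) (N : ℝ) (hN : 1 ≤ N) (x : E) :
    HasFDerivAt (sig k ρ N) (dsig k ρ N x) x := by
  have h1 := (hasFDerivAt_phase k ρ hρ N x).const_mul N⁻¹
  have h2 := h1.smul_const k
  have h3 := (hasFDerivAt_id x).sub h2
  have hN0 : N ≠ 0 := by positivity
  have e : ContinuousLinearMap.id ℝ E -
      (N⁻¹ • (deriv ρ (N * ⟪k, x⟫) * N) • innerSL ℝ k).smulRight k = dsig k ρ N x := by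
    unfold dsig
    congr 1
    ext v i
    simp
    field_simp
  rw [e] at h3
  exact h3

theorem contDiff_phase (k : E) (T : ℝ → ℝ) (hT : ContDiff ℝ ∞ T) (N : ℝ) :
    ContDiff ℝ ∞ (fun x : E => T (N * ⟪k, x⟫)) :=
  hT.comp (contDiff_const.mul (contDiff_const.inner ℝ contDiff_id))

theorem contDiff_sig (k : E) (ρ : ℝ → ℝ) (hρ : ContDiff ℝ ∞ ρ) (N : ℝ) :
    ContDiff ℝ ∞ (sig k ρ N) := by
  unfold sig
  exact contDiff_id.sub ((contDiff_const.mul (contDiff_phase k ρ hρ N)).smul contDiff_const)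

theorem deriv_periodic {ρ : ℝ → ℝ} (hρp : ∀ y, ρ (y + 2 * Real.pi) = ρ y) :
    ∀ y, deriv ρ (y + 2 * Real.pi) = deriv ρ y := by
  intro y
  have h1 : (fun z => ρ (z + 2 * Real.pi)) = ρ := funext hρp
  rw [← deriv_comp_add_const, h1]

theorem contDiff_deriv {ρ : ℝ → ℝ} (hρ : ContDiff ℝ ∞ ρ) : ContDiff ℝ ∞ (deriv ρ) :=
  (contDiff_infty_iff_deriv.mp hρ).2

theorem bd_dsig (k : E) (hk : ‖k‖ = 1) (ρ : ℝ → ℝ) (hρ : ContDiff ℝ ∞ ρ)
    (hρp : ∀ y, ρ (y + 2 * Real.pi) = ρ y) (M : ℕ) :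
    ∃ C : ℝ, ∀ N : ℝ, 1 ≤ N → Bd M N C (dsig k ρ N) := by
  obtain ⟨C, hC⟩ := bd_phase k hk (deriv ρ) (contDiff_deriv hρ) (deriv_periodic hρp) M
  set L : ℝ →L[ℝ] (E →L[ℝ] E) :=
    (ContinuousLinearMap.id ℝ ℝ).smulRight ((innerSL ℝ k).smulRight k) with hL
  refine ⟨‖ContinuousLinearMap.id ℝ E‖ + ‖L‖ * C, fun N hN => ?_⟩
  have h1 : Bd M N ‖ContinuousLinearMap.id ℝ E‖ (fun _ : E => ContinuousLinearMap.id ℝ E) := by
    refine ⟨contDiff_const, fun m _ x => ?_⟩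
    rcases m with _ | m
    · rw [norm_iteratedFDeriv_zero, pow_zero, mul_one]
    · rw [iteratedFDeriv_const_of_ne (Nat.succ_ne_zero m)]
      simp only [Pi.zero_apply, norm_zero]
      positivity
  have h2 := (hC N hN).clm L
  exact h1.sub h2

theorem bd_comp (k : E) (hk : ‖k‖ = 1) (ρ : ℝ → ℝ) (hρ : ContDiff ℝ ∞ ρ)
    (hρp : ∀ y, ρ (y + 2 * Real.pi) = ρ y) (M : ℕ) :
    ∀ (X : Type) [NormedAddCommGroup X] [NormedSpace ℝ X] (f : E → X), ContDiff ℝ ∞ f →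
      HasCompactSupport f → ∃ C : ℝ, ∀ N : ℝ, 1 ≤ N → Bd M N C (fun x => f (sig k ρ N x)) := by
  induction M with
  | zero =>
    intro X _ _ f hf hc
    obtain ⟨C, hC⟩ := bd_const f hf hc 0
    refine ⟨C, fun N hN => ⟨hf.comp (contDiff_sig k ρ hρ N), fun m hm x => ?_⟩⟩
    have hm0 : m = 0 := Nat.le_zero.mp hm
    subst hm0
    rw [norm_iteratedFDeriv_zero, pow_zero, mul_one]
    exact (hC 1 le_rfl).zero _
  | succ M ih =>
    intro X _ _ f hf hc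
    obtain ⟨C0, hC0⟩ := bd_const f hf hc 0
    obtain ⟨C1, hC1⟩ := ih (E →L[ℝ] X) (fderiv ℝ f) (hf.fderiv_right (by exact_mod_cast le_top))
      (hc.fderiv ℝ)
    obtain ⟨C2, hC2⟩ := bd_dsig k hk ρ hρ hρp M
    set C3 := 2 ^ M * (C1 * C2) with hC3
    refine ⟨C0 + C3, fun N hN => ?_⟩
    have p0 := (hC0 1 le_rfl).nonneg
    have hb := (hC1 N hN).comp (hC2 N hN) hN
    have p3 : 0 ≤ C3 := hb.nonneg
    refine Bd.succ (F := fun x => f (sig k ρ N x)) (hf.comp (contDiff_sig k ρ hρ N)) ?_ ?_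
    · intro x
      have := (hC0 1 le_rfl).zero (sig k ρ N x)
      show ‖f (sig k ρ N x)‖ ≤ _
      linarith
    · have e : fderiv ℝ (fun x => f (sig k ρ N x)) =
          fun x => (fderiv ℝ f (sig k ρ N x)).comp (dsig k ρ N x) := by
        funext x
        have h1 : HasFDerivAt f (fderiv ℝ f (sig k ρ N x)) (sig k ρ N x) :=
          ((hf.differentiable (by simp)) _).hasFDerivAt
        have h2 := h1.comp x (hasFDerivAt_sig k ρ hρ N hN x)
        exact h2.fderiv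
      rw [e]
      refine hb.mono hN ?_
      nlinarith

/-- The commutator. -/
theorem bd_comm (k : E) (hk : ‖k‖ = 1) (ρ : ℝ → ℝ) (hρ : ContDiff ℝ ∞ ρ)
    (hρp : ∀ y, ρ (y + 2 * Real.pi) = ρ y) (M : ℕ) (f : E → X) (hf : ContDiff ℝ ∞ f)
    (hc : HasCompactSupport f) :
    ∃ C : ℝ, ∀ N : ℝ, 1 ≤ N → Bd M N C (fun x => N • (f x - f (sig k ρ N x))) := by
  obtain ⟨C1, hC1⟩ := bd_comp k hk ρ hρ hρp M (E →L[ℝ] X) (fderiv ℝ f)
    (hf.fderiv_right (by exact_mod_cast le_top)) (hc.fderiv ℝ)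
  obtain ⟨C2, hC2⟩ := bd_dsig k hk ρ hρ hρp M
  obtain ⟨C4, hC4⟩ := bd_const (fderiv ℝ f) (hf.fderiv_right (by exact_mod_cast le_top))
    (hc.fderiv ℝ) M
  obtain ⟨C5, hC5⟩ := bd_phase k hk ρ hρ hρp 0
  set C3 := 2 ^ M * (C1 * C2) with hC3
  have hb1 := (hC1 1 le_rfl).comp (hC2 1 le_rfl) le_rfl
  have p3 : 0 ≤ C3 := hb1.nonneg
  have p4 : 0 ≤ C4 := (hC4 1 le_rfl).nonneg
  have p5 : 0 ≤ C5 := (hC5 1 le_rfl).nonneg
  have base : ∀ N : ℝ, 1 ≤ N → Bd (M + 1) N (C4 * C5 + (C4 + C3))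
      (fun x => N • (f x - f (sig k ρ N x))) := by
    intro N hN
    have hNpos : 0 < N := by linarith
    have hb := (hC1 N hN).comp (hC2 N hN) hN
    have hsm : ContDiff ℝ ∞ (fun x => f x - f (sig k ρ N x)) :=
      hf.sub (hf.comp (contDiff_sig k ρ hρ N))
    refine Bd.succ (F := fun x => N • (f x - f (sig k ρ N x))) (hsm.const_smul N) ?_ ?_
    · intro x
      show ‖N • (f x - f (sig k ρ N x))‖ ≤ _
      rw [norm_smul, Real.norm_eq_abs, abs_of_pos hNpos]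
      have h1 : ‖f x - f (sig k ρ N x)‖ ≤ C4 * ‖x - sig k ρ N x‖ := by
        refine Convex.norm_image_sub_le_of_norm_fderiv_le (𝕜 := ℝ) (s := univ)
          (fun y _ => (hf.differentiable (by simp)) y) (fun y _ => (hC4 1 le_rfl).zero y)
          convex_univ (mem_univ _) (mem_univ _)
      have h2 : ‖x - sig k ρ N x‖ ≤ N⁻¹ * C5 := by
        unfold sig
        rw [sub_sub_cancel, norm_smul, hk, mul_one, norm_mul, Real.norm_eq_abs,
          abs_of_pos (inv_pos.mpr hNpos)]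
        exact mul_le_mul_of_nonneg_left ((hC5 N hN).zero x) (by positivity)
      have h3 : N * (C4 * (N⁻¹ * C5)) = C4 * C5 := by field_simp
      have h4 : N * ‖f x - f (sig k ρ N x)‖ ≤ N * (C4 * (N⁻¹ * C5)) :=
        mul_le_mul_of_nonneg_left (h1.trans (mul_le_mul_of_nonneg_left h2 p4)) hNpos.le
      rw [h3] at h4
      linarith
    · have e : fderiv ℝ (fun x => N • (f x - f (sig k ρ N x))) =
          fun x => N • (fderiv ℝ f x - (fderiv ℝ f (sig k ρ N x)).comp (dsig k ρ N x)) := by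
        funext x
        have h1 : HasFDerivAt f (fderiv ℝ f (sig k ρ N x)) (sig k ρ N x) :=
          ((hf.differentiable (by simp)) _).hasFDerivAt
        have h2 := h1.comp x (hasFDerivAt_sig k ρ hρ N hN x)
        have h3 : HasFDerivAt f (fderiv ℝ f x) x :=
          ((hf.differentiable (by simp)) _).hasFDerivAt
        exact ((h3.sub h2).const_smul N).fderiv
      rw [e]
      have hs3 := ((hC4 N hN).sub hb).csmul hNpos.le
      refine hs3.mono hN ?_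
      have h7 : 0 ≤ C4 * C5 * N := by positivity
      nlinarith
  exact ⟨_, fun N hN => ⟨(base N hN).1, fun m hm x => (base N hN).2 m (hm.trans (Nat.le_succ M)) x⟩⟩

/-- Bounds for the Laplacian. -/
theorem lap_le (f : E → E) (hf : ContDiff ℝ ∞ f) (x : E) : ‖lap f x‖ ≤ 3 * ‖iteratedFDeriv ℝ 2 f x‖ := by
  unfold lap
  refine (norm_sum_le _ _).trans ?_
  have h1 : ∀ i ∈ (Finset.univ : Finset (Fin 3)), ‖dd (e i) (dd (e i) f) x‖ ≤
      ‖iteratedFDeriv ℝ 2 f x‖ := by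
    intro i _
    have hd : DifferentiableAt ℝ (fderiv ℝ f) x :=
      ((hf.fderiv_right (m := ∞) (by exact_mod_cast le_top)).differentiable (by simp)) x
    have e1 : dd (e i) (dd (e i) f) x = fderiv ℝ (fderiv ℝ f) x (e i) (e i) := by
      have h2 : HasFDerivAt (fun y => fderiv ℝ f y (e i))
          ((ContinuousLinearMap.apply ℝ E (e i)).comp (fderiv ℝ (fderiv ℝ f) x)) x :=
        (ContinuousLinearMap.apply ℝ E (e i)).hasFDerivAt.comp x hd.hasFDerivAt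
      show fderiv ℝ (fun y => fderiv ℝ f y (e i)) x (e i) = _
      rw [h2.fderiv]
      rfl
    have e2 : iteratedFDeriv ℝ 2 f x (fun _ => e i) = fderiv ℝ (fderiv ℝ f) x (e i) (e i) :=
      iteratedFDeriv_two_apply f x _
    rw [e1, ← e2]
    refine (ContinuousMultilinearMap.le_opNorm _ _).trans ?_
    have h3 : ‖e i‖ = 1 := by simp [e]
    simp [h3]
  refine (Finset.sum_le_sum h1).trans ?_
  simp

/-- Passage from the class to the three bounds. -/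
theorem finish {N C s : ℝ} {H : E → E} (h : Bd 2 N C H) (hs : 0 ≤ s) (x : E) :
    ‖s • H x‖ ≤ s * C ∧ ‖fderiv ℝ (fun y => s • H y) x‖ ≤ s * (C * N) ∧
      ‖lap (fun y => s • H y) x‖ ≤ 3 * (s * (C * N ^ 2)) := by
  have hd : DifferentiableAt ℝ H x := (h.1.differentiable (by simp)) x
  have h0 := h.2 0 (by norm_num) x
  have h1 := h.2 1 (by norm_num) x
  have h2 := h.2 2 le_rfl x
  rw [norm_iteratedFDeriv_zero, pow_zero, mul_one] at h0
  rw [norm_iteratedFDeriv_one, pow_one] at h1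
  refine ⟨?_, ?_, ?_⟩
  · rw [norm_smul, Real.norm_eq_abs, abs_of_nonneg hs]
    exact mul_le_mul_of_nonneg_left h0 hs
  · rw [fderiv_fun_const_smul hd, norm_smul, Real.norm_eq_abs, abs_of_nonneg hs]
    exact mul_le_mul_of_nonneg_left h1 hs
  · refine (lap_le _ (h.1.const_smul s) x).trans ?_
    have e1 : iteratedFDeriv ℝ 2 (fun y => s • H y) x = s • iteratedFDeriv ℝ 2 H x :=
      iteratedFDeriv_const_smul_apply' ((h.1.of_le (le_inf 2)).contDiffAt)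
    rw [e1, norm_smul, Real.norm_eq_abs, abs_of_nonneg hs]
    exact mul_le_mul_of_nonneg_left (mul_le_mul_of_nonneg_left h2 hs) (by norm_num)

/-- The linear map which gives the stream field from the derivative. -/
def strL (k ξ : E) : (E →L[ℝ] ℝ) →L[ℝ] E :=
  (ContinuousLinearMap.apply ℝ ℝ k).smulRight ξ - (ContinuousLinearMap.apply ℝ ℝ ξ).smulRight k

theorem stream_eq (k ξ : E) (F : E → ℝ) : stream k ξ F = fun x => strL k ξ (fderiv ℝ F x) := by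
  funext x
  simp [stream, strL, dd]

end FreezeR

open FreezeR in
/-- The remainder of the Taylor expansion of the frozen potential `a ∘ σ`,
`σ x = x - N⁻¹ ρ(N⟨k,x⟩) k`. -/
theorem freeze_rem (a : E → ℝ) (ha : ContDiff ℝ ∞ a) (hac : HasCompactSupport a) (k ξ : E) (hk : ‖k‖ = 1)
    (hξ : ‖ξ‖ = 1) (ρ : ℝ → ℝ) (hρ : ContDiff ℝ ∞ ρ) (hρp : ∀ y, ρ (y + 2 * Real.pi) = ρ y) :
    ∃ C : ℝ, 0 ≤ C ∧ ∀ N : ℝ, 1 ≤ N → ∀ F : E → ℝ,
      (F = fun y => a y - a (y - (N⁻¹ * ρ (N * ⟪k, y⟫)) • k) - N⁻¹ * ρ (N * ⟪k, y⟫) * fderiv ℝ a y k) →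
      ∀ x, ‖stream k ξ F x‖ ≤ C / N ∧ ‖fderiv ℝ (stream k ξ F) x‖ ≤ C ∧ ‖lap (stream k ξ F) x‖ ≤ C * N := by
  have _ := hξ
  have hDa : ContDiff ℝ ∞ (fderiv ℝ a) := ha.fderiv_right (by exact_mod_cast le_top)
  set b : E → ℝ := fun y => fderiv ℝ a y k with hb
  have hbs : ContDiff ℝ ∞ b := hDa.clm_apply contDiff_const
  have hbc : HasCompactSupport b := by
    have h1 : HasCompactSupport (fderiv ℝ a) := hac.fderiv ℝ
    exact h1.comp_left (g := fun φ : E →L[ℝ] ℝ => φ k) (by simp)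
  have hDb : ContDiff ℝ ∞ (fderiv ℝ b) := hbs.fderiv_right (by exact_mod_cast le_top)
  obtain ⟨C1, hC1⟩ := bd_comm k hk ρ hρ hρp 2 (fderiv ℝ a) hDa (hac.fderiv ℝ)
  obtain ⟨C2, hC2⟩ := bd_phase k hk ρ hρ hρp 2
  obtain ⟨C3, hC3⟩ := bd_const (fderiv ℝ b) hDb (hbc.fderiv ℝ) 2
  obtain ⟨C4, hC4⟩ := bd_phase k hk (deriv ρ) (contDiff_deriv hρ) (deriv_periodic hρp) 2
  obtain ⟨C5, hC5⟩ := bd_comm k hk ρ hρ hρp 2 b hbs hbc
  set B1 := ContinuousLinearMap.lsmul ℝ ℝ (E := E →L[ℝ] ℝ) with hB1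
  set B2 := ContinuousLinearMap.lsmul ℝ ℝ (E := ℝ) with hB2
  set L2 : ℝ →L[ℝ] (E →L[ℝ] ℝ) := (ContinuousLinearMap.id ℝ ℝ).smulRight (innerSL ℝ k) with hL2
  set K := ‖strL k ξ‖ * (C1 + ‖B1‖ * (2 ^ 2 * (C2 * C3)) +
    ‖L2‖ * (‖B2‖ * (2 ^ 2 * (C4 * C5)))) with hK
  have key : ∀ N : ℝ, 1 ≤ N → Bd 2 N K (fun x => strL k ξ
      ((N • (fderiv ℝ a x - fderiv ℝ a (sig k ρ N x)) - ρ (N * ⟪k, x⟫) • fderiv ℝ b x) -
        (deriv ρ (N * ⟪k, x⟫) • (N • (b x - b (sig k ρ N x)))) • innerSL ℝ k)) := by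
    intro N hN
    have t1 := hC1 N hN
    have t2 : Bd 2 N (‖B1‖ * (2 ^ 2 * (C2 * C3))) (fun x => ρ (N * ⟪k, x⟫) • fderiv ℝ b x) :=
      (hC2 N hN).bilin B1 (hC3 N hN) hN
    have t3 : Bd 2 N (‖B2‖ * (2 ^ 2 * (C4 * C5)))
        (fun x => deriv ρ (N * ⟪k, x⟫) • (N • (b x - b (sig k ρ N x)))) :=
      (hC4 N hN).bilin B2 (hC5 N hN) hN
    have t4 : Bd 2 N (‖L2‖ * (‖B2‖ * (2 ^ 2 * (C4 * C5))))
        (fun x => (deriv ρ (N * ⟪k, x⟫) • (N • (b x - b (sig k ρ N x)))) • innerSL ℝ k) :=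
      t3.clm L2
    exact ((t1.sub t2).sub t4).clm (strL k ξ)
  have hK0 : 0 ≤ K := (key 1 le_rfl).nonneg
  refine ⟨3 * K, by positivity, fun N hN F hF x => ?_⟩
  have hNpos : 0 < N := by linarith
  have hN0 : N ≠ 0 := hNpos.ne'
  have hfd : ∀ y, fderiv ℝ F y = N⁻¹ •
      ((N • (fderiv ℝ a y - fderiv ℝ a (sig k ρ N y)) - ρ (N * ⟪k, y⟫) • fderiv ℝ b y) -
        (deriv ρ (N * ⟪k, y⟫) • (N • (b y - b (sig k ρ N y)))) • innerSL ℝ k) := by
    intro y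
    have h1 : HasFDerivAt a (fderiv ℝ a (sig k ρ N y)) (sig k ρ N y) :=
      ((ha.differentiable (by simp)) _).hasFDerivAt
    have h2 := h1.comp y (hasFDerivAt_sig k ρ hρ N hN y)
    have h3 : HasFDerivAt a (fderiv ℝ a y) y := ((ha.differentiable (by simp)) _).hasFDerivAt
    have h4 : HasFDerivAt b (fderiv ℝ b y) y := ((hbs.differentiable (by simp)) _).hasFDerivAt
    have h5 := ((hasFDerivAt_phase k ρ hρ N y).const_mul N⁻¹).mul h4
    have h6 := (h3.sub h2).sub h5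
    have h7 : F = ((a - a ∘ sig k ρ N) - fun y => N⁻¹ * ρ (N * ⟪k, y⟫) * b y) := by
      rw [hF]
      rfl
    rw [h7]
    have h8 := h6.fderiv
    refine h8.trans ?_
    ext v
    simp only [dsig, hb, ContinuousLinearMap.sub_apply, ContinuousLinearMap.smul_apply,
      ContinuousLinearMap.comp_apply, ContinuousLinearMap.add_apply, smul_eq_mul,
      ContinuousLinearMap.smulRight_apply, innerSL_apply_apply, ContinuousLinearMap.id_apply, map_sub, map_smul]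
    field_simp
    ring
  have hstr : stream k ξ F = fun y => N⁻¹ • strL k ξ
      ((N • (fderiv ℝ a y - fderiv ℝ a (sig k ρ N y)) - ρ (N * ⟪k, y⟫) • fderiv ℝ b y) -
        (deriv ρ (N * ⟪k, y⟫) • (N • (b y - b (sig k ρ N y)))) • innerSL ℝ k) := by
    rw [stream_eq]
    funext y
    rw [hfd y, map_smul]
  obtain ⟨f1, f2, f3⟩ := finish (key N hN) (inv_nonneg.mpr hNpos.le) x
  rw [hstr]
  refine ⟨f1.trans ?_, f2.trans ?_, f3.trans ?_⟩
  · rw [div_eq_inv_mul]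
    exact mul_le_mul_of_nonneg_left (by linarith) (by positivity)
  · have : N⁻¹ * (K * N) = K := by field_simp
    rw [this]; linarith
  · have : 3 * (N⁻¹ * (K * N ^ 2)) = 3 * K * N := by field_simp
    rw [this]

open FreezeR in
/-- A wave with a small profile. -/
theorem tail_rem (b : E → ℝ) (hb : ContDiff ℝ ∞ b) (hbc : HasCompactSupport b) (k ξ : E) (hk : ‖k‖ = 1)
    (hξ : ‖ξ‖ = 1) :
    ∃ C : ℝ, 0 ≤ C ∧ ∀ N : ℝ, 1 ≤ N → ∀ (T : ℝ → ℝ) (τ : ℝ), ContDiff ℝ ∞ T →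
      (∀ i : ℕ, i ≤ 3 → ∀ y, |iteratedDeriv i T y| ≤ τ) → ∀ F : E → ℝ,
      (F = fun y => N⁻¹ * T (N * ⟪k, y⟫) * b y) →
      ∀ x, ‖stream k ξ F x‖ ≤ C * τ ∧ ‖fderiv ℝ (stream k ξ F) x‖ ≤ C * τ * N ∧
        ‖lap (stream k ξ F) x‖ ≤ C * τ * N ^ 2 := by
  have _ := hξ
  obtain ⟨C1, hC1⟩ := bd_const b hb hbc 3
  have p1 : 0 ≤ C1 := (hC1 1 le_rfl).nonneg
  set B2 := ContinuousLinearMap.lsmul ℝ ℝ (E := ℝ) with hB2
  set K := ‖strL k ξ‖ * (‖B2‖ * (2 ^ 3 * C1)) with hK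
  have hK0 : 0 ≤ K := by positivity
  refine ⟨3 * K, by positivity, fun N hN T τ hT hTb F hF x => ?_⟩
  have hNpos : 0 < N := by linarith
  have hN0 : N ≠ 0 := hNpos.ne'
  have hτ : 0 ≤ τ := (abs_nonneg _).trans (hTb 0 (by norm_num) 0)
  have t1 : Bd 3 N τ (fun x : E => T (N * ⟪k, x⟫)) := bd_phase' k hk T hT 3 N τ hN hTb
  have t2 : Bd 3 N (‖B2‖ * (2 ^ 3 * (τ * C1))) (fun x => T (N * ⟪k, x⟫) * b x) :=
    t1.bilin B2 (hC1 N hN) hN
  have t3 := (Bd.fderiv t2).clm (strL k ξ)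
  have hsm : ContDiff ℝ ∞ (fun x => T (N * ⟪k, x⟫) * b x) := t2.1
  have hfd : ∀ y, fderiv ℝ F y = N⁻¹ • fderiv ℝ (fun x => T (N * ⟪k, x⟫) * b x) y := by
    intro y
    have h1 : F = fun y => N⁻¹ • (T (N * ⟪k, y⟫) * b y) := by
      rw [hF]
      funext y
      rw [smul_eq_mul, mul_assoc]
    rw [h1]
    exact fderiv_fun_const_smul ((hsm.differentiable (by simp)) y) N⁻¹
  have hstr : stream k ξ F = fun y => N⁻¹ • strL k ξ (fderiv ℝ (fun x => T (N * ⟪k, x⟫) * b x) y) := by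
    rw [stream_eq]
    funext y
    rw [hfd y, map_smul]
  obtain ⟨f1, f2, f3⟩ := finish t3 (inv_nonneg.mpr hNpos.le) x
  rw [hstr]
  have eK : ‖strL k ξ‖ * (‖B2‖ * (2 ^ 3 * (τ * C1)) * N) = K * τ * N := by rw [hK]; ring
  rw [eK] at f1 f2 f3
  have hKτ : 0 ≤ K * τ := by positivity
  refine ⟨f1.trans ?_, f2.trans ?_, f3.trans ?_⟩
  · have : N⁻¹ * (K * τ * N) = K * τ := by field_simp
    rw [this]; linarith
  · have : N⁻¹ * (K * τ * N * N) = K * τ * N := by field_simp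
    rw [this]
    have := mul_nonneg hKτ hNpos.le
    linarith
  · have : 3 * (N⁻¹ * (K * τ * N * N ^ 2)) = 3 * K * τ * N ^ 2 := by field_simp
    rw [this]

end Pool.Agent.NSL
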