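import Pool.Agent.NSL.SoftStep
import Pool.Agent.NSL.Contr
import Pool.Agent.NSN.Lacun

/-!
# MP_fd8964_an, soft waves: the state of the iteration
-/

open MeasureTheory Set Filter Topology
open scoped RealInnerProductSpace ContDiff

noncomputable section

namespace Pool.Agent.NSL

open Pool.Agent.NSD Pool.Agent.NSK Pool.Agent.NSK.Layer66 Pool.Agent.NSN Pool.Agent.NSN.Lacun

theorem fld_zero' {Ω : Set E} : fld (0 : V Ω) = 0 := rfl
theorem fld_add' {Ω : Set E} (u v : V Ω) : fld (u + v) = fld u + fld v := rfl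

theorem rep_zero' (Ω : Set E) : Represents Ω (fun _ => (0 : E)) (0 : V Ω) := by
  refine ⟨?_, ?_⟩
  · exact Lp.coeFn_zero E 2 _
  · have : gradField (fun _ => (0 : E)) = 0 := gradField_zero
    rw [this]; exact Lp.coeFn_zero G 2 _

/-- The state after `m` soft waves: the sum `W` of the waves is represented by `F`. -/
structure St {Ω : Set E} (Gd : ℝ → Set (V Ω)) (ε : ℝ) (x : V Ω) (D : ℝ) (m : ℕ) (W : V Ω) (F : E → E) : Prop where
  test : IsTest Ω F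
  rep : Represents Ω F W
  mem : ∃ ε₁, 0 < ε₁ ∧ ε₁ < ε ∧ x + W ∈ Gd ε₁
  heat : ∃ l, Lac l ∧ l.length = m ∧ ∀ t y, 0 < t → √t * ‖heatExt W t y‖ ≤ D * lacF l √t
  dual : ∀ φ : V Ω, |⟪fld W, fld φ⟫| ≤ m * D * ‖φ‖

theorem St.zero {Ω : Set E} {Gd : ℝ → Set (V Ω)} {ε ε₁ : ℝ} (h0 : 0 < ε₁) (h1 : ε₁ < ε) {x : V Ω} (hx : x ∈ Gd ε₁)
    (D : ℝ) : St Gd ε x D 0 0 (fun _ => 0) := by
  refine ⟨isTest_zero Ω, rep_zero' Ω, ⟨ε₁, h0, h1, by rwa [add_zero]⟩, ⟨[], ⟨by simp, by simp⟩, rfl, ?_⟩, ?_⟩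
  · intro t y _
    rw [heatExt_zero]
    simp [lacF]
  · intro φ
    rw [fld_zero', inner_zero_left]
    simp

theorem norm_fld_smul_inner {Ω : Set E} (c : ℝ) (W φ : V Ω) : ⟪fld (c • W), fld φ⟫ = c * ⟪fld W, fld φ⟫ := by
  have : fld (c • W) = c • fld W := rfl
  rw [this, real_inner_smul_left]

/-- Bounds for one soft wave. -/
theorem soft_bounds {Ω : Set E} (hΩ : IsOpen Ω) (hb : Bornology.IsBounded Ω) (r : ℕ) {k ξ : E} {a : E → ℝ}
    (hk : ‖k‖ = 1) (hξ : ‖ξ‖ = 1) (hkξ : ⟪k, ξ⟫ = 0) (ha : IsBump Ω a) :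
    ∃ C : ℝ, 0 ≤ C ∧ ∀ N : ℝ, 1 ≤ N → ∀ P : V Ω, Represents Ω (softW r N k ξ a) P →
      (∀ t y, 0 < t → √t * ‖heatExt P t y‖ ≤ C / N * kap (N * √t)) ∧
      ∀ φ : V Ω, |⟪fld P, fld φ⟫| ≤ C / N * ‖φ‖ := by
  obtain ⟨C₁, hC₁, h1⟩ := stream_heat k ξ a hk hξ hkξ (bump_mono (subset_univ _) ha)
  obtain ⟨C₂, hC₂, h2⟩ := Weak.pair_bound pairXi_proof hΩ hb (n := 1) (a := fun _ => a) (k := fun _ => k)
    (ξ := fun _ => ξ) (fun _ => ha) (fun _ => hk) (fun _ => hξ)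
  refine ⟨C₁ + C₂, by positivity, fun N hN P hP => ?_⟩
  have hN0 : 0 < N := by linarith
  have hNr : 0 < N ^ (r + 1) := by positivity
  have hle : (N ^ (r + 1))⁻¹ ≤ 1 / N := by
    rw [one_div]
    refine inv_anti₀ hN0 ?_
    calc N = N ^ 1 := (pow_one N).symm
      _ ≤ N ^ (r + 1) := pow_le_pow_right₀ hN (by omega)
  have hc0 : 0 ≤ (N ^ (r + 1))⁻¹ := by positivity
  refine ⟨fun t y ht => ?_, fun φ => ?_⟩
  · have hs : 0 < √t := Real.sqrt_pos.2 ht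
    rw [heatExt_rep hΩ (isTest_softW r N ha) hP]
    have e1 : ∫ z, heatK t (y - z) • softW r N k ξ a z
        = (N ^ (r + 1))⁻¹ • ∫ z, heatK t (y - z) • stream k ξ (gS N k a) z := by
      rw [← integral_smul]
      refine integral_congr_ae (Filter.Eventually.of_forall fun z => ?_)
      simp only [softW, Pi.smul_apply]
      rw [smul_comm]
    rw [e1, norm_smul, Real.norm_of_nonneg hc0]
    have h3 := h1 N t y hN ht
    have hk0 : 0 ≤ kap (N * √t) := kap_nonneg (by positivity)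
    calc √t * ((N ^ (r + 1))⁻¹ * ‖∫ z, heatK t (y - z) • stream k ξ (gS N k a) z‖)
        = (N ^ (r + 1))⁻¹ * (√t * ‖∫ z, heatK t (y - z) • stream k ξ (gS N k a) z‖) := by ring
      _ ≤ (1 / N) * (C₁ * kap (N * √t)) := mul_le_mul hle h3 (by positivity) (by positivity)
      _ ≤ (1 / N) * ((C₁ + C₂) * kap (N * √t)) := by gcongr; linarith
      _ = _ := by ring
  · obtain ⟨Q, hQ⟩ := Rep_proof Ω _ (isTest_stream (Ω := Ω) k ξ (isBump_gS N k ha))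
    have hPQ : P = (N ^ (r + 1))⁻¹ • Q := by
      have h3 : Represents Ω (softW r N k ξ a) (((N ^ (r + 1))⁻¹ • Q : V Ω) : H1 Ω) :=
        Layer66.rep_smul _ (isTest_stream (Ω := Ω) k ξ (isBump_gS N k ha)) hQ
      refine Subtype.ext ?_
      have e1 : (P : H1 Ω).fst = (((N ^ (r + 1))⁻¹ • Q : V Ω) : H1 Ω).fst := Lp.ext (hP.1.trans h3.1.symm)
      have e2 : (P : H1 Ω).snd = (((N ^ (r + 1))⁻¹ • Q : V Ω) : H1 Ω).snd := Lp.ext (hP.2.trans h3.2.symm)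
      exact (WithLp.ofLp_injective 2) (Prod.ext e1 e2)
    have h4 : |⟪fld Q, fld φ⟫| ≤ C₂ * ‖φ‖ := by
      refine h2 N Q φ ?_
      have : waveA N (fun _ : Fin 1 => a) (fun _ => k) (fun _ => ξ) = stream k ξ (gS N k a) := by
        funext y; simp [waveA]
      rw [this]; exact hQ
    rw [hPQ, norm_fld_smul_inner, abs_mul, abs_of_nonneg hc0]
    calc (N ^ (r + 1))⁻¹ * |⟪fld Q, fld φ⟫| ≤ (1 / N) * (C₂ * ‖φ‖) :=
          mul_le_mul hle h4 (abs_nonneg _) (by positivity)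
      _ ≤ (1 / N) * ((C₁ + C₂) * ‖φ‖) := by gcongr; linarith
      _ = _ := by ring

/-- One more wave. -/
theorem St.step {Ω : Set E} (hΩ : IsOpen Ω) (hb : Bornology.IsBounded Ω) {Gd : ℝ → Set (V Ω)}
    (hS : SoftClosed Ω Gd) {ε : ℝ} {x : V Ω} {D : ℝ} (hD : 0 < D) {m : ℕ} {W : V Ω} {F : E → E}
    (h : St Gd ε x D m W F) (r : ℕ) {k ξ : E} {a : E → ℝ}
    (hk : ‖k‖ = 1) (hξ : ‖ξ‖ = 1) (hkξ : ⟪k, ξ⟫ = 0) (ha : IsBump Ω a) :
    ∃ N₀ : ℝ, 1 ≤ N₀ ∧ ∀ N : ℝ, N₀ ≤ N → ∃ W' : V Ω, St Gd ε x D (m + 1) W' (F + softW r N k ξ a) := by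
  obtain ⟨ε₁, hε₁, hε₁', hmem⟩ := h.mem
  obtain ⟨l, hl, hlm, hheat⟩ := h.heat
  obtain ⟨N₁, hN₁, hg⟩ := hS ε₁ ((ε₁ + ε) / 2) hε₁ (by linarith) _ hmem r k ξ a hk hξ hkξ ha
  obtain ⟨C, hC, hbd⟩ := soft_bounds hΩ hb r hk hξ hkξ ha
  refine ⟨max N₁ (max (2 * l.headD 1) (C / D)), hN₁.trans (le_max_left _ _), fun N hN => ?_⟩
  have h1 : N₁ ≤ N := (le_max_left _ _).trans hN
  have h2 : 2 * l.headD 1 ≤ N := ((le_max_left _ _).trans (le_max_right _ _)).trans hN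
  have h3 : C / D ≤ N := ((le_max_right _ _).trans (le_max_right _ _)).trans hN
  have h1N : 1 ≤ N := hN₁.trans h1
  have hN0 : 0 < N := by linarith
  have hCD : C / N ≤ D := by
    rw [div_le_iff₀ hD] at h3
    rw [div_le_iff₀ hN0]
    linarith
  have ht := isTest_softW (k := k) (ξ := ξ) r N ha
  obtain ⟨P, hP⟩ := Rep_proof Ω _ ht
  obtain ⟨hb1, hb2⟩ := hbd N h1N P hP
  refine ⟨W + P, ⟨h.test.add ht, Layer66.rep_add h.test ht h.rep hP, ⟨(ε₁ + ε) / 2, by linarith, by linarith, ?_⟩,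
    ⟨N :: l, ⟨?_, ?_⟩, by simp [hlm], ?_⟩, ?_⟩⟩
  · have := hg N h1 P hP
    rwa [add_assoc] at this
  · intro M hM
    rcases List.mem_cons.1 hM with h | h
    · rw [h]; exact h1N
    · exact hl.1 M h
  · cases l with
    | nil => simp
    | cons M l => exact List.isChain_cons_cons.2 ⟨by simpa using h2, hl.2⟩
  · intro t y ht
    rw [heatExt_add hb]
    have hs : 0 < √t := Real.sqrt_pos.2 ht
    have hk0 : 0 ≤ kap (N * √t) := kap_nonneg (by positivity)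
    have e1 := hheat t y ht
    have e2 := hb1 t y ht
    have e : lacF (N :: l) √t = kap (N * √t) + lacF l √t := by simp [lacF]
    calc √t * ‖heatExt W t y + heatExt P t y‖ ≤ √t * (‖heatExt W t y‖ + ‖heatExt P t y‖) := by
          gcongr; exact norm_add_le _ _
      _ = √t * ‖heatExt W t y‖ + √t * ‖heatExt P t y‖ := by ring
      _ ≤ D * lacF l √t + D * kap (N * √t) := add_le_add e1 (e2.trans (mul_le_mul_of_nonneg_right hCD hk0))
      _ = _ := by rw [e]; ring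
  · intro φ
    rw [fld_add', inner_add_left]
    have e1 := h.dual φ
    have e2 := (hb2 φ).trans (mul_le_mul_of_nonneg_right hCD (norm_nonneg _))
    refine (abs_add_le _ _).trans ((add_le_add e1 e2).trans (le_of_eq ?_))
    push_cast; ring

end Pool.Agent.NSL
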