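import Pool.Agent.NSL.MultiStep
import Pool.Agent.NSL.State
import Pool.Agent.NSL.Approx
import Pool.Agent.NSL.FreezeR

/-!
# MP_fd8964_an, freezing: the freezing fields
-/

open MeasureTheory Set Filter Topology
open scoped RealInnerProductSpace ContDiff

noncomputable section

namespace Pool.Agent.NSL

open Pool.Agent.NSD Pool.Agent.NSK Pool.Agent.NSK.Layer66 Pool.Agent.NSN Pool.Agent.NSN.Lacun

/-- A smooth periodic profile with a rapidly converging sine series. -/
structure Saw (ρ : ℝ → ℝ) (s : ℕ → ℝ) : Prop where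
  smooth : ContDiff ℝ ∞ ρ
  per : ∀ y, ρ (y + 2 * Real.pi) = ρ y
  summ : Summable (fun j : ℕ => (j : ℝ) ^ 4 * |s j|)
  tail : ∀ τ : ℝ, 0 < τ → ∃ n : ℕ, ∀ i : ℕ, i ≤ 3 → ∀ y : ℝ,
    |iteratedDeriv i (fun y => ρ y - ∑ j ∈ Finset.range n, s j * Real.sin (j * y)) y| ≤ τ

theorem Saw.bdd {ρ : ℝ → ℝ} {s : ℕ → ℝ} (h : Saw ρ s) : ∃ C : ℝ, 0 ≤ C ∧ ∀ y, |ρ y| ≤ C := by
  have hp : Function.Periodic ρ (2 * Real.pi) := h.per
  have h1 : IsCompact (range ρ) := hp.compact_of_continuous (by positivity) h.smooth.continuous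
  obtain ⟨C, hC⟩ := h1.isBounded.exists_norm_le
  refine ⟨|C|, abs_nonneg _, fun y => ?_⟩
  exact (hC _ (mem_range_self y)).trans (le_abs_self C)

/-! ### Stream fields are linear in the potential -/

section lin
variable {k ξ : E} {g g' : E → ℝ}

theorem stream_add (hg : Differentiable ℝ g) (hg' : Differentiable ℝ g') :
    stream k ξ (fun y => g y + g' y) = stream k ξ g + stream k ξ g' := by
  funext x
  simp only [stream, dd, Pi.add_apply]
  rw [fderiv_fun_add (hg x) (hg' x)]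
  simp only [_root_.add_apply]
  module

theorem stream_sub (hg : Differentiable ℝ g) (hg' : Differentiable ℝ g') :
    stream k ξ (fun y => g y - g' y) = stream k ξ g - stream k ξ g' := by
  funext x
  simp only [stream, dd, Pi.sub_apply]
  rw [fderiv_fun_sub (hg x) (hg' x)]
  simp only [_root_.sub_apply]
  module

theorem stream_mul (c : ℝ) (hg : Differentiable ℝ g) :
    stream k ξ (fun y => c * g y) = c • stream k ξ g := by
  funext x
  simp only [stream, dd, Pi.smul_apply]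
  rw [fderiv_const_mul (hg x)]
  simp only [_root_.smul_apply, smul_eq_mul]
  module

theorem stream_zero' : stream k ξ (fun _ => (0 : ℝ)) = 0 := by
  funext x
  simp [stream, dd]

theorem stream_sum {ι : Type*} (s : Finset ι) {g : ι → E → ℝ} (hg : ∀ i, Differentiable ℝ (g i)) :
    stream k ξ (fun y => ∑ i ∈ s, g i y) = ∑ i ∈ s, stream k ξ (g i) := by
  classical
  induction s using Finset.induction_on with
  | empty => simp only [Finset.sum_empty]; exact stream_zero'
  | insert i s hi ih =>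
    rw [Finset.sum_insert hi, ← ih, ← stream_add (hg i) (Differentiable.fun_sum fun j _ => hg j)]
    congr 1
    funext y
    rw [Finset.sum_insert hi]

end lin

/-! ### Frozen potentials -/

/-- The potential frozen in the direction `k`. -/
def frz (N : ℝ) (ρ : ℝ → ℝ) (k : E) (a : E → ℝ) (y : E) : ℝ := a (y - (N⁻¹ * ρ (N * ⟪k, y⟫)) • k)

theorem frz_smooth (N : ℝ) {ρ : ℝ → ℝ} (hρ : ContDiff ℝ ∞ ρ) (k : E) {a : E → ℝ} (ha : ContDiff ℝ ∞ a) :
    ContDiff ℝ ∞ (frz N ρ k a) := by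
  have h1 : ContDiff ℝ ∞ fun y : E => ⟪k, y⟫ := contDiff_const.inner ℝ contDiff_id
  have h2 : ContDiff ℝ ∞ fun y : E => ρ (N * ⟪k, y⟫) := hρ.comp (contDiff_const.mul h1)
  exact ha.comp (contDiff_id.sub ((contDiff_const.mul h2).smul contDiff_const))

theorem frz_bump {Ω : Set E} (hΩ : IsOpen Ω) {ρ : ℝ → ℝ} {s : ℕ → ℝ} (hS : Saw ρ s) {k : E} (hk : ‖k‖ = 1)
    {a : E → ℝ} (ha : IsBump Ω a) : ∃ N₁ : ℝ, 1 ≤ N₁ ∧ ∀ N : ℝ, N₁ ≤ N → IsBump Ω (frz N ρ k a) := by
  obtain ⟨C, hC, hρ⟩ := hS.bdd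
  have hcomp : IsCompact (tsupport a) := ha.2.1
  obtain ⟨δ, hδ, hsub⟩ := hcomp.exists_cthickening_subset_open hΩ ha.2.2
  refine ⟨max 1 (C / δ), le_max_left _ _, fun N hN => ?_⟩
  have hN1 : 1 ≤ N := (le_max_left _ _).trans hN
  have hN0 : 0 < N := by linarith
  have hN2 : C / N ≤ δ := by
    have := (le_max_right _ _).trans hN
    rw [div_le_iff₀ hδ] at this
    rw [div_le_iff₀ hN0]; linarith
  have hsupp : Function.support (frz N ρ k a) ⊆ Metric.cthickening δ (tsupport a) := by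
    intro y hy
    have h1 : y - (N⁻¹ * ρ (N * ⟪k, y⟫)) • k ∈ tsupport a := subset_tsupport _ hy
    refine Metric.mem_cthickening_of_dist_le y _ δ _ h1 ?_
    rw [dist_eq_norm, sub_sub_cancel, norm_smul, hk, mul_one, norm_mul, norm_inv, Real.norm_of_nonneg hN0.le,
      Real.norm_eq_abs, inv_mul_eq_div]
    exact (div_le_div_of_nonneg_right (hρ _) hN0.le).trans hN2
  have hts : tsupport (frz N ρ k a) ⊆ Metric.cthickening δ (tsupport a) :=
    closure_minimal hsupp Metric.isClosed_cthickening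
  exact ⟨frz_smooth N hS.smooth k ha.1, (hcomp.cthickening).of_isClosed_subset (isClosed_tsupport _) hts,
    hts.trans hsub⟩

/-! ### Representation and heat extension -/

theorem rep_unique {Ω : Set E} {v : E → E} {P Q : V Ω} (hP : Represents Ω v (P : H1 Ω))
    (hQ : Represents Ω v (Q : H1 Ω)) : P = Q := by
  refine Subtype.ext ?_
  have e1 : (P : H1 Ω).fst = (Q : H1 Ω).fst := Lp.ext (hP.1.trans hQ.1.symm)
  have e2 : (P : H1 Ω).snd = (Q : H1 Ω).snd := Lp.ext (hP.2.trans hQ.2.symm)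
  exact (WithLp.ofLp_injective 2) (Prod.ext e1 e2)

theorem heatExt_smul {Ω : Set E} (c : ℝ) (w : V Ω) (t : ℝ) (x : E) :
    heatExt (c • w) t x = c • heatExt w t x := by
  unfold heatExt
  rw [← integral_smul]
  refine integral_congr_ae ?_
  have h1 : (fld (c • w) : E → E) =ᵐ[volume.restrict Ω] c • (fld w : E → E) := Lp.coeFn_smul c (fld w)
  filter_upwards [h1] with y hy
  rw [hy, Pi.smul_apply, smul_comm]

theorem heatExt_sum_le {Ω : Set E} (hb : Bornology.IsBounded Ω) {ι : Type*} (s : Finset ι) (a : ι → V Ω)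
    (t : ℝ) (x : E) : ‖heatExt (∑ i ∈ s, a i) t x‖ ≤ ∑ i ∈ s, ‖heatExt (a i) t x‖ := by
  classical
  induction s using Finset.induction_on with
  | empty => simp only [Finset.sum_empty]; rw [heatExt_zero, norm_zero]
  | insert i s hi ih =>
    rw [Finset.sum_insert hi, Finset.sum_insert hi, heatExt_add hb]
    exact (norm_add_le _ _).trans (by linarith)

/-- Small fields have small heat extensions. -/
theorem heat_small {Ω : Set E} (hΩ : IsOpen Ω) (hb : Bornology.IsBounded Ω) : ∃ C : ℝ, 0 ≤ C ∧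
    ∀ (R : E → E) (P : V Ω) (m : ℝ), 0 ≤ m → IsTest Ω R → Represents Ω R P → (∀ x, ‖R x‖ ≤ m) →
      (∀ t y, 0 < t → √t * ‖heatExt P t y‖ ≤ C * m * kap √t) ∧
      ∀ φ : V Ω, |⟪fld P, fld φ⟫| ≤ C * m * ‖φ‖ := by
  have : IsFiniteMeasure (volume.restrict Ω) := ⟨by
    rw [Measure.restrict_apply_univ]; exact hb.measure_lt_top⟩
  obtain ⟨K, hK, hKn⟩ := norm_cls (Ω := Ω) E hb
  set v : ℝ := (volume Ω).toReal with hv
  have hv0 : 0 ≤ v := ENNReal.toReal_nonneg
  refine ⟨4 * (1 + v) + K, by positivity, fun R P m hm hR hP hRm => ⟨fun t y ht => ?_, fun φ => ?_⟩⟩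
  · have hs : 0 < √t := Real.sqrt_pos.2 ht
    have hss : √t * √t = t := Real.mul_self_sqrt ht.le
    have hint : Integrable (fun z => heatK t (y - z)) := by
      have := (Heat.heatK_integrable ht).comp_sub_left y
      exact this
    have h1 : ‖heatExt P t y‖ ≤ m := by
      rw [heatExt_rep hΩ hR hP]
      calc ‖∫ z, heatK t (y - z) • R z‖ ≤ ∫ z, heatK t (y - z) * m := by
            refine norm_integral_le_of_norm_le (hint.mul_const m) (Filter.Eventually.of_forall fun z => ?_)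
            rw [norm_smul, Real.norm_of_nonneg (Heat.heatK_nonneg ht _)]
            exact mul_le_mul_of_nonneg_left (hRm z) (Heat.heatK_nonneg ht _)
        _ = m := by
            rw [integral_mul_const, integral_sub_left_eq_self (fun z => heatK t z) volume y, Heat.heatK_mass ht,
              one_mul]
    have h2 : ‖heatExt P t y‖ ≤ (t ^ (3 / 2 : ℝ))⁻¹ * (m * v) := by
      unfold heatExt
      calc ‖∫ z in Ω, heatK t (y - z) • (fld P : E → E) z‖ ≤ ∫ z in Ω, (t ^ (3 / 2 : ℝ))⁻¹ * m := by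
            refine norm_integral_le_of_norm_le (integrable_const _) ?_
            filter_upwards [hP.1] with z hz
            have hz' : (fld P : E → E) z = R z := hz
            rw [hz', norm_smul, Real.norm_of_nonneg (Heat.heatK_nonneg ht _)]
            exact mul_le_mul (Heat.heatK_sup t ht _) (hRm z) (norm_nonneg _) (by positivity)
        _ = _ := by
            rw [integral_const, smul_eq_mul, Measure.real, Measure.restrict_apply_univ]
            ring
    have h3 : √t * ‖heatExt P t y‖ ≤ (1 + v) * m * √t := by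
      calc √t * ‖heatExt P t y‖ ≤ √t * m := mul_le_mul_of_nonneg_left h1 hs.le
        _ ≤ (1 + v) * m * √t := by nlinarith [mul_nonneg hv0 (mul_nonneg hm hs.le)]
    have h4 : √t * ‖heatExt P t y‖ ≤ (1 + v) * m / √t := by
      rw [le_div_iff₀ hs]
      rcases le_total t 1 with h | h
      · have e1 : √t ≤ 1 := Real.sqrt_le_one.2 h
        calc √t * ‖heatExt P t y‖ * √t ≤ 1 * m * 1 := by gcongr
          _ ≤ (1 + v) * m := by nlinarith [mul_nonneg hv0 hm]
      · have e1 : t * (t ^ (3 / 2 : ℝ))⁻¹ ≤ 1 := by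
          rw [← div_eq_mul_inv, div_le_one (by positivity)]
          calc t = t ^ (1 : ℝ) := (Real.rpow_one t).symm
            _ ≤ t ^ (3 / 2 : ℝ) := Real.rpow_le_rpow_of_exponent_le h (by norm_num)
        calc √t * ‖heatExt P t y‖ * √t = (√t * √t) * ‖heatExt P t y‖ := by ring
          _ = t * ‖heatExt P t y‖ := by rw [hss]
          _ ≤ t * ((t ^ (3 / 2 : ℝ))⁻¹ * (m * v)) := mul_le_mul_of_nonneg_left h2 ht.le
          _ = (t * (t ^ (3 / 2 : ℝ))⁻¹) * (m * v) := by ring
          _ ≤ 1 * (m * v) := mul_le_mul_of_nonneg_right e1 (by positivity)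
          _ ≤ (1 + v) * m := by nlinarith
    have h5 := le_kap hs (C := (1 + v) * m) (by positivity) h3 h4
    refine h5.trans ?_
    have := kap_nonneg hs.le
    have : 4 * ((1 + v) * m) ≤ (4 * (1 + v) + K) * m := by nlinarith [mul_nonneg hK hm]
    gcongr
  · have h1 := hKn R (fld P) m hP.1 hm hRm
    have h2 : ‖fld φ‖ ≤ ‖φ‖ := by
      have : ‖fld φ‖ ^ 2 + ‖grd φ‖ ^ 2 = ‖φ‖ ^ 2 := by
        have := WithLp.prod_norm_sq_eq_of_L2 (φ : H1 Ω)
        exact this.symm
      nlinarith [norm_nonneg φ, norm_nonneg (fld φ), sq_nonneg ‖grd φ‖]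
    calc |⟪fld P, fld φ⟫| ≤ ‖fld P‖ * ‖fld φ‖ := abs_real_inner_le_norm _ _
      _ ≤ (K * m) * ‖φ‖ := mul_le_mul h1 h2 (norm_nonneg _) (by positivity)
      _ ≤ (4 * (1 + v) + K) * m * ‖φ‖ := by
        have : K * m ≤ (4 * (1 + v) + K) * m := by nlinarith [mul_nonneg hv0 hm]
        gcongr

/-! ### The decomposition of the freezing field -/

theorem isBump_sub' {Ω : Set E} {a b : E → ℝ} (ha : IsBump Ω a) (hb : IsBump Ω b) :
    IsBump Ω (fun x => a x - b x) := by
  have h := isBump_add ha (isBump_smul (-1) hb)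
  have e : (fun x => a x - b x) = fun x => a x + -1 * b x := by funext x; ring
  rw [e]; exact h

theorem isBump_sum' {Ω : Set E} {ι : Type*} (s : Finset ι) {a : ι → E → ℝ} (ha : ∀ i, IsBump Ω (a i)) :
    IsBump Ω (fun x => ∑ i ∈ s, a i x) := by
  classical
  induction s using Finset.induction_on with
  | empty => simp only [Finset.sum_empty]; exact isBump_zero
  | insert i s hi ih =>
    have e : (fun x => ∑ j ∈ insert i s, a j x) = fun x => a i x + ∑ j ∈ s, a j x := by
      funext x; rw [Finset.sum_insert hi]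
    rw [e]; exact isBump_add (ha i) ih

theorem kap_mul_le {j b : ℝ} (hj : 1 ≤ j) (hb : 0 ≤ b) : kap (j * b) ≤ j * kap b := by
  unfold kap
  rw [mul_div_assoc']
  have h1 : b ≤ j * b := le_mul_of_one_le_left hb hj
  have hj0 : 0 ≤ j := by linarith
  exact div_le_div_of_nonneg_left (by positivity) (by positivity) (by nlinarith)

theorem freeze_sys {Ω : Set E} (hΩ : IsOpen Ω) (hb : Bornology.IsBounded Ω) {η : ℝ} (hη : 0 < η)
    {a : E → ℝ} (ha : IsBump Ω a) {k ξ : E} (hk : ‖k‖ = 1) (hξ : ‖ξ‖ = 1) (hkξ : ⟪k, ξ⟫ = 0)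
    {ρ : ℝ → ℝ} {s : ℕ → ℝ} (hS : Saw ρ s) :
    ∃ B C N₁ : ℝ, 0 ≤ B ∧ 0 ≤ C ∧ 1 ≤ N₁ ∧ ∀ N : ℝ, N₁ ≤ N → IsBump Ω (frz N ρ k a) ∧
      ∃ (n : ℕ) (μ w : Fin n → ℝ) (g : Fin n → E → E), Multi Ω η B N n μ w g ∧
        (∑ i, g i = stream k ξ (fun y => a y - frz N ρ k a y)) ∧
        ∀ P : V Ω, Represents Ω (∑ i, g i) P →
          (∀ t y, 0 < t → √t * ‖heatExt P t y‖ ≤ C / N * lacF [N, 1] √t) ∧
          ∀ φ : V Ω, |⟪fld P, fld φ⟫| ≤ C / N * ‖φ‖ := by
  classical
  obtain ⟨N₁, hN₁, hfrz⟩ := frz_bump hΩ hS hk ha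
  -- the amplitude
  set b : E → ℝ := dd k a with hbdef
  have hbb : IsBump Ω b := Weak.isBump_dd ha k
  obtain ⟨CE, hCE, hE⟩ := freeze_rem a ha.1 ha.2.1 k ξ hk hξ ρ hS.smooth hS.per
  obtain ⟨CT, hCT, hT⟩ := tail_rem b hbb.1 hbb.2.1 k ξ hk hξ
  obtain ⟨C₁, hC₁, h1⟩ := bd_soft (Ω := Ω) 0 hk hξ hkξ hbb
  obtain ⟨C₂, hC₂, h2⟩ := bd_dsoft (Ω := Ω) 0 hk hξ hkξ hbb
  obtain ⟨C₃, hC₃, h3⟩ := bd_lsoft (Ω := Ω) 0 hη hk hξ hkξ hbb
  obtain ⟨C₄, hC₄, h4⟩ := soft_bounds hΩ hb 0 hk hξ hkξ hbb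
  obtain ⟨C₅, hC₅, h5⟩ := heat_small hΩ hb
  set T₄ : ℝ := ∑' j : ℕ, (j : ℝ) ^ 4 * |s j| with hT₄
  have hT₄0 : 0 ≤ T₄ := tsum_nonneg fun j => by positivity
  have hsum4 : ∀ n : ℕ, ∑ j : Fin n, ((j : ℕ) : ℝ) ^ 4 * |s j| ≤ T₄ := by
    intro n
    rw [Fin.sum_univ_eq_sum_range (fun j : ℕ => (j : ℝ) ^ 4 * |s j|) n]
    exact hS.summ.sum_le_tsum _ fun j _ => by positivity
  set CS : ℝ := C₁ + C₂ + C₃ with hCS
  have hCS0 : 0 ≤ CS := by positivity
  set CR : ℝ := CE + CT with hCR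
  have hCR0 : 0 ≤ CR := by positivity
  refine ⟨(1 + 2 * η) * CR + CS * T₄, C₅ * CR + C₄ * T₄, N₁, by positivity, by positivity, hN₁, fun N hN => ?_⟩
  have hN1 : 1 ≤ N := hN₁.trans hN
  have hN0 : 0 < N := by linarith
  have hN23 : N ^ 2 ≤ N ^ 3 := by nlinarith [sq_nonneg N]
  have hfb := hfrz N hN
  refine ⟨hfb, ?_⟩
  obtain ⟨n, hn⟩ := hS.tail N⁻¹ (by positivity)
  -- the remainder potential
  set T : ℝ → ℝ := fun y => ρ y - ∑ j ∈ Finset.range n, s j * Real.sin (j * y) with hTdef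
  have hTs : ContDiff ℝ ∞ T := by
    refine hS.smooth.sub (ContDiff.sum fun j _ => ?_)
    exact contDiff_const.mul (Real.contDiff_sin.comp (contDiff_const.mul contDiff_id))
  set EF : E → ℝ := fun y => a y - a (y - (N⁻¹ * ρ (N * ⟪k, y⟫)) • k) - N⁻¹ * ρ (N * ⟪k, y⟫) * fderiv ℝ a y k
    with hEF
  set TF : E → ℝ := fun y => N⁻¹ * T (N * ⟪k, y⟫) * b y with hTF
  have hin : ContDiff ℝ ∞ fun y : E => ⟪k, y⟫ := contDiff_const.inner ℝ contDiff_id
  have hEFs : ContDiff ℝ ∞ EF := by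
    have e1 : EF = fun y => a y - frz N ρ k a y - N⁻¹ * ρ (N * ⟪k, y⟫) * b y := rfl
    rw [e1]
    exact (ha.1.sub hfb.1).sub ((contDiff_const.mul (hS.smooth.comp (contDiff_const.mul hin))).mul hbb.1)
  have hTFs : ContDiff ℝ ∞ TF :=
    (contDiff_const.mul (hTs.comp (contDiff_const.mul hin))).mul hbb.1
  set RF : E → ℝ := fun y => EF y + TF y with hRF
  have hRFs : ContDiff ℝ ∞ RF := hEFs.add hTFs
  have hRF0 : ∀ y, RF y = a y - frz N ρ k a y
      - ∑ j ∈ Finset.range n, (N⁻¹ * s j) * gS (j * N) k b y := by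
    intro y
    simp only [hRF, hEF, hTF, hTdef, gS]
    have e1 : fderiv ℝ a y k = b y := rfl
    have e2 : ∀ j : ℕ, (N⁻¹ * s j) * (Real.sin ((j : ℝ) * N * ⟪k, y⟫) * b y)
        = N⁻¹ * b y * (s j * Real.sin (j * (N * ⟪k, y⟫))) := fun j => by
      rw [mul_assoc (j : ℝ)]; ring
    rw [e1, Finset.sum_congr rfl fun j _ => e2 j, ← Finset.mul_sum]
    simp only [frz]
    ring
  have hRb : IsBump Ω RF := by
    have e1 : RF = fun y => (fun y => a y - frz N ρ k a y) y
        - (fun y => ∑ j ∈ Finset.range n, (N⁻¹ * s j) * gS (j * N) k b y) y := funext hRF0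
    rw [e1]
    refine isBump_sub' (isBump_sub' ha hfb) (isBump_sum' _ fun j => ?_)
    exact isBump_smul (N⁻¹ * s j) (isBump_gS _ k hbb)
  have hRt : IsTest Ω (stream k ξ RF) := isTest_stream k ξ hRb
  have hRst : stream k ξ RF = stream k ξ EF + stream k ξ TF :=
    stream_add (hEFs.differentiable (by simp)) (hTFs.differentiable (by simp))
  have hsE := contDiff_stream k ξ hEFs
  have hsT := contDiff_stream k ξ hTFs
  have bR : ∀ x, ‖stream k ξ RF x‖ ≤ CR / N := fun x => by
    rw [hRst, Pi.add_apply]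
    have e1 := (hE N hN1 EF rfl x).1
    have e2 := (hT N hN1 T N⁻¹ hTs hn TF rfl x).1
    calc _ ≤ CE / N + CT * N⁻¹ := (norm_add_le _ _).trans (add_le_add e1 e2)
      _ = CR / N := by rw [hCR]; ring
  have bdR : ∀ x, ‖fderiv ℝ (stream k ξ RF) x‖ ≤ CR := fun x => by
    rw [hRst]
    have e0 : fderiv ℝ (stream k ξ EF + stream k ξ TF) x
        = fderiv ℝ (stream k ξ EF) x + fderiv ℝ (stream k ξ TF) x :=
      fderiv_add (hsE.differentiable (by simp) x) (hsT.differentiable (by simp) x)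
    rw [e0]
    have e1 := (hE N hN1 EF rfl x).2.1
    have e2 := (hT N hN1 T N⁻¹ hTs hn TF rfl x).2.1
    calc _ ≤ CE + CT * N⁻¹ * N := (norm_add_le _ _).trans (add_le_add e1 e2)
      _ = CR := by rw [hCR]; field_simp
  have blR : ∀ x, ‖lap (stream k ξ RF) x‖ ≤ CR * N := fun x => by
    rw [hRst, Layer66.lap_add hsE hsT]
    have e1 := (hE N hN1 EF rfl x).2.2
    have e2 := (hT N hN1 T N⁻¹ hTs hn TF rfl x).2.2
    calc _ ≤ CE * N + CT * N⁻¹ * N ^ 2 := (norm_add_le _ _).trans (add_le_add e1 e2)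
      _ = CR * N := by rw [hCR]; field_simp
  -- the waves
  set A : Fin n → E → E := fun j => ((j : ℕ) * s j : ℝ) • softW 0 ((j : ℕ) * N) k ξ b with hA
  have hAt : ∀ j, IsTest Ω (A j) := fun j => (isTest_softW 0 _ hbb).smul _
  have hA0 : ∀ j : Fin n, (j : ℕ) = 0 → A j = 0 := fun j hj => by
    simp only [hA, hj, Nat.cast_zero, zero_mul, zero_smul]
  have hj1 : ∀ j : Fin n, (j : ℕ) ≠ 0 → (1 : ℝ) ≤ ((j : ℕ) : ℝ) := fun j hj => by
    exact_mod_cast Nat.one_le_iff_ne_zero.2 hj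
  have hM1 : ∀ j : Fin n, (j : ℕ) ≠ 0 → 1 ≤ ((j : ℕ) : ℝ) * N := fun j hj => by
    have := hj1 j hj; nlinarith
  set μ : Fin n → ℝ := fun j => if (j : ℕ) = 0 then N ^ 2 else (((j : ℕ) : ℝ) * N) ^ 2 with hμ
  have hstr : ∀ j : Fin n, stream k ξ (fun y => (N⁻¹ * s j) * gS ((j : ℕ) * N) k b y) = A j := by
    intro j
    rw [stream_mul _ ((isBump_gS _ k hbb).1.differentiable (by simp))]
    by_cases hj : (j : ℕ) = 0
    · rw [hA0 j hj]
      have e1 : gS (((j : ℕ) : ℝ) * N) k b = fun _ => (0 : ℝ) := by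
        funext z; simp [gS, hj]
      rw [e1, stream_zero', smul_zero]
    · have := hj1 j hj
      simp only [hA, softW, smul_smul]
      congr 1
      have e1 : (((j : ℕ) : ℝ)) ≠ 0 := by positivity
      field_simp
      ring
  have hsumst : ∑ i : Fin (n + 1), (Fin.cons (stream k ξ RF) A : Fin (n + 1) → E → E) i
      = stream k ξ (fun y => a y - frz N ρ k a y) := by
    rw [Fin.sum_univ_succ, Fin.cons_zero]
    simp only [Fin.cons_succ]
    have e1 : RF = fun y => (fun y => a y - frz N ρ k a y) y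
        - (fun y => ∑ j : Fin n, (N⁻¹ * s j) * gS ((j : ℕ) * N) k b y) y := by
      funext y
      rw [hRF0, ← Fin.sum_univ_eq_sum_range (fun j : ℕ => (N⁻¹ * s j) * gS (j * N) k b y) n]
    have e2 : ∀ j : Fin n, Differentiable ℝ (fun y => (N⁻¹ * s j) * gS ((j : ℕ) * N) k b y) := fun j =>
      ((isBump_gS _ k hbb).1.differentiable (by simp)).const_mul _
    rw [e1, stream_sub ((ha.1.sub hfb.1).differentiable (by simp)) (Differentiable.fun_sum fun j _ => e2 j),
      stream_sum Finset.univ e2]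
    rw [Finset.sum_congr rfl fun j _ => hstr j]
    abel
  refine ⟨n + 1, Fin.cons (N ^ 2) μ,
    Fin.cons ((1 + 2 * η) * CR) (fun j : Fin n => CS * (((j : ℕ) : ℝ) ^ 4 * |s j|)),
    Fin.cons (stream k ξ RF) A, ?_, hsumst, ?_⟩
  · refine ⟨?_, ?_, ?_, ?_, ?_, ?_, ?_⟩
    · exact Fin.cases hRt hAt
    · refine Fin.cases le_rfl fun j => ?_
      rw [Fin.cons_succ]
      simp only [hμ]
      split_ifs with hj
      · exact le_rfl
      · have := hj1 j hj
        exact pow_le_pow_left₀ hN0.le (by nlinarith) 2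
    · refine Fin.cases (by rw [Fin.cons_zero]; positivity) fun j => ?_
      rw [Fin.cons_succ]; positivity
    · rw [Fin.sum_univ_succ, Fin.cons_zero]
      simp only [Fin.cons_succ]
      rw [← Finset.mul_sum]
      have := mul_le_mul_of_nonneg_left (hsum4 n) hCS0
      linarith
    · refine Fin.cases (fun x => ?_) fun j x => ?_
      · rw [Fin.cons_zero, Fin.cons_zero, Fin.cons_zero]
        have e1 := bR x
        calc N ^ 2 * ‖stream k ξ RF x‖ ≤ N ^ 2 * (CR / N) := mul_le_mul_of_nonneg_left e1 (by positivity)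
          _ ≤ N ^ 2 * CR := mul_le_mul_of_nonneg_left (div_le_self hCR0 hN1) (by positivity)
          _ ≤ (1 + 2 * η) * CR * N ^ 2 := by
            have : 0 ≤ η * CR * N ^ 2 := by positivity
            nlinarith
      · rw [Fin.cons_succ, Fin.cons_succ, Fin.cons_succ]
        by_cases hj : (j : ℕ) = 0
        · rw [hA0 j hj, Pi.zero_apply, norm_zero, mul_zero]; positivity
        · have hjj := hj1 j hj
          have e1 := h1 _ (hM1 j hj) x
          simp only [pow_zero, mul_one] at e1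
          simp only [hμ, hj, if_false, hA, Pi.smul_apply, norm_smul, Real.norm_eq_abs, abs_mul, Nat.abs_cast]
          calc (((j : ℕ) : ℝ) * N) ^ 2 * (((j : ℕ) : ℝ) * |s j| * ‖softW 0 ((j : ℕ) * N) k ξ b x‖)
              ≤ (((j : ℕ) : ℝ) * N) ^ 2 * (((j : ℕ) : ℝ) * |s j| * CS) := by
                gcongr; rw [hCS]; linarith
            _ = CS * (((j : ℕ) : ℝ) ^ 3 * |s j|) * N ^ 2 := by ring
            _ ≤ CS * (((j : ℕ) : ℝ) ^ 4 * |s j|) * N ^ 2 := by
                have : ((j : ℕ) : ℝ) ^ 3 ≤ ((j : ℕ) : ℝ) ^ 4 := pow_le_pow_right₀ hjj (by norm_num)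
                gcongr
    · refine Fin.cases (fun x => ?_) fun j x => ?_
      · rw [Fin.cons_zero, Fin.cons_zero, Fin.cons_zero]
        have e1 := bdR x
        calc N ^ 2 * ‖fderiv ℝ (stream k ξ RF) x‖ ≤ N ^ 3 * CR := by gcongr
          _ ≤ (1 + 2 * η) * CR * N ^ 3 := by
            have : 0 ≤ η * CR * N ^ 3 := by positivity
            nlinarith
      · rw [Fin.cons_succ, Fin.cons_succ, Fin.cons_succ]
        by_cases hj : (j : ℕ) = 0
        · rw [hA0 j hj]
          have : fderiv ℝ (0 : E → E) x = 0 := by simp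
          rw [this, norm_zero, mul_zero]; positivity
        · have hjj := hj1 j hj
          have e1 := h2 _ (hM1 j hj) x
          rw [pow_one] at e1
          have e0 : fderiv ℝ (A j) x = ((j : ℕ) * s j : ℝ) • fderiv ℝ (softW 0 ((j : ℕ) * N) k ξ b) x := by
            simp only [hA]
            exact fderiv_const_smul ((isTest_softW (Ω := Ω) 0 _ hbb).smooth.differentiable (by simp) x) _
          rw [e0]
          simp only [hμ, hj, if_false, norm_smul, Real.norm_eq_abs, abs_mul, Nat.abs_cast]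
          calc (((j : ℕ) : ℝ) * N) ^ 2
                * (((j : ℕ) : ℝ) * |s j| * ‖fderiv ℝ (softW 0 ((j : ℕ) * N) k ξ b) x‖)
              ≤ (((j : ℕ) : ℝ) * N) ^ 2 * (((j : ℕ) : ℝ) * |s j| * (CS * (((j : ℕ) : ℝ) * N))) := by
                gcongr
                refine e1.trans (mul_le_mul_of_nonneg_right ?_ (by positivity))
                rw [hCS]; linarith
            _ = CS * (((j : ℕ) : ℝ) ^ 4 * |s j|) * N ^ 3 := by ring
    · refine Fin.cases (fun x => ?_) fun j x => ?_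
      · rw [Fin.cons_zero, Fin.cons_zero, Fin.cons_zero]
        have e1 := bR x
        have e2 := blR x
        have e3 : ‖(-(η * N ^ 2)) • stream k ξ RF x - η • lap (stream k ξ RF) x‖ ≤ 2 * η * CR * N := by
          refine (norm_sub_le _ _).trans ?_
          rw [norm_smul, norm_smul, norm_neg, Real.norm_of_nonneg (by positivity : 0 ≤ η * N ^ 2),
            Real.norm_of_nonneg hη.le]
          calc η * N ^ 2 * ‖stream k ξ RF x‖ + η * ‖lap (stream k ξ RF) x‖
              ≤ η * N ^ 2 * (CR / N) + η * (CR * N) := by gcongr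
            _ = 2 * η * CR * N := by field_simp; ring
        calc N ^ 2 * ‖(-(η * N ^ 2)) • stream k ξ RF x - η • lap (stream k ξ RF) x‖
            ≤ N ^ 2 * (2 * η * CR * N) := mul_le_mul_of_nonneg_left e3 (by positivity)
          _ ≤ (1 + 2 * η) * CR * N ^ 3 := by
            have : 0 ≤ CR * N ^ 3 := by positivity
            nlinarith
      · rw [Fin.cons_succ, Fin.cons_succ, Fin.cons_succ]
        by_cases hj : (j : ℕ) = 0
        · rw [hA0 j hj, Layer66.lap_zero, Pi.zero_apply, smul_zero, smul_zero, sub_zero, norm_zero, mul_zero]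
          positivity
        · have hjj := hj1 j hj
          have e1 := h3 _ (hM1 j hj) x
          rw [pow_one] at e1
          have hsm : ContDiff ℝ ∞ (softW 0 ((j : ℕ) * N) k ξ b) := (isTest_softW (Ω := Ω) 0 _ hbb).smooth
          have e0 : (-(η * (((j : ℕ) : ℝ) * N) ^ 2)) • A j x - η • lap (A j) x
              = ((j : ℕ) * s j : ℝ) • ((-(η * (((j : ℕ) : ℝ) * N) ^ 2)) • softW 0 ((j : ℕ) * N) k ξ b x
                - η • lap (softW 0 ((j : ℕ) * N) k ξ b) x) := by
            simp only [hA, Pi.smul_apply]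
            rw [Layer66.lap_smul hsm, smul_sub, smul_comm, smul_comm η]
          simp only [hμ, hj, if_false]
          rw [e0]
          simp only [norm_smul, Real.norm_eq_abs, abs_mul, Nat.abs_cast]
          calc (((j : ℕ) : ℝ) * N) ^ 2 * (((j : ℕ) : ℝ) * |s j|
                * ‖(-(η * (((j : ℕ) : ℝ) * N) ^ 2)) • softW 0 ((j : ℕ) * N) k ξ b x
                - η • lap (softW 0 ((j : ℕ) * N) k ξ b) x‖)
              ≤ (((j : ℕ) : ℝ) * N) ^ 2 * (((j : ℕ) : ℝ) * |s j| * (CS * (((j : ℕ) : ℝ) * N))) := by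
                gcongr
                refine e1.trans (mul_le_mul_of_nonneg_right ?_ (by positivity))
                rw [hCS]; linarith
            _ = CS * (((j : ℕ) : ℝ) ^ 4 * |s j|) * N ^ 3 := by ring
  · intro P hP
    rw [Fin.sum_univ_succ, Fin.cons_zero] at hP
    simp only [Fin.cons_succ] at hP
    obtain ⟨PR, hPR⟩ := Rep_proof Ω _ hRt
    choose PA hPA using fun j : Fin n => Rep_proof Ω _ (isTest_softW (k := k) (ξ := ξ) 0 (((j : ℕ) : ℝ) * N) hbb)
    have hPP : P = PR + ∑ j : Fin n, ((j : ℕ) * s j : ℝ) • PA j := by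
      refine rep_unique hP ?_
      refine Layer66.rep_add hRt (Layer66.isTest_sum hAt) hPR ?_
      exact rep_sum hAt fun j => Layer66.rep_smul _ (isTest_softW 0 _ hbb) (hPA j)
    obtain ⟨hR1, hR2⟩ := h5 (stream k ξ RF) PR (CR / N) (by positivity) hRt hPR bR
    have hT4' : ∑ j : Fin n, ((j : ℕ) : ℝ) * |s j| ≤ T₄ := by
      refine le_trans (Finset.sum_le_sum fun j _ => ?_) (hsum4 n)
      by_cases hj : (j : ℕ) = 0
      · simp [hj]
      · have hjj := hj1 j hj
        have : ((j : ℕ) : ℝ) ≤ ((j : ℕ) : ℝ) ^ 4 := le_self_pow₀ hjj (by norm_num)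
        gcongr
    refine ⟨fun t y ht => ?_, fun φ => ?_⟩
    · have hs : 0 < √t := Real.sqrt_pos.2 ht
      have hkN : 0 ≤ kap (N * √t) := kap_nonneg (by positivity)
      have hk1 : 0 ≤ kap √t := kap_nonneg hs.le
      have e1 : ‖heatExt P t y‖ ≤ ‖heatExt PR t y‖ + ∑ j : Fin n, ‖heatExt (((j : ℕ) * s j : ℝ) • PA j) t y‖ := by
        rw [hPP, heatExt_add hb]
        exact (norm_add_le _ _).trans (by have := heatExt_sum_le hb Finset.univ
                                            (fun j : Fin n => ((j : ℕ) * s j : ℝ) • PA j) t y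
                                          linarith)
      have e2 : ∀ j : Fin n, √t * ‖heatExt (((j : ℕ) * s j : ℝ) • PA j) t y‖
          ≤ (((j : ℕ) : ℝ) * |s j|) * (C₄ / N * kap (N * √t)) := by
        intro j
        rw [heatExt_smul, norm_smul, Real.norm_eq_abs, abs_mul, Nat.abs_cast]
        by_cases hj : (j : ℕ) = 0
        · simp [hj]
        · have hjj := hj1 j hj
          have hj0 : 0 < ((j : ℕ) : ℝ) := by linarith
          have e3 := (h4 _ (hM1 j hj) (PA j) (hPA j)).1 t y ht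
          have e4 : kap (((j : ℕ) : ℝ) * N * √t) ≤ ((j : ℕ) : ℝ) * kap (N * √t) := by
            rw [mul_assoc]; exact kap_mul_le hjj (by positivity)
          calc √t * (((j : ℕ) : ℝ) * |s j| * ‖heatExt (PA j) t y‖)
              = (((j : ℕ) : ℝ) * |s j|) * (√t * ‖heatExt (PA j) t y‖) := by ring
            _ ≤ (((j : ℕ) : ℝ) * |s j|) * (C₄ / (((j : ℕ) : ℝ) * N) * (((j : ℕ) : ℝ) * kap (N * √t))) := by
                refine mul_le_mul_of_nonneg_left (e3.trans ?_) (by positivity)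
                exact mul_le_mul_of_nonneg_left e4 (by positivity)
            _ = _ := by field_simp
      have e5 : lacF [N, 1] √t = kap (N * √t) + kap √t := by simp [lacF]
      have e6 := hR1 t y ht
      calc √t * ‖heatExt P t y‖
          ≤ √t * (‖heatExt PR t y‖ + ∑ j : Fin n, ‖heatExt (((j : ℕ) * s j : ℝ) • PA j) t y‖) :=
            mul_le_mul_of_nonneg_left e1 hs.le
        _ = √t * ‖heatExt PR t y‖ + ∑ j : Fin n, √t * ‖heatExt (((j : ℕ) * s j : ℝ) • PA j) t y‖ := by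
            rw [mul_add, Finset.mul_sum]
        _ ≤ C₅ * (CR / N) * kap √t + ∑ j : Fin n, (((j : ℕ) : ℝ) * |s j|) * (C₄ / N * kap (N * √t)) :=
            add_le_add e6 (Finset.sum_le_sum fun j _ => e2 j)
        _ = C₅ * (CR / N) * kap √t + (∑ j : Fin n, ((j : ℕ) : ℝ) * |s j|) * (C₄ / N * kap (N * √t)) := by
            rw [Finset.sum_mul]
        _ ≤ C₅ * (CR / N) * kap √t + T₄ * (C₄ / N * kap (N * √t)) := by gcongr
        _ = (C₅ * CR) / N * kap √t + (C₄ * T₄) / N * kap (N * √t) := by ring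
        _ ≤ (C₅ * CR + C₄ * T₄) / N * kap √t + (C₅ * CR + C₄ * T₄) / N * kap (N * √t) := by
            have f1 : 0 ≤ C₅ * CR := by positivity
            have f2 : 0 ≤ C₄ * T₄ := by positivity
            gcongr
            · linarith
            · linarith
        _ = _ := by rw [e5]; ring
    · have e1 : ⟪fld P, fld φ⟫ = ⟪fld PR, fld φ⟫ + ∑ j : Fin n, ((j : ℕ) * s j : ℝ) * ⟪fld (PA j), fld φ⟫ := by
        have g1 : fld P = fld PR + ∑ j : Fin n, ((j : ℕ) * s j : ℝ) • fld (PA j) := by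
          rw [hPP]
          have : ∀ v, fld (Ω := Ω) v = fldLM Ω v := fun v => rfl
          simp only [this, map_add, map_sum, map_smul]
        rw [g1, inner_add_left, sum_inner]
        congr 1
        exact Finset.sum_congr rfl fun j _ => by rw [real_inner_smul_left]
      have e2 : ∀ j : Fin n, |((j : ℕ) * s j : ℝ) * ⟪fld (PA j), fld φ⟫|
          ≤ (((j : ℕ) : ℝ) * |s j|) * (C₄ / N * ‖φ‖) := by
        intro j
        rw [abs_mul, abs_mul, Nat.abs_cast]
        by_cases hj : (j : ℕ) = 0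
        · simp [hj]
        · have hjj := hj1 j hj
          have e3 := (h4 _ (hM1 j hj) (PA j) (hPA j)).2 φ
          refine mul_le_mul_of_nonneg_left (e3.trans ?_) (by positivity)
          gcongr
          exact le_mul_of_one_le_left hN0.le hjj
      rw [e1]
      calc |⟪fld PR, fld φ⟫ + ∑ j : Fin n, ((j : ℕ) * s j : ℝ) * ⟪fld (PA j), fld φ⟫|
          ≤ |⟪fld PR, fld φ⟫| + ∑ j : Fin n, |((j : ℕ) * s j : ℝ) * ⟪fld (PA j), fld φ⟫| :=
            (abs_add_le _ _).trans (by have := Finset.abs_sum_le_sum_abs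
                                         (fun j : Fin n => ((j : ℕ) * s j : ℝ) * ⟪fld (PA j), fld φ⟫) Finset.univ
                                       linarith)
        _ ≤ C₅ * (CR / N) * ‖φ‖ + ∑ j : Fin n, (((j : ℕ) : ℝ) * |s j|) * (C₄ / N * ‖φ‖) :=
            add_le_add (hR2 φ) (Finset.sum_le_sum fun j _ => e2 j)
        _ = C₅ * (CR / N) * ‖φ‖ + (∑ j : Fin n, ((j : ℕ) : ℝ) * |s j|) * (C₄ / N * ‖φ‖) := by
            rw [Finset.sum_mul]
        _ ≤ C₅ * (CR / N) * ‖φ‖ + T₄ * (C₄ / N * ‖φ‖) := by gcongr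
        _ = _ := by ring

end Pool.Agent.NSL
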