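import Pool.Agent.NSL.Phase
import Pool.Agent.NSN.Embed
import Pool.Agent.NSN.TransferC
import Pool.Agent.NSN.TransferB

/-!
# MP_fd8964_an: gauges `φ(s) = o(s²)` and heat profiles
-/

open MeasureTheory Set Filter Topology
open scoped RealInnerProductSpace ContDiff

noncomputable section

namespace Pool.Agent.NSL

open Pool.Agent.NSD Pool.Agent.NSK Pool.Agent.NSN Pool.Agent.NSN.Lacun

variable {Ω : Set E}

/-- The heat profile of `w` is at most `D`, and its square integral (with respect to `dt/t`) is at most `Q`. -/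
def PR (w : V Ω) (D Q : ℝ) : Prop :=
  ∃ h : ℝ → ℝ, Measurable h ∧ (∀ t, 0 < t → 0 ≤ h t ∧ h t ≤ D) ∧
    (∀ t x, 0 < t → √t * ‖heatExt w t x‖ ≤ h t) ∧
    ∫⁻ t in Ioi (0 : ℝ), ENNReal.ofReal (h t ^ 2 / t) ≤ ENNReal.ofReal Q

theorem PR.mono {w : V Ω} {D Q D' Q' : ℝ} (h : PR w D Q) (hD : D ≤ D') (hQ : Q ≤ Q') : PR w D' Q' := by
  obtain ⟨f, h1, h2, h3, h4⟩ := h
  exact ⟨f, h1, fun t ht => ⟨(h2 t ht).1, (h2 t ht).2.trans hD⟩, h3, h4.trans (ENNReal.ofReal_le_ofReal hQ)⟩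

theorem PR.zero : PR (0 : V Ω) 0 0 := by
  refine ⟨fun _ => 0, measurable_const, fun t _ => ⟨le_rfl, le_rfl⟩, fun t x _ => ?_, ?_⟩
  · rw [heatExt_zero, norm_zero, mul_zero]
  · simp

theorem PR.add (hb : Bornology.IsBounded Ω) {w w' : V Ω} {D Q D' Q' : ℝ} (hQ : 0 ≤ Q) (hQ' : 0 ≤ Q')
    (h : PR w D Q) (h' : PR w' D' Q') : PR (w + w') (D + D') (2 * Q + 2 * Q') := by
  obtain ⟨f, h1, h2, h3, h4⟩ := h
  obtain ⟨g, k1, k2, k3, k4⟩ := h'
  refine ⟨fun t => f t + g t, h1.add k1, fun t ht => ⟨add_nonneg (h2 t ht).1 (k2 t ht).1,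
    add_le_add (h2 t ht).2 (k2 t ht).2⟩, fun t x ht => ?_, ?_⟩
  · rw [heatExt_add hb]
    calc √t * ‖heatExt w t x + heatExt w' t x‖ ≤ √t * (‖heatExt w t x‖ + ‖heatExt w' t x‖) := by
          gcongr; exact norm_add_le _ _
      _ = √t * ‖heatExt w t x‖ + √t * ‖heatExt w' t x‖ := mul_add _ _ _
      _ ≤ _ := add_le_add (h3 t x ht) (k3 t x ht)
  · have hm : Measurable fun t : ℝ => 2 * ENNReal.ofReal (f t ^ 2 / t) := by fun_prop
    calc ∫⁻ t in Ioi (0 : ℝ), ENNReal.ofReal ((f t + g t) ^ 2 / t)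
        ≤ ∫⁻ t in Ioi (0 : ℝ), (2 * ENNReal.ofReal (f t ^ 2 / t) + 2 * ENNReal.ofReal (g t ^ 2 / t)) := by
          refine setLIntegral_mono' measurableSet_Ioi fun t ht => ?_
          have ht' : (0 : ℝ) < t := ht
          have e2 : (2 : ENNReal) = ENNReal.ofReal 2 := by norm_num
          rw [e2, ← ENNReal.ofReal_mul (by norm_num), ← ENNReal.ofReal_mul (by norm_num),
            ← ENNReal.ofReal_add (by positivity) (by positivity)]
          refine ENNReal.ofReal_le_ofReal ?_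
          have : (f t + g t) ^ 2 ≤ 2 * f t ^ 2 + 2 * g t ^ 2 := by nlinarith [sq_nonneg (f t - g t)]
          calc (f t + g t) ^ 2 / t ≤ (2 * f t ^ 2 + 2 * g t ^ 2) / t := by gcongr
            _ = _ := by ring
      _ = 2 * (∫⁻ t in Ioi (0 : ℝ), ENNReal.ofReal (f t ^ 2 / t))
          + 2 * (∫⁻ t in Ioi (0 : ℝ), ENNReal.ofReal (g t ^ 2 / t)) := by
          rw [lintegral_add_left hm, lintegral_const_mul' _ _ (by norm_num), lintegral_const_mul' _ _ (by norm_num)]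
      _ ≤ 2 * ENNReal.ofReal Q + 2 * ENNReal.ofReal Q' := by gcongr
      _ = ENNReal.ofReal (2 * Q + 2 * Q') := by
          have e2 : (2 : ENNReal) = ENNReal.ofReal 2 := by norm_num
          rw [e2, ← ENNReal.ofReal_mul (by norm_num), ← ENNReal.ofReal_mul (by norm_num),
            ← ENNReal.ofReal_add (by positivity) (by positivity)]

theorem measurable_lacF (l : List ℝ) : Measurable fun t : ℝ => lacF l √t := by
  induction l with
  | nil => simp only [lacF, List.map_nil, List.sum_nil]; exact measurable_const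
  | cons N l ih =>
    have e : (fun t : ℝ => lacF (N :: l) √t) = fun t => kap (N * √t) + lacF l √t := by
      funext t; simp [lacF]
    rw [e]
    refine Measurable.add ?_ ih
    unfold kap
    fun_prop

theorem PR_lac {w : V Ω} {D : ℝ} (hD : 0 ≤ D) {l : List ℝ} (hl : Lac l)
    (h : ∀ t x, 0 < t → √t * ‖heatExt w t x‖ ≤ D * lacF l √t) : PR w (2 * D) (4 * D ^ 2 * l.length) := by
  have hF : ∀ t : ℝ, 0 < t → 0 ≤ lacF l √t ∧ lacF l √t ≤ 2 := fun t ht =>
    ⟨lacF_nonneg hl (Real.sqrt_nonneg _), lacF_le hl (Real.sqrt_pos.2 ht)⟩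
  refine ⟨fun t => D * lacF l √t, (measurable_lacF l).const_mul D, fun t ht => ⟨mul_nonneg hD (hF t ht).1, ?_⟩, h, ?_⟩
  · nlinarith [(hF t ht).2]
  · calc ∫⁻ t in Ioi (0 : ℝ), ENNReal.ofReal ((D * lacF l √t) ^ 2 / t)
        ≤ ∫⁻ t in Ioi (0 : ℝ), ENNReal.ofReal (2 * D ^ 2) * ENNReal.ofReal (lacF l √t / t) := by
          refine setLIntegral_mono' measurableSet_Ioi fun t ht => ?_
          have ht' : (0 : ℝ) < t := ht
          rw [← ENNReal.ofReal_mul (by positivity)]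
          refine ENNReal.ofReal_le_ofReal ?_
          have h1 := hF t ht'
          have h2 : (D * lacF l √t) ^ 2 ≤ 2 * D ^ 2 * lacF l √t := by
            have : lacF l √t ^ 2 ≤ 2 * lacF l √t := by nlinarith
            calc (D * lacF l √t) ^ 2 = D ^ 2 * lacF l √t ^ 2 := by ring
              _ ≤ D ^ 2 * (2 * lacF l √t) := by gcongr
              _ = _ := by ring
          calc (D * lacF l √t) ^ 2 / t ≤ (2 * D ^ 2 * lacF l √t) / t := by gcongr
            _ = _ := by ring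
      _ = ENNReal.ofReal (2 * D ^ 2) * ∫⁻ t in Ioi (0 : ℝ), ENNReal.ofReal (lacF l √t / t) :=
          lintegral_const_mul' _ _ ENNReal.ofReal_ne_top
      _ ≤ ENNReal.ofReal (2 * D ^ 2) * ENNReal.ofReal (2 * l.length) := by
          gcongr; exact int_lacF hl
      _ = _ := by
          rw [← ENNReal.ofReal_mul (by positivity)]
          congr 1; ring

theorem PR_small {W : V Ω} {δ : ℝ} (h : SmallHeat 1 δ W) : 0 ≤ δ ∧ PR W δ (δ ^ 2) := by
  obtain ⟨D, l, hD, hl, hδ, hh⟩ := h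
  rw [sub_self, Real.rpow_zero, one_mul] at hδ
  have hδ0 : 0 ≤ δ := le_trans (by positivity) hδ
  refine ⟨hδ0, ?_⟩
  cases l with
  | nil =>
    have h1 := PR_lac (w := W) (D := 0) le_rfl hl (fun t x ht => by
      have := hh t x ht
      simpa [lacF] using this)
    refine h1.mono (by linarith) ?_
    have : 0 ≤ δ ^ 2 := sq_nonneg δ
    simpa using this
  | cons N l =>
    have hlen : (1 : ℝ) ≤ ((N :: l).length : ℝ) := by
      rw [List.length_cons]; push_cast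
      have : (0 : ℝ) ≤ (l.length : ℝ) := Nat.cast_nonneg _
      linarith
    set L : ℝ := ((N :: l).length : ℝ) with hL
    refine (PR_lac hD hl hh).mono ?_ ?_
    · nlinarith
    · have h1 : 0 ≤ D * (2 * L) := by positivity
      calc 4 * D ^ 2 * L ≤ (D * (2 * L)) ^ 2 := by nlinarith [mul_nonneg (sq_nonneg D) (by linarith : (0 : ℝ) ≤ L)]
        _ ≤ δ ^ 2 := pow_le_pow_left₀ h1 hδ 2

/-- Elements of `V`. -/
theorem PR_emb (hb : Bornology.IsBounded Ω) : ∃ C : ℝ, 0 ≤ C ∧ ∀ w : V Ω, PR w (C * ‖w‖) (2 * (C * ‖w‖) ^ 2) := by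
  obtain ⟨C, hC, hemb⟩ := emb_proof hb
  refine ⟨C, hC, fun w => ?_⟩
  have hw : 0 ≤ C * ‖w‖ := mul_nonneg hC (norm_nonneg _)
  have hk : ∀ t : ℝ, 0 < t → 0 ≤ kap √t ∧ kap √t ≤ 1 := by
    intro t ht
    have hs : 0 < √t := Real.sqrt_pos.2 ht
    refine ⟨kap_nonneg hs.le, ?_⟩
    unfold kap
    rw [div_le_one (by positivity)]
    nlinarith
  refine ⟨fun t => C * ‖w‖ * √(kap √t), ?_, fun t ht => ⟨by positivity, ?_⟩, fun t x ht => hemb w t x ht, ?_⟩
  · have h1 : Measurable fun t : ℝ => kap √t := by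
      unfold kap
      fun_prop
    exact (h1.sqrt).const_mul _
  · calc C * ‖w‖ * √(kap √t) ≤ C * ‖w‖ * 1 := by
          gcongr
          exact Real.sqrt_le_iff.2 ⟨zero_le_one, by rw [one_pow]; exact (hk t ht).2⟩
      _ = _ := mul_one _
  · calc ∫⁻ t in Ioi (0 : ℝ), ENNReal.ofReal ((C * ‖w‖ * √(kap √t)) ^ 2 / t)
        = ∫⁻ t in Ioi (0 : ℝ), ENNReal.ofReal ((C * ‖w‖) ^ 2) * ENNReal.ofReal (kap (1 * √t) / t) := by
          refine setLIntegral_congr_fun measurableSet_Ioi fun t ht => ?_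
          have ht' : (0 : ℝ) < t := ht
          rw [← ENNReal.ofReal_mul (by positivity), mul_pow, Real.sq_sqrt (hk t ht').1, one_mul, mul_div_assoc]
      _ = ENNReal.ofReal ((C * ‖w‖) ^ 2) * ∫⁻ t in Ioi (0 : ℝ), ENNReal.ofReal (kap (1 * √t) / t) :=
          lintegral_const_mul' _ _ ENNReal.ofReal_ne_top
      _ ≤ ENNReal.ofReal ((C * ‖w‖) ^ 2) * ENNReal.ofReal 2 := by
          gcongr; exact int_kap one_pos
      _ = _ := by
          rw [← ENNReal.ofReal_mul (by positivity)]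
          congr 1; ring

/-- The modular of a gauge `φ`. -/
def gau (w : V Ω) (φ : ENNReal → ENNReal) : ENNReal :=
  ∫⁻ t in Ioi (0 : ℝ), φ (⨆ x : E, ENNReal.ofReal (√t * ‖heatExt w t x‖)) * ENNReal.ofReal (1 / t)

/-- `φ(s) = o(s²)` as `s → 0`. -/
def IsGau (φ : ENNReal → ENNReal) : Prop :=
  ∀ c : ℝ, 0 < c → ∃ r : ℝ, 0 < r ∧ ∀ s : ENNReal, s ≤ ENNReal.ofReal r → φ s ≤ ENNReal.ofReal c * s ^ 2

theorem gau_le (hb : Bornology.IsBounded Ω) {φ : ENNReal → ENNReal} (hφ : IsGau φ) {ε : ℝ} (hε : 0 < ε) :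
    ∃ δ₀ : ℝ, 0 < δ₀ ∧ ∀ Q : ℝ, 0 ≤ Q → ∃ D : ℝ, 0 < D ∧ ∀ w₁ w₂ : V Ω, PR w₁ D Q → PR w₂ δ₀ δ₀ →
      gau (w₁ + w₂) φ ≤ ENNReal.ofReal ε := by
  obtain ⟨r₂, hr₂, h2⟩ := hφ 1 one_pos
  refine ⟨min (r₂ / 2) (ε / 8), lt_min (by positivity) (by positivity), fun Q hQ => ?_⟩
  set δ₀ := min (r₂ / 2) (ε / 8) with hδ₀
  obtain ⟨r₁, hr₁, h1⟩ := hφ (ε / (8 * (Q + 1))) (by positivity)
  set c : ℝ := ε / (8 * (Q + 1)) with hc
  have hc0 : 0 < c := by positivity
  refine ⟨r₁ / 2, by positivity, fun w₁ w₂ hw₁ hw₂ => ?_⟩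
  obtain ⟨f, f1, f2, f3, f4⟩ := hw₁
  obtain ⟨g, g1, g2, g3, g4⟩ := hw₂
  have key : ∀ t ∈ Ioi (0 : ℝ), φ (⨆ x : E, ENNReal.ofReal (√t * ‖heatExt (w₁ + w₂) t x‖)) * ENNReal.ofReal (1 / t)
      ≤ ENNReal.ofReal (4 * c) * ENNReal.ofReal (f t ^ 2 / t) + 4 * ENNReal.ofReal (g t ^ 2 / t) := by
    intro t ht
    have ht' : (0 : ℝ) < t := ht
    set H := ⨆ x : E, ENNReal.ofReal (√t * ‖heatExt (w₁ + w₂) t x‖) with hH
    have hHle : H ≤ ENNReal.ofReal (f t + g t) := by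
      refine iSup_le fun x => ENNReal.ofReal_le_ofReal ?_
      rw [heatExt_add hb]
      calc √t * ‖heatExt w₁ t x + heatExt w₂ t x‖ ≤ √t * (‖heatExt w₁ t x‖ + ‖heatExt w₂ t x‖) := by
            gcongr; exact norm_add_le _ _
        _ = √t * ‖heatExt w₁ t x‖ + √t * ‖heatExt w₂ t x‖ := mul_add _ _ _
        _ ≤ _ := add_le_add (f3 t x ht') (g3 t x ht')
    have e4 : (4 : ENNReal) = ENNReal.ofReal 4 := by norm_num
    have hf0 := (f2 t ht').1
    have hg0 := (g2 t ht').1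
    rcases le_total (g t) (f t) with hle | hle
    · have hH2 : H ≤ ENNReal.ofReal (2 * f t) := hHle.trans (ENNReal.ofReal_le_ofReal (by linarith))
      have hHr : H ≤ ENNReal.ofReal r₁ := hH2.trans (ENNReal.ofReal_le_ofReal (by linarith [(f2 t ht').2]))
      calc φ H * ENNReal.ofReal (1 / t) ≤ (ENNReal.ofReal c * H ^ 2) * ENNReal.ofReal (1 / t) := by
            gcongr; exact h1 H hHr
        _ ≤ (ENNReal.ofReal c * ENNReal.ofReal (2 * f t) ^ 2) * ENNReal.ofReal (1 / t) := by gcongr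
        _ = ENNReal.ofReal (4 * c) * ENNReal.ofReal (f t ^ 2 / t) := by
            rw [← ENNReal.ofReal_pow (by positivity), ← ENNReal.ofReal_mul hc0.le,
              ← ENNReal.ofReal_mul (by positivity), ← ENNReal.ofReal_mul (by positivity)]
            congr 1; ring
        _ ≤ _ := le_self_add
    · have hH2 : H ≤ ENNReal.ofReal (2 * g t) := hHle.trans (ENNReal.ofReal_le_ofReal (by linarith))
      have hHr : H ≤ ENNReal.ofReal r₂ := hH2.trans (ENNReal.ofReal_le_ofReal (by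
        have := (g2 t ht').2.trans (min_le_left _ _)
        linarith))
      calc φ H * ENNReal.ofReal (1 / t) ≤ (ENNReal.ofReal 1 * H ^ 2) * ENNReal.ofReal (1 / t) := by
            gcongr; exact h2 H hHr
        _ ≤ (ENNReal.ofReal 1 * ENNReal.ofReal (2 * g t) ^ 2) * ENNReal.ofReal (1 / t) := by gcongr
        _ = 4 * ENNReal.ofReal (g t ^ 2 / t) := by
            rw [e4, ← ENNReal.ofReal_pow (by positivity), ← ENNReal.ofReal_mul (by positivity),
              ← ENNReal.ofReal_mul (by positivity), ← ENNReal.ofReal_mul (by positivity)]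
            congr 1; ring
        _ ≤ _ := le_add_self
  have hm : Measurable fun t : ℝ => ENNReal.ofReal (4 * c) * ENNReal.ofReal (f t ^ 2 / t) := by fun_prop
  unfold gau
  calc ∫⁻ t in Ioi (0 : ℝ), φ (⨆ x : E, ENNReal.ofReal (√t * ‖heatExt (w₁ + w₂) t x‖)) * ENNReal.ofReal (1 / t)
      ≤ ∫⁻ t in Ioi (0 : ℝ), (ENNReal.ofReal (4 * c) * ENNReal.ofReal (f t ^ 2 / t)
          + 4 * ENNReal.ofReal (g t ^ 2 / t)) := setLIntegral_mono' measurableSet_Ioi key
    _ = ENNReal.ofReal (4 * c) * (∫⁻ t in Ioi (0 : ℝ), ENNReal.ofReal (f t ^ 2 / t))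
          + 4 * (∫⁻ t in Ioi (0 : ℝ), ENNReal.ofReal (g t ^ 2 / t)) := by
        rw [lintegral_add_left hm, lintegral_const_mul' _ _ ENNReal.ofReal_ne_top,
          lintegral_const_mul' _ _ (by norm_num)]
    _ ≤ ENNReal.ofReal (4 * c) * ENNReal.ofReal Q + 4 * ENNReal.ofReal δ₀ := by gcongr
    _ = ENNReal.ofReal (4 * c * Q + 4 * δ₀) := by
        have e4 : (4 : ENNReal) = ENNReal.ofReal 4 := by norm_num
        have hδ : 0 ≤ δ₀ := le_min (by positivity) (by positivity)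
        rw [e4, ← ENNReal.ofReal_mul (by positivity), ← ENNReal.ofReal_mul (by norm_num),
          ← ENNReal.ofReal_add (by positivity) (by positivity)]
    _ ≤ ENNReal.ofReal ε := by
        refine ENNReal.ofReal_le_ofReal ?_
        have e1 : 4 * c * Q ≤ ε / 2 := by
          rw [hc]
          have : 4 * (ε / (8 * (Q + 1))) * Q = ε / 2 * (Q / (Q + 1)) := by field_simp; ring
          rw [this]
          have h3 : Q / (Q + 1) ≤ 1 := by rw [div_le_one (by positivity)]; linarith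
          nlinarith
        have e2 : δ₀ ≤ ε / 8 := min_le_right _ _
        linarith

end Pool.Agent.NSL
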