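import Pool.Agent.NSL.PotBall

/-!
# MP_fd8964_an: moving a scalar function off a compact set
-/

open MeasureTheory Set Filter Topology
open scoped RealInnerProductSpace ContDiff

noncomputable section

namespace Pool.Agent.NSL

open Pool.Agent.NSD Pool.Agent.NSK

/-- The conclusion of `transport`. -/
def TrGood (Ω C : Set E) (h : E → ℝ) : Prop :=
  ∃ h' m : E → ℝ, IsBump Ω h' ∧ IsBump Ω m ∧ Disjoint (tsupport h') C ∧ ∀ x, h x - h' x = dd (e 0) m x

theorem tr_bump_zero (Ω : Set E) : IsBump Ω (fun _ : E => (0 : ℝ)) := by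
  refine ⟨contDiff_const, HasCompactSupport.zero, ?_⟩
  have : tsupport (fun _ : E => (0 : ℝ)) = ∅ := by
    rw [tsupport_eq_empty_iff]
    rfl
  rw [this]
  exact empty_subset _

theorem tr_bump_add {Ω : Set E} {a b : E → ℝ} (ha : IsBump Ω a) (hb : IsBump Ω b) :
    IsBump Ω (fun x => a x + b x) := by
  refine ⟨ha.1.add hb.1, ha.2.1.add hb.2.1, ?_⟩
  refine (tsupport_add a b).trans ?_
  exact union_subset ha.2.2 hb.2.2

theorem tr_good_add {Ω C : Set E} {a b : E → ℝ} (ha : TrGood Ω C a) (hb : TrGood Ω C b) :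
    TrGood Ω C (fun x => a x + b x) := by
  obtain ⟨a', m, h1, h2, h3, h4⟩ := ha
  obtain ⟨b', n, k1, k2, k3, k4⟩ := hb
  refine ⟨fun x => a' x + b' x, fun x => m x + n x, tr_bump_add h1 k1, tr_bump_add h2 k2, ?_, ?_⟩
  · refine Disjoint.mono_left (tsupport_add a' b') ?_
    exact Disjoint.union_left h3 k3
  · intro x
    have e1 : dd (e 0) (fun x => m x + n x) x = dd (e 0) m x + dd (e 0) n x := by
      unfold dd
      have hm : DifferentiableAt ℝ m x := (h2.1.differentiable (by simp)) x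
      have hn : DifferentiableAt ℝ n x := (k2.1.differentiable (by simp)) x
      have h := (hm.hasFDerivAt.add hn.hasFDerivAt).fderiv
      have h' : fderiv ℝ (fun x => m x + n x) x = _ := h
      rw [h']
      rfl
    rw [e1, ← h4 x, ← k4 x]
    ring

/-- Along a line one leaves `C` before one leaves `Ω`. -/
theorem tr_exit {Ω : Set E} (hΩ : IsOpen Ω) (hb : Bornology.IsBounded Ω) {C : Set E} (hC : IsCompact C)
    (hCΩ : C ⊆ Ω) {x : E} (hx : x ∈ Ω) :
    ∃ t : ℝ, 0 ≤ t ∧ (∀ s ∈ Icc (0 : ℝ) t, x + s • e 0 ∈ Ω) ∧ x + t • e 0 ∉ C := by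
  set S : Set ℝ := {s : ℝ | 0 ≤ s ∧ x + s • e 0 ∉ Ω} with hS
  have hcont : Continuous fun s : ℝ => x + s • (e 0 : E) := by fun_prop
  have hclosed : IsClosed S := by
    have h1 : S = Ici 0 ∩ (fun s : ℝ => x + s • (e 0 : E)) ⁻¹' Ωᶜ := by
      ext s
      simp [hS]
    rw [h1]
    exact isClosed_Ici.inter (hΩ.isClosed_compl.preimage hcont)
  have hne0 : ‖(e 0 : E)‖ = 1 := by simp [e]
  have hnonempty : S.Nonempty := by
    obtain ⟨R, hR⟩ := hb.subset_closedBall 0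
    refine ⟨|R| + ‖x‖ + 1, by positivity, fun h => ?_⟩
    have h1 := hR h
    rw [mem_closedBall_zero_iff] at h1
    have h2 : ‖(|R| + ‖x‖ + 1) • (e 0 : E)‖ ≤ ‖x + (|R| + ‖x‖ + 1) • e 0‖ + ‖x‖ := by
      calc ‖(|R| + ‖x‖ + 1) • (e 0 : E)‖ = ‖(x + (|R| + ‖x‖ + 1) • e 0) - x‖ := by congr 1; abel
        _ ≤ _ := norm_sub_le _ _
    rw [norm_smul, hne0, mul_one, Real.norm_eq_abs, abs_of_nonneg (by positivity)] at h2
    have h3 := le_abs_self R
    linarith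
  have hbdd : BddBelow S := ⟨0, fun s hs => hs.1⟩
  set σ : ℝ := sInf S with hσ
  have hσS : σ ∈ S := hclosed.csInf_mem hnonempty hbdd
  have hlt : ∀ s : ℝ, 0 ≤ s → s < σ → x + s • e 0 ∈ Ω := by
    intro s hs hsσ
    by_contra h
    exact absurd (csInf_le hbdd (show s ∈ S from ⟨hs, h⟩)) (not_le.2 hsσ)
  have hσpos : 0 < σ := by
    rcases hσS.1.lt_or_eq with h | h
    · exact h
    · exfalso
      have := hσS.2
      rw [← h] at this
      simp at this
      exact this hx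
  have hCσ : x + σ • e 0 ∉ C := fun h => hσS.2 (hCΩ h)
  have hnear : ∀ᶠ s in 𝓝 σ, x + s • (e 0 : E) ∈ Cᶜ :=
    hcont.continuousAt.eventually (hC.isClosed.isOpen_compl.mem_nhds hCσ)
  have hnear2 : ∀ᶠ s in 𝓝[<] σ, x + s • (e 0 : E) ∈ Cᶜ := hnear.filter_mono nhdsWithin_le_nhds
  have hpos2 : ∀ᶠ s in 𝓝[<] σ, (0 : ℝ) < s := by
    have : ∀ᶠ s in 𝓝 σ, (0 : ℝ) < s := lt_mem_nhds hσpos
    exact this.filter_mono nhdsWithin_le_nhds
  obtain ⟨t, ⟨ht1, ht2⟩, ht3⟩ := ((hnear2.and hpos2).and self_mem_nhdsWithin).exists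
  exact ⟨t, ht2.le, fun s hs => hlt s hs.1 (lt_of_le_of_lt hs.2 ht3), ht1⟩

/-- The local statement. -/
theorem tr_local {Ω : Set E} (hΩ : IsOpen Ω) (hb : Bornology.IsBounded Ω) {C : Set E} (hC : IsCompact C)
    (hCΩ : C ⊆ Ω) {x : E} (hx : x ∈ Ω) :
    ∃ r : ℝ, 0 < r ∧ ∀ h : E → ℝ, IsBump Ω h → tsupport h ⊆ Metric.ball x r → TrGood Ω C h := by
  obtain ⟨t, ht0, ht1, ht2⟩ := tr_exit hΩ hb hC hCΩ hx
  have hcomp : IsCompact ((fun s : ℝ => x + s • (e 0 : E)) '' Icc 0 t) :=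
    isCompact_Icc.image (by fun_prop)
  have hsub : (fun s : ℝ => x + s • (e 0 : E)) '' Icc 0 t ⊆ Ω := by
    rintro _ ⟨s, hs, rfl⟩
    exact ht1 s hs
  obtain ⟨δ, hδ, hδΩ⟩ := hcomp.exists_thickening_subset_open hΩ hsub
  obtain ⟨δ', hδ', hδC⟩ := Metric.isOpen_iff.1 hC.isClosed.isOpen_compl _ ht2
  refine ⟨min δ δ', lt_min hδ hδ', ?_⟩
  intro h hh hs
  have htube : ∀ y ∈ tsupport h, ∀ s ∈ Icc (0 : ℝ) t, y + s • e 0 ∈ Ω := by
    intro y hy s hs'
    apply hδΩ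
    rw [Metric.mem_thickening_iff]
    refine ⟨x + s • e 0, ⟨s, hs', rfl⟩, ?_⟩
    have h1 := hs hy
    rw [Metric.mem_ball] at h1
    rw [dist_add_right]
    exact lt_of_lt_of_le h1 (min_le_left _ _)
  have hoff : ∀ y ∈ tsupport h, y + t • e 0 ∉ C := by
    intro y hy
    have h1 := hs hy
    rw [Metric.mem_ball] at h1
    apply hδC
    rw [Metric.mem_ball, dist_add_right]
    exact lt_of_lt_of_le h1 (min_le_right _ _)
  -- the tube
  set T : Set E := (fun p : E × ℝ => p.1 + p.2 • (e 0 : E)) '' (tsupport h ×ˢ Icc 0 t) with hT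
  have hTc : IsCompact T := (hh.2.1.isCompact.prod isCompact_Icc).image (by fun_prop)
  have hTΩ : T ⊆ Ω := by
    rintro _ ⟨⟨y, s⟩, ⟨hy, hs'⟩, rfl⟩
    exact htube y hy s hs'
  -- the end of the tube
  set T1 : Set E := (fun y : E => y + t • (e 0 : E)) '' tsupport h with hT1
  have hT1c : IsCompact T1 := hh.2.1.isCompact.image (by fun_prop)
  have hT1Ω : T1 ⊆ Ω := by
    rintro _ ⟨y, hy, rfl⟩
    exact htube y hy t ⟨ht0, le_refl t⟩
  have hT1C : Disjoint T1 C := by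
    rw [Set.disjoint_left]
    rintro _ ⟨y, hy, rfl⟩
    exact hoff y hy
  have hs1 : tsupport (fun y => h (y - t • e 0)) ⊆ T1 := by
    refine closure_minimal ?_ hT1c.isClosed
    intro y hy
    refine ⟨y - t • e 0, subset_closure hy, ?_⟩
    simp
  have hs2 : tsupport (pbPrim (-(e 0)) h t) ⊆ T := by
    refine closure_minimal ?_ hTc.isClosed
    intro y hy
    by_contra hyT
    apply hy
    unfold pbPrim
    have h0 : ∫ s in (0 : ℝ)..t, h (y + s • -(e 0)) = ∫ s in (0 : ℝ)..t, (0 : ℝ) := by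
      refine intervalIntegral.integral_congr fun s hs' => ?_
      rw [uIcc_of_le ht0] at hs'
      by_contra hne
      apply hyT
      refine ⟨(y + s • -(e 0), s), ⟨subset_closure hne, hs'⟩, ?_⟩
      simp
    rw [h0]
    simp
  refine ⟨fun y => h (y - t • e 0), pbPrim (-(e 0)) h t, ⟨?_, ?_, hs1.trans hT1Ω⟩, ⟨?_, ?_, hs2.trans hTΩ⟩, ?_, ?_⟩
  · exact hh.1.comp (contDiff_id.sub contDiff_const)
  · exact hT1c.of_isClosed_subset (isClosed_tsupport _) hs1
  · exact pb_contDiff _ hh.1 hh.2.1 ht0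
  · exact hTc.of_isClosed_subset (isClosed_tsupport _) hs2
  · exact hT1C.mono_left hs1
  · intro y
    unfold dd
    have h1 := pb_fderiv_dir (-(e 0)) hh.1 hh.2.1 (L := t) y
    rw [map_neg] at h1
    have h2 : fderiv ℝ (pbPrim (-(e 0)) h t) y (e 0) = h y - h (y + t • -(e 0)) := by linarith
    rw [h2, smul_neg, ← sub_eq_add_neg]

/-- Splitting a function along an open cover by two sets. -/
theorem tr_split {Ω U₁ U₂ : Set E} (h₁ : IsOpen U₁) (h₂ : IsOpen U₂) {h : E → ℝ} (hh : IsBump Ω h)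
    (hs : tsupport h ⊆ U₁ ∪ U₂) :
    ∃ a b : E → ℝ, IsBump Ω a ∧ IsBump Ω b ∧ tsupport a ⊆ U₁ ∧ tsupport b ⊆ U₂ ∧ h = fun x => a x + b x := by
  have hK : IsCompact (tsupport h \ U₂) := hh.2.1.isCompact.diff h₂
  have hKU : tsupport h \ U₂ ⊆ U₁ := by
    rintro x ⟨hx, hx2⟩
    rcases hs hx with h | h
    · exact h
    · exact absurd h hx2
  obtain ⟨χ, hχs, hχc, hχU, hχ1⟩ := pb_cutoff h₁ hK hKU
  refine ⟨fun x => χ x * h x, fun x => (1 - χ x) * h x, ⟨hχs.mul hh.1, hh.2.1.mul_left, ?_⟩,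
    ⟨(contDiff_const.sub hχs).mul hh.1, hh.2.1.mul_left, ?_⟩, ?_, ?_, ?_⟩
  · exact tsupport_mul_subset_right.trans hh.2.2
  · exact tsupport_mul_subset_right.trans hh.2.2
  · exact tsupport_mul_subset_left.trans hχU
  · intro x hx
    by_contra hxU
    have hxh : x ∈ tsupport h := tsupport_mul_subset_right hx
    have h3 : ∀ᶠ y in 𝓝 x, (1 - χ y) * h y = 0 := by
      filter_upwards [hχ1 x ⟨hxh, hxU⟩] with y hy
      rw [hy]
      simp
    exact (notMem_tsupport_iff_eventuallyEq.2 h3) hx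
  · funext x
    ring

/-- Modulo `∂₀ C_c^∞(Ω)`, every function in `C_c^∞(Ω)` has its support off a given compact set. -/
theorem transport {Ω : Set E} (hΩ : IsOpen Ω) (hb : Bornology.IsBounded Ω) {C : Set E} (hC : IsCompact C)
    (hCΩ : C ⊆ Ω) {h : E → ℝ} (hh : IsBump Ω h) :
    ∃ h' m : E → ℝ, IsBump Ω h' ∧ IsBump Ω m ∧ Disjoint (tsupport h') C ∧
      ∀ x, h x - h' x = dd (e 0) m x := by
  have key : ∃ U : Set E, IsOpen U ∧ tsupport h ⊆ U ∧ ∀ g : E → ℝ, IsBump Ω g → tsupport g ⊆ U → TrGood Ω C g := by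
    refine IsCompact.induction_on (s := tsupport h)
      (p := fun s => ∃ U : Set E, IsOpen U ∧ s ⊆ U ∧ ∀ g : E → ℝ, IsBump Ω g → tsupport g ⊆ U → TrGood Ω C g)
      hh.2.1.isCompact ?_ ?_ ?_ ?_
    · refine ⟨∅, isOpen_empty, empty_subset _, fun g hg hs => ?_⟩
      have h1 : tsupport g = ∅ := subset_empty_iff.1 hs
      have h2 : g = 0 := tsupport_eq_empty_iff.1 h1
      refine ⟨fun _ => 0, fun _ => 0, tr_bump_zero Ω, tr_bump_zero Ω, ?_, ?_⟩
      · have : tsupport (fun _ : E => (0 : ℝ)) = ∅ := by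
          rw [tsupport_eq_empty_iff]
          rfl
        rw [this]
        exact empty_disjoint _
      · intro x
        rw [h2]
        simp [dd]
    · rintro s t hst ⟨U, hU, htU, hg⟩
      exact ⟨U, hU, hst.trans htU, hg⟩
    · rintro s t ⟨U₁, hU₁, hs₁, hg₁⟩ ⟨U₂, hU₂, hs₂, hg₂⟩
      refine ⟨U₁ ∪ U₂, hU₁.union hU₂, union_subset_union hs₁ hs₂, fun g hg hs => ?_⟩
      obtain ⟨a, b, ha, hb', hsa, hsb, hab⟩ := tr_split hU₁ hU₂ hg hs
      rw [hab]
      exact tr_good_add (hg₁ a ha hsa) (hg₂ b hb' hsb)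
    · intro x hx
      obtain ⟨r, hr, hg⟩ := tr_local hΩ hb hC hCΩ (hh.2.2 hx)
      exact ⟨Metric.ball x r, mem_nhdsWithin_of_mem_nhds (Metric.ball_mem_nhds x hr),
        Metric.ball x r, Metric.isOpen_ball, Subset.rfl, hg⟩
  obtain ⟨U, -, hsU, hg⟩ := key
  exact hg h hh hsU

end Pool.Agent.NSL
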