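import Pool.Agent.NSL.PotBall
import Pool.Agent.NSL.Transport
import Pool.Agent.NSN.CurlDiv

/-!
# MP_fd8964_an: correcting a test field off a compact set
-/

open MeasureTheory Set Filter Topology
open scoped RealInnerProductSpace ContDiff

noncomputable section

namespace Pool.Agent.NSL

open Pool.Agent.NSD Pool.Agent.NSK Pool.Agent.NSN

namespace ZFix

theorem eb (i l : Fin 3) : e i l = if l = i then (1 : ℝ) else 0 := by
  simp [e]

/-- `stream (e 0) (e 2)` of a derivative is `curlA` of a constant matrix. -/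
theorem stream_curlA0 (m : E → ℝ) :
    stream (e 0) (e 2) (dd (e 0) m) = curlA (fun a b => if a = 1 ∧ b = 0 then 1 else 0) m := by
  funext x
  ext l
  rw [curlA, Base.vec_apply]
  simp only [stream, Fin.sum_univ_three, lc, PiLp.sub_apply, PiLp.smul_apply, eb, smul_eq_mul]
  fin_cases l <;> simp <;> norm_num

/-- `stream (e 1) (e 2)` of a derivative is `curlA` of a constant matrix. -/
theorem stream_curlA1 (m : E → ℝ) :
    stream (e 1) (e 2) (dd (e 0) m) = curlA (fun a b => if a = 0 ∧ b = 0 then -1 else 0) m := by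
  funext x
  ext l
  rw [curlA, Base.vec_apply]
  simp only [stream, Fin.sum_univ_three, lc, PiLp.sub_apply, PiLp.smul_apply, eb, smul_eq_mul]
  fin_cases l <;> simp <;> norm_num

theorem stream_germ {k ξ x : E} {f g : E → ℝ} (h : f =ᶠ[𝓝 x] g) :
    ∀ᶠ y in 𝓝 x, stream k ξ f y = stream k ξ g y := by
  filter_upwards [h.eventuallyEq_nhds] with y hy
  unfold stream dd
  rw [hy.fderiv_eq]

/-- Cutting off a smooth function and moving the cut-off part away from a compact set. -/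
theorem cut_move {Ω : Set E} (hΩ : IsOpen Ω) (hb : Bornology.IsBounded Ω) {K : Set E} (hK : IsCompact K)
    (hKΩ : K ⊆ Ω) {A : E → ℝ} (hA : ContDiff ℝ ∞ A) :
    ∃ m : E → ℝ, IsBump Ω m ∧ ∀ x ∈ K, dd (e 0) m =ᶠ[𝓝 x] A := by
  obtain ⟨χ, hχ, hχc, hχs, hχ1⟩ := pb_cutoff hΩ hK hKΩ
  have hbump : IsBump Ω (fun x => χ x * A x) :=
    ⟨hχ.mul hA, hχc.mul_right, (tsupport_mul_subset_left).trans hχs⟩
  obtain ⟨A', m, -, hm, hdis, heq⟩ := transport hΩ hb hK hKΩ hbump
  refine ⟨m, hm, fun x hx => ?_⟩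
  have h1 : A' =ᶠ[𝓝 x] 0 :=
    notMem_tsupport_iff_eventuallyEq.1 fun h => Set.disjoint_left.1 hdis h hx
  filter_upwards [h1, hχ1 x hx] with y h2 h3
  rw [← heq y, h2, h3]
  simp

end ZFix

open ZFix CurlDiv VDense in
/-- Every test field becomes an element of `curlW Ω` after adding a test field which vanishes near `C`. -/
theorem zfix {Ω : Set E} (hΩ : IsOpen Ω) (hb : Bornology.IsBounded Ω) {C : Set E} (hC : IsCompact C)
    (hCΩ : C ⊆ Ω) {g : E → E} (hg : IsTest Ω g) :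
    ∃ z : E → E, IsTest Ω z ∧ Disjoint (tsupport z) C ∧
      ∀ P : V Ω, Represents Ω (fun x => g x + z x) P → P ∈ curlW Ω := by
  obtain ⟨R, hR, hΩR⟩ := hb.subset_ball_lt 0 (0 : E)
  obtain ⟨A, B, hA, hB, hAB⟩ := pot_ball isOpen_univ g hg.smooth.contDiffOn (fun x _ => hg.div x) 0 R hR
    (Set.subset_univ _)
  set K : Set E := C ∪ tsupport g with hKdef
  have hK : IsCompact K := hC.union hg.compact
  have hKΩ : K ⊆ Ω := Set.union_subset hCΩ hg.supp
  obtain ⟨m₁, hm₁, he₁⟩ := cut_move hΩ hb hK hKΩ hA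
  obtain ⟨m₂, hm₂, he₂⟩ := cut_move hΩ hb hK hKΩ hB
  set A₁ : Fin 3 → Fin 3 → ℝ := fun a b => if a = 1 ∧ b = 0 then 1 else 0 with hA₁
  set A₂ : Fin 3 → Fin 3 → ℝ := fun a b => if a = 0 ∧ b = 0 then -1 else 0 with hA₂
  have ht₁ : IsTest Ω (curlA A₁ m₁) := curlA_test hm₁
  have ht₂ : IsTest Ω (curlA A₂ m₂) := curlA_test hm₂
  refine ⟨(curlA A₁ m₁ + curlA A₂ m₂) + (-1 : ℝ) • g, (ht₁.add ht₂).add (hg.smul (-1)), ?_, ?_⟩
  · rw [Set.disjoint_right]
    intro x hxC hx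
    have hxK : x ∈ K := Or.inl hxC
    refine (notMem_tsupport_iff_eventuallyEq.2 ?_) hx
    have hball : ∀ᶠ y in 𝓝 x, y ∈ Metric.ball (0 : E) R := Metric.isOpen_ball.mem_nhds (hΩR (hKΩ hxK))
    filter_upwards [stream_germ (k := e 0) (ξ := e 2) (he₁ x hxK), stream_germ (k := e 1) (ξ := e 2) (he₂ x hxK),
      hball] with y h1 h2 h3
    have h4 := hAB y h3
    rw [← h1, ← h2, stream_curlA0, stream_curlA1] at h4
    simp only [Pi.add_apply, Pi.smul_apply, Pi.zero_apply]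
    rw [hA₁, hA₂, h4]
    simp
  · intro P hP
    have hfun : (fun x => g x + ((curlA A₁ m₁ + curlA A₂ m₂) + (-1 : ℝ) • g) x) =
        curlA A₁ m₁ + curlA A₂ m₂ := by
      funext x
      simp only [Pi.add_apply, Pi.smul_apply]
      simp
    rw [hfun] at hP
    obtain ⟨p₁, hp₁⟩ := Rep_proof Ω _ ht₁
    obtain ⟨p₂, hp₂⟩ := Rep_proof Ω _ ht₂
    have h1 : Represents Ω (curlA A₁ m₁ + curlA A₂ m₂) (p₁ + p₂ : V Ω) :=
      rep_add ht₁.differentiable ht₂.differentiable hp₁ hp₂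
    rw [rep_unique hP h1]
    refine Submodule.add_mem _ ?_ ?_
    · exact Submodule.le_topologicalClosure _ (Submodule.subset_span ⟨_, _, hm₁, hp₁⟩)
    · exact Submodule.le_topologicalClosure _ (Submodule.subset_span ⟨_, _, hm₂, hp₂⟩)

end Pool.Agent.NSL
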