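import Pool.Agent.NSL.FinalL
import Pool.Agent.NSL.ZFix

/-!
# MP_fd8964_an: good data near an arbitrary element of `V`, modulo fields which vanish on a compact set, which agree
with a given field outside a small set
-/

open MeasureTheory Set Filter Topology
open scoped RealInnerProductSpace ContDiff

noncomputable section

namespace Pool.Agent.NSL

open Pool.Agent.NSD Pool.Agent.NSK Pool.Agent.NSN

variable {Ω : Set E}

/-- The theorem for `u₁ - v(0)` in `curlW Ω`, in terms of the family of good data. -/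
theorem core (hΩ : IsOpen Ω) (hb : Bornology.IsBounded Ω) {η : ℝ} (hη : 0 < η) {Gd : ℝ → Set (V Ω)}
    (hGd : KickClosed Ω η Gd) (hM : MultiClosed Ω η Gd) (hT : ∀ ε, 0 < ε → ∀ x ∈ Gd ε, InTest x)
    {v₀ : V Ω} (hv0 : ∀ ε, 0 < ε → v₀ ∈ Gd ε) {u₀ : V Ω} (hmem : u₀ - v₀ ∈ curlW Ω)
    {U : Set E} {w : E → E} (hpre : PreL Ω U w) {K : Set (V Ω)} {q ε : ℝ} (hK : IsCompact K) (hq : 2 < q)
    (hε : 0 < ε) :
    ∃ x ∈ Gd ε, besov (x - u₀) q ≤ ENNReal.ofReal ε ∧ (∀ φ ∈ K, |⟪fld x, fld φ⟫ - ⟪fld u₀, fld φ⟫| < ε) ∧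
      Ex x U w ≤ ENNReal.ofReal ε := by
  obtain ⟨hU, hUΩ, hw, hdiv⟩ := hpre
  -- constants
  obtain ⟨R, hR0, hR⟩ : ∃ R : ℝ, 0 < R ∧ ∀ φ ∈ K, ‖φ‖ ≤ R := by
    obtain ⟨R, hR⟩ := hK.isBounded.exists_norm_le
    exact ⟨max R 1, lt_max_of_lt_right one_pos, fun φ hφ => (hR φ hφ).trans (le_max_left _ _)⟩
  set B : ℝ := 2 ^ (q - 1) with hB
  have hB1 : 1 ≤ B := Real.one_le_rpow (by norm_num) (by linarith)
  set δ : ℝ := ε / (5 * (B ^ 4 + R + 1)) with hδ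
  have hB4 : 0 < B ^ 4 := by positivity
  have hδ0 : 0 < δ := by positivity
  have hδe : δ * (5 * (B ^ 4 + R + 1)) = ε := by
    rw [hδ]; field_simp
  obtain ⟨x, hx, h2, h3⟩ := NSN.pure_all Ω hΩ hb η hη (fun r => Gd (r * (ε / (2 * δ))))
    (by
      intro a b ha hab y hy n aa k ξ qq G hk
      have hc : 0 < ε / (2 * δ) := by positivity
      exact hGd _ _ (by positivity) (mul_lt_mul_of_pos_right hab hc) y hy n aa k ξ qq G hk)
    v₀ (fun a ha => hv0 _ (by positivity)) u₀ hmem K q δ hK hq hδ0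
  have hx' : x ∈ Gd (ε / 2) := by
    have e1 : δ * (ε / (2 * δ)) = ε / 2 := by field_simp
    simpa only [e1] using hx
  obtain ⟨x', hx'mem, ⟨hbes, hdual⟩, hex, -⟩ := lusin hΩ hb hη hM hU hUΩ hw hdiv (half_pos hε)
    (half_lt_self hε) hx' (hT _ (half_pos hε) x hx') (show 1 ≤ q by linarith) hδ0 hε (Near.refl q δ x)
  refine ⟨x', hx'mem, ?_, fun φ hφ => ?_, hex⟩
  · refine (hbes u₀).trans ?_
    have e2 : (2 : ENNReal) ^ (q - 1) = ENNReal.ofReal B := by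
      rw [hB, ← ENNReal.ofReal_rpow_of_pos (by norm_num)]
      norm_num
    rw [e2, ← ENNReal.ofReal_pow (by positivity)]
    calc ENNReal.ofReal (B ^ (0 + 4)) * (NSN.besov (x - u₀) q + ((0 + 4 : ℕ) : ENNReal) * ENNReal.ofReal δ)
        ≤ ENNReal.ofReal (B ^ (0 + 4)) * (ENNReal.ofReal δ + ((0 + 4 : ℕ) : ENNReal) * ENNReal.ofReal δ) := by
          gcongr
      _ = ENNReal.ofReal (B ^ 4 * (5 * δ)) := by
          have e3 : ((0 + 4 : ℕ) : ENNReal) = ENNReal.ofReal 4 := by norm_num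
          rw [e3, ← ENNReal.ofReal_mul (by norm_num), ← ENNReal.ofReal_add hδ0.le (by positivity),
            ← ENNReal.ofReal_mul (by positivity)]
          congr 1; ring
      _ ≤ ENNReal.ofReal ε := by
          refine ENNReal.ofReal_le_ofReal ?_
          nlinarith [mul_pos hδ0 hR0, mul_pos hδ0 hB4]
  · have a1 := h2 φ hφ
    have a2 := hdual φ
    have a3 : ((0 + 4 : ℕ) : ℝ) * δ * ‖φ‖ ≤ 4 * δ * R := by
      have e3 : ((0 + 4 : ℕ) : ℝ) = 4 := by norm_num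
      rw [e3]
      exact mul_le_mul_of_nonneg_left (hR φ hφ) (by positivity)
    have a4 : ⟪fld x', fld φ⟫ - ⟪fld u₀, fld φ⟫
        = (⟪fld x', fld φ⟫ - ⟪fld x, fld φ⟫) + (⟪fld x, fld φ⟫ - ⟪fld u₀, fld φ⟫) := by
      ring
    rw [a4]
    refine (abs_add_le _ _).trans_lt ?_
    nlinarith [mul_pos hδ0 hR0, mul_pos hδ0 hB4]

/-- `z` vanishes almost everywhere on `C`. -/
def Van (z : V Ω) (C : Set E) : Prop := ∀ᵐ y ∂(volume.restrict C), (fld z : E → E) y = 0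

theorem test_dense (g : V Ω) {δ : ℝ} (hδ : 0 < δ) : ∃ (φ : E → E) (G : V Ω), IsTest Ω φ ∧ Represents Ω φ G ∧
    ‖G - g‖ ≤ δ := by
  obtain ⟨φ, p, hp, hl⟩ := Approx_proof Ω g
  obtain ⟨n, hn⟩ := (Metric.tendsto_atTop.1 hl δ hδ)
  refine ⟨φ n, p n, (hp n).1, (hp n).2, ?_⟩
  have := hn n le_rfl
  rw [dist_eq_norm] at this
  exact this.le

theorem van_of_rep {C : Set E} (hCΩ : C ⊆ Ω) {ζ : E → E} {z : V Ω} (hz : Represents Ω ζ z)
    (hd : Disjoint (tsupport ζ) C) (hCm : MeasurableSet C) : Van z C := by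
  have h1 : ∀ᵐ y ∂(volume.restrict C), (fld z : E → E) y = ζ y :=
    ae_mono (Measure.restrict_mono hCΩ le_rfl) hz.1
  unfold Van
  filter_upwards [h1, ae_restrict_mem hCm] with y h2 h3
  rw [h2]
  exact image_eq_zero_of_notMem_tsupport fun h => (Set.disjoint_left.1 hd) h h3

theorem van_zero {C : Set E} (hCΩ : C ⊆ Ω) (hCm : MeasurableSet C) : Van (0 : V Ω) C := by
  refine van_of_rep hCΩ (rep_zero' Ω) ?_ hCm
  have : tsupport (fun _ : E => (0 : E)) = ∅ := by simp [tsupport]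
  rw [this]
  exact Set.empty_disjoint _

/-- The general case. -/
theorem gen (hΩ : IsOpen Ω) (hb : Bornology.IsBounded Ω) {η : ℝ} (hη : 0 < η) {Gd : ℝ → Set (V Ω)}
    (hGd : KickClosed Ω η Gd) (hS : SoftClosed Ω Gd) (hM : MultiClosed Ω η Gd)
    (hT : ∀ ε, 0 < ε → ∀ x ∈ Gd ε, InTest x)
    {v₀ : V Ω} (hv0 : ∀ ε, 0 < ε → v₀ ∈ Gd ε) (u₀ : V Ω)
    {U : Set E} {w : E → E} (hpre : PreL Ω U w) {C : Set E} (hC : IsCompact C) (hCΩ : C ⊆ Ω)
    {K : Set (V Ω)} {q ε : ℝ} (hK : IsCompact K) (hq : 2 < q) (hε : 0 < ε) :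
    ∃ z : V Ω, InTest z ∧ Van z C ∧ (u₀ - v₀ ∈ curlW Ω → z = 0) ∧
    ∃ x ∈ Gd ε, besov (x - u₀ - z) q ≤ ENNReal.ofReal ε ∧
      (∀ φ ∈ K, |⟪fld x, fld φ⟫ - ⟪fld (u₀ + z), fld φ⟫| < ε) ∧ Ex x U w ≤ ENNReal.ofReal ε := by
  by_cases hmem : u₀ - v₀ ∈ curlW Ω
  · obtain ⟨x, hx, h1, h2, h3⟩ := core hΩ hb hη hGd hM hT hv0 hmem hpre hK hq hε
    refine ⟨0, inTest_zero Ω, van_zero hCΩ hC.measurableSet, fun _ => rfl, x, hx, by rwa [sub_zero], by rwa [add_zero], h3⟩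
  · -- constants
    obtain ⟨Cb, hCb, hadd⟩ := besov_add_proof (Ω := Ω) hb
    obtain ⟨R, hR0, hR⟩ : ∃ R : ℝ, 0 < R ∧ ∀ φ ∈ K, ‖φ‖ ≤ R := by
      obtain ⟨R, hR⟩ := hK.isBounded.exists_norm_le
      exact ⟨max R 1, lt_max_of_lt_right one_pos, fun φ hφ => (hR φ hφ).trans (le_max_left _ _)⟩
    set A : ℝ := 2 ^ (q - 1) * (1 + Cb ^ q * 2) with hA
    have hA0 : 0 < A := by positivity
    have hA1 : 1 ≤ A := by
      have h1 : (1 : ℝ) ≤ 2 ^ (q - 1) := Real.one_le_rpow (by norm_num) (by linarith)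
      have h2 : 0 ≤ Cb ^ q := Real.rpow_nonneg hCb _
      nlinarith
    set δ : ℝ := min 1 (ε / (A + R + 1)) with hδ
    have hδ0 : 0 < δ := lt_min one_pos (by positivity)
    have hδ1 : δ ≤ 1 := min_le_left _ _
    have hδ2 : δ * (A + R + 1) ≤ ε := by
      have h1 : δ ≤ ε / (A + R + 1) := min_le_right _ _
      rwa [le_div_iff₀ (by positivity)] at h1
    have hδε : δ < ε := by
      nlinarith [mul_pos hδ0 hR0, mul_pos hδ0 hA0]
    obtain ⟨φ₀, G, hφ₀, hG, hGn⟩ := test_dense (u₀ - v₀) hδ0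
    obtain ⟨ζ, hζ, hζC, hζW⟩ := zfix hΩ hb hC hCΩ hφ₀
    obtain ⟨z, hz⟩ := Rep_proof Ω _ hζ
    have hGz : G + z ∈ curlW Ω := hζW (G + z) (Layer66.rep_add hφ₀ hζ hG hz)
    set u₁ : V Ω := v₀ + (G + z) with hu₁
    have hmem₁ : u₁ - v₀ ∈ curlW Ω := by rw [hu₁, add_sub_cancel_left]; exact hGz
    obtain ⟨x, hx, h1, h2, h3⟩ := core hΩ hb hη hGd hM hT hv0 hmem₁ hpre hK hq hδ0
    refine ⟨z, ⟨ζ, hζ, hz⟩, van_of_rep hCΩ hz hζC hC.measurableSet, fun h => absurd h hmem, x,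
      soft_mono hS hδ0 hδε hx, ?_, fun φ hφ => ?_, h3.trans (ENNReal.ofReal_le_ofReal hδε.le)⟩
    · have e1 : x - u₀ - z = (x - u₁) + (G - (u₀ - v₀)) := by rw [hu₁]; abel
      rw [e1]
      refine (hadd (x - u₁) (G - (u₀ - v₀)) q hq.le).trans ?_
      have g1 : (Cb * ‖G - (u₀ - v₀)‖) ^ q * 2 ≤ Cb ^ q * 2 * δ := by
        rw [Real.mul_rpow hCb (norm_nonneg _)]
        have g2 : ‖G - (u₀ - v₀)‖ ^ q ≤ δ := by
          calc ‖G - (u₀ - v₀)‖ ^ q ≤ δ ^ q := Real.rpow_le_rpow (norm_nonneg _) hGn (by linarith)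
            _ ≤ δ ^ (1 : ℝ) := Real.rpow_le_rpow_of_exponent_ge hδ0 hδ1 (by linarith)
            _ = δ := Real.rpow_one _
        have g3 : 0 ≤ Cb ^ q := Real.rpow_nonneg hCb _
        nlinarith
      have e2 : (2 : ENNReal) ^ (q - 1) = ENNReal.ofReal (2 ^ (q - 1)) := by
        rw [← ENNReal.ofReal_rpow_of_pos (by norm_num)]
        norm_num
      calc (2 : ENNReal) ^ (q - 1) * (besov (x - u₁) q + ENNReal.ofReal ((Cb * ‖G - (u₀ - v₀)‖) ^ q * 2))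
          ≤ (2 : ENNReal) ^ (q - 1) * (ENNReal.ofReal δ + ENNReal.ofReal (Cb ^ q * 2 * δ)) := by
            gcongr
        _ = ENNReal.ofReal (A * δ) := by
            rw [e2, ← ENNReal.ofReal_add hδ0.le (by positivity), ← ENNReal.ofReal_mul (by positivity), hA]
            congr 1
            ring
        _ ≤ ENNReal.ofReal ε := by
            refine ENNReal.ofReal_le_ofReal ?_
            nlinarith [mul_pos hδ0 hR0]
    · have g1 := h2 φ hφ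
      have g2 : |⟪fld (G - (u₀ - v₀)), fld φ⟫| ≤ δ * R := by
        calc |⟪fld (G - (u₀ - v₀)), fld φ⟫| ≤ ‖fld (G - (u₀ - v₀))‖ * ‖fld φ‖ := abs_real_inner_le_norm _ _
          _ ≤ ‖G - (u₀ - v₀)‖ * ‖φ‖ := mul_le_mul (norm_fld_le _) (norm_fld_le _) (norm_nonneg _) (norm_nonneg _)
          _ ≤ δ * R := mul_le_mul hGn (hR φ hφ) (norm_nonneg _) hδ0.le
      have e1 : fld u₁ = fld (u₀ + z) + fld (G - (u₀ - v₀)) := by
        rw [← fld_add']
        congr 1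
        rw [hu₁]; abel
      have e2 : ⟪fld x, fld φ⟫ - ⟪fld (u₀ + z), fld φ⟫
          = (⟪fld x, fld φ⟫ - ⟪fld u₁, fld φ⟫) + ⟪fld (G - (u₀ - v₀)), fld φ⟫ := by
        rw [e1, inner_add_left]; ring
      rw [e2]
      refine (abs_add_le _ _).trans_lt ?_
      nlinarith [mul_pos hδ0 hA0]

end Pool.Agent.NSL
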