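import Pool.Agent.NSL.Phase

/-!
# MP_fd8964_an, soft waves: prescribed values and gradients
-/

open MeasureTheory Set Filter Topology
open scoped RealInnerProductSpace ContDiff

noncomputable section

namespace Pool.Agent.NSL

open Pool.Agent.NSD Pool.Agent.NSK Pool.Agent.NSK.Layer66 Pool.Agent.NSN Pool.Agent.NSN.Lacun

variable {Ω : Set E}

/-- `1/√2`. -/
def rt : ℝ := (√2)⁻¹

theorem rt_sq : rt * rt = 1 / 2 := by
  unfold rt
  rw [← mul_inv, Real.mul_self_sqrt (by norm_num)]; norm_num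

/-- The wave vectors. -/
def kk : Fin 8 → E := ![e 0, e 1, e 1, e 2, e 0, e 2, rt • (e 0 + e 1), rt • (e 1 + e 2)]
/-- The polarisations. -/
def xx : Fin 8 → E := ![e 1, e 0, e 2, e 1, e 2, e 0, rt • (e 0 - e 1), rt • (e 1 - e 2)]
/-- The coefficients. -/
def coef (M : G) : Fin 8 → ℝ := ![M 0 1 + M 0 0, M 1 0 - M 0 0, M 1 2 + (M 0 0 + M 1 1), M 2 1 - (M 0 0 + M 1 1),
  M 0 2, M 2 0, 2 * M 0 0, 2 * (M 0 0 + M 1 1)]

theorem e_apply (i j : Fin 3) : e i j = if j = i then 1 else 0 := by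
  simp [e]

theorem inner_ee (i j : Fin 3) : ⟪e i, e j⟫ = if j = i then (1 : ℝ) else 0 := by
  rw [e_inner, e_apply]

theorem norm_rt {v : E} (h : ⟪v, v⟫ = 2) : ‖rt • v‖ = 1 := by
  have h1 : ‖rt • v‖ ^ 2 = 1 := by
    rw [← real_inner_self_eq_norm_sq, real_inner_smul_left, real_inner_smul_right, h]
    have := rt_sq
    nlinarith
  have h0 := norm_nonneg (rt • v)
  nlinarith

theorem norm_add' {i j : Fin 3} (h : i ≠ j) : ‖rt • (e i + e j)‖ = 1 := by
  refine norm_rt ?_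
  rw [inner_add_left, inner_add_right, inner_add_right, inner_ee, inner_ee, inner_ee, inner_ee]
  simp [h, h.symm]; norm_num

theorem norm_sub' {i j : Fin 3} (h : i ≠ j) : ‖rt • (e i - e j)‖ = 1 := by
  refine norm_rt ?_
  rw [inner_sub_left, inner_sub_right, inner_sub_right, inner_ee, inner_ee, inner_ee, inner_ee]
  simp [h, h.symm]; norm_num

theorem kk_unit (j : Fin 8) : ‖kk j‖ = 1 := by
  fin_cases j
  · exact norm_e 0
  · exact norm_e 1
  · exact norm_e 1
  · exact norm_e 2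
  · exact norm_e 0
  · exact norm_e 2
  · exact norm_add' (by decide)
  · exact norm_add' (by decide)

theorem xx_unit (j : Fin 8) : ‖xx j‖ = 1 := by
  fin_cases j
  · exact norm_e 1
  · exact norm_e 0
  · exact norm_e 2
  · exact norm_e 1
  · exact norm_e 2
  · exact norm_e 0
  · exact norm_sub' (by decide)
  · exact norm_sub' (by decide)

theorem kk_xx (j : Fin 8) : ⟪kk j, xx j⟫ = 0 := by
  fin_cases j <;> simp [kk, xx, inner_add_left, inner_sub_right, real_inner_smul_left, real_inner_smul_right,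
      inner_ee, norm_e]

theorem coef_sum {M : G} (hM : ∑ i : Fin 3, M i i = 0) : ∑ j, coef M j • tens (kk j) (xx j) = M := by
  have hr := rt_sq
  have h3 : M 0 0 + M 1 1 + M 2 2 = 0 := by simpa [Fin.sum_univ_three] using hM
  ext i l
  simp only [Fin.sum_univ_eight]
  fin_cases i <;> fin_cases l <;>
    simp [coef, tens, kk, xx, e_apply] <;> (try simp only [hr]) <;> linarith

/-- The trace of the gradient vanishes. -/
theorem trace_grd {x : V Ω} (hx : InTest x) : ∀ᵐ y ∂(volume.restrict Ω), ∑ i : Fin 3, (grd x : E → G) y i i = 0 := by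
  obtain ⟨v, hv, hr⟩ := hx
  filter_upwards [hr.2] with y hy
  have h1 : (grd x : E → G) y = gradField v y := hy
  rw [h1]
  exact hv.div y

section
variable {X : Type*} [NormedAddCommGroup X]

theorem Ip_congr {p : ℝ} {f g : E → X} (h : f =ᵐ[volume.restrict Ω] g) : Ip Ω p f = Ip Ω p g := by
  unfold Ip
  refine lintegral_congr_ae ?_
  filter_upwards [h] with y hy
  rw [hy]

theorem Ip_L2 (hb : Bornology.IsBounded Ω) {p : ℝ} (hp0 : 0 < p) (hp1 : p < 1) (f : Lp X 2 (volume.restrict Ω)) :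
    Ip Ω p (f : E → X) < ⊤ := by
  have : IsFiniteMeasure (volume.restrict Ω) := Weak.finiteMeasure hb
  have hp2 : ENNReal.ofReal p ≤ 2 := by
    rw [← ENNReal.ofReal_ofNat]
    exact ENNReal.ofReal_le_ofReal (by linarith)
  rw [Ip_eq_eLpNorm hp0]
  exact ENNReal.rpow_lt_top_of_nonneg hp0.le ((Lp.memLp f).mono_exponent hp2).2.ne

theorem Ip_neg {p : ℝ} (f : E → X) : Ip Ω p (fun y => - f y) = Ip Ω p f := by
  unfold Ip; simp only [enorm_neg]

theorem Ip_sub_lt {p : ℝ} (hp0 : 0 < p) (hp1 : p < 1) {f g : E → X}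
    (hf : AEStronglyMeasurable f (volume.restrict Ω)) (hfi : Ip Ω p f < ⊤) (hgi : Ip Ω p g < ⊤) :
    Ip Ω p (fun y => f y - g y) < ⊤ := by
  have e1 : (fun y => f y - g y) = fun y => f y + (- g y) := by funext y; rw [sub_eq_add_neg]
  rw [e1]
  refine (Ip_add hp0.le hp1.le hf).trans_lt ?_
  rw [Ip_neg]
  exact ENNReal.add_lt_top.2 ⟨hfi, hgi⟩

end

theorem val_sum (v : E) : ∑ j : Fin 3, v j • e j = v := Weak.sum_e v

theorem inner_step (j : Fin 3) : ⟪e (j + 1), e j⟫ = 0 := by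
  rw [inner_ee]
  fin_cases j <;> simp

/-- Values and gradients can be prescribed in `L^p`, `p < 1`. -/
theorem joint (hΩ : IsOpen Ω) (hb : Bornology.IsBounded Ω) {Gd : ℝ → Set (V Ω)} (hS : SoftClosed Ω Gd)
    {p : ℝ} (hp0 : 0 < p) (hp1 : p < 1) {ε ε' : ℝ} (hε : 0 < ε) (hεε' : ε < ε') {x : V Ω} (hx : x ∈ Gd ε)
    (hxt : InTest x) {g : E → E} (hg : AEStronglyMeasurable g (volume.restrict Ω)) (hgi : Ip Ω p g < ⊤)
    {Γ : E → G} (hΓ : AEStronglyMeasurable Γ (volume.restrict Ω)) (hΓi : Ip Ω p Γ < ⊤)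
    (htr : ∀ᵐ y ∂(volume.restrict Ω), ∑ i : Fin 3, Γ y i i = 0) {q δ : ℝ} (hq : 1 ≤ q) (hδ : 0 < δ) :
    ∃ W₀ W₁ : V Ω, x + W₀ + W₁ ∈ Gd ε' ∧ SmallHeat q δ W₀ ∧ SmallHeat q δ W₁ ∧
      (∀ φ : V Ω, |⟪fld W₀, fld φ⟫| ≤ δ * ‖φ‖) ∧ (∀ φ : V Ω, |⟪fld W₁, fld φ⟫| ≤ δ * ‖φ‖) ∧
      Ip Ω p (fun y => (fld (x + W₀ + W₁) : E → E) y - g y) ≤ ENNReal.ofReal (δ + δ) ∧
      Ip Ω p (fun y => (grd (x + W₀ + W₁) : E → G) y - Γ y) ≤ ENNReal.ofReal δ := by
  -- phase 0
  have hgx : AEStronglyMeasurable (fun y => g y - (fld x : E → E) y) (volume.restrict Ω) :=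
    hg.sub (Lp.aestronglyMeasurable _)
  have hgxi : Ip Ω p (fun y => g y - (fld x : E → E) y) < ⊤ :=
    Ip_sub_lt hp0 hp1 hg hgi (Ip_L2 hb hp0 hp1 (fld x))
  obtain ⟨W₀, F₀, hF₀, hW₀, hmem₀, hheat₀, hdual₀, hI₀⟩ := phase hΩ hb hS (isObs_val (Ω := Ω)) (φ := 0) (r := 0)
    hp0 hp1 (ι := Fin 3) (k := fun j => e (j + 1)) (ξ := fun j => e j) (T := fun j => e j)
    (fun j => norm_e _) (fun j => norm_e _) inner_step (fun j => sees_val (norm_e _) (inner_step j))
    (c := fun j y => (g y - (fld x : E → E) y) j)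
    (fun j => by
      have hc : Continuous fun v : E => v j := by fun_prop
      exact hc.comp_aestronglyMeasurable hgx)
    (fun j => (Ip_mono hp0.le fun y => PiLp.norm_apply_le _ j).trans_lt hgxi)
    hε (show ε < (ε + ε') / 2 by linarith) hx hq hδ
  have hxt₁ : InTest (x + W₀) := by
    obtain ⟨v, hv, hr⟩ := hxt
    exact ⟨_, hv.add hF₀, Layer66.rep_add hv hF₀ hr hW₀⟩
  -- phase 1
  set x₁ : V Ω := x + W₀ with hx₁
  have hM : AEStronglyMeasurable (fun y => Γ y - (grd x₁ : E → G) y) (volume.restrict Ω) :=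
    hΓ.sub (Lp.aestronglyMeasurable _)
  have hMi : Ip Ω p (fun y => Γ y - (grd x₁ : E → G) y) < ⊤ :=
    Ip_sub_lt hp0 hp1 hΓ hΓi (Ip_L2 hb hp0 hp1 (grd x₁))
  have hcont : ∀ j, Continuous fun M : G => coef M j := by
    intro j
    fin_cases j <;> simp only [coef] <;> simp <;> fun_prop
  have hcoef : ∀ j (M : G), |coef M j| ≤ 8 * ‖M‖ := by
    intro j M
    have h1 : ∀ i l : Fin 3, |M i l| ≤ ‖M‖ := fun i l => (PiLp.norm_apply_le (M i) l).trans (PiLp.norm_apply_le M i)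
    have h2 := norm_nonneg M
    have a := fun i l => abs_le.1 (h1 i l)
    rw [abs_le]
    fin_cases j <;> simp [coef] <;> constructor <;>
      linarith [(a 0 1).1, (a 0 0).1, (a 1 0).1, (a 1 2).1, (a 1 1).1, (a 2 1).1, (a 0 2).1, (a 2 0).1,
        (a 0 1).2, (a 0 0).2, (a 1 0).2, (a 1 2).2, (a 1 1).2, (a 2 1).2, (a 0 2).2, (a 2 0).2]
  obtain ⟨W₁, F₁, hF₁, hW₁, hmem₁, hheat₁, hdual₁, hI₁⟩ := phase hΩ hb hS (isObs_grad (Ω := Ω))
    (φ := Real.pi / 2) (r := 1)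
    hp0 hp1 (ι := Fin 8) (k := kk) (ξ := xx) (T := fun j => ((0 : E), tens (kk j) (xx j)))
    kk_unit xx_unit kk_xx (fun j => sees_grad (kk_unit j) (xx_unit j) (kk_xx j))
    (c := fun j y => coef (Γ y - (grd x₁ : E → G) y) j)
    (fun j => (hcont j).comp_aestronglyMeasurable hM)
    (fun j => by
      have h1 : Ip Ω p (fun y => coef (Γ y - (grd x₁ : E → G) y) j)
          ≤ Ip Ω p (fun y => (8 : ℝ) • (Γ y - (grd x₁ : E → G) y)) := by
        refine Ip_mono hp0.le fun y => ?_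
        rw [norm_smul, Real.norm_eq_abs, Real.norm_eq_abs, abs_of_pos (by norm_num : (0 : ℝ) < 8)]
        exact hcoef j _
      refine h1.trans_lt ?_
      have h2 : Ip Ω p (fun y => (8 : ℝ) • (Γ y - (grd x₁ : E → G) y))
          = ‖(8 : ℝ)‖ₑ ^ p * Ip Ω p (fun y => Γ y - (grd x₁ : E → G) y) := by
        unfold Ip
        rw [← lintegral_const_mul' _ _ (ENNReal.rpow_ne_top_of_nonneg hp0.le enorm_ne_top)]
        refine lintegral_congr fun y => ?_
        rw [enorm_smul, ENNReal.mul_rpow_of_nonneg _ _ hp0.le]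
      rw [h2]
      exact ENNReal.mul_lt_top (ENNReal.rpow_lt_top_of_nonneg hp0.le enorm_ne_top) hMi)
    (show 0 < (ε + ε') / 2 by linarith) (show (ε + ε') / 2 < ε' by linarith) hmem₀ hq hδ
  -- the sum of the gradient target
  have htr₁ := trace_grd hxt₁
  have hsum : (fun y => obs1 F₁ y - ∑ j, coef (Γ y - (grd x₁ : E → G) y) j • ((0 : E), tens (kk j) (xx j)))
      =ᵐ[volume.restrict Ω] fun y => (F₁ y, gradField F₁ y - (Γ y - (grd x₁ : E → G) y)) := by
    filter_upwards [htr, htr₁] with y h1 h2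
    have h3 : ∑ i : Fin 3, (Γ y - (grd x₁ : E → G) y) i i = 0 := by
      have h4 : ∀ i : Fin 3, (Γ y - (grd x₁ : E → G) y) i i = Γ y i i - (grd x₁ : E → G) y i i := fun i => rfl
      simp only [h4, Finset.sum_sub_distrib, h1, h2, sub_zero]
    have h5 : ∑ j, coef (Γ y - (grd x₁ : E → G) y) j • ((0 : E), tens (kk j) (xx j))
        = ((0 : E), Γ y - (grd x₁ : E → G) y) := by
      refine Prod.ext ?_ ?_
      · rw [Prod.fst_sum]
        simp
      · rw [Prod.snd_sum]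
        exact coef_sum h3
    rw [h5]
    unfold obs1
    simp
  have hI : Ip Ω p (fun y => (F₁ y, gradField F₁ y - (Γ y - (grd x₁ : E → G) y))) ≤ ENNReal.ofReal δ := by
    rw [← Ip_congr hsum]
    exact hI₁
  have hIF : Ip Ω p F₁ ≤ ENNReal.ofReal δ :=
    (Ip_mono hp0.le fun y => norm_fst_le (F₁ y, gradField F₁ y - (Γ y - (grd x₁ : E → G) y))).trans hI
  have hIG : Ip Ω p (fun y => gradField F₁ y - (Γ y - (grd x₁ : E → G) y)) ≤ ENNReal.ofReal δ :=
    (Ip_mono hp0.le fun y => norm_snd_le (F₁ y, gradField F₁ y - (Γ y - (grd x₁ : E → G) y))).trans hI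
  refine ⟨W₀, W₁, hmem₁, hheat₀, hheat₁, hdual₀, hdual₁, ?_, ?_⟩
  · have e1 : (fun y => (fld (x₁ + W₁) : E → E) y - g y) =ᵐ[volume.restrict Ω]
        fun y => (F₀ y - ∑ j : Fin 3, (g y - (fld x : E → E) y) j • e j) + F₁ y := by
      have h1 : (fld (x₁ + W₁) : E → E) =ᵐ[volume.restrict Ω] fun y => (fld x₁ : E → E) y + (fld W₁ : E → E) y :=
        Lp.coeFn_add (fld x₁) (fld W₁)
      have h2 : (fld x₁ : E → E) =ᵐ[volume.restrict Ω] fun y => (fld x : E → E) y + (fld W₀ : E → E) y :=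
        Lp.coeFn_add (fld x) (fld W₀)
      filter_upwards [h1, h2, hW₀.1, hW₁.1] with y h3 h4 h5 h6
      have h5' : (fld W₀ : E → E) y = F₀ y := h5
      have h6' : (fld W₁ : E → E) y = F₁ y := h6
      rw [h3, h4, h5', h6', val_sum]
      abel
    rw [Ip_congr e1]
    refine (Ip_add hp0.le hp1.le ?_).trans ?_
    · simp only [val_sum]
      exact hF₀.smooth.continuous.aestronglyMeasurable.sub hgx
    · rw [ENNReal.ofReal_add hδ.le hδ.le]
      exact add_le_add hI₀ hIF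
  · have e1 : (fun y => (grd (x₁ + W₁) : E → G) y - Γ y) =ᵐ[volume.restrict Ω]
        fun y => gradField F₁ y - (Γ y - (grd x₁ : E → G) y) := by
      have h1 : (grd (x₁ + W₁) : E → G) =ᵐ[volume.restrict Ω] fun y => (grd x₁ : E → G) y + (grd W₁ : E → G) y :=
        Lp.coeFn_add (grd x₁) (grd W₁)
      filter_upwards [h1, hW₁.2] with y h3 h4
      have h4' : (grd W₁ : E → G) y = gradField F₁ y := h4
      rw [h3, h4']
      abel
    rw [Ip_congr e1]
    exact hIG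

end Pool.Agent.NSL
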