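import Pool.Agent.NSL.PotLocal

/-!
Problem MP_fd8964_an, freezing: potentials with compact support, with a bound in `L^p`, `p < 1`
-/

open MeasureTheory Set Filter Topology
open scoped RealInnerProductSpace ContDiff

noncomputable section

namespace Pool.Agent.NSL

open Pool.Agent.NSD Pool.Agent.NSK

namespace PLP

/-- The smooth step has a bounded derivative. -/
theorem step_bd : ∃ C : ℝ, 0 ≤ C ∧ ∀ s, |deriv Real.smoothTransition s| ≤ C := by
  have hcont : Continuous (deriv Real.smoothTransition) :=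
    (Real.smoothTransition.contDiff (n := 1)).continuous_deriv le_rfl
  obtain ⟨C, hC⟩ := (isCompact_Icc (a := (0 : ℝ)) (b := 1)).exists_bound_of_continuousOn
    hcont.continuousOn
  refine ⟨max C 0, le_max_right _ _, fun s => ?_⟩
  by_cases h : s ∈ Icc (0 : ℝ) 1
  · exact (hC s h).trans (le_max_left _ _)
  · have h0 : deriv Real.smoothTransition s = 0 := by
      rw [mem_Icc, not_and_or, not_le, not_le] at h
      rcases h with h | h
      · have h1 : Real.smoothTransition =ᶠ[𝓝 s] fun _ => (0 : ℝ) := by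
          filter_upwards [Iio_mem_nhds h] with y hy
          exact Real.smoothTransition.zero_of_nonpos (le_of_lt hy)
        rw [h1.deriv_eq, deriv_const]
      · have h1 : Real.smoothTransition =ᶠ[𝓝 s] fun _ => (1 : ℝ) := by
          filter_upwards [Ioi_mem_nhds h] with y hy
          exact Real.smoothTransition.one_of_one_le (le_of_lt hy)
        rw [h1.deriv_eq, deriv_const]
    rw [h0, abs_zero]
    exact le_max_right _ _

/-- The radial variable of the cut-off. -/
def rad (c : E) (r θ : ℝ) (x : E) : ℝ := (r ^ 2 - (θ * r) ^ 2)⁻¹ * (‖x - c‖ ^ 2 - (θ * r) ^ 2)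

/-- The cut-off: `1` on the ball of radius `θ r`, `0` outside the ball of radius `r`. -/
def cut (c : E) (r θ : ℝ) (x : E) : ℝ := 1 - Real.smoothTransition (rad c r θ x)

theorem den_pos {r θ : ℝ} (hr : 0 < r) (h0 : 0 < θ) (h1 : θ < 1) : 0 < r ^ 2 - (θ * r) ^ 2 := by
  have h2 : θ * r < r := by nlinarith
  have h3 : 0 < θ * r := mul_pos h0 hr
  nlinarith

theorem contDiff_cut (c : E) (r θ : ℝ) : ContDiff ℝ ∞ (cut c r θ) := by
  unfold cut rad
  exact contDiff_const.sub (Real.smoothTransition.contDiff.comp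
    (contDiff_const.mul (((contDiff_id.sub contDiff_const).norm_sq ℝ).sub contDiff_const)))

theorem cut_one {c : E} {r θ : ℝ} (hr : 0 < r) (h0 : 0 < θ) (h1 : θ < 1) {x : E}
    (hx : x ∈ Metric.ball c (θ * r)) : cut c r θ x = 1 := by
  have hx' : ‖x - c‖ < θ * r := by rwa [Metric.mem_ball, dist_eq_norm] at hx
  have h2 : rad c r θ x ≤ 0 := by
    unfold rad
    have h3 : ‖x - c‖ ^ 2 - (θ * r) ^ 2 ≤ 0 := by nlinarith [norm_nonneg (x - c)]
    have h4 := inv_pos.mpr (den_pos hr h0 h1)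
    nlinarith
  unfold cut
  rw [Real.smoothTransition.zero_of_nonpos h2, sub_zero]

theorem cut_zero {c : E} {r θ : ℝ} (hr : 0 < r) (h0 : 0 < θ) (h1 : θ < 1) {x : E}
    (hx : x ∉ Metric.closedBall c r) : cut c r θ x = 0 := by
  have hx' : r < ‖x - c‖ := by rwa [Metric.mem_closedBall, dist_eq_norm, not_le] at hx
  have hd := den_pos hr h0 h1
  have h2 : 1 ≤ rad c r θ x := by
    unfold rad
    rw [inv_mul_eq_div, le_div_iff₀ hd, one_mul]
    nlinarith
  unfold cut
  rw [Real.smoothTransition.one_of_one_le h2, sub_self]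

theorem cut_abs (c : E) (r θ : ℝ) (x : E) : |cut c r θ x| ≤ 1 := by
  unfold cut
  have h1 := Real.smoothTransition.nonneg (rad c r θ x)
  have h2 := Real.smoothTransition.le_one (rad c r θ x)
  rw [abs_le]
  constructor <;> linarith

theorem cut_fderiv {C : ℝ} (hC : ∀ s, |deriv Real.smoothTransition s| ≤ C) {c : E} {r θ : ℝ}
    (hr : 0 < r) (h0 : 0 < θ) (h1 : θ < 1) {x : E} (hx : x ∈ Metric.closedBall c r) :
    ‖fderiv ℝ (cut c r θ) x‖ ≤ 2 * C / r / (1 - θ) := by
  have hx' : ‖x - c‖ ≤ r := by rwa [Metric.mem_closedBall, dist_eq_norm] at hx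
  have hd := den_pos hr h0 h1
  have hC0 : 0 ≤ C := (abs_nonneg _).trans (hC 0)
  have e1 : HasFDerivAt (fun y : E => ‖y - c‖ ^ 2) (2 • (innerSL ℝ (x - c))) x := by
    have := ((hasFDerivAt_id x).sub_const c).norm_sq
    simpa using this
  have e2 : HasFDerivAt (rad c r θ) ((r ^ 2 - (θ * r) ^ 2)⁻¹ • (2 • (innerSL ℝ (x - c)))) x := by
    have := (e1.sub_const ((θ * r) ^ 2)).const_mul (r ^ 2 - (θ * r) ^ 2)⁻¹
    exact this
  have e3 : HasDerivAt Real.smoothTransition (deriv Real.smoothTransition (rad c r θ x))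
      (rad c r θ x) :=
    ((Real.smoothTransition.contDiff (n := 1)).differentiable (by norm_num) _).hasDerivAt
  have e4 := (e3.comp_hasFDerivAt x e2).const_sub 1
  have e5 : fderiv ℝ (cut c r θ) x = -(deriv Real.smoothTransition (rad c r θ x) •
      ((r ^ 2 - (θ * r) ^ 2)⁻¹ • (2 • (innerSL ℝ (x - c))))) := e4.fderiv
  rw [e5, norm_neg, norm_smul, norm_smul, Real.norm_eq_abs, Real.norm_eq_abs,
    abs_of_pos (inv_pos.mpr hd)]
  have e6 : ‖(2 • (innerSL ℝ (x - c)) : E →L[ℝ] ℝ)‖ ≤ 2 * r := by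
    rw [two_smul]
    refine (norm_add_le _ _).trans ?_
    rw [innerSL_apply_norm]
    linarith
  have e7 : (r ^ 2 - (θ * r) ^ 2)⁻¹ ≤ (r ^ 2 * (1 - θ))⁻¹ := by
    apply inv_anti₀ (by have : 0 < 1 - θ := by linarith
                        positivity)
    have h3 : 0 < r ^ 2 := by positivity
    have h4 : 0 < 1 - θ := by linarith
    nlinarith [mul_pos (mul_pos h3 h4) h0]
  have h4 : 0 < 1 - θ := by linarith
  calc |deriv Real.smoothTransition (rad c r θ x)| *
        ((r ^ 2 - (θ * r) ^ 2)⁻¹ * ‖(2 • (innerSL ℝ (x - c)) : E →L[ℝ] ℝ)‖)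
      ≤ C * ((r ^ 2 * (1 - θ))⁻¹ * (2 * r)) := by
        refine mul_le_mul (hC _) ?_ (by positivity) hC0
        exact mul_le_mul e7 e6 (norm_nonneg _) (by positivity)
    _ = 2 * C / r / (1 - θ) := by
        field_simp

theorem stream_le (k ξ : E) (f : E → ℝ) (x : E) :
    ‖stream k ξ f x‖ ≤ 2 * ‖k‖ * ‖ξ‖ * ‖fderiv ℝ f x‖ := by
  unfold stream dd
  refine (norm_sub_le _ _).trans ?_
  rw [norm_smul, norm_smul]
  have h1 := (fderiv ℝ f x).le_opNorm k
  have h2 := (fderiv ℝ f x).le_opNorm ξ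
  have h3 := mul_le_mul_of_nonneg_right h1 (norm_nonneg ξ)
  have h4 := mul_le_mul_of_nonneg_right h2 (norm_nonneg k)
  nlinarith

/-- The stream field of a cut potential is at most `K / (1 - θ)`. -/
theorem cut_stream (k ξ : E) (D : E → ℝ) (hD : ContDiff ℝ ∞ D) (c : E) (r : ℝ) (hr : 0 < r) :
    ∃ K : ℝ, 0 ≤ K ∧ ∀ θ : ℝ, 0 < θ → θ < 1 → ∀ x ∈ Metric.closedBall c r,
      ‖stream k ξ (fun y => cut c r θ y * D y) x‖ ≤ K / (1 - θ) := by
  obtain ⟨C, hC0, hC⟩ := step_bd
  obtain ⟨M0, hM0⟩ := (isCompact_closedBall c r).exists_bound_of_continuousOn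
    (f := D) hD.continuous.continuousOn
  obtain ⟨M1, hM1⟩ := (isCompact_closedBall c r).exists_bound_of_continuousOn
    (f := fderiv ℝ D) (hD.continuous_fderiv (by simp)).continuousOn
  have hcm : c ∈ Metric.closedBall c r := Metric.mem_closedBall_self hr.le
  have p0 : 0 ≤ M0 := (norm_nonneg _).trans (hM0 c hcm)
  have p1 : 0 ≤ M1 := (norm_nonneg _).trans (hM1 c hcm)
  refine ⟨2 * ‖k‖ * ‖ξ‖ * (M1 + M0 * (2 * C / r)), by positivity, fun θ h0 h1 x hx => ?_⟩
  have h4 : 0 < 1 - θ := by linarith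
  refine (stream_le k ξ _ x).trans ?_
  rw [mul_div_assoc]
  refine mul_le_mul_of_nonneg_left ?_ (by positivity)
  have e1 : HasFDerivAt (cut c r θ) (fderiv ℝ (cut c r θ) x) x :=
    ((contDiff_cut c r θ).differentiable (by simp) x).hasFDerivAt
  have e2 : HasFDerivAt D (fderiv ℝ D x) x := (hD.differentiable (by simp) x).hasFDerivAt
  have e3 := (e1.mul e2).fderiv
  have e4 : fderiv ℝ (fun y => cut c r θ y * D y) x =
      cut c r θ x • fderiv ℝ D x + D x • fderiv ℝ (cut c r θ) x := e3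
  rw [e4]
  refine (norm_add_le _ _).trans ?_
  rw [norm_smul, norm_smul, Real.norm_eq_abs]
  have a1 : |cut c r θ x| * ‖fderiv ℝ D x‖ ≤ 1 * M1 :=
    mul_le_mul (cut_abs c r θ x) (hM1 x hx) (norm_nonneg _) zero_le_one
  have a2 : ‖D x‖ * ‖fderiv ℝ (cut c r θ) x‖ ≤ M0 * (2 * C / r / (1 - θ)) :=
    mul_le_mul (hM0 x hx) (cut_fderiv hC hr h0 h1 hx) (norm_nonneg _) p0
  have a3 : M1 ≤ M1 / (1 - θ) := by
    rw [le_div_iff₀ h4]
    nlinarith
  rw [add_div]
  have a4 : M0 * (2 * C / r / (1 - θ)) = M0 * (2 * C / r) / (1 - θ) := by ring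
  rw [← a4]
  linarith

end PLP

open PLP

/-- `pot_local` with a bound for the error in `L^p`, `p < 1`. -/
theorem pot_local_p {U : Set E} (hU : IsOpen U) (hb : Bornology.IsBounded U) (w : E → E)
    (hw : ContDiffOn ℝ ∞ w U) (hdiv : ∀ x ∈ U, divField w x = 0) (p : ℝ) (hp0 : 0 < p) (hp1 : p < 1)
    (hwp : ∫⁻ y in U, ‖w y‖ₑ ^ p < ⊤) (ε : ℝ) (hε : 0 < ε) :
    ∃ A B : E → ℝ, IsBump U A ∧ IsBump U B ∧
      volume {x | x ∈ U ∧ stream (e 0) (e 2) A x + stream (e 1) (e 2) B x ≠ w x} ≤ ENNReal.ofReal ε ∧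
      ∫⁻ y in U, ‖stream (e 0) (e 2) A y + stream (e 1) (e 2) B y - w y‖ₑ ^ p ≤ ENNReal.ofReal ε := by
  classical
  have hε2 : 0 < ε / 2 := by linarith
  obtain ⟨δ0, hδ0, hac⟩ := exists_pos_setLIntegral_lt_of_measure_lt (μ := volume.restrict U)
    (f := fun y => ‖w y‖ₑ ^ p) hwp.ne (ENNReal.ofReal_pos.2 hε2).ne'
  obtain ⟨ε0, hε0, hε0'⟩ := ENNReal.lt_iff_exists_nnreal_btwn.1 hδ0
  have hε0p : 0 < (ε0 : ℝ) := by
    have : (0 : NNReal) < ε0 := by exact_mod_cast hε0
    exact this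
  set ε1 : ℝ := min ε ε0 with hε1def
  have hε1 : 0 < ε1 := lt_min hε hε0p
  have hε1δ : ENNReal.ofReal ε1 < δ0 := by
    refine lt_of_le_of_lt (ENNReal.ofReal_le_ofReal (min_le_right _ _)) ?_
    rwa [ENNReal.ofReal_coe_nnreal]
  obtain ⟨F, r, θ₀, hθ₀0, hθ₀1, hF, hdisj, hvol⟩ := fin_cover hU hb.measure_lt_top.ne ε1 hε1
  have hAB0 : ∀ c, ∃ A B : E → ℝ, c ∈ F → ContDiff ℝ ∞ A ∧ ContDiff ℝ ∞ B ∧
      ∀ x ∈ Metric.ball c (r c), stream (e 0) (e 2) A x + stream (e 1) (e 2) B x = w x := by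
    intro c
    by_cases hc : c ∈ F
    · obtain ⟨A, B, h⟩ := pot_ball hU w hw hdiv c (r c) (hF c hc).1 (hF c hc).2
      exact ⟨A, B, fun _ => h⟩
    · exact ⟨0, 0, fun h => absurd h hc⟩
  choose A B hAB using hAB0
  have hK0 : ∀ c, ∃ K : ℝ, 0 ≤ K ∧ (c ∈ F → ∀ θ : ℝ, 0 < θ → θ < 1 →
      ∀ x ∈ Metric.closedBall c (r c),
      ‖stream (e 0) (e 2) (fun y => cut c (r c) θ y * A c y) x +
        stream (e 1) (e 2) (fun y => cut c (r c) θ y * B c y) x‖ ≤ K / (1 - θ)) := by
    intro c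
    by_cases hc : c ∈ F
    · obtain ⟨K1, k1, h1⟩ := cut_stream (e 0) (e 2) (A c) (hAB c hc).1 c (r c) (hF c hc).1
      obtain ⟨K2, k2, h2⟩ := cut_stream (e 1) (e 2) (B c) (hAB c hc).2.1 c (r c) (hF c hc).1
      refine ⟨K1 + K2, by positivity, fun _ θ t0 t1 x hx => ?_⟩
      rw [add_div]
      exact (norm_add_le _ _).trans (add_le_add (h1 θ t0 t1 x hx) (h2 θ t0 t1 x hx))
    · exact ⟨0, le_rfl, fun h => absurd h hc⟩
  choose K hKpos hK using hK0
  -- the choice of the width of the shells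
  set V : E → ℝ := fun c => (volume (Metric.closedBall c (r c))).toReal with hV
  have hVfin : ∀ c, volume (Metric.closedBall c (r c)) = ENNReal.ofReal (V c) := by
    intro c
    rw [hV, ENNReal.ofReal_toReal]
    exact measure_closedBall_lt_top.ne
  have hV0 : ∀ c, 0 ≤ V c := fun c => ENNReal.toReal_nonneg
  set H : ℝ := ∑ c ∈ F, 3 * (K c) ^ p * V c with hH
  have hKp : ∀ c, 0 ≤ (K c) ^ p := fun c => Real.rpow_nonneg (hKpos c) p
  have hH0 : 0 ≤ H := Finset.sum_nonneg fun c _ => by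
    have := hKp c
    have := hV0 c
    positivity
  have hq : 0 < 1 - p := by linarith
  set δ : ℝ := min (1 - θ₀) ((ε / (2 * (H + 1))) ^ (1 - p)⁻¹) with hδdef
  have hbase : 0 < ε / (2 * (H + 1)) := by positivity
  have hδ : 0 < δ := lt_min (by linarith) (Real.rpow_pos_of_pos hbase _)
  have hδ1 : δ ≤ 1 - θ₀ := min_le_left _ _
  have hδq : δ ^ (1 - p) ≤ ε / (2 * (H + 1)) := by
    have h1 : δ ^ (1 - p) ≤ ((ε / (2 * (H + 1))) ^ (1 - p)⁻¹) ^ (1 - p) :=
      Real.rpow_le_rpow hδ.le (min_le_right _ _) hq.le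
    rwa [Real.rpow_inv_rpow hbase.le hq.ne'] at h1
  have hHδ : H * δ ^ (1 - p) ≤ ε / 2 := by
    have h1 : H * δ ^ (1 - p) ≤ H * (ε / (2 * (H + 1))) := mul_le_mul_of_nonneg_left hδq hH0
    refine h1.trans ?_
    rw [mul_div_assoc', div_le_div_iff₀ (by positivity) (by norm_num)]
    nlinarith
  set θ : ℝ := 1 - δ with hθdef
  have hθ0 : 0 < θ := by linarith
  have hθ1 : θ < 1 := by linarith
  have hθ01 : θ₀ ≤ θ := by linarith
  have h1θ : 1 - θ = δ := by rw [hθdef]; ring
  set ψ : E → E → ℝ := fun c => cut c (r c) θ with hψdef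
  set KK : Set E := ⋃ c ∈ F, Metric.closedBall c (r c) with hKK
  have hKc : IsCompact KK := F.isCompact_biUnion fun c _ => isCompact_closedBall c (r c)
  have hKU : KK ⊆ U := Set.iUnion₂_subset fun c hc => (hF c hc).2
  have hψ0 : ∀ c ∈ F, ∀ x, x ∉ Metric.closedBall c (r c) → ψ c x = 0 := fun c hc x hx =>
    cut_zero (hF c hc).1 hθ0 hθ1 hx
  have hψ1 : ∀ c ∈ F, ∀ x ∈ Metric.ball c (θ * r c), ψ c x = 1 := fun c hc x hx =>
    cut_one (hF c hc).1 hθ0 hθ1 hx
  have hsupp : ∀ D : E → E → ℝ, Function.support (fun x => ∑ c ∈ F, ψ c x * D c x) ⊆ KK := by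
    intro D x hx
    by_contra hxK
    apply hx
    apply Finset.sum_eq_zero
    intro c hc
    have : x ∉ Metric.closedBall c (r c) := fun h => hxK (Set.mem_biUnion hc h)
    rw [hψ0 c hc x this, zero_mul]
  have bump : ∀ D : E → E → ℝ, (∀ c ∈ F, ContDiff ℝ ∞ (D c)) →
      IsBump U (fun x => ∑ c ∈ F, ψ c x * D c x) := by
    intro D hD
    refine ⟨ContDiff.sum fun c hc => (contDiff_cut c (r c) θ).mul (hD c hc),
      HasCompactSupport.of_support_subset_isCompact hKc (hsupp D), ?_⟩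
    exact (closure_minimal (hsupp D) hKc.isClosed).trans hKU
  -- near a point of a closed ball only one term is left
  have locc : ∀ D : E → E → ℝ, ∀ c ∈ F, ∀ x ∈ Metric.closedBall c (r c),
      (fun x => ∑ c ∈ F, ψ c x * D c x) =ᶠ[𝓝 x] fun y => cut c (r c) θ y * D c y := by
    intro D c hc x hx
    have hcl : IsClosed (⋃ b ∈ F.erase c, Metric.closedBall b (r b)) :=
      (F.erase c).finite_toSet.isClosed_biUnion fun b _ => Metric.isClosed_closedBall
    have hxo : x ∈ (⋃ b ∈ F.erase c, Metric.closedBall b (r b))ᶜ := by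
      intro h
      simp only [Set.mem_iUnion, exists_prop, Finset.mem_erase] at h
      obtain ⟨b, ⟨hbc, hbF⟩, hxb⟩ := h
      exact Set.disjoint_left.1 (hdisj hc hbF (Ne.symm hbc)) hx hxb
    filter_upwards [hcl.isOpen_compl.mem_nhds hxo] with y hy
    rw [Finset.sum_eq_single c]
    · intro b hb hbc
      have h3 : y ∉ Metric.closedBall b (r b) := by
        intro h4
        apply hy
        exact Set.mem_biUnion (Finset.mem_erase.2 ⟨hbc, hb⟩) h4
      rw [hψ0 b hb y h3, zero_mul]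
    · intro h
      exact absurd hc h
  have loc : ∀ D : E → E → ℝ, ∀ c ∈ F, ∀ x ∈ Metric.ball c (θ * r c),
      (fun x => ∑ c ∈ F, ψ c x * D c x) =ᶠ[𝓝 x] D c := by
    intro D c hc x hx
    have h2 : θ * r c ≤ r c := by nlinarith [(hF c hc).1]
    refine (locc D c hc x (Metric.closedBall_subset_closedBall h2
      (Metric.ball_subset_closedBall hx))).trans ?_
    filter_upwards [Metric.isOpen_ball.mem_nhds hx] with y hy
    have h3 : cut c (r c) θ y = 1 := hψ1 c hc y hy
    rw [h3, one_mul]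
  have out : ∀ D : E → E → ℝ, ∀ x ∉ KK,
      (fun x => ∑ c ∈ F, ψ c x * D c x) =ᶠ[𝓝 x] fun _ => (0 : ℝ) := by
    intro D x hx
    filter_upwards [hKc.isClosed.isOpen_compl.mem_nhds hx] with y hy
    by_contra h
    exact hy (hsupp D h)
  set AA : E → ℝ := fun x => ∑ c ∈ F, ψ c x * A c x with hAA
  set BB : E → ℝ := fun x => ∑ c ∈ F, ψ c x * B c x with hBB
  -- the bad set
  set Z : Set E := U \ ⋃ c ∈ F, Metric.ball c (θ * r c) with hZ
  have hZm : MeasurableSet Z :=
    hU.measurableSet.diff (F.measurableSet_biUnion fun c _ => measurableSet_ball)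
  have hZsub : Z ⊆ U \ ⋃ c ∈ F, Metric.ball c (θ₀ * r c) := by
    rintro x ⟨hxU, hx⟩
    refine ⟨hxU, fun hmem => hx ?_⟩
    simp only [Set.mem_iUnion, exists_prop] at hmem ⊢
    obtain ⟨c, hc, hxc⟩ := hmem
    refine ⟨c, hc, Metric.ball_subset_ball ?_ hxc⟩
    exact mul_le_mul_of_nonneg_right hθ01 (hF c hc).1.le
  have hZvol : volume Z ≤ ENNReal.ofReal ε1 := (measure_mono hZsub).trans hvol
  have good : ∀ x ∈ U, x ∉ Z → stream (e 0) (e 2) AA x + stream (e 1) (e 2) BB x = w x := by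
    intro x hxU hxZ
    have hmem : x ∈ ⋃ c ∈ F, Metric.ball c (θ * r c) := by
      by_contra h
      exact hxZ ⟨hxU, h⟩
    simp only [Set.mem_iUnion, exists_prop] at hmem
    obtain ⟨c, hc, hxc⟩ := hmem
    rw [hAA, hBB, stream_congr (loc A c hc x hxc), stream_congr (loc B c hc x hxc)]
    apply (hAB c hc).2.2
    have h2 : θ * r c ≤ r c := by nlinarith [(hF c hc).1]
    exact Metric.ball_subset_ball h2 hxc
  refine ⟨AA, BB, bump A fun c hc => (hAB c hc).1, bump B fun c hc => (hAB c hc).2.1, ?_, ?_⟩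
  · refine (measure_mono ?_).trans (hZvol.trans (ENNReal.ofReal_le_ofReal (min_le_left _ _)))
    rintro x ⟨hxU, hx⟩
    by_contra h
    exact hx (good x hxU h)
  · set S : E → Set E := fun c => Metric.closedBall c (r c) \ Metric.ball c (θ * r c) with hS
    have hSm : ∀ c, MeasurableSet (S c) := fun c =>
      Metric.isClosed_closedBall.measurableSet.diff measurableSet_ball
    have hpt : ∀ y ∈ U, ‖stream (e 0) (e 2) AA y + stream (e 1) (e 2) BB y - w y‖ₑ ^ p ≤
        Z.indicator (fun y => ‖w y‖ₑ ^ p) y +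
          ∑ c ∈ F, (S c).indicator (fun _ => ENNReal.ofReal (K c / δ) ^ p) y := by
      intro y hyU
      by_cases hyZ : y ∈ Z
      · rw [Set.indicator_of_mem hyZ]
        have h1 : ‖stream (e 0) (e 2) AA y + stream (e 1) (e 2) BB y - w y‖ₑ ≤
            ‖stream (e 0) (e 2) AA y + stream (e 1) (e 2) BB y‖ₑ + ‖w y‖ₑ := enorm_sub_le
        have h2 : ‖stream (e 0) (e 2) AA y + stream (e 1) (e 2) BB y - w y‖ₑ ^ p ≤
            ‖stream (e 0) (e 2) AA y + stream (e 1) (e 2) BB y‖ₑ ^ p + ‖w y‖ₑ ^ p :=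
          (ENNReal.rpow_le_rpow h1 hp0.le).trans (ENNReal.rpow_add_le_add_rpow _ _ hp0.le hp1.le)
        refine h2.trans ?_
        rw [add_comm]
        refine add_le_add le_rfl ?_
        by_cases hyK : y ∈ KK
        · simp only [hKK, Set.mem_iUnion, exists_prop] at hyK
          obtain ⟨c, hc, hyc⟩ := hyK
          have hyS : y ∈ S c := by
            refine ⟨hyc, fun h => hyZ.2 ?_⟩
            exact Set.mem_biUnion hc h
          have h3 : ENNReal.ofReal (K c / δ) ^ p ≤
              ∑ c ∈ F, (S c).indicator (fun _ => ENNReal.ofReal (K c / δ) ^ p) y := by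
            have h4 := Finset.single_le_sum
              (f := fun c => (S c).indicator (fun _ => ENNReal.ofReal (K c / δ) ^ p) y)
              (fun i _ => zero_le) hc
            simp only [Set.indicator_of_mem hyS] at h4
            exact h4
          refine le_trans ?_ h3
          refine ENNReal.rpow_le_rpow ?_ hp0.le
          rw [hAA, hBB, stream_congr (locc A c hc y hyc), stream_congr (locc B c hc y hyc)]
          have h5 := hK c hc θ hθ0 hθ1 y hyc
          rw [h1θ] at h5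
          rw [← ofReal_norm]
          exact ENNReal.ofReal_le_ofReal h5
        · have h3 : stream (e 0) (e 2) AA y + stream (e 1) (e 2) BB y = 0 := by
            rw [hAA, hBB, stream_congr (out A y hyK), stream_congr (out B y hyK)]
            simp [stream, dd]
          rw [h3, enorm_zero, ENNReal.zero_rpow_of_pos hp0]
          exact zero_le
      · rw [good y hyU hyZ, sub_self, enorm_zero, ENNReal.zero_rpow_of_pos hp0]
        exact zero_le
    have hmeas : ∀ c, Measurable ((S c).indicator (fun _ => ENNReal.ofReal (K c / δ) ^ p)) :=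
      fun c => measurable_const.indicator (hSm c)
    have hmeas2 : Measurable (fun y => ∑ c ∈ F,
        (S c).indicator (fun _ => ENNReal.ofReal (K c / δ) ^ p) y) :=
      Finset.measurable_fun_sum F fun c _ => hmeas c
    refine (setLIntegral_mono' hU.measurableSet hpt).trans ?_
    rw [lintegral_add_right _ hmeas2]
    have i1 : ∫⁻ y in U, Z.indicator (fun y => ‖w y‖ₑ ^ p) y ≤ ENNReal.ofReal (ε / 2) := by
      rw [lintegral_indicator hZm]
      refine (hac Z ?_).le
      exact lt_of_le_of_lt ((Measure.restrict_apply_le U Z).trans hZvol) hε1δ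
    have i2 : ∫⁻ y in U, ∑ c ∈ F, (S c).indicator (fun _ => ENNReal.ofReal (K c / δ) ^ p) y ≤
        ENNReal.ofReal (ε / 2) := by
      rw [lintegral_finsetSum F fun c _ => hmeas c]
      have h1 : ∀ c ∈ F, ∫⁻ y in U, (S c).indicator (fun _ => ENNReal.ofReal (K c / δ) ^ p) y ≤
          ENNReal.ofReal (3 * (K c) ^ p * V c * δ ^ (1 - p)) := by
        intro c hc
        rw [lintegral_indicator_const (hSm c)]
        have h2 : (volume.restrict U) (S c) ≤ ENNReal.ofReal (3 * δ) * ENNReal.ofReal (V c) := by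
          refine (Measure.restrict_apply_le U (S c)).trans ?_
          have h3 := shell_small c (r c) δ (hF c hc).1 hδ (by linarith)
          rw [← hθdef, hVfin c] at h3
          exact h3
        calc ENNReal.ofReal (K c / δ) ^ p * (volume.restrict U) (S c)
            ≤ ENNReal.ofReal (K c / δ) ^ p * (ENNReal.ofReal (3 * δ) * ENNReal.ofReal (V c)) :=
              mul_le_mul_right h2 _
          _ = ENNReal.ofReal ((K c / δ) ^ p) * (ENNReal.ofReal (3 * δ) * ENNReal.ofReal (V c)) := by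
              rw [ENNReal.ofReal_rpow_of_nonneg (div_nonneg (hKpos c) hδ.le) hp0.le]
          _ = ENNReal.ofReal ((K c / δ) ^ p * ((3 * δ) * V c)) := by
              rw [← ENNReal.ofReal_mul (by positivity), ← ENNReal.ofReal_mul (by
                exact Real.rpow_nonneg (div_nonneg (hKpos c) hδ.le) p)]
          _ = ENNReal.ofReal (3 * (K c) ^ p * V c * δ ^ (1 - p)) := by
              congr 1
              rw [Real.div_rpow (hKpos c) hδ.le, Real.rpow_sub hδ, Real.rpow_one]
              have : δ ^ p ≠ 0 := (Real.rpow_pos_of_pos hδ p).ne'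
              field_simp
      refine (Finset.sum_le_sum h1).trans ?_
      rw [← ENNReal.ofReal_sum_of_nonneg]
      · refine ENNReal.ofReal_le_ofReal ?_
        rw [← Finset.sum_mul]
        exact hHδ
      · intro c _
        have a1 := hKp c
        have a2 := hV0 c
        have a3 : 0 ≤ δ ^ (1 - p) := Real.rpow_nonneg hδ.le _
        positivity
    refine (add_le_add i1 i2).trans ?_
    rw [← ENNReal.ofReal_add hε2.le hε2.le]
    apply le_of_eq
    congr 1
    ring

end Pool.Agent.NSL
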