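import Pool.Agent.NSL.Saw

/-!
# MP_fd8964_an, freezing: the smooth sawtooth, with a bound for its slope
-/

open MeasureTheory Set Filter Topology
open scoped ContDiff FourierTransform

noncomputable section

namespace Pool.Agent.NSL

/-- the cosine series of a periodised even function -/
lemma saw_poisson (m : ℝ → ℝ) (hm : ContDiff ℝ ∞ m) (hc : HasCompactSupport m)
    (hev : ∀ z, m (-z) = m z) (hs : Summable fun j : ℕ => |∫ z, m z * Real.cos (j * z)|) (y : ℝ) :
    ∑' j : ℕ, (∫ z, m z * Real.cos (j * z)) * Real.cos (j * y) =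
      Real.pi * (∑' n : ℤ, m (y + 2 * Real.pi * n)) + (∫ z, m z) / 2 := by
  have hpi : (0 : ℝ) < 2 * Real.pi := by positivity
  have hg : ContDiff ℝ ∞ (fun x : ℝ => (m (2 * Real.pi * x) : ℂ)) :=
    Complex.ofRealCLM.contDiff.comp (hm.comp (contDiff_const.mul contDiff_id))
  have hgc : HasCompactSupport (fun x : ℝ => (m (2 * Real.pi * x) : ℂ)) := by
    have h1 : HasCompactSupport (fun x : ℝ => m (2 * Real.pi * x)) :=
      hc.comp_homeomorph (Homeomorph.mulLeft₀ (2 * Real.pi) hpi.ne')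
    exact h1.comp_left (g := fun x : ℝ => (x : ℂ)) Complex.ofReal_zero
  obtain ⟨S, hS⟩ : ∃ S : SchwartzMap ℝ ℂ, ∀ x, S x = (m (2 * Real.pi * x) : ℂ) :=
    ⟨hgc.toSchwartzMap hg, fun z => rfl⟩
  obtain ⟨M, hM⟩ : ∃ M : ℤ → ℝ, ∀ n, M n = ∫ z, m z * Real.cos (n * z) := ⟨_, fun j => rfl⟩
  have hMneg : ∀ n, M (-n) = M n := by
    intro n
    rw [hM, hM]
    congr 1
    ext z
    rw [Int.cast_neg, neg_mul, Real.cos_neg]
  have hMnat : ∀ n : ℕ, M n = ∫ z, m z * Real.cos (n * z) := fun n => by rw [hM]; simp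
  have hF : ∀ n : ℤ, (𝓕 S) (n : ℝ) = (((1 / (2 * Real.pi)) * M n : ℝ) : ℂ) := by
    intro n
    have h1 : (𝓕 S) (n : ℝ) =
        ∫ x : ℝ, (fun z : ℝ => Complex.exp (↑(-((n : ℝ) * z)) * Complex.I) * (m z : ℂ)) (2 * Real.pi * x) := by
      rw [SchwartzMap.fourier_coe, Real.fourier_real_eq_integral_exp_smul]
      congr 1
      ext z
      rw [hS, smul_eq_mul]
      congr 3
      ring_nf
    have h1' := Measure.integral_comp_mul_left
      (fun z : ℝ => Complex.exp (↑(-((n : ℝ) * z)) * Complex.I) * (m z : ℂ)) (2 * Real.pi)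
    rw [h1, h1', abs_of_pos (inv_pos.2 hpi)]
    have hint : Integrable (fun z : ℝ => Complex.exp (↑(-((n : ℝ) * z)) * Complex.I) * (m z : ℂ)) := by
      apply Continuous.integrable_of_hasCompactSupport
      · have := hm.continuous
        fun_prop
      · exact (hc.comp_left (g := fun x : ℝ => (x : ℂ)) Complex.ofReal_zero).mul_left
    have h2 : ∫ z : ℝ, Complex.exp (↑(-((n : ℝ) * z)) * Complex.I) * (m z : ℂ) = ((M n : ℝ) : ℂ) := by
      apply Complex.ext
      · have h4 := integral_re hint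
        simp only [RCLike.re_to_complex] at h4
        rw [← h4, Complex.ofReal_re, hM]
        congr 1
        ext z
        rw [Complex.re_mul_ofReal, Complex.exp_ofReal_mul_I_re, Real.cos_neg, mul_comm]
      · have h4 := integral_im hint
        simp only [RCLike.im_to_complex] at h4
        rw [← h4, Complex.ofReal_im]
        have h5 := saw_odd m (fun z => -Real.sin (n * z)) hev (fun z => by
          rw [mul_neg, Real.sin_neg])
        rw [← h5]
        congr 1
        ext z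
        rw [Complex.im_mul_ofReal, Complex.exp_ofReal_mul_I_im, Real.sin_neg, mul_comm]
    rw [h2]
    rw [one_div, Complex.ofReal_mul, Complex.real_smul]
  have hP := S.tsum_eq_tsum_fourier (y / (2 * Real.pi))
  obtain ⟨F, hFd⟩ : ∃ F : ℤ → ℂ, ∀ n, F n = (((1 / (2 * Real.pi)) * M n : ℝ) : ℂ) *
      Complex.exp (((n * y : ℝ) : ℂ) * Complex.I) := ⟨_, fun n => rfl⟩
  have hL : ∑' n : ℤ, S (y / (2 * Real.pi) + n) = ((∑' n : ℤ, m (y + 2 * Real.pi * n) : ℝ) : ℂ) := by
    rw [Complex.ofReal_tsum]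
    refine tsum_congr fun n => ?_
    rw [hS]
    congr 2
    field_simp
  have hR : ∑' n : ℤ, (𝓕 S) (n : ℝ) * fourier n ((y / (2 * Real.pi) : ℝ) : UnitAddCircle) = ∑' n : ℤ, F n := by
    refine tsum_congr fun n => ?_
    rw [hF, hFd, fourier_coe_apply]
    congr 2
    push_cast
    field_simp
  have hP' : ((∑' n : ℤ, m (y + 2 * Real.pi * n) : ℝ) : ℂ) = ∑' n : ℤ, F n := by
    rw [← hL, ← hR]
    exact hP
  have hnorm : ∀ n : ℤ, ‖F n‖ = 1 / (2 * Real.pi) * |M n| := by
    intro n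
    rw [hFd, norm_mul, Complex.norm_exp_ofReal_mul_I, mul_one, Complex.norm_real, Real.norm_eq_abs,
      abs_mul, abs_of_pos (by positivity : (0 : ℝ) < 1 / (2 * Real.pi))]
  have hsF : Summable F := by
    apply Summable.of_norm
    simp only [hnorm]
    apply Summable.mul_left
    refine Summable.of_nat_of_neg ?_ ?_
    · simpa only [hMnat] using hs
    · simpa only [hMneg, hMnat] using hs
  have hN := hsF.hasSum.nat_add_neg
  have hterm : ∀ n : ℕ, F n + F (-(n : ℤ)) =
      (((1 / Real.pi) * ((∫ z, m z * Real.cos (n * z)) * Real.cos (n * y)) : ℝ) : ℂ) := by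
    intro n
    rw [hFd, hFd, hMneg, hMnat]
    have h6 : Complex.exp (((((n : ℤ) : ℝ) * y : ℝ) : ℂ) * Complex.I) +
        Complex.exp (((((-(n : ℤ) : ℤ) : ℝ) * y : ℝ) : ℂ) * Complex.I) = 2 * ((Real.cos (n * y) : ℝ) : ℂ) := by
      rw [Complex.ofReal_cos, Complex.cos]
      push_cast
      ring_nf
    rw [← mul_add, h6]
    push_cast
    field_simp
  simp only [hterm] at hN
  have hN2 := hN.tsum_eq
  rw [← hP', hFd, ← Complex.ofReal_tsum] at hN2
  have hM0 : M 0 = ∫ z, m z := by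
    rw [hM]
    simp
  rw [hM0] at hN2
  have hN3 : ∑' n : ℕ, (1 / Real.pi) * ((∫ z, m z * Real.cos (n * z)) * Real.cos (n * y)) =
      (∑' n : ℤ, m (y + 2 * Real.pi * n)) + 1 / (2 * Real.pi) * ∫ z, m z := by
    have h7 := congrArg Complex.re hN2
    simpa using h7
  rw [tsum_mul_left] at hN3
  have h8 : (0 : ℝ) < Real.pi := Real.pi_pos
  obtain ⟨A, hA⟩ : ∃ A, A = ∑' j : ℕ, (∫ z, m z * Real.cos (j * z)) * Real.cos (j * y) := ⟨_, rfl⟩
  obtain ⟨P, hPd⟩ : ∃ P, P = ∑' n : ℤ, m (y + 2 * Real.pi * n) := ⟨_, rfl⟩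
  obtain ⟨I, hI⟩ : ∃ I, I = ∫ z, m z := ⟨_, rfl⟩
  rw [← hA, ← hPd, ← hI] at hN3 ⊢
  have h9 : A = Real.pi * ((1 / Real.pi) * A) := by
    field_simp
  rw [h9, hN3]
  field_simp

/-- `saw_exists` with a bound for the derivative. -/
theorem saw_exists_p : ∃ M : ℝ, 0 ≤ M ∧ ∀ (δ : ℝ), 0 < δ → δ < Real.pi →
    ∃ (ρ : ℝ → ℝ) (s : ℕ → ℝ), ContDiff ℝ ∞ ρ ∧ (∀ y, ρ (y + 2 * Real.pi) = ρ y) ∧
      (∀ y, δ < y → y < 2 * Real.pi - δ → ρ y = y - Real.pi) ∧
      Summable (fun j : ℕ => (j : ℝ) ^ 4 * |s j|) ∧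
      (∀ τ : ℝ, 0 < τ → ∃ n : ℕ, ∀ i : ℕ, i ≤ 3 → ∀ y : ℝ,
        |iteratedDeriv i (fun y => ρ y - ∑ j ∈ Finset.range n, s j * Real.sin (j * y)) y| ≤ τ) ∧
      ∀ y, |deriv ρ y| ≤ M / δ := by
  refine ⟨3 * Real.pi, by positivity, fun δ h0 h1 => ?_⟩
  obtain ⟨φ, hφi, hφ⟩ : ∃ φ : ContDiffBump (0 : ℝ), φ.rIn = δ / 2 ∧ φ.rOut = δ :=
    ⟨⟨δ / 2, δ, by positivity, by linarith⟩, rfl, rfl⟩
  obtain ⟨m, hm⟩ : ∃ m, m = φ.normed volume := ⟨_, rfl⟩
  have hsm : ContDiff ℝ ∞ m := by
    rw [hm]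
    exact φ.contDiff_normed
  have hcs : HasCompactSupport m := by
    rw [hm]
    exact φ.hasCompactSupport_normed
  have hev : ∀ z, m (-z) = m z := fun z => by rw [hm, ContDiffBump.normed_neg]
  have hm0 : ∀ z, 0 ≤ m z := fun z => by
    rw [hm]
    exact φ.nonneg_normed z
  have hm1 : ∫ z, m z = 1 := by
    rw [hm]
    exact φ.integral_normed
  have hmle : ∀ z, m z ≤ 1 / δ := fun z => by
    have h2 := φ.normed_le_div_measure_closedBall_rIn volume z
    rw [← hm, hφi, Real.volume_real_closedBall (by positivity)] at h2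
    refine h2.trans (le_of_eq ?_)
    congr 1
    ring
  have hδ : ∀ z, m z ≠ 0 → |z| < δ := by
    intro z hz
    have h2 : z ∈ Function.support (φ.normed volume) := by
      rw [Function.mem_support, ← hm]
      exact hz
    rw [φ.support_normed_eq, hφ, mem_ball_zero_iff] at h2
    exact h2
  obtain ⟨M, hM⟩ : ∃ M : ℕ → ℝ, ∀ j, M j = ∫ z, m z * Real.cos (j * z) := ⟨_, fun j => rfl⟩
  obtain ⟨s, hs⟩ : ∃ s : ℕ → ℝ, ∀ j, s j = -2 * M j / j := ⟨_, fun j => rfl⟩
  have hMs : Summable fun j : ℕ => |M j| := by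
    obtain ⟨C, hC0, hC⟩ := saw_decay m hsm hcs 2
    rw [← summable_nat_add_iff 1]
    refine Summable.of_nonneg_of_le (fun j => abs_nonneg _) (fun j => ?_)
      (((summable_nat_add_iff 1).2 (Real.summable_one_div_nat_pow.2 one_lt_two)).mul_left C)
    have h2 := hC (j + 1)
    rw [← hM] at h2
    have hj' : (0 : ℝ) < ((j + 1 : ℕ) : ℝ) := by positivity
    rw [mul_one_div, le_div_iff₀ (by positivity), mul_comm]
    exact h2
  have hdec : ∀ k : ℕ, Summable fun j : ℕ => (j : ℝ) ^ k * |s j| := by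
    intro k
    obtain ⟨C, hC0, hC⟩ := saw_decay m hsm hcs (k + 1)
    refine Summable.of_nonneg_of_le (fun j => by positivity) (fun j => ?_)
      ((Real.summable_one_div_nat_pow.2 one_lt_two).mul_left (2 * C))
    rcases Nat.eq_zero_or_pos j with rfl | hj
    · rw [hs]
      simp
    · have hj' : (0 : ℝ) < j := by exact_mod_cast hj
      have h2 := hC j
      rw [← hM] at h2
      rw [hs, abs_div, abs_mul, abs_neg, abs_of_nonneg (by norm_num : (0 : ℝ) ≤ 2), abs_of_pos hj']
      have h3 : (j : ℝ) ^ k * (2 * |M j| / j) = 2 * ((j : ℝ) ^ (k + 1) * |M j|) * (1 / (j : ℝ) ^ 2) := by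
        field_simp
        ring
      rw [h3]
      gcongr
  obtain ⟨hρ, hτ⟩ := saw_series s hdec
  refine ⟨fun y => ∑' j : ℕ, s j * Real.sin (j * y), s, hρ, fun y => ?_, fun y hy1 hy2 => ?_, hdec 4, hτ,
    fun y => ?_⟩
  · refine tsum_congr fun j => ?_
    rw [mul_add, Real.sin_add_nat_mul_two_pi]
  · have hser : ∀ z : ℝ, δ < z → z < 2 * Real.pi - δ →
        HasSum (fun j : ℕ => 2 / (j : ℝ) ^ 2 * M j * Real.cos (j * z))
          (z ^ 2 / 2 - Real.pi * z + (Real.pi ^ 2 / 3 + ∫ z, m z * (z ^ 2 / 2))) := by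
      intro z hz1 hz2
      have h2 := saw_conv m hsm.continuous hcs hev hm0 hm1 δ hδ z hz1 hz2
      simp only [← hM] at h2
      exact h2
    have hd : HasDerivAt (fun z => ∑' j : ℕ, 2 / (j : ℝ) ^ 2 * M j * Real.cos (j * z))
        (∑' j : ℕ, s j * Real.sin (j * y)) y := by
      have hu : Summable fun j : ℕ => |s j| := by
        have h2 := hdec 0
        simp only [pow_zero, one_mul] at h2
        exact h2
      refine hasDerivAt_tsum (g := fun (j : ℕ) (z : ℝ) => 2 / (j : ℝ) ^ 2 * M j * Real.cos (j * z))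
        (g' := fun (j : ℕ) (z : ℝ) => s j * Real.sin (j * z)) (u := fun j : ℕ => |s j|) hu
        (fun j z => ?_) (fun j z => ?_) (hser y hy1 hy2).summable y
      · have h2 : HasDerivAt (fun z : ℝ => Real.cos (j * z)) (-Real.sin (j * z) * (j * 1)) z :=
          (Real.hasDerivAt_cos _).comp z ((hasDerivAt_id z).const_mul (j : ℝ))
        refine (h2.const_mul (2 / (j : ℝ) ^ 2 * M j)).congr_deriv ?_
        rw [hs]
        rcases Nat.eq_zero_or_pos j with rfl | hj
        · simp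
        · have hj' : (j : ℝ) ≠ 0 := by exact_mod_cast hj.ne'
          field_simp
      · rw [Real.norm_eq_abs, abs_mul]
        exact mul_le_of_le_one_right (abs_nonneg _) (Real.abs_sin_le_one _)
    have hq : HasDerivAt (fun z : ℝ => z ^ 2 / 2 - Real.pi * z +
        (Real.pi ^ 2 / 3 + ∫ z, m z * (z ^ 2 / 2))) (y - Real.pi) y := by
      have h2 := (((hasDerivAt_pow 2 y).div_const 2).sub ((hasDerivAt_id y).const_mul Real.pi)).add_const
        (Real.pi ^ 2 / 3 + ∫ z, m z * (z ^ 2 / 2))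
      refine h2.congr_deriv ?_
      simp
    refine HasDerivAt.unique (hd.congr_of_eventuallyEq ?_) hq
    filter_upwards [Ioo_mem_nhds hy1 hy2] with z hz
    exact (hser z hz.1 hz.2).tsum_eq.symm
  · have hd : HasDerivAt (fun z => ∑' j : ℕ, s j * Real.sin (j * z))
        (∑' j : ℕ, s j * (Real.cos (j * y) * j)) y := by
      have hu : Summable fun j : ℕ => (j : ℝ) * |s j| := by
        have h2 := hdec 1
        simp only [pow_one] at h2
        exact h2
      have h0s : Summable fun j : ℕ => s j * Real.sin (j * y) := by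
        refine Summable.of_norm_bounded (hdec 0) fun j => ?_
        rw [Real.norm_eq_abs, abs_mul, pow_zero, one_mul]
        exact mul_le_of_le_one_right (abs_nonneg _) (Real.abs_sin_le_one _)
      refine hasDerivAt_tsum (g := fun (j : ℕ) (z : ℝ) => s j * Real.sin (j * z))
        (g' := fun (j : ℕ) (z : ℝ) => s j * (Real.cos (j * z) * j)) (u := fun j : ℕ => (j : ℝ) * |s j|) hu
        (fun j z => ?_) (fun j z => ?_) h0s y
      · have h2 : HasDerivAt (fun z : ℝ => Real.sin (j * z)) (Real.cos (j * z) * (j * 1)) z :=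
          (Real.hasDerivAt_sin _).comp z ((hasDerivAt_id z).const_mul (j : ℝ))
        refine (h2.const_mul (s j)).congr_deriv ?_
        ring
      · rw [Real.norm_eq_abs, abs_mul, abs_mul, Nat.abs_cast]
        have h3 := Real.abs_cos_le_one ((j : ℝ) * z)
        calc |s j| * (|Real.cos ((j : ℝ) * z)| * j) ≤ |s j| * (1 * j) := by gcongr
          _ = (j : ℝ) * |s j| := by ring
    rw [hd.deriv]
    have hpo := saw_poisson m hsm hcs hev (by simpa only [← hM] using hMs) y
    simp only [← hM] at hpo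
    rw [hm1] at hpo
    have hcsum : Summable fun j : ℕ => M j * Real.cos (j * y) := by
      refine Summable.of_norm_bounded hMs fun j => ?_
      rw [Real.norm_eq_abs, abs_mul]
      exact mul_le_of_le_one_right (abs_nonneg _) (Real.abs_cos_le_one _)
    have hM0 : M 0 = 1 := by
      rw [hM, ← hm1]
      simp
    have hval : ∑' j : ℕ, s j * (Real.cos (j * y) * j) =
        1 - 2 * Real.pi * ∑' n : ℤ, m (y + 2 * Real.pi * n) := by
      have h2 : ∀ j : ℕ, s (j + 1) * (Real.cos ((j + 1 : ℕ) * y) * (j + 1 : ℕ)) =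
          -2 * (M (j + 1) * Real.cos ((j + 1 : ℕ) * y)) := by
        intro j
        have hj' : ((j + 1 : ℕ) : ℝ) ≠ 0 := by positivity
        rw [hs]
        field_simp
      have hsum' : Summable fun j : ℕ => s j * (Real.cos (j * y) * j) := by
        rw [← summable_nat_add_iff 1]
        simp only [h2]
        exact ((summable_nat_add_iff 1).2 hcsum).mul_left (-2)
      rw [hsum'.tsum_eq_zero_add]
      simp only [h2]
      rw [tsum_mul_left]
      have h3 := hcsum.tsum_eq_zero_add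
      rw [hpo, hM0] at h3
      simp only [Nat.cast_zero, zero_mul, Real.cos_zero, mul_zero, zero_add, mul_one] at h3 ⊢
      linarith
    rw [hval]
    have hP0 : 0 ≤ ∑' n : ℤ, m (y + 2 * Real.pi * n) := tsum_nonneg fun n => hm0 _
    have hP1 : ∑' n : ℤ, m (y + 2 * Real.pi * n) ≤ 1 / δ := by
      by_cases hex : ∃ n : ℤ, m (y + 2 * Real.pi * n) ≠ 0
      · obtain ⟨n, hn⟩ := hex
        rw [tsum_eq_single n fun k hk => ?_]
        · exact hmle _
        · by_contra hne
          have h2 := abs_lt.1 (hδ _ hn)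
          have h3 := abs_lt.1 (hδ _ hne)
          rcases lt_or_gt_of_ne hk with hlt | hlt
          · have h4 : (k : ℝ) + 1 ≤ n := by exact_mod_cast hlt
            nlinarith [Real.pi_pos]
          · have h4 : (n : ℝ) + 1 ≤ k := by exact_mod_cast hlt
            nlinarith [Real.pi_pos]
      · push Not at hex
        simp only [hex, tsum_zero]
        positivity
    obtain ⟨P, hPd⟩ : ∃ P, P = ∑' n : ℤ, m (y + 2 * Real.pi * n) := ⟨_, rfl⟩
    rw [← hPd] at hP0 hP1 ⊢
    have h5 : (1 : ℝ) ≤ Real.pi / δ := by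
      rw [le_div_iff₀ h0]
      linarith
    have h6 : 2 * Real.pi * P ≤ 2 * Real.pi * (1 / δ) := by gcongr
    have h7 : 3 * Real.pi / δ = Real.pi / δ + 2 * Real.pi * (1 / δ) := by ring
    have h8 : 0 ≤ 2 * Real.pi * P := by positivity
    rw [h7, abs_le]
    constructor <;> linarith

end Pool.Agent.NSL
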