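import Pool.Agent.NSL.Lusin
import Pool.Agent.NSL.Joint
import Pool.Agent.NSL.SawP
import Pool.Agent.NSL.PotLocalP

/-!
# MP_fd8964_an, freezing: the theorem with a bound in `L^p`, `p < 1`
-/

open MeasureTheory Set Filter Topology
open scoped RealInnerProductSpace ContDiff

noncomputable section

namespace Pool.Agent.NSL

open Pool.Agent.NSD Pool.Agent.NSK Pool.Agent.NSK.Layer66 Pool.Agent.NSN Pool.Agent.NSN.Lacun

variable {Ω : Set E}

/-- The derivatives of twice frozen potentials. -/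
theorem dd_frozen {ρ : ℝ → ℝ} (hρ : ContDiff ℝ ∞ ρ) {k ξ : E} (hk : ‖k‖ = 1) (hξ : ‖ξ‖ = 1) (hkξ : ⟪k, ξ⟫ = 0)
    {N₁ N₂ : ℝ} (hN₁ : 1 ≤ N₁) (hN₂ : 1 ≤ N₂) {A : E → ℝ} (hA : ContDiff ℝ ∞ A) (x : E) :
    ∃ z : E, dd k (frz N₂ ρ ξ (frz N₁ ρ k A)) x = (1 - deriv ρ (N₁ * ⟪k, x⟫)) * fderiv ℝ A z k ∧
      dd ξ (frz N₂ ρ ξ (frz N₁ ρ k A)) x = (1 - deriv ρ (N₂ * ⟪ξ, x⟫)) * fderiv ℝ A z ξ := by
  have hN₁0 : N₁ ≠ 0 := by positivity
  have hN₂0 : N₂ ≠ 0 := by positivity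
  have hξk : ⟪ξ, k⟫ = 0 := by rw [real_inner_comm]; exact hkξ
  have hkk : ⟪k, k⟫ = 1 := by rw [real_inner_self_eq_norm_sq, hk, one_pow]
  have hξξ : ⟪ξ, ξ⟫ = 1 := by rw [real_inner_self_eq_norm_sq, hξ, one_pow]
  have e1 : frz N₂ ρ ξ (frz N₁ ρ k A)
      = fun y => A (y - (N₂⁻¹ * ρ (N₂ * ⟪ξ, y⟫)) • ξ - (N₁⁻¹ * ρ (N₁ * ⟪k, y⟫)) • k) := by
    funext y
    simp only [frz]
    have : ⟪k, y - (N₂⁻¹ * ρ (N₂ * ⟪ξ, y⟫)) • ξ⟫ = ⟪k, y⟫ := by
      rw [inner_sub_right, real_inner_smul_right, hkξ, mul_zero, sub_zero]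
    rw [this]
  have hd := (((hasFDerivAt_id x).sub (hasFDerivAt_shift hρ N₂ ξ x)).sub (hasFDerivAt_shift hρ N₁ k x))
  have hc := ((hA.differentiable (by simp) _).hasFDerivAt).comp x hd
  have hc' := hc.congr_of_eventuallyEq (f₁ := frz N₂ ρ ξ (frz N₁ ρ k A))
    (Filter.Eventually.of_forall fun y => congrFun e1 y)
  refine ⟨(((id - fun y : E => (N₂⁻¹ * ρ (N₂ * ⟪ξ, y⟫)) • ξ) - fun y : E => (N₁⁻¹ * ρ (N₁ * ⟪k, y⟫)) • k) : E → E) x,
    ?_, ?_⟩
  · unfold dd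
    rw [hc'.fderiv]
    simp only [ContinuousLinearMap.comp_apply, _root_.sub_apply, ContinuousLinearMap.id_apply,
      ContinuousLinearMap.smulRight_apply, _root_.smul_apply, innerSL_apply_apply, hkξ, hξk, hkk, hξξ,
      smul_eq_mul, mul_zero, zero_smul, sub_zero, mul_one]
    have e2 : k - (N₁⁻¹ * (deriv ρ (N₁ * ⟪k, x⟫) * N₁)) • k = (1 - deriv ρ (N₁ * ⟪k, x⟫)) • k := by
      rw [sub_smul, one_smul]
      congr 2
      field_simp
    rw [e2, map_smul, smul_eq_mul]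
  · unfold dd
    rw [hc'.fderiv]
    simp only [ContinuousLinearMap.comp_apply, _root_.sub_apply, ContinuousLinearMap.id_apply,
      ContinuousLinearMap.smulRight_apply, _root_.smul_apply, innerSL_apply_apply, hkξ, hξk, hkk, hξξ,
      smul_eq_mul, mul_zero, zero_smul, sub_zero, mul_one]
    have e2 : ξ - (N₂⁻¹ * (deriv ρ (N₂ * ⟪ξ, x⟫) * N₂)) • ξ = (1 - deriv ρ (N₂ * ⟪ξ, x⟫)) • ξ := by
      rw [sub_smul, one_smul]
      congr 2
      field_simp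
    rw [e2, map_smul, smul_eq_mul]

theorem stream_frozen_le {ρ : ℝ → ℝ} (hρ : ContDiff ℝ ∞ ρ) {k ξ : E} (hk : ‖k‖ = 1) (hξ : ‖ξ‖ = 1)
    (hkξ : ⟪k, ξ⟫ = 0) {N₁ N₂ : ℝ} (hN₁ : 1 ≤ N₁) (hN₂ : 1 ≤ N₂) {A : E → ℝ} (hA : ContDiff ℝ ∞ A)
    {Ma Mr : ℝ} (hMa : ∀ y, ‖fderiv ℝ A y‖ ≤ Ma) (hMr : ∀ y, |deriv ρ y| ≤ Mr) (x : E) :
    ‖stream k ξ (frz N₂ ρ ξ (frz N₁ ρ k A)) x‖ ≤ 2 * Ma * (1 + Mr) := by
  obtain ⟨z, h1, h2⟩ := dd_frozen hρ hk hξ hkξ hN₁ hN₂ hA x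
  have hMa0 : 0 ≤ Ma := (norm_nonneg _).trans (hMa 0)
  have hb : ∀ (t : ℝ) (v : E), ‖v‖ = 1 → |(1 - deriv ρ t) * fderiv ℝ A z v| ≤ (1 + Mr) * Ma := by
    intro t v hv
    rw [abs_mul]
    refine mul_le_mul ?_ ?_ (abs_nonneg _) (by linarith [(abs_nonneg _).trans (hMr 0)])
    · have := hMr t
      rw [abs_le] at this ⊢
      constructor <;> linarith
    · have := (fderiv ℝ A z).le_opNorm v
      rw [hv, mul_one, Real.norm_eq_abs] at this
      exact this.trans (hMa z)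
  unfold stream
  calc ‖dd k (frz N₂ ρ ξ (frz N₁ ρ k A)) x • ξ - dd ξ (frz N₂ ρ ξ (frz N₁ ρ k A)) x • k‖
      ≤ ‖dd k (frz N₂ ρ ξ (frz N₁ ρ k A)) x • ξ‖ + ‖dd ξ (frz N₂ ρ ξ (frz N₁ ρ k A)) x • k‖ := norm_sub_le _ _
    _ = |dd k (frz N₂ ρ ξ (frz N₁ ρ k A)) x| + |dd ξ (frz N₂ ρ ξ (frz N₁ ρ k A)) x| := by
        rw [norm_smul, norm_smul, hk, hξ, mul_one, mul_one, Real.norm_eq_abs, Real.norm_eq_abs]
    _ ≤ (1 + Mr) * Ma + (1 + Mr) * Ma := by rw [h1, h2]; exact add_le_add (hb _ _ hk) (hb _ _ hξ)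
    _ = _ := by ring

/-- Two freezing steps. -/
theorem freeze_pair_p (hΩ : IsOpen Ω) (hb : Bornology.IsBounded Ω) {η : ℝ} (hη : 0 < η) {Gd : ℝ → Set (V Ω)}
    (hM : MultiClosed Ω η Gd) {U : Set E} (hU : IsOpen U) (hUΩ : U ⊆ Ω)
    {ε ε' : ℝ} (hε : 0 < ε) (hεε' : ε < ε') {n : ℕ} {x₀ x : V Ω} (hx : x ∈ Gd ε)
    {a : E → ℝ} (ha : IsBump U a) {k ξ : E} (hk : ‖k‖ = 1) (hξ : ‖ξ‖ = 1) (hkξ : ⟪k, ξ⟫ = 0)
    {ρ : ℝ → ℝ} {s : ℕ → ℝ} (hS : Saw ρ s) {q δ : ℝ} (hq : 1 ≤ q) (hδ : 0 < δ) (hN : Near q δ n x₀ x) :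
    ∃ (N₁ N₂ : ℝ) (a₂ : E → ℝ) (W : V Ω), 1 ≤ N₁ ∧ 1 ≤ N₂ ∧ IsBump U a₂ ∧
      Represents Ω (stream k ξ (fun y => a y - a₂ y)) W ∧ x + W ∈ Gd ε' ∧ Near q δ (n + 2) x₀ (x + W) ∧
      (∀ y, deriv ρ (N₁ * ⟪k, y⟫) = 1 → deriv ρ (N₂ * ⟪ξ, y⟫) = 1 → stream k ξ a₂ y = 0) ∧
      ∀ Ma Mr : ℝ, (∀ y, ‖fderiv ℝ a y‖ ≤ Ma) → (∀ y, |deriv ρ y| ≤ Mr) →
        ∀ y, ‖stream k ξ a₂ y‖ ≤ 2 * Ma * (1 + Mr) := by
  have hξk : ⟪ξ, k⟫ = 0 := by rw [real_inner_comm]; exact hkξ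
  obtain ⟨N₁, hN₁, hb₁, W₁, hW₁, hm₁, hh₁, hd₁⟩ := freeze_step hΩ hb hη hM hU hUΩ hε
    (show ε < (ε + ε') / 2 by linarith) hx ha hk hξ hkξ hS hq hδ
  have hneg : IsBump U (fun y => -frz N₁ ρ k a y) := by
    have := isBump_smul (-1) hb₁
    have e : (fun y => -frz N₁ ρ k a y) = fun y => -1 * frz N₁ ρ k a y := by funext y; ring
    rw [e]; exact this
  obtain ⟨N₂, hN₂, hb₂, W₂, hW₂, hm₂, hh₂, hd₂⟩ := freeze_step hΩ hb hη hM hU hUΩ
    (show 0 < (ε + ε') / 2 by linarith) (show (ε + ε') / 2 < ε' by linarith) hm₁ hneg hξ hk hξk hS hq hδ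
  have hb₂' : IsBump U (frz N₂ ρ ξ (frz N₁ ρ k a)) := by
    have := isBump_smul (-1) hb₂
    have e : frz N₂ ρ ξ (frz N₁ ρ k a) = fun y => -1 * frz N₂ ρ ξ (fun y => -frz N₁ ρ k a y) y := by
      funext y; simp only [frz]; ring
    rw [e]; exact this
  have e2 : stream ξ k (fun y => (fun y => -frz N₁ ρ k a y) y - frz N₂ ρ ξ (fun y => -frz N₁ ρ k a y) y)
      = stream k ξ (fun y => frz N₁ ρ k a y - frz N₂ ρ ξ (frz N₁ ρ k a) y) := by
    rw [← stream_swap]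
    congr 1
    funext y
    simp only [frz]
    ring
  rw [e2] at hW₂
  have t1 : IsTest Ω (stream k ξ (fun y => a y - frz N₁ ρ k a y)) :=
    Layer66.isTest_stream k ξ (bump_mono hUΩ (isBump_sub' ha hb₁))
  have t2 : IsTest Ω (stream k ξ (fun y => frz N₁ ρ k a y - frz N₂ ρ ξ (frz N₁ ρ k a) y)) :=
    Layer66.isTest_stream k ξ (bump_mono hUΩ (isBump_sub' hb₁ hb₂'))
  refine ⟨N₁, N₂, frz N₂ ρ ξ (frz N₁ ρ k a), W₁ + W₂, hN₁, hN₂, hb₂', ?_, ?_, ?_, ?_, ?_⟩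
  · have h := Layer66.rep_add t1 t2 hW₁ hW₂
    have e3 : stream k ξ (fun y => a y - frz N₁ ρ k a y)
        + stream k ξ (fun y => frz N₁ ρ k a y - frz N₂ ρ ξ (frz N₁ ρ k a) y)
        = stream k ξ (fun y => a y - frz N₂ ρ ξ (frz N₁ ρ k a) y) := by
      rw [← stream_add ((isBump_sub' ha hb₁).1.differentiable (by simp))
        ((isBump_sub' hb₁ hb₂').1.differentiable (by simp))]
      congr 1
      funext y
      ring
    rw [e3] at h
    exact h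
  · rw [← add_assoc]; exact hm₂
  · rw [← add_assoc]
    exact (hN.step hb hq hh₁ hd₁).step hb hq hh₂ hd₂
  · intro y h1 h2
    exact stream_frozen hS.smooth hk hξ hkξ hN₁ hN₂ ha.1 h1 h2
  · intro Ma Mr hMa hMr y
    exact stream_frozen_le hS.smooth hk hξ hkξ hN₁ hN₂ ha.1 hMa hMr y


/-- A field which is bounded by `c` on a small set and vanishes elsewhere. -/
theorem Ip_small {U S : Set E} (hUm : MeasurableSet U) (hSm : MeasurableSet S) {F : E → E} {c p : ℝ}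
    (hp0 : 0 < p) (hF : ∀ y, ‖F y‖ ≤ c) (hz : ∀ y ∈ U, y ∉ S → F y = 0) :
    Ip U p F ≤ ENNReal.ofReal c ^ p * volume S := by
  unfold Ip
  calc ∫⁻ y in U, ‖F y‖ₑ ^ p ≤ ∫⁻ y in U, S.indicator (fun _ => ENNReal.ofReal c ^ p) y := by
        refine setLIntegral_mono' hUm fun y hy => ?_
        by_cases hyS : y ∈ S
        · rw [Set.indicator_of_mem hyS]
          refine ENNReal.rpow_le_rpow ?_ hp0.le
          rw [← ofReal_norm_eq_enorm]
          exact ENNReal.ofReal_le_ofReal (hF y)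
        · rw [Set.indicator_of_notMem hyS, hz y hy hyS, enorm_zero, ENNReal.zero_rpow_of_pos hp0]
    _ ≤ ∫⁻ y, S.indicator (fun _ => ENNReal.ofReal c ^ p) y := setLIntegral_le_lintegral _ _
    _ = ENNReal.ofReal c ^ p * volume S := by
        rw [lintegral_indicator hSm, setLIntegral_const]

theorem test_add {Ω : Set E} {p q : E → E} (hp : IsTest Ω p) (hq : IsTest Ω q) : IsTest Ω (p + q) := by
  refine IsTest.mk (hp.smooth.add hq.smooth) (hp.compact.add hq.compact) ?_ (fun x => ?_)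
  · exact (tsupport_add p q).trans (union_subset hp.supp hq.supp)
  · have hd : DifferentiableAt ℝ p x := (hp.smooth.differentiable (by simp)) x
    have hd' : DifferentiableAt ℝ q x := (hq.smooth.differentiable (by simp)) x
    have h0 : fderiv ℝ (p + q) x = fderiv ℝ p x + fderiv ℝ q x := fderiv_add hd hd'
    have h1 := hp.div x
    have h2 := hq.div x
    simp only [divField, h0] at h1 h2 ⊢
    have : ∀ i : Fin 3, (fderiv ℝ p x + fderiv ℝ q x) (e i) i = fderiv ℝ p x (e i) i + fderiv ℝ q x (e i) i :=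
      fun i => rfl
    simp only [this, Finset.sum_add_distrib]
    rw [h1, h2, add_zero]

/-- `lusin` with a bound in `L^p`. -/
theorem lusin_p (hΩ : IsOpen Ω) (hb : Bornology.IsBounded Ω) {η : ℝ} (hη : 0 < η) {Gd : ℝ → Set (V Ω)}
    (hM : MultiClosed Ω η Gd) {U : Set E} (hU : IsOpen U) (hUΩ : U ⊆ Ω) {w : E → E} (hw : ContDiffOn ℝ ∞ w U)
    (hdiv : ∀ x ∈ U, divField w x = 0) {p : ℝ} (hp0 : 0 < p) (hp1 : p < 1) (hwp : Ip U p w < ⊤)
    {ε ε' : ℝ} (hε : 0 < ε) (hεε' : ε < ε') {n : ℕ} {x₀ x : V Ω} (hx : x ∈ Gd ε) (hxt : InTest x)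
    {q δ τ : ℝ} (hq : 1 ≤ q) (hδ : 0 < δ) (hτ : 0 < τ) (hN : Near q δ n x₀ x) :
    ∃ x' ∈ Gd ε', Near q δ (n + 4) x₀ x' ∧
      volume {y | y ∈ U ∧ (fld x' : E → E) y ≠ w y} ≤ ENNReal.ofReal τ ∧
      Ip U p (fun y => (fld x' : E → E) y - w y) ≤ ENNReal.ofReal τ ∧
      ∃ (F : E → E) (W : V Ω), IsTest U F ∧ Represents Ω F W ∧ x' = x + W := by
  obtain ⟨s₀, hs₀, hxs⟩ := hxt
  -- potentials
  have hUb : Bornology.IsBounded U := hb.subset hUΩ
  have hUm := hU.measurableSet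
  have hUfin : IsFiniteMeasure (volume.restrict U) := Weak.finiteMeasure hUb
  have hwm : AEStronglyMeasurable w (volume.restrict U) := hw.continuousOn.aestronglyMeasurable hUm
  have hw' : ContDiffOn ℝ ∞ (fun y => w y - s₀ y) U := hw.sub hs₀.smooth.contDiffOn
  have hdiv' : ∀ y ∈ U, divField (fun y => w y - s₀ y) y = 0 := by
    intro y hy
    have h1 : DifferentiableAt ℝ w y := ((hw y hy).contDiffAt (hU.mem_nhds hy)).differentiableAt (by simp)
    have h2 : DifferentiableAt ℝ s₀ y := hs₀.smooth.differentiable (by simp) y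
    have h3 := hdiv y hy
    have h4 := hs₀.div y
    unfold divField at h3 h4 ⊢
    rw [fderiv_fun_sub h1 h2]
    have : ∀ i : Fin 3, (fderiv ℝ w y - fderiv ℝ s₀ y) (e i) i = fderiv ℝ w y (e i) i - fderiv ℝ s₀ y (e i) i :=
      fun i => rfl
    simp only [this, Finset.sum_sub_distrib, h3, h4, sub_zero]
  have hs₀p : Ip U p s₀ < ⊤ := by
    obtain ⟨C, hC⟩ := hs₀.smooth.continuous.bounded_above_of_compact_support hs₀.compact
    have h1 : Ip U p s₀ ≤ Ip U p (fun _ : E => |C|) := Ip_mono hp0.le fun y => by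
      rw [Real.norm_eq_abs, abs_abs]; exact (hC y).trans (le_abs_self C)
    refine h1.trans_lt ?_
    rw [Ip_const]
    exact ENNReal.mul_lt_top (ENNReal.rpow_lt_top_of_nonneg hp0.le enorm_ne_top) hUb.measure_lt_top
  have hwp' : Ip U p (fun y => w y - s₀ y) < ⊤ := Ip_sub_lt hp0 hp1 hwm hwp hs₀p
  obtain ⟨A, B, hA, hB, hAB, hABp⟩ := pot_local_p hU hUb _ hw' hdiv' p hp0 hp1 hwp' (τ / 4) (by positivity)
  have hbdd : ∀ {a : E → ℝ}, IsBump U a → ∃ C : ℝ, 0 ≤ C ∧ ∀ y, ‖fderiv ℝ a y‖ ≤ C := by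
    intro a ha
    obtain ⟨C, hC⟩ := (ha.1.continuous_fderiv (by simp)).bounded_above_of_compact_support (ha.2.1.fderiv ℝ)
    exact ⟨|C|, abs_nonneg _, fun y => (hC y).trans (le_abs_self C)⟩
  obtain ⟨MA, hMA, hMA'⟩ := hbdd hA
  obtain ⟨MB, hMB, hMB'⟩ := hbdd hB
  -- the profile
  obtain ⟨C, hC, hslab⟩ := slab_small hΩ hb
  obtain ⟨M, hM0, hsaw⟩ := saw_exists_p
  set L : ℝ := 2 * (MA + MB) * (1 + M) with hL
  have hL0 : 0 ≤ L := by positivity
  set D : ℝ := L ^ p * (2 * C) + 1 with hD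
  have hLp0 : 0 ≤ L ^ p := Real.rpow_nonneg hL0 _
  have hD0 : 0 < D := by positivity
  set σ : ℝ := min 1 (min (τ / (16 * (C + 1))) ((τ / (4 * D)) ^ (1 / (1 - p)))) with hσ
  have hσ0 : 0 < σ := lt_min one_pos (lt_min (by positivity) (by positivity))
  have hσ1 : σ ≤ 1 := min_le_left _ _
  have hσπ : σ < Real.pi := hσ1.trans_lt (by linarith [Real.pi_gt_three])
  have hCσ : C * σ ≤ τ / 16 := by
    have h1 : σ ≤ τ / (16 * (C + 1)) := (min_le_right _ _).trans (min_le_left _ _)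
    have h2 : C * σ ≤ (C + 1) * σ := by nlinarith
    have h3 : (C + 1) * σ ≤ (C + 1) * (τ / (16 * (C + 1))) := mul_le_mul_of_nonneg_left h1 (by positivity)
    have h4 : (C + 1) * (τ / (16 * (C + 1))) = τ / 16 := by field_simp
    linarith
  have hσp : (L / σ) ^ p * (2 * (C * σ)) ≤ τ / 4 := by
    have h1 : σ ≤ (τ / (4 * D)) ^ (1 / (1 - p)) := (min_le_right _ _).trans (min_le_right _ _)
    have hp1' : 0 < 1 - p := by linarith
    have h2 : σ ^ (1 - p) ≤ τ / (4 * D) := by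
      calc σ ^ (1 - p) ≤ ((τ / (4 * D)) ^ (1 / (1 - p))) ^ (1 - p) := Real.rpow_le_rpow hσ0.le h1 hp1'.le
        _ = τ / (4 * D) := by
            rw [← Real.rpow_mul (by positivity), one_div, inv_mul_cancel₀ hp1'.ne', Real.rpow_one]
    have h3 : (L / σ) ^ p * (2 * (C * σ)) = L ^ p * (2 * C) * σ ^ (1 - p) := by
      rw [Real.div_rpow hL0 hσ0.le, Real.rpow_sub hσ0, Real.rpow_one]
      ring
    rw [h3]
    calc L ^ p * (2 * C) * σ ^ (1 - p) ≤ D * (τ / (4 * D)) := by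
          refine mul_le_mul (by rw [hD]; linarith) h2 (by positivity) hD0.le
      _ = τ / 4 := by field_simp
  obtain ⟨ρ, s, hρs, hρp, hρ1, hsum, htail, hρd⟩ := hsaw σ hσ0 hσπ
  have hS : Saw ρ s := ⟨hρs, hρp, hsum, htail⟩
  have hort : ∀ i j : Fin 3, i ≠ j → ⟪e i, e j⟫ = 0 := by
    intro i j hij
    rw [e_inner]
    simp [e, hij]
  obtain ⟨N₁, N₂, A₂, W₁, hN₁, hN₂, hA₂, hW₁, hm₁, hn₁, hz₁, hl₁⟩ := freeze_pair_p hΩ hb hη hM hU hUΩ hε
    (show ε < (ε + ε') / 2 by linarith) hx hA (norm_e 0) (norm_e 2) (hort 0 2 (by decide)) hS hq hδ hN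
  obtain ⟨N₃, N₄, B₂, W₂, hN₃, hN₄, hB₂, hW₂, hm₂, hn₂, hz₂, hl₂⟩ := freeze_pair_p hΩ hb hη hM hU hUΩ
    (show 0 < (ε + ε') / 2 by linarith) (show (ε + ε') / 2 < ε' by linarith) hm₁ hB (norm_e 1) (norm_e 2)
    (hort 1 2 (by decide)) hS hq hδ hn₁
  have hLbd : ∀ Ma : ℝ, 0 ≤ Ma → Ma ≤ MA + MB → 2 * Ma * (1 + M / σ) ≤ L / σ := by
    intro Ma h0 h1
    rw [le_div_iff₀ hσ0, hL]
    have e1 : (1 + M / σ) * σ = σ + M := by field_simp
    calc 2 * Ma * (1 + M / σ) * σ = 2 * Ma * (σ + M) := by rw [mul_assoc, e1]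
      _ ≤ 2 * (MA + MB) * (1 + M) := by gcongr
  set bad : ℝ → Fin 3 → Set E := fun N i => {y | y ∈ Ω ∧ deriv ρ (N * ⟪e i, y⟫) ≠ 1} with hbad
  have hbd : ∀ N i, 1 ≤ N → volume (bad N i) ≤ ENNReal.ofReal (C * σ) := fun N i hN =>
    hslab σ hσ0 hσπ ρ hρp hρ1 i N hN
  have hbm : ∀ N i, MeasurableSet (bad N i) := by
    intro N i
    have hc : Continuous fun y : E => deriv ρ (N * ⟪e i, y⟫) := by
      have h1 : Continuous (deriv ρ) := hρs.continuous_deriv (by simp)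
      exact h1.comp (continuous_const.mul (continuous_const.inner continuous_id))
    exact hΩ.measurableSet.inter (hc.measurable (measurableSet_singleton (1 : ℝ)).compl)
  have hf1 : ∀ᵐ y ∂(volume.restrict Ω), (fld (x + W₁ + W₂) : E → E) y
      = s₀ y + stream (e 0) (e 2) (fun y => A y - A₂ y) y + stream (e 1) (e 2) (fun y => B y - B₂ y) y := by
    have h1 : (fld (x + W₁ + W₂) : E → E) =ᵐ[volume.restrict Ω]
        fun y => (fld (x + W₁) : E → E) y + (fld W₂ : E → E) y := Lp.coeFn_add (fld (x + W₁)) (fld W₂)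
    have h2 : (fld (x + W₁) : E → E) =ᵐ[volume.restrict Ω]
        fun y => (fld x : E → E) y + (fld W₁ : E → E) y := Lp.coeFn_add (fld x) (fld W₁)
    filter_upwards [h1, h2, hxs.1, hW₁.1, hW₂.1] with y h3 h4 h5 h6 h7
    have h5' : (fld x : E → E) y = s₀ y := h5
    have h6' : (fld W₁ : E → E) y = _ := h6
    have h7' : (fld W₂ : E → E) y = _ := h7
    rw [h3, h4, h5', h6', h7']
  refine ⟨x + W₁ + W₂, hm₂, hn₂, ?_, ?_, ?_⟩
  · have hnull : volume {y | y ∈ Ω ∧ (fld (x + W₁ + W₂) : E → E) y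
        ≠ s₀ y + stream (e 0) (e 2) (fun y => A y - A₂ y) y + stream (e 1) (e 2) (fun y => B y - B₂ y) y} = 0 := by
      rw [ae_restrict_iff' hΩ.measurableSet] at hf1
      have h2 := ae_iff.1 hf1
      refine measure_mono_null (fun y hy => ?_) h2
      rintro h3
      exact hy.2 (h3 hy.1)
    have hcover : {y | y ∈ U ∧ (fld (x + W₁ + W₂) : E → E) y ≠ w y}
        ⊆ {y | y ∈ Ω ∧ (fld (x + W₁ + W₂) : E → E) y ≠ s₀ y + stream (e 0) (e 2) (fun y => A y - A₂ y) y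
            + stream (e 1) (e 2) (fun y => B y - B₂ y) y}
          ∪ {y | y ∈ U ∧ stream (e 0) (e 2) A y + stream (e 1) (e 2) B y ≠ w y - s₀ y}
          ∪ (bad N₁ 0 ∪ bad N₂ 2) ∪ (bad N₃ 1 ∪ bad N₄ 2) := by
      rintro y ⟨hyU, hy⟩
      by_contra hcon
      simp only [mem_union, mem_ofPred_eq, not_or, not_and, not_not, hbad] at hcon
      obtain ⟨⟨⟨h1, h2⟩, h3, h4⟩, h5, h6⟩ := hcon
      have hyΩ := hUΩ hyU
      apply hy
      rw [h1 hyΩ]
      have g1 := hz₁ y (h3 hyΩ) (h4 hyΩ)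
      have g2 := hz₂ y (h5 hyΩ) (h6 hyΩ)
      rw [stream_sub (hA.1.differentiable (by simp)) (hA₂.1.differentiable (by simp)),
        stream_sub (hB.1.differentiable (by simp)) (hB₂.1.differentiable (by simp)), Pi.sub_apply, Pi.sub_apply,
        g1, g2, sub_zero, sub_zero, add_assoc, h2 hyU]
      abel
    refine (measure_mono hcover).trans ?_
    refine (measure_union_le _ _).trans ?_
    refine (add_le_add ((measure_union_le _ _).trans (add_le_add ((measure_union_le _ _).trans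
      (add_le_add hnull.le hAB)) ((measure_union_le _ _).trans (add_le_add (hbd N₁ 0 hN₁) (hbd N₂ 2 hN₂)))))
      ((measure_union_le _ _).trans (add_le_add (hbd N₃ 1 hN₃) (hbd N₄ 2 hN₄)))).trans ?_
    have ht8 : 0 ≤ C * σ := by positivity
    rw [zero_add, ← ENNReal.ofReal_add ht8 ht8, ← ENNReal.ofReal_add (by positivity) (by positivity),
      ← ENNReal.ofReal_add (by positivity) (by positivity)]
    exact ENNReal.ofReal_le_ofReal (by linarith)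
  · have hf1U : ∀ᵐ y ∂(volume.restrict U), (fld (x + W₁ + W₂) : E → E) y
        = s₀ y + stream (e 0) (e 2) (fun y => A y - A₂ y) y + stream (e 1) (e 2) (fun y => B y - B₂ y) y :=
      ae_mono (Measure.restrict_mono hUΩ le_rfl) hf1
    have hcs : ∀ (k ξ : E) {g : E → ℝ}, IsBump U g → Continuous (stream k ξ g) := fun k ξ g hg =>
      (Layer66.isTest_stream k ξ hg).smooth.continuous
    have e1 : (fun y => (fld (x + W₁ + W₂) : E → E) y - w y) =ᵐ[volume.restrict U]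
        fun y => (stream (e 0) (e 2) A y + stream (e 1) (e 2) B y - (w y - s₀ y))
          + (-stream (e 0) (e 2) A₂ y + -stream (e 1) (e 2) B₂ y) := by
      filter_upwards [hf1U] with y h1
      rw [h1, stream_sub (hA.1.differentiable (by simp)) (hA₂.1.differentiable (by simp)),
        stream_sub (hB.1.differentiable (by simp)) (hB₂.1.differentiable (by simp)), Pi.sub_apply, Pi.sub_apply]
      abel
    rw [Ip_congr e1]
    have m1 : AEStronglyMeasurable (fun y => stream (e 0) (e 2) A y + stream (e 1) (e 2) B y - (w y - s₀ y))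
        (volume.restrict U) :=
      (((hcs _ _ hA).add (hcs _ _ hB)).aestronglyMeasurable).sub
        (hwm.sub hs₀.smooth.continuous.aestronglyMeasurable)
    have m2 : AEStronglyMeasurable (fun y => -stream (e 0) (e 2) A₂ y) (volume.restrict U) :=
      (hcs _ _ hA₂).neg.aestronglyMeasurable
    have key : ∀ {a : E → ℝ} {k ξ : E} {i j : Fin 3} {N N' : ℝ} {Ma : ℝ}, 1 ≤ N → 1 ≤ N' →
        (∀ y, ‖stream k ξ a y‖ ≤ L / σ) →
        (∀ y, deriv ρ (N * ⟪e i, y⟫) = 1 → deriv ρ (N' * ⟪e j, y⟫) = 1 → stream k ξ a y = 0) →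
        Ip U p (stream k ξ a) ≤ ENNReal.ofReal (τ / 4) := by
      intro a k ξ i j N N' _ hN hN' hle hz
      have h1 := Ip_small (p := p) hUm ((hbm N i).union (hbm N' j)) hp0 hle (fun y hyU hy => by
        simp only [mem_union, mem_ofPred_eq, not_or, not_and, not_not, hbad] at hy
        exact hz y (hy.1 (hUΩ hyU)) (hy.2 (hUΩ hyU)))
      refine h1.trans ?_
      have h2 : volume (bad N i ∪ bad N' j) ≤ ENNReal.ofReal (2 * (C * σ)) := by
        refine (measure_union_le _ _).trans ((add_le_add (hbd N i hN) (hbd N' j hN')).trans (le_of_eq ?_))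
        rw [← ENNReal.ofReal_add (by positivity) (by positivity)]
        congr 1; ring
      calc ENNReal.ofReal (L / σ) ^ p * volume (bad N i ∪ bad N' j)
          ≤ ENNReal.ofReal (L / σ) ^ p * ENNReal.ofReal (2 * (C * σ)) := by gcongr
        _ = ENNReal.ofReal ((L / σ) ^ p * (2 * (C * σ))) := by
            rw [ENNReal.ofReal_rpow_of_nonneg (by positivity) hp0.le, ← ENNReal.ofReal_mul (by positivity)]
        _ ≤ ENNReal.ofReal (τ / 4) := ENNReal.ofReal_le_ofReal hσp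
    have kA : Ip U p (stream (e 0) (e 2) A₂) ≤ ENNReal.ofReal (τ / 4) :=
      key (Ma := MA) hN₁ hN₂ (fun y => (hl₁ MA (M / σ) hMA' hρd y).trans (hLbd MA hMA (by linarith))) hz₁
    have kB : Ip U p (stream (e 1) (e 2) B₂) ≤ ENNReal.ofReal (τ / 4) :=
      key (Ma := MB) hN₃ hN₄ (fun y => (hl₂ MB (M / σ) hMB' hρd y).trans (hLbd MB hMB (by linarith))) hz₂
    refine (Ip_add hp0.le hp1.le m1).trans ?_
    refine (add_le_add_right (Ip_add hp0.le hp1.le m2) _).trans ?_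
    rw [Ip_neg (stream (e 0) (e 2) A₂), Ip_neg (stream (e 1) (e 2) B₂)]
    calc Ip U p (fun y => stream (e 0) (e 2) A y + stream (e 1) (e 2) B y - (w y - s₀ y))
          + (Ip U p (stream (e 0) (e 2) A₂) + Ip U p (stream (e 1) (e 2) B₂))
        ≤ ENNReal.ofReal (τ / 4) + (ENNReal.ofReal (τ / 4) + ENNReal.ofReal (τ / 4)) :=
          add_le_add hABp (add_le_add kA kB)
      _ = ENNReal.ofReal (τ / 4 + (τ / 4 + τ / 4)) := by
          rw [ENNReal.ofReal_add (by positivity) (by positivity), ENNReal.ofReal_add (by positivity) (by positivity)]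
      _ ≤ ENNReal.ofReal τ := ENNReal.ofReal_le_ofReal (by linarith)
  · have t1 : IsTest U (stream (e 0) (e 2) (fun y => A y - A₂ y)) := Layer66.isTest_stream _ _ (isBump_sub' hA hA₂)
    have t2 : IsTest U (stream (e 1) (e 2) (fun y => B y - B₂ y)) := Layer66.isTest_stream _ _ (isBump_sub' hB hB₂)
    have t1' : IsTest Ω (stream (e 0) (e 2) (fun y => A y - A₂ y)) := Layer66.isTest_stream _ _ (bump_mono hUΩ (isBump_sub' hA hA₂))
    have t2' : IsTest Ω (stream (e 1) (e 2) (fun y => B y - B₂ y)) := Layer66.isTest_stream _ _ (bump_mono hUΩ (isBump_sub' hB hB₂))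
    exact ⟨_, W₁ + W₂, test_add t1 t2, Layer66.rep_add t1' t2' hW₁ hW₂, add_assoc _ _ _⟩

end Pool.Agent.NSL
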