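import Pool.Agent.NSL.Gen
import Pool.Agent.NSL.LusinP
import Pool.Agent.NSL.Final

/-!
# MP_fd8964_an: good data near an arbitrary element of `V`, modulo fields which vanish on a compact set, which agree
with a given smooth field outside a small set of an open set `U`, with values prescribed in `L^p`, `p < 1`, and with
the gradient prescribed in `L^p` outside `U`
-/

open MeasureTheory Set Filter Topology
open scoped RealInnerProductSpace ContDiff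

noncomputable section

namespace Pool.Agent.NSL

open Pool.Agent.NSD Pool.Agent.NSK Pool.Agent.NSN

variable {Ω : Set E}

/-- The targets. -/
def PreQ (Ω U : Set E) (g : E → E) (Γ : E → G) (p : ℝ) : Prop :=
  IsOpen U ∧ U ⊆ Ω ∧ ContDiffOn ℝ ∞ g U ∧ (∀ x ∈ U, divField g x = 0) ∧ 0 < p ∧ p < 1 ∧
    MemLp g (ENNReal.ofReal p) (volume.restrict Ω) ∧ MemLp Γ (ENNReal.ofReal p) (volume.restrict (Ω \ U)) ∧
    ∀ᵐ y ∂(volume.restrict (Ω \ U)), ∑ i : Fin 3, Γ y i i = 0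

/-- The error of the gradient in `L^p(Ω ∖ U)`. -/
def DgQ {Ω : Set E} (x : V Ω) (U : Set E) (Γ : E → G) (p : ℝ) : ENNReal :=
  ∫⁻ y in Ω \ U, ‖(grd x : E → G) y - Γ y‖ₑ ^ p

/-- A correction which is supported in `U` changes nothing outside `U`. -/
theorem unchanged {U : Set E} {F : E → E} {x W : V Ω} (hF : IsTest U F) (hW : Represents Ω F W) :
    ∀ᵐ y ∂(volume.restrict Ω), y ∉ U → (fld (x + W) : E → E) y = (fld x : E → E) y ∧
      (grd (x + W) : E → G) y = (grd x : E → G) y := by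
  have h1 : (fld (x + W) : E → E) =ᵐ[volume.restrict Ω]
      fun y => (fld x : E → E) y + (fld W : E → E) y := Lp.coeFn_add (fld x) (fld W)
  have h2 : (grd (x + W) : E → G) =ᵐ[volume.restrict Ω]
      fun y => (grd x : E → G) y + (grd W : E → G) y := Lp.coeFn_add (grd x) (grd W)
  filter_upwards [h1, h2, hW.1, hW.2] with y g1 g2 g3 g4 hy
  have hyF : y ∉ tsupport F := fun h => hy (hF.supp h)
  have g3' : (fld W : E → E) y = F y := g3
  have g4' : (grd W : E → G) y = gradField F y := g4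
  have e1 : F y = 0 := image_eq_zero_of_notMem_tsupport hyF
  have e2 : gradField F y = 0 := by
    unfold gradField
    rw [fderiv_of_notMem_tsupport ℝ hyF]
    rfl
  rw [g1, g2, g3', g4', e1, e2, add_zero, add_zero]
  exact ⟨rfl, rfl⟩

/-- The theorem for `u₁ - v(0)` in `curlW Ω`, in terms of the family of good data. -/
theorem core_q (hΩ : IsOpen Ω) (hb : Bornology.IsBounded Ω) {η : ℝ} (hη : 0 < η) {Gd : ℝ → Set (V Ω)}
    (hGd : KickClosed Ω η Gd) (hS : SoftClosed Ω Gd) (hM : MultiClosed Ω η Gd)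
    (hT : ∀ ε, 0 < ε → ∀ x ∈ Gd ε, InTest x)
    {v₀ : V Ω} (hv0 : ∀ ε, 0 < ε → v₀ ∈ Gd ε) {u₀ : V Ω} (hmem : u₀ - v₀ ∈ curlW Ω)
    {U : Set E} {g : E → E} {Γ : E → G} {p : ℝ} (hpre : PreQ Ω U g Γ p) {K : Set (V Ω)} {q ε : ℝ}
    (hK : IsCompact K) (hq : 2 < q) (hε : 0 < ε) :
    ∃ x ∈ Gd ε, besov (x - u₀) q ≤ ENNReal.ofReal ε ∧ (∀ φ ∈ K, |⟪fld x, fld φ⟫ - ⟪fld u₀, fld φ⟫| < ε) ∧
      Ex x U g ≤ ENNReal.ofReal ε ∧ Dv x g p ≤ ENNReal.ofReal ε ∧ DgQ x U Γ p ≤ ENNReal.ofReal ε := by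
  obtain ⟨hU, hUΩ, hw, hdiv, hp0, hp1, hgp, hΓp, htr⟩ := hpre
  have hUm := hU.measurableSet
  have hDm : MeasurableSet (Ω \ U) := hΩ.measurableSet.diff hUm
  have hfin : ∀ {X : Type} [NormedAddCommGroup X] {f : E → X} {S : Set E},
      MemLp f (ENNReal.ofReal p) (volume.restrict S) → Ip S p f < ⊤ := by
    intro X _ f S hf
    rw [Ip_eq_eLpNorm hp0]
    exact ENNReal.rpow_lt_top_of_nonneg hp0.le hf.2.ne
  have hgU : MemLp g (ENNReal.ofReal p) (volume.restrict U) := hgp.mono_measure (Measure.restrict_mono hUΩ le_rfl)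
  -- the gradient
  set Γ' : E → G := (Ω \ U).indicator Γ with hΓ'
  have hΓ'p : MemLp Γ' (ENNReal.ofReal p) (volume.restrict Ω) :=
    ((memLp_indicator_iff_restrict hDm).2 hΓp).restrict Ω
  have htr' : ∀ᵐ y ∂(volume.restrict Ω), ∑ i : Fin 3, Γ' y i i = 0 := by
    rw [ae_restrict_iff' hDm] at htr
    refine ae_restrict_of_ae ?_
    filter_upwards [htr] with y hy
    by_cases h : y ∈ Ω \ U
    · rw [hΓ', Set.indicator_of_mem h]; exact hy h
    · rw [hΓ', Set.indicator_of_notMem h]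
      exact Finset.sum_eq_zero fun i _ => rfl
  -- constants
  obtain ⟨R, hR0, hR⟩ : ∃ R : ℝ, 0 < R ∧ ∀ φ ∈ K, ‖φ‖ ≤ R := by
    obtain ⟨R, hR⟩ := hK.isBounded.exists_norm_le
    exact ⟨max R 1, lt_max_of_lt_right one_pos, fun φ hφ => (hR φ hφ).trans (le_max_left _ _)⟩
  set B : ℝ := 2 ^ (q - 1) with hB
  have hB1 : 1 ≤ B := Real.one_le_rpow (by norm_num) (by linarith)
  set δ : ℝ := ε / (7 * (B ^ 6 + R + 1)) with hδ
  have hB6 : 0 < B ^ 6 := by positivity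
  have hδ0 : 0 < δ := by positivity
  have hδe : δ * (7 * (B ^ 6 + R + 1)) = ε := by
    rw [hδ]; field_simp
  have hδ7 : 7 * δ ≤ ε := by nlinarith [mul_pos hδ0 hR0, mul_pos hδ0 hB6]
  obtain ⟨x, hx, h2, h3⟩ := NSN.pure_all Ω hΩ hb η hη (fun r => Gd (r * (ε / (4 * δ))))
    (by
      intro a b ha hab y hy n aa k ξ qq G hk
      have hc : 0 < ε / (4 * δ) := by positivity
      exact hGd _ _ (by positivity) (mul_lt_mul_of_pos_right hab hc) y hy n aa k ξ qq G hk)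
    v₀ (fun a ha => hv0 _ (by positivity)) u₀ hmem K q δ hK hq hδ0
  have hx' : x ∈ Gd (ε / 4) := by
    have e1 : δ * (ε / (4 * δ)) = ε / 4 := by field_simp
    simpa only [e1] using hx
  obtain ⟨W₀, W₁, k1, k2, k3, k4, k5, k6, k7⟩ := joint hΩ hb hS hp0 hp1 (show 0 < ε / 4 by linarith)
    (show ε / 4 < ε / 2 by linarith) hx' (hT _ (by linarith) x hx') hgp.1 (hfin hgp) hΓ'p.1 (hfin hΓ'p) htr'
    (show 1 ≤ q by linarith) hδ0
  have hN : Near q δ (0 + 1 + 1) x (x + W₀ + W₁) :=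
    ((Near.refl q δ x).step hb (by linarith) k2 k4).step hb (by linarith) k3 k5
  obtain ⟨x', hx'mem, ⟨hbes, hdual⟩, hex, hexp, F, W, hF, hW, hxW⟩ := lusin_p hΩ hb hη hM hU hUΩ hw hdiv hp0 hp1
    (hfin hgU) (half_pos hε) (half_lt_self hε) k1 (hT _ (half_pos hε) _ k1) (show 1 ≤ q by linarith) hδ0
    (half_pos hε) hN
  have hun := unchanged (x := x + W₀ + W₁) hF hW
  rw [← hxW, ae_restrict_iff' hΩ.measurableSet] at hun
  have hunD : ∀ᵐ y ∂(volume.restrict (Ω \ U)), (fld x' : E → E) y = (fld (x + W₀ + W₁) : E → E) y ∧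
      (grd x' : E → G) y = (grd (x + W₀ + W₁) : E → G) y := by
    rw [ae_restrict_iff' hDm]
    filter_upwards [hun] with y hy hyD
    exact hy hyD.1 hyD.2
  refine ⟨x', hx'mem, ?_, fun φ hφ => ?_, hex.trans (ENNReal.ofReal_le_ofReal (by linarith)), ?_, ?_⟩
  · refine (hbes u₀).trans ?_
    have e2 : (2 : ENNReal) ^ (q - 1) = ENNReal.ofReal B := by
      rw [hB, ← ENNReal.ofReal_rpow_of_pos (by norm_num)]
      norm_num
    rw [e2, ← ENNReal.ofReal_pow (by positivity)]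
    calc ENNReal.ofReal (B ^ (0 + 1 + 1 + 4)) * (NSN.besov (x - u₀) q + ((0 + 1 + 1 + 4 : ℕ) : ENNReal) * ENNReal.ofReal δ)
        ≤ ENNReal.ofReal (B ^ (0 + 1 + 1 + 4)) * (ENNReal.ofReal δ + ((0 + 1 + 1 + 4 : ℕ) : ENNReal) * ENNReal.ofReal δ) := by
          gcongr
      _ = ENNReal.ofReal (B ^ 6 * (7 * δ)) := by
          have e3 : ((0 + 1 + 1 + 4 : ℕ) : ENNReal) = ENNReal.ofReal 6 := by norm_num
          rw [e3, ← ENNReal.ofReal_mul (by norm_num), ← ENNReal.ofReal_add hδ0.le (by positivity),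
            ← ENNReal.ofReal_mul (by positivity)]
          congr 1; ring
      _ ≤ ENNReal.ofReal ε := by
          refine ENNReal.ofReal_le_ofReal ?_
          nlinarith [mul_pos hδ0 hR0, mul_pos hδ0 hB6]
  · have a1 := h2 φ hφ
    have a2 := hdual φ
    have a3 : ((0 + 1 + 1 + 4 : ℕ) : ℝ) * δ * ‖φ‖ ≤ 6 * δ * R := by
      have e3 : ((0 + 1 + 1 + 4 : ℕ) : ℝ) = 6 := by norm_num
      rw [e3]
      exact mul_le_mul_of_nonneg_left (hR φ hφ) (by positivity)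
    have a4 : ⟪fld x', fld φ⟫ - ⟪fld u₀, fld φ⟫
        = (⟪fld x', fld φ⟫ - ⟪fld x, fld φ⟫) + (⟪fld x, fld φ⟫ - ⟪fld u₀, fld φ⟫) := by
      ring
    rw [a4]
    refine (abs_add_le _ _).trans_lt ?_
    nlinarith [mul_pos hδ0 hR0, mul_pos hδ0 hB6]
  · have e0 : Ω ∩ U = U := inter_eq_right.2 hUΩ
    unfold Dv
    rw [← lintegral_inter_add_sdiff _ Ω hUm, e0]
    have e1 : ∫⁻ y in Ω \ U, ‖(fld x' : E → E) y - g y‖ₑ ^ p
        = ∫⁻ y in Ω \ U, ‖(fld (x + W₀ + W₁) : E → E) y - g y‖ₑ ^ p := by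
      refine lintegral_congr_ae ?_
      filter_upwards [hunD] with y hy
      rw [hy.1]
    rw [e1]
    calc (∫⁻ y in U, ‖(fld x' : E → E) y - g y‖ₑ ^ p) + ∫⁻ y in Ω \ U, ‖(fld (x + W₀ + W₁) : E → E) y - g y‖ₑ ^ p
        ≤ ENNReal.ofReal (ε / 2) + ENNReal.ofReal (δ + δ) := by
          refine add_le_add hexp (le_trans ?_ k6)
          exact lintegral_mono_set Set.sdiff_subset
      _ = ENNReal.ofReal (ε / 2 + (δ + δ)) := (ENNReal.ofReal_add (by positivity) (by positivity)).symm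
      _ ≤ ENNReal.ofReal ε := ENNReal.ofReal_le_ofReal (by linarith)
  · unfold DgQ
    have e1 : ∫⁻ y in Ω \ U, ‖(grd x' : E → G) y - Γ y‖ₑ ^ p
        = ∫⁻ y in Ω \ U, ‖(grd (x + W₀ + W₁) : E → G) y - Γ' y‖ₑ ^ p := by
      refine lintegral_congr_ae ?_
      filter_upwards [hunD, ae_restrict_mem hDm] with y hy hyD
      rw [hy.2, hΓ', Set.indicator_of_mem hyD]
    rw [e1]
    calc ∫⁻ y in Ω \ U, ‖(grd (x + W₀ + W₁) : E → G) y - Γ' y‖ₑ ^ p
        ≤ ∫⁻ y in Ω, ‖(grd (x + W₀ + W₁) : E → G) y - Γ' y‖ₑ ^ p := lintegral_mono_set Set.sdiff_subset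
      _ ≤ ENNReal.ofReal δ := k7
      _ ≤ ENNReal.ofReal ε := ENNReal.ofReal_le_ofReal (by linarith)

/-- The general case. -/
theorem gen_q (hΩ : IsOpen Ω) (hb : Bornology.IsBounded Ω) {η : ℝ} (hη : 0 < η) {Gd : ℝ → Set (V Ω)}
    (hGd : KickClosed Ω η Gd) (hS : SoftClosed Ω Gd) (hM : MultiClosed Ω η Gd)
    (hT : ∀ ε, 0 < ε → ∀ x ∈ Gd ε, InTest x)
    {v₀ : V Ω} (hv0 : ∀ ε, 0 < ε → v₀ ∈ Gd ε) (u₀ : V Ω)
    {U : Set E} {g : E → E} {Γ : E → G} {p : ℝ} (hpre : PreQ Ω U g Γ p) {C : Set E} (hC : IsCompact C) (hCΩ : C ⊆ Ω)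
    {K : Set (V Ω)} {q ε : ℝ} (hK : IsCompact K) (hq : 2 < q) (hε : 0 < ε) :
    ∃ z : V Ω, InTest z ∧ Van z C ∧ (u₀ - v₀ ∈ curlW Ω → z = 0) ∧
    ∃ x ∈ Gd ε, besov (x - u₀ - z) q ≤ ENNReal.ofReal ε ∧
      (∀ φ ∈ K, |⟪fld x, fld φ⟫ - ⟪fld (u₀ + z), fld φ⟫| < ε) ∧ Ex x U g ≤ ENNReal.ofReal ε ∧
      Dv x g p ≤ ENNReal.ofReal ε ∧ DgQ x U Γ p ≤ ENNReal.ofReal ε := by
  by_cases hmem : u₀ - v₀ ∈ curlW Ω
  · obtain ⟨x, hx, h1, h2, h3, h4⟩ := core_q hΩ hb hη hGd hS hM hT hv0 hmem hpre hK hq hε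
    refine ⟨0, inTest_zero Ω, van_zero hCΩ hC.measurableSet, fun _ => rfl, x, hx, by rwa [sub_zero], by rwa [add_zero], h3, h4⟩
  · -- constants
    obtain ⟨Cb, hCb, hadd⟩ := besov_add_proof (Ω := Ω) hb
    obtain ⟨R, hR0, hR⟩ : ∃ R : ℝ, 0 < R ∧ ∀ φ ∈ K, ‖φ‖ ≤ R := by
      obtain ⟨R, hR⟩ := hK.isBounded.exists_norm_le
      exact ⟨max R 1, lt_max_of_lt_right one_pos, fun φ hφ => (hR φ hφ).trans (le_max_left _ _)⟩
    set A : ℝ := 2 ^ (q - 1) * (1 + Cb ^ q * 2) with hA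
    have hA0 : 0 < A := by positivity
    have hA1 : 1 ≤ A := by
      have h1 : (1 : ℝ) ≤ 2 ^ (q - 1) := Real.one_le_rpow (by norm_num) (by linarith)
      have h2 : 0 ≤ Cb ^ q := Real.rpow_nonneg hCb _
      nlinarith
    set δ : ℝ := min 1 (ε / (A + R + 1)) with hδ
    have hδ0 : 0 < δ := lt_min one_pos (by positivity)
    have hδ1 : δ ≤ 1 := min_le_left _ _
    have hδ2 : δ * (A + R + 1) ≤ ε := by
      have h1 : δ ≤ ε / (A + R + 1) := min_le_right _ _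
      rwa [le_div_iff₀ (by positivity)] at h1
    have hδε : δ < ε := by
      nlinarith [mul_pos hδ0 hR0, mul_pos hδ0 hA0]
    obtain ⟨φ₀, G, hφ₀, hG, hGn⟩ := test_dense (u₀ - v₀) hδ0
    obtain ⟨ζ, hζ, hζC, hζW⟩ := zfix hΩ hb hC hCΩ hφ₀
    obtain ⟨z, hz⟩ := Rep_proof Ω _ hζ
    have hGz : G + z ∈ curlW Ω := hζW (G + z) (Layer66.rep_add hφ₀ hζ hG hz)
    set u₁ : V Ω := v₀ + (G + z) with hu₁
    have hmem₁ : u₁ - v₀ ∈ curlW Ω := by rw [hu₁, add_sub_cancel_left]; exact hGz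
    obtain ⟨x, hx, h1, h2, h3, h4, h5⟩ := core_q hΩ hb hη hGd hS hM hT hv0 hmem₁ hpre hK hq hδ0
    refine ⟨z, ⟨ζ, hζ, hz⟩, van_of_rep hCΩ hz hζC hC.measurableSet, fun h => absurd h hmem, x,
      soft_mono hS hδ0 hδε hx, ?_, fun φ hφ => ?_, h3.trans (ENNReal.ofReal_le_ofReal hδε.le),
      h4.trans (ENNReal.ofReal_le_ofReal hδε.le), h5.trans (ENNReal.ofReal_le_ofReal hδε.le)⟩
    · have e1 : x - u₀ - z = (x - u₁) + (G - (u₀ - v₀)) := by rw [hu₁]; abel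
      rw [e1]
      refine (hadd (x - u₁) (G - (u₀ - v₀)) q hq.le).trans ?_
      have g1 : (Cb * ‖G - (u₀ - v₀)‖) ^ q * 2 ≤ Cb ^ q * 2 * δ := by
        rw [Real.mul_rpow hCb (norm_nonneg _)]
        have g2 : ‖G - (u₀ - v₀)‖ ^ q ≤ δ := by
          calc ‖G - (u₀ - v₀)‖ ^ q ≤ δ ^ q := Real.rpow_le_rpow (norm_nonneg _) hGn (by linarith)
            _ ≤ δ ^ (1 : ℝ) := Real.rpow_le_rpow_of_exponent_ge hδ0 hδ1 (by linarith)
            _ = δ := Real.rpow_one _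
        have g3 : 0 ≤ Cb ^ q := Real.rpow_nonneg hCb _
        nlinarith
      have e2 : (2 : ENNReal) ^ (q - 1) = ENNReal.ofReal (2 ^ (q - 1)) := by
        rw [← ENNReal.ofReal_rpow_of_pos (by norm_num)]
        norm_num
      calc (2 : ENNReal) ^ (q - 1) * (besov (x - u₁) q + ENNReal.ofReal ((Cb * ‖G - (u₀ - v₀)‖) ^ q * 2))
          ≤ (2 : ENNReal) ^ (q - 1) * (ENNReal.ofReal δ + ENNReal.ofReal (Cb ^ q * 2 * δ)) := by
            gcongr
        _ = ENNReal.ofReal (A * δ) := by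
            rw [e2, ← ENNReal.ofReal_add hδ0.le (by positivity), ← ENNReal.ofReal_mul (by positivity), hA]
            congr 1
            ring
        _ ≤ ENNReal.ofReal ε := by
            refine ENNReal.ofReal_le_ofReal ?_
            nlinarith [mul_pos hδ0 hR0]
    · have g1 := h2 φ hφ
      have g2 : |⟪fld (G - (u₀ - v₀)), fld φ⟫| ≤ δ * R := by
        calc |⟪fld (G - (u₀ - v₀)), fld φ⟫| ≤ ‖fld (G - (u₀ - v₀))‖ * ‖fld φ‖ := abs_real_inner_le_norm _ _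
          _ ≤ ‖G - (u₀ - v₀)‖ * ‖φ‖ := mul_le_mul (norm_fld_le _) (norm_fld_le _) (norm_nonneg _) (norm_nonneg _)
          _ ≤ δ * R := mul_le_mul hGn (hR φ hφ) (norm_nonneg _) hδ0.le
      have e1 : fld u₁ = fld (u₀ + z) + fld (G - (u₀ - v₀)) := by
        rw [← fld_add']
        congr 1
        rw [hu₁]; abel
      have e2 : ⟪fld x, fld φ⟫ - ⟪fld (u₀ + z), fld φ⟫
          = (⟪fld x, fld φ⟫ - ⟪fld u₁, fld φ⟫) + ⟪fld (G - (u₀ - v₀)), fld φ⟫ := by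
        rw [e1, inner_add_left]; ring
      rw [e2]
      refine (abs_add_le _ _).trans_lt ?_
      nlinarith [mul_pos hδ0 hA0]

end Pool.Agent.NSL
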