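import Pool.Agent.NSL.Gauge

/-!
# MP_fd8964_an: many small kicks are bounded in `B^{-1}_{∞,2}` and small in `B^{-1}_{∞,∞}`
-/

open MeasureTheory Set Filter Topology
open scoped RealInnerProductSpace ContDiff

noncomputable section

namespace Pool.Agent.NSL

open Pool.Agent.NSD Pool.Agent.NSK Pool.Agent.NSN Pool.Agent.NSN.Lacun Pool.Agent.NSN.Besov

variable {Ω : Set E}

theorem lac_g (hW : Stmt_Weak) (hΩ : IsOpen Ω) (hb : Bornology.IsBounded Ω) {η : ℝ} {Gd : ℝ → Set (V Ω)}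
    (hGd : KickClosed Ω η Gd) {x₀ : V Ω} (hx₀ : ∀ ε, 0 < ε → x₀ ∈ Gd ε) {n : ℕ} {Gk : Fin n → E → E}
    {p : Fin n → V Ω} (hG : ∀ i, IsKick Ω η (Gk i)) (hp : ∀ i, Represents Ω (Gk i) (p i))
    {K : Set (V Ω)} (hKc : IsCompact K) :
    ∃ Q : ℝ, 0 ≤ Q ∧ ∀ D ε δ : ℝ, 0 < D → 0 < ε → 0 < δ → ∃ x ∈ Gd ε,
      (∀ φ ∈ K, |⟪fld x, fld φ⟫ - ⟪fld (x₀ + ∑ i, p i), fld φ⟫| < δ) ∧ PR (x - (x₀ + ∑ i, p i)) D Q := by
  obtain ⟨C, hC, H⟩ := many hΩ hb hW hGd hx₀ hG hp hKc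
  refine ⟨4 * C ^ 2 * n, by positivity, fun D ε₁ ε hD hε₁ hε => ?_⟩
  -- choose `M`
  obtain ⟨M, hM⟩ : ∃ M : ℕ, (2 * C / D) ^ 2 ≤ M := exists_nat_ge _
  set m : ℝ := (M : ℝ) + 1 with hm
  have hm0 : 0 < m := by positivity
  have hm1 : ((M + 1 : ℕ) : ℝ) = m := by push_cast; rfl
  set js : List (Fin n) := (List.finRange n).flatMap fun i => List.replicate (M + 1) i with hjs
  have hlen : js.length = n * (M + 1) := by rw [hjs, length_flatMap_rep]; simp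
  obtain ⟨x, hx, l, hl, hLac, W, hxW, hWK, hWt⟩ := H m⁻¹ (by positivity) js
    (ε / (2 * (n * m + 1))) ε₁ (by positivity) hε₁
  have hsum : (js.map fun i => m⁻¹ • p i).sum = ∑ i, p i := by
    rw [hjs, sum_flatMap_rep]
    have : ∀ i : Fin n, (M + 1) • (m⁻¹ • p i) = p i := by
      intro i
      rw [← Nat.cast_smul_eq_nsmul ℝ, smul_smul, hm1, mul_inv_cancel₀ hm0.ne', one_smul]
    simp_rw [this]
    rw [← List.ofFn_eq_map, List.sum_ofFn]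
  rw [hsum] at hxW
  have hdiff : x - (x₀ + ∑ i, p i) = W := by rw [hxW]; abel
  refine ⟨x, hx, fun φ hφ => ?_, ?_⟩
  · have h1 : ⟪fld x, fld φ⟫ - ⟪fld (x₀ + ∑ i, p i), fld φ⟫ = ⟪fld W, fld φ⟫ := by
      rw [← inner_sub_left, ← fld_sub, hdiff]
    rw [h1]
    refine (hWK φ hφ).trans_lt ?_
    rw [hlen]
    push_cast
    rw [← hm]
    have h2 : (0 : ℝ) < n * m + 1 := by positivity
    have h3 : (n : ℝ) * m * (ε / (2 * (n * m + 1))) = ε * (n * m) / (2 * (n * m + 1)) := by ring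
    rw [h3, div_lt_iff₀ (by positivity)]
    nlinarith [mul_pos hε h2, mul_nonneg hε.le (by positivity : (0 : ℝ) ≤ n * m)]
  · rw [hdiff]
    have hs0 : 0 ≤ √(m⁻¹) := Real.sqrt_nonneg _
    have hs2 : √(m⁻¹) ^ 2 = m⁻¹ := Real.sq_sqrt (by positivity)
    refine (PR_lac (D := √(m⁻¹) * C) (by positivity) hLac fun t y ht => hWt t y ht).mono ?_ ?_
    · -- `2 √(1/m) C ≤ D`
      have h1 : (2 * (√(m⁻¹) * C)) ^ 2 ≤ D ^ 2 := by
        have e1 : (2 * (√(m⁻¹) * C)) ^ 2 = 4 * C ^ 2 * m⁻¹ := by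
          calc (2 * (√(m⁻¹) * C)) ^ 2 = 4 * C ^ 2 * √(m⁻¹) ^ 2 := by ring
            _ = _ := by rw [hs2]
        rw [e1]
        have h2 : (2 * C / D) ^ 2 ≤ m := by rw [hm]; linarith
        have h3 : 4 * C ^ 2 ≤ m * D ^ 2 := by
          have h4 : (2 * C / D) ^ 2 = 4 * C ^ 2 / D ^ 2 := by rw [div_pow]; ring
          rw [h4, div_le_iff₀ (by positivity)] at h2
          exact h2
        rw [← div_eq_mul_inv, div_le_iff₀ hm0]
        linarith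
      exact le_of_sq_le_sq h1 hD.le
    · rw [hl, hlen]
      push_cast
      rw [← hm]
      calc 4 * (√(m⁻¹) * C) ^ 2 * (n * m) = 4 * C ^ 2 * n * (√(m⁻¹) ^ 2 * m) := by ring
        _ ≤ 4 * C ^ 2 * n := by rw [hs2, inv_mul_cancel₀ hm0.ne', mul_one]

end Pool.Agent.NSL
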