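import Pool.Agent.NSL.LusinP

/-!
# MP_fd8964_an, freezing: the theorem for an arbitrary relation which is preserved by small layers
-/

open MeasureTheory Set Filter Topology
open scoped RealInnerProductSpace ContDiff

noncomputable section

namespace Pool.Agent.NSL

open Pool.Agent.NSD Pool.Agent.NSK Pool.Agent.NSK.Layer66 Pool.Agent.NSN Pool.Agent.NSN.Lacun

variable {Ω : Set E}

/-- Two freezing steps. -/
theorem freeze_pair_r (hΩ : IsOpen Ω) (hb : Bornology.IsBounded Ω) {η : ℝ} (hη : 0 < η) {Gd : ℝ → Set (V Ω)}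
    (hM : MultiClosed Ω η Gd) {U : Set E} (hU : IsOpen U) (hUΩ : U ⊆ Ω)
    {ε ε' : ℝ} (hε : 0 < ε) (hεε' : ε < ε') {n : ℕ} {x : V Ω} (hx : x ∈ Gd ε)
    {a : E → ℝ} (ha : IsBump U a) {k ξ : E} (hk : ‖k‖ = 1) (hξ : ‖ξ‖ = 1) (hkξ : ⟪k, ξ⟫ = 0)
    {ρ : ℝ → ℝ} {s : ℕ → ℝ} (hS : Saw ρ s) {q δ : ℝ} (hq : 1 ≤ q) (hδ : 0 < δ)
    {R : ℕ → V Ω → Prop} (hR : ∀ n x' W, R n x' → SmallHeat q δ W → (∀ φ : V Ω, |⟪fld W, fld φ⟫| ≤ δ * ‖φ‖) →
      R (n + 1) (x' + W)) (hN : R n x) :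
    ∃ (N₁ N₂ : ℝ) (a₂ : E → ℝ) (W : V Ω), 1 ≤ N₁ ∧ 1 ≤ N₂ ∧ IsBump U a₂ ∧
      Represents Ω (stream k ξ (fun y => a y - a₂ y)) W ∧ x + W ∈ Gd ε' ∧ R (n + 2) (x + W) ∧
      (∀ y, deriv ρ (N₁ * ⟪k, y⟫) = 1 → deriv ρ (N₂ * ⟪ξ, y⟫) = 1 → stream k ξ a₂ y = 0) ∧
      ∀ Ma Mr : ℝ, (∀ y, ‖fderiv ℝ a y‖ ≤ Ma) → (∀ y, |deriv ρ y| ≤ Mr) →
        ∀ y, ‖stream k ξ a₂ y‖ ≤ 2 * Ma * (1 + Mr) := by
  have hξk : ⟪ξ, k⟫ = 0 := by rw [real_inner_comm]; exact hkξ
  obtain ⟨N₁, hN₁, hb₁, W₁, hW₁, hm₁, hh₁, hd₁⟩ := freeze_step hΩ hb hη hM hU hUΩ hε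
    (show ε < (ε + ε') / 2 by linarith) hx ha hk hξ hkξ hS hq hδ
  have hneg : IsBump U (fun y => -frz N₁ ρ k a y) := by
    have := isBump_smul (-1) hb₁
    have e : (fun y => -frz N₁ ρ k a y) = fun y => -1 * frz N₁ ρ k a y := by funext y; ring
    rw [e]; exact this
  obtain ⟨N₂, hN₂, hb₂, W₂, hW₂, hm₂, hh₂, hd₂⟩ := freeze_step hΩ hb hη hM hU hUΩ
    (show 0 < (ε + ε') / 2 by linarith) (show (ε + ε') / 2 < ε' by linarith) hm₁ hneg hξ hk hξk hS hq hδ
  have hb₂' : IsBump U (frz N₂ ρ ξ (frz N₁ ρ k a)) := by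
    have := isBump_smul (-1) hb₂
    have e : frz N₂ ρ ξ (frz N₁ ρ k a) = fun y => -1 * frz N₂ ρ ξ (fun y => -frz N₁ ρ k a y) y := by
      funext y; simp only [frz]; ring
    rw [e]; exact this
  have e2 : stream ξ k (fun y => (fun y => -frz N₁ ρ k a y) y - frz N₂ ρ ξ (fun y => -frz N₁ ρ k a y) y)
      = stream k ξ (fun y => frz N₁ ρ k a y - frz N₂ ρ ξ (frz N₁ ρ k a) y) := by
    rw [← stream_swap]
    congr 1
    funext y
    simp only [frz]
    ring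
  rw [e2] at hW₂
  have t1 : IsTest Ω (stream k ξ (fun y => a y - frz N₁ ρ k a y)) :=
    Layer66.isTest_stream k ξ (bump_mono hUΩ (isBump_sub' ha hb₁))
  have t2 : IsTest Ω (stream k ξ (fun y => frz N₁ ρ k a y - frz N₂ ρ ξ (frz N₁ ρ k a) y)) :=
    Layer66.isTest_stream k ξ (bump_mono hUΩ (isBump_sub' hb₁ hb₂'))
  refine ⟨N₁, N₂, frz N₂ ρ ξ (frz N₁ ρ k a), W₁ + W₂, hN₁, hN₂, hb₂', ?_, ?_, ?_, ?_, ?_⟩
  · have h := Layer66.rep_add t1 t2 hW₁ hW₂
    have e3 : stream k ξ (fun y => a y - frz N₁ ρ k a y)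
        + stream k ξ (fun y => frz N₁ ρ k a y - frz N₂ ρ ξ (frz N₁ ρ k a) y)
        = stream k ξ (fun y => a y - frz N₂ ρ ξ (frz N₁ ρ k a) y) := by
      rw [← stream_add ((isBump_sub' ha hb₁).1.differentiable (by simp))
        ((isBump_sub' hb₁ hb₂').1.differentiable (by simp))]
      congr 1
      funext y
      ring
    rw [e3] at h
    exact h
  · rw [← add_assoc]; exact hm₂
  · rw [← add_assoc]
    exact hR _ _ _ (hR _ _ _ hN hh₁ hd₁) hh₂ hd₂
  · intro y h1 h2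
    exact stream_frozen hS.smooth hk hξ hkξ hN₁ hN₂ ha.1 h1 h2
  · intro Ma Mr hMa hMr y
    exact stream_frozen_le hS.smooth hk hξ hkξ hN₁ hN₂ ha.1 hMa hMr y


/-- `lusin_p` for an arbitrary relation. -/
theorem lusin_r (hΩ : IsOpen Ω) (hb : Bornology.IsBounded Ω) {η : ℝ} (hη : 0 < η) {Gd : ℝ → Set (V Ω)}
    (hM : MultiClosed Ω η Gd) {U : Set E} (hU : IsOpen U) (hUΩ : U ⊆ Ω) {w : E → E} (hw : ContDiffOn ℝ ∞ w U)
    (hdiv : ∀ x ∈ U, divField w x = 0) {p : ℝ} (hp0 : 0 < p) (hp1 : p < 1) (hwp : Ip U p w < ⊤)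
    {ε ε' : ℝ} (hε : 0 < ε) (hεε' : ε < ε') {n : ℕ} {x : V Ω} (hx : x ∈ Gd ε) (hxt : InTest x)
    {q δ τ : ℝ} (hq : 1 ≤ q) (hδ : 0 < δ) (hτ : 0 < τ)
    {R : ℕ → V Ω → Prop} (hR : ∀ n x' W, R n x' → SmallHeat q δ W → (∀ φ : V Ω, |⟪fld W, fld φ⟫| ≤ δ * ‖φ‖) →
      R (n + 1) (x' + W)) (hN : R n x) :
    ∃ x' ∈ Gd ε', R (n + 4) x' ∧
      volume {y | y ∈ U ∧ (fld x' : E → E) y ≠ w y} ≤ ENNReal.ofReal τ ∧
      Ip U p (fun y => (fld x' : E → E) y - w y) ≤ ENNReal.ofReal τ ∧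
      ∃ (F : E → E) (W : V Ω), IsTest U F ∧ Represents Ω F W ∧ x' = x + W := by
  obtain ⟨s₀, hs₀, hxs⟩ := hxt
  -- potentials
  have hUb : Bornology.IsBounded U := hb.subset hUΩ
  have hUm := hU.measurableSet
  have hUfin : IsFiniteMeasure (volume.restrict U) := Weak.finiteMeasure hUb
  have hwm : AEStronglyMeasurable w (volume.restrict U) := hw.continuousOn.aestronglyMeasurable hUm
  have hw' : ContDiffOn ℝ ∞ (fun y => w y - s₀ y) U := hw.sub hs₀.smooth.contDiffOn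
  have hdiv' : ∀ y ∈ U, divField (fun y => w y - s₀ y) y = 0 := by
    intro y hy
    have h1 : DifferentiableAt ℝ w y := ((hw y hy).contDiffAt (hU.mem_nhds hy)).differentiableAt (by simp)
    have h2 : DifferentiableAt ℝ s₀ y := hs₀.smooth.differentiable (by simp) y
    have h3 := hdiv y hy
    have h4 := hs₀.div y
    unfold divField at h3 h4 ⊢
    rw [fderiv_fun_sub h1 h2]
    have : ∀ i : Fin 3, (fderiv ℝ w y - fderiv ℝ s₀ y) (e i) i = fderiv ℝ w y (e i) i - fderiv ℝ s₀ y (e i) i :=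
      fun i => rfl
    simp only [this, Finset.sum_sub_distrib, h3, h4, sub_zero]
  have hs₀p : Ip U p s₀ < ⊤ := by
    obtain ⟨C, hC⟩ := hs₀.smooth.continuous.bounded_above_of_compact_support hs₀.compact
    have h1 : Ip U p s₀ ≤ Ip U p (fun _ : E => |C|) := Ip_mono hp0.le fun y => by
      rw [Real.norm_eq_abs, abs_abs]; exact (hC y).trans (le_abs_self C)
    refine h1.trans_lt ?_
    rw [Ip_const]
    exact ENNReal.mul_lt_top (ENNReal.rpow_lt_top_of_nonneg hp0.le enorm_ne_top) hUb.measure_lt_top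
  have hwp' : Ip U p (fun y => w y - s₀ y) < ⊤ := Ip_sub_lt hp0 hp1 hwm hwp hs₀p
  obtain ⟨A, B, hA, hB, hAB, hABp⟩ := pot_local_p hU hUb _ hw' hdiv' p hp0 hp1 hwp' (τ / 4) (by positivity)
  have hbdd : ∀ {a : E → ℝ}, IsBump U a → ∃ C : ℝ, 0 ≤ C ∧ ∀ y, ‖fderiv ℝ a y‖ ≤ C := by
    intro a ha
    obtain ⟨C, hC⟩ := (ha.1.continuous_fderiv (by simp)).bounded_above_of_compact_support (ha.2.1.fderiv ℝ)
    exact ⟨|C|, abs_nonneg _, fun y => (hC y).trans (le_abs_self C)⟩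
  obtain ⟨MA, hMA, hMA'⟩ := hbdd hA
  obtain ⟨MB, hMB, hMB'⟩ := hbdd hB
  -- the profile
  obtain ⟨C, hC, hslab⟩ := slab_small hΩ hb
  obtain ⟨M, hM0, hsaw⟩ := saw_exists_p
  set L : ℝ := 2 * (MA + MB) * (1 + M) with hL
  have hL0 : 0 ≤ L := by positivity
  set D : ℝ := L ^ p * (2 * C) + 1 with hD
  have hLp0 : 0 ≤ L ^ p := Real.rpow_nonneg hL0 _
  have hD0 : 0 < D := by positivity
  set σ : ℝ := min 1 (min (τ / (16 * (C + 1))) ((τ / (4 * D)) ^ (1 / (1 - p)))) with hσ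
  have hσ0 : 0 < σ := lt_min one_pos (lt_min (by positivity) (by positivity))
  have hσ1 : σ ≤ 1 := min_le_left _ _
  have hσπ : σ < Real.pi := hσ1.trans_lt (by linarith [Real.pi_gt_three])
  have hCσ : C * σ ≤ τ / 16 := by
    have h1 : σ ≤ τ / (16 * (C + 1)) := (min_le_right _ _).trans (min_le_left _ _)
    have h2 : C * σ ≤ (C + 1) * σ := by nlinarith
    have h3 : (C + 1) * σ ≤ (C + 1) * (τ / (16 * (C + 1))) := mul_le_mul_of_nonneg_left h1 (by positivity)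
    have h4 : (C + 1) * (τ / (16 * (C + 1))) = τ / 16 := by field_simp
    linarith
  have hσp : (L / σ) ^ p * (2 * (C * σ)) ≤ τ / 4 := by
    have h1 : σ ≤ (τ / (4 * D)) ^ (1 / (1 - p)) := (min_le_right _ _).trans (min_le_right _ _)
    have hp1' : 0 < 1 - p := by linarith
    have h2 : σ ^ (1 - p) ≤ τ / (4 * D) := by
      calc σ ^ (1 - p) ≤ ((τ / (4 * D)) ^ (1 / (1 - p))) ^ (1 - p) := Real.rpow_le_rpow hσ0.le h1 hp1'.le
        _ = τ / (4 * D) := by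
            rw [← Real.rpow_mul (by positivity), one_div, inv_mul_cancel₀ hp1'.ne', Real.rpow_one]
    have h3 : (L / σ) ^ p * (2 * (C * σ)) = L ^ p * (2 * C) * σ ^ (1 - p) := by
      rw [Real.div_rpow hL0 hσ0.le, Real.rpow_sub hσ0, Real.rpow_one]
      ring
    rw [h3]
    calc L ^ p * (2 * C) * σ ^ (1 - p) ≤ D * (τ / (4 * D)) := by
          refine mul_le_mul (by rw [hD]; linarith) h2 (by positivity) hD0.le
      _ = τ / 4 := by field_simp
  obtain ⟨ρ, s, hρs, hρp, hρ1, hsum, htail, hρd⟩ := hsaw σ hσ0 hσπ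
  have hS : Saw ρ s := ⟨hρs, hρp, hsum, htail⟩
  have hort : ∀ i j : Fin 3, i ≠ j → ⟪e i, e j⟫ = 0 := by
    intro i j hij
    rw [e_inner]
    simp [e, hij]
  obtain ⟨N₁, N₂, A₂, W₁, hN₁, hN₂, hA₂, hW₁, hm₁, hn₁, hz₁, hl₁⟩ := freeze_pair_r hΩ hb hη hM hU hUΩ hε
    (show ε < (ε + ε') / 2 by linarith) hx hA (norm_e 0) (norm_e 2) (hort 0 2 (by decide)) hS hq hδ hR hN
  obtain ⟨N₃, N₄, B₂, W₂, hN₃, hN₄, hB₂, hW₂, hm₂, hn₂, hz₂, hl₂⟩ := freeze_pair_r hΩ hb hη hM hU hUΩ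
    (show 0 < (ε + ε') / 2 by linarith) (show (ε + ε') / 2 < ε' by linarith) hm₁ hB (norm_e 1) (norm_e 2)
    (hort 1 2 (by decide)) hS hq hδ hR hn₁
  have hLbd : ∀ Ma : ℝ, 0 ≤ Ma → Ma ≤ MA + MB → 2 * Ma * (1 + M / σ) ≤ L / σ := by
    intro Ma h0 h1
    rw [le_div_iff₀ hσ0, hL]
    have e1 : (1 + M / σ) * σ = σ + M := by field_simp
    calc 2 * Ma * (1 + M / σ) * σ = 2 * Ma * (σ + M) := by rw [mul_assoc, e1]
      _ ≤ 2 * (MA + MB) * (1 + M) := by gcongr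
  set bad : ℝ → Fin 3 → Set E := fun N i => {y | y ∈ Ω ∧ deriv ρ (N * ⟪e i, y⟫) ≠ 1} with hbad
  have hbd : ∀ N i, 1 ≤ N → volume (bad N i) ≤ ENNReal.ofReal (C * σ) := fun N i hN =>
    hslab σ hσ0 hσπ ρ hρp hρ1 i N hN
  have hbm : ∀ N i, MeasurableSet (bad N i) := by
    intro N i
    have hc : Continuous fun y : E => deriv ρ (N * ⟪e i, y⟫) := by
      have h1 : Continuous (deriv ρ) := hρs.continuous_deriv (by simp)
      exact h1.comp (continuous_const.mul (continuous_const.inner continuous_id))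
    exact hΩ.measurableSet.inter (hc.measurable (measurableSet_singleton (1 : ℝ)).compl)
  have hf1 : ∀ᵐ y ∂(volume.restrict Ω), (fld (x + W₁ + W₂) : E → E) y
      = s₀ y + stream (e 0) (e 2) (fun y => A y - A₂ y) y + stream (e 1) (e 2) (fun y => B y - B₂ y) y := by
    have h1 : (fld (x + W₁ + W₂) : E → E) =ᵐ[volume.restrict Ω]
        fun y => (fld (x + W₁) : E → E) y + (fld W₂ : E → E) y := Lp.coeFn_add (fld (x + W₁)) (fld W₂)
    have h2 : (fld (x + W₁) : E → E) =ᵐ[volume.restrict Ω]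
        fun y => (fld x : E → E) y + (fld W₁ : E → E) y := Lp.coeFn_add (fld x) (fld W₁)
    filter_upwards [h1, h2, hxs.1, hW₁.1, hW₂.1] with y h3 h4 h5 h6 h7
    have h5' : (fld x : E → E) y = s₀ y := h5
    have h6' : (fld W₁ : E → E) y = _ := h6
    have h7' : (fld W₂ : E → E) y = _ := h7
    rw [h3, h4, h5', h6', h7']
  refine ⟨x + W₁ + W₂, hm₂, hn₂, ?_, ?_, ?_⟩
  · have hnull : volume {y | y ∈ Ω ∧ (fld (x + W₁ + W₂) : E → E) y
        ≠ s₀ y + stream (e 0) (e 2) (fun y => A y - A₂ y) y + stream (e 1) (e 2) (fun y => B y - B₂ y) y} = 0 := by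
      rw [ae_restrict_iff' hΩ.measurableSet] at hf1
      have h2 := ae_iff.1 hf1
      refine measure_mono_null (fun y hy => ?_) h2
      rintro h3
      exact hy.2 (h3 hy.1)
    have hcover : {y | y ∈ U ∧ (fld (x + W₁ + W₂) : E → E) y ≠ w y}
        ⊆ {y | y ∈ Ω ∧ (fld (x + W₁ + W₂) : E → E) y ≠ s₀ y + stream (e 0) (e 2) (fun y => A y - A₂ y) y
            + stream (e 1) (e 2) (fun y => B y - B₂ y) y}
          ∪ {y | y ∈ U ∧ stream (e 0) (e 2) A y + stream (e 1) (e 2) B y ≠ w y - s₀ y}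
          ∪ (bad N₁ 0 ∪ bad N₂ 2) ∪ (bad N₃ 1 ∪ bad N₄ 2) := by
      rintro y ⟨hyU, hy⟩
      by_contra hcon
      simp only [mem_union, mem_ofPred_eq, not_or, not_and, not_not, hbad] at hcon
      obtain ⟨⟨⟨h1, h2⟩, h3, h4⟩, h5, h6⟩ := hcon
      have hyΩ := hUΩ hyU
      apply hy
      rw [h1 hyΩ]
      have g1 := hz₁ y (h3 hyΩ) (h4 hyΩ)
      have g2 := hz₂ y (h5 hyΩ) (h6 hyΩ)
      rw [stream_sub (hA.1.differentiable (by simp)) (hA₂.1.differentiable (by simp)),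
        stream_sub (hB.1.differentiable (by simp)) (hB₂.1.differentiable (by simp)), Pi.sub_apply, Pi.sub_apply,
        g1, g2, sub_zero, sub_zero, add_assoc, h2 hyU]
      abel
    refine (measure_mono hcover).trans ?_
    refine (measure_union_le _ _).trans ?_
    refine (add_le_add ((measure_union_le _ _).trans (add_le_add ((measure_union_le _ _).trans
      (add_le_add hnull.le hAB)) ((measure_union_le _ _).trans (add_le_add (hbd N₁ 0 hN₁) (hbd N₂ 2 hN₂)))))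
      ((measure_union_le _ _).trans (add_le_add (hbd N₃ 1 hN₃) (hbd N₄ 2 hN₄)))).trans ?_
    have ht8 : 0 ≤ C * σ := by positivity
    rw [zero_add, ← ENNReal.ofReal_add ht8 ht8, ← ENNReal.ofReal_add (by positivity) (by positivity),
      ← ENNReal.ofReal_add (by positivity) (by positivity)]
    exact ENNReal.ofReal_le_ofReal (by linarith)
  · have hf1U : ∀ᵐ y ∂(volume.restrict U), (fld (x + W₁ + W₂) : E → E) y
        = s₀ y + stream (e 0) (e 2) (fun y => A y - A₂ y) y + stream (e 1) (e 2) (fun y => B y - B₂ y) y :=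
      ae_mono (Measure.restrict_mono hUΩ le_rfl) hf1
    have hcs : ∀ (k ξ : E) {g : E → ℝ}, IsBump U g → Continuous (stream k ξ g) := fun k ξ g hg =>
      (Layer66.isTest_stream k ξ hg).smooth.continuous
    have e1 : (fun y => (fld (x + W₁ + W₂) : E → E) y - w y) =ᵐ[volume.restrict U]
        fun y => (stream (e 0) (e 2) A y + stream (e 1) (e 2) B y - (w y - s₀ y))
          + (-stream (e 0) (e 2) A₂ y + -stream (e 1) (e 2) B₂ y) := by
      filter_upwards [hf1U] with y h1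
      rw [h1, stream_sub (hA.1.differentiable (by simp)) (hA₂.1.differentiable (by simp)),
        stream_sub (hB.1.differentiable (by simp)) (hB₂.1.differentiable (by simp)), Pi.sub_apply, Pi.sub_apply]
      abel
    rw [Ip_congr e1]
    have m1 : AEStronglyMeasurable (fun y => stream (e 0) (e 2) A y + stream (e 1) (e 2) B y - (w y - s₀ y))
        (volume.restrict U) :=
      (((hcs _ _ hA).add (hcs _ _ hB)).aestronglyMeasurable).sub
        (hwm.sub hs₀.smooth.continuous.aestronglyMeasurable)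
    have m2 : AEStronglyMeasurable (fun y => -stream (e 0) (e 2) A₂ y) (volume.restrict U) :=
      (hcs _ _ hA₂).neg.aestronglyMeasurable
    have key : ∀ {a : E → ℝ} {k ξ : E} {i j : Fin 3} {N N' : ℝ} {Ma : ℝ}, 1 ≤ N → 1 ≤ N' →
        (∀ y, ‖stream k ξ a y‖ ≤ L / σ) →
        (∀ y, deriv ρ (N * ⟪e i, y⟫) = 1 → deriv ρ (N' * ⟪e j, y⟫) = 1 → stream k ξ a y = 0) →
        Ip U p (stream k ξ a) ≤ ENNReal.ofReal (τ / 4) := by
      intro a k ξ i j N N' _ hN hN' hle hz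
      have h1 := Ip_small (p := p) hUm ((hbm N i).union (hbm N' j)) hp0 hle (fun y hyU hy => by
        simp only [mem_union, mem_ofPred_eq, not_or, not_and, not_not, hbad] at hy
        exact hz y (hy.1 (hUΩ hyU)) (hy.2 (hUΩ hyU)))
      refine h1.trans ?_
      have h2 : volume (bad N i ∪ bad N' j) ≤ ENNReal.ofReal (2 * (C * σ)) := by
        refine (measure_union_le _ _).trans ((add_le_add (hbd N i hN) (hbd N' j hN')).trans (le_of_eq ?_))
        rw [← ENNReal.ofReal_add (by positivity) (by positivity)]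
        congr 1; ring
      calc ENNReal.ofReal (L / σ) ^ p * volume (bad N i ∪ bad N' j)
          ≤ ENNReal.ofReal (L / σ) ^ p * ENNReal.ofReal (2 * (C * σ)) := by gcongr
        _ = ENNReal.ofReal ((L / σ) ^ p * (2 * (C * σ))) := by
            rw [ENNReal.ofReal_rpow_of_nonneg (by positivity) hp0.le, ← ENNReal.ofReal_mul (by positivity)]
        _ ≤ ENNReal.ofReal (τ / 4) := ENNReal.ofReal_le_ofReal hσp
    have kA : Ip U p (stream (e 0) (e 2) A₂) ≤ ENNReal.ofReal (τ / 4) :=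
      key (Ma := MA) hN₁ hN₂ (fun y => (hl₁ MA (M / σ) hMA' hρd y).trans (hLbd MA hMA (by linarith))) hz₁
    have kB : Ip U p (stream (e 1) (e 2) B₂) ≤ ENNReal.ofReal (τ / 4) :=
      key (Ma := MB) hN₃ hN₄ (fun y => (hl₂ MB (M / σ) hMB' hρd y).trans (hLbd MB hMB (by linarith))) hz₂
    refine (Ip_add hp0.le hp1.le m1).trans ?_
    refine (add_le_add_right (Ip_add hp0.le hp1.le m2) _).trans ?_
    rw [Ip_neg (stream (e 0) (e 2) A₂), Ip_neg (stream (e 1) (e 2) B₂)]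
    calc Ip U p (fun y => stream (e 0) (e 2) A y + stream (e 1) (e 2) B y - (w y - s₀ y))
          + (Ip U p (stream (e 0) (e 2) A₂) + Ip U p (stream (e 1) (e 2) B₂))
        ≤ ENNReal.ofReal (τ / 4) + (ENNReal.ofReal (τ / 4) + ENNReal.ofReal (τ / 4)) :=
          add_le_add hABp (add_le_add kA kB)
      _ = ENNReal.ofReal (τ / 4 + (τ / 4 + τ / 4)) := by
          rw [ENNReal.ofReal_add (by positivity) (by positivity), ENNReal.ofReal_add (by positivity) (by positivity)]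
      _ ≤ ENNReal.ofReal τ := ENNReal.ofReal_le_ofReal (by linarith)
  · have t1 : IsTest U (stream (e 0) (e 2) (fun y => A y - A₂ y)) := Layer66.isTest_stream _ _ (isBump_sub' hA hA₂)
    have t2 : IsTest U (stream (e 1) (e 2) (fun y => B y - B₂ y)) := Layer66.isTest_stream _ _ (isBump_sub' hB hB₂)
    have t1' : IsTest Ω (stream (e 0) (e 2) (fun y => A y - A₂ y)) := Layer66.isTest_stream _ _ (bump_mono hUΩ (isBump_sub' hA hA₂))
    have t2' : IsTest Ω (stream (e 1) (e 2) (fun y => B y - B₂ y)) := Layer66.isTest_stream _ _ (bump_mono hUΩ (isBump_sub' hB hB₂))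
    exact ⟨_, W₁ + W₂, test_add t1 t2, Layer66.rep_add t1' t2' hW₁ hW₂, add_assoc _ _ _⟩

end Pool.Agent.NSL
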