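import Pool.Agent.NSL.GenQ
import Pool.Agent.NSL.LusinR
import Pool.Agent.NSL.LacG

/-!
# MP_fd8964_an: the general theorem, closeness with respect to an arbitrary gauge `φ(s) = o(s²)`
-/

open MeasureTheory Set Filter Topology
open scoped RealInnerProductSpace ContDiff

noncomputable section

namespace Pool.Agent.NSL

open Pool.Agent.NSD Pool.Agent.NSK Pool.Agent.NSN

variable {Ω : Set E}

/-- `x` is obtained from `x₀` by `n` small layers. -/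
def NR (δ : ℝ) (x₀ : V Ω) (n : ℕ) (x : V Ω) : Prop :=
  ∃ B : V Ω, x = x₀ + B ∧ PR B (n * δ) (4 ^ n * δ ^ 2) ∧ ∀ φ : V Ω, |⟪fld B, fld φ⟫| ≤ n * δ * ‖φ‖

theorem NR.refl (δ : ℝ) (x₀ : V Ω) : NR δ x₀ 0 x₀ := by
  refine ⟨0, (add_zero _).symm, PR.zero.mono (by simp) (by positivity), fun φ => ?_⟩
  have : fld (0 : V Ω) = 0 := rfl
  simp [this]

theorem NR.step (hb : Bornology.IsBounded Ω) {δ : ℝ} {x₀ : V Ω} (n : ℕ) (x W : V Ω) (h : NR δ x₀ n x)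
    (hW : SmallHeat 1 δ W) (hd : ∀ φ : V Ω, |⟪fld W, fld φ⟫| ≤ δ * ‖φ‖) : NR δ x₀ (n + 1) (x + W) := by
  obtain ⟨B, hB, h1, h2⟩ := h
  obtain ⟨hδ, h3⟩ := PR_small hW
  refine ⟨B + W, by rw [hB, add_assoc], ((h1.add hb (by positivity) (by positivity) h3).mono ?_ ?_), fun φ => ?_⟩
  · push_cast; linarith
  · have h4 : (1 : ℝ) ≤ 4 ^ n := one_le_pow₀ (by norm_num)
    have h5 : 0 ≤ δ ^ 2 := sq_nonneg δ
    have e1 : (4 : ℝ) ^ (n + 1) * δ ^ 2 = 4 * (4 ^ n * δ ^ 2) := by ring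
    rw [e1]
    nlinarith [mul_le_mul_of_nonneg_right h4 h5]
  · have e1 : ⟪fld (B + W), fld φ⟫ = ⟪fld B, fld φ⟫ + ⟪fld W, fld φ⟫ := by
      rw [fld_add', inner_add_left]
    rw [e1]
    have := (abs_add_le _ _).trans (add_le_add (h2 φ) (hd φ))
    push_cast
    linarith

/-- From a good datum `x` to a good datum with prescribed values and gradients. -/
theorem finish_r (hΩ : IsOpen Ω) (hb : Bornology.IsBounded Ω) {η : ℝ} (hη : 0 < η) {Gd : ℝ → Set (V Ω)}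
    (hS : SoftClosed Ω Gd) (hM : MultiClosed Ω η Gd) (hT : ∀ ε, 0 < ε → ∀ x ∈ Gd ε, InTest x)
    {U : Set E} {g : E → E} {Γ : E → G} {p : ℝ} (hpre : PreQ Ω U g Γ p) {ε δ : ℝ}
    (hε : 0 < ε) (hδ0 : 0 < δ) (hδ7 : 7 * δ ≤ ε) {x : V Ω} (hx' : x ∈ Gd (ε / 4)) :
    ∃ x' ∈ Gd ε, NR δ x 6 x' ∧ Ex x' U g ≤ ENNReal.ofReal ε ∧ Dv x' g p ≤ ENNReal.ofReal ε ∧
      DgQ x' U Γ p ≤ ENNReal.ofReal ε := by
  obtain ⟨hU, hUΩ, hw, hdiv, hp0, hp1, hgp, hΓp, htr⟩ := hpre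
  have hUm := hU.measurableSet
  have hDm : MeasurableSet (Ω \ U) := hΩ.measurableSet.diff hUm
  have hfin : ∀ {X : Type} [NormedAddCommGroup X] {f : E → X} {S : Set E},
      MemLp f (ENNReal.ofReal p) (volume.restrict S) → Ip S p f < ⊤ := by
    intro X _ f S hf
    rw [Ip_eq_eLpNorm hp0]
    exact ENNReal.rpow_lt_top_of_nonneg hp0.le hf.2.ne
  have hgU : MemLp g (ENNReal.ofReal p) (volume.restrict U) := hgp.mono_measure (Measure.restrict_mono hUΩ le_rfl)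
  -- the gradient
  set Γ' : E → G := (Ω \ U).indicator Γ with hΓ'
  have hΓ'p : MemLp Γ' (ENNReal.ofReal p) (volume.restrict Ω) :=
    ((memLp_indicator_iff_restrict hDm).2 hΓp).restrict Ω
  have htr' : ∀ᵐ y ∂(volume.restrict Ω), ∑ i : Fin 3, Γ' y i i = 0 := by
    rw [ae_restrict_iff' hDm] at htr
    refine ae_restrict_of_ae ?_
    filter_upwards [htr] with y hy
    by_cases h : y ∈ Ω \ U
    · rw [hΓ', Set.indicator_of_mem h]; exact hy h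
    · rw [hΓ', Set.indicator_of_notMem h]
      exact Finset.sum_eq_zero fun i _ => rfl
  obtain ⟨W₀, W₁, k1, k2, k3, k4, k5, k6, k7⟩ := joint hΩ hb hS hp0 hp1 (show 0 < ε / 4 by linarith)
    (show ε / 4 < ε / 2 by linarith) hx' (hT _ (by linarith) x hx') hgp.1 (hfin hgp) hΓ'p.1 (hfin hΓ'p) htr'
    (le_refl (1 : ℝ)) hδ0
  have hN : NR δ x (0 + 1 + 1) (x + W₀ + W₁) :=
    NR.step hb _ _ _ (NR.step hb _ _ _ (NR.refl δ x) k2 k4) k3 k5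
  obtain ⟨x', hx'mem, hnear, hex, hexp, F, W, hF, hW, hxW⟩ := lusin_r hΩ hb hη hM hU hUΩ hw hdiv hp0 hp1
    (hfin hgU) (half_pos hε) (half_lt_self hε) k1 (hT _ (half_pos hε) _ k1) (le_refl (1 : ℝ)) hδ0
    (half_pos hε) (R := NR δ x) (fun n x' W h1 h2 h3 => NR.step hb n x' W h1 h2 h3) hN
  have hun := unchanged (x := x + W₀ + W₁) hF hW
  rw [← hxW, ae_restrict_iff' hΩ.measurableSet] at hun
  have hunD : ∀ᵐ y ∂(volume.restrict (Ω \ U)), (fld x' : E → E) y = (fld (x + W₀ + W₁) : E → E) y ∧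
      (grd x' : E → G) y = (grd (x + W₀ + W₁) : E → G) y := by
    rw [ae_restrict_iff' hDm]
    filter_upwards [hun] with y hy hyD
    exact hy hyD.1 hyD.2
  refine ⟨x', hx'mem, hnear, hex.trans (ENNReal.ofReal_le_ofReal (by linarith)), ?_, ?_⟩
  · have e0 : Ω ∩ U = U := inter_eq_right.2 hUΩ
    unfold Dv
    rw [← lintegral_inter_add_sdiff _ Ω hUm, e0]
    have e1 : ∫⁻ y in Ω \ U, ‖(fld x' : E → E) y - g y‖ₑ ^ p
        = ∫⁻ y in Ω \ U, ‖(fld (x + W₀ + W₁) : E → E) y - g y‖ₑ ^ p := by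
      refine lintegral_congr_ae ?_
      filter_upwards [hunD] with y hy
      rw [hy.1]
    rw [e1]
    calc (∫⁻ y in U, ‖(fld x' : E → E) y - g y‖ₑ ^ p) + ∫⁻ y in Ω \ U, ‖(fld (x + W₀ + W₁) : E → E) y - g y‖ₑ ^ p
        ≤ ENNReal.ofReal (ε / 2) + ENNReal.ofReal (δ + δ) := by
          refine add_le_add hexp (le_trans ?_ k6)
          exact lintegral_mono_set Set.sdiff_subset
      _ = ENNReal.ofReal (ε / 2 + (δ + δ)) := (ENNReal.ofReal_add (by positivity) (by positivity)).symm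
      _ ≤ ENNReal.ofReal ε := ENNReal.ofReal_le_ofReal (by linarith)
  · unfold DgQ
    have e1 : ∫⁻ y in Ω \ U, ‖(grd x' : E → G) y - Γ y‖ₑ ^ p
        = ∫⁻ y in Ω \ U, ‖(grd (x + W₀ + W₁) : E → G) y - Γ' y‖ₑ ^ p := by
      refine lintegral_congr_ae ?_
      filter_upwards [hunD, ae_restrict_mem hDm] with y hy hyD
      rw [hy.2, hΓ', Set.indicator_of_mem hyD]
    rw [e1]
    calc ∫⁻ y in Ω \ U, ‖(grd (x + W₀ + W₁) : E → G) y - Γ' y‖ₑ ^ p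
        ≤ ∫⁻ y in Ω, ‖(grd (x + W₀ + W₁) : E → G) y - Γ' y‖ₑ ^ p := lintegral_mono_set Set.sdiff_subset
      _ ≤ ENNReal.ofReal δ := k7
      _ ≤ ENNReal.ofReal ε := ENNReal.ofReal_le_ofReal (by linarith)

/-- The theorem for `u₁ - v(0)` in `curlW Ω`, in terms of the family of good data. -/
theorem core_r (hΩ : IsOpen Ω) (hb : Bornology.IsBounded Ω) {η : ℝ} (hη : 0 < η) {Gd : ℝ → Set (V Ω)}
    (hGd : KickClosed Ω η Gd) (hS : SoftClosed Ω Gd) (hM : MultiClosed Ω η Gd)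
    (hT : ∀ ε, 0 < ε → ∀ x ∈ Gd ε, InTest x) {v₀ : V Ω} (hv0 : ∀ ε, 0 < ε → v₀ ∈ Gd ε)
    {U : Set E} {g : E → E} {Γ : E → G} {p : ℝ} (hpre : PreQ Ω U g Γ p) {K : Set (V Ω)} (hK : IsCompact K)
    {ψ : ENNReal → ENNReal} (hψ : IsGau ψ) {ε : ℝ} (hε : 0 < ε) :
    ∃ δ₃ : ℝ, 0 < δ₃ ∧ ∀ u₁ : V Ω, u₁ - v₀ ∈ curlW Ω → ∃ x ∈ Gd ε,
      (∀ r : V Ω, ‖r‖ ≤ δ₃ → gau (x - u₁ + r) ψ ≤ ENNReal.ofReal ε) ∧
      (∀ φ ∈ K, |⟪fld x, fld φ⟫ - ⟪fld u₁, fld φ⟫| < ε) ∧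
      Ex x U g ≤ ENNReal.ofReal ε ∧ Dv x g p ≤ ENNReal.ofReal ε ∧ DgQ x U Γ p ≤ ENNReal.ofReal ε := by
  obtain ⟨R, hR0, hR⟩ : ∃ R : ℝ, 0 < R ∧ ∀ φ ∈ K, ‖φ‖ ≤ R := by
    obtain ⟨R, hR⟩ := hK.isBounded.exists_norm_le
    exact ⟨max R 1, lt_max_of_lt_right one_pos, fun φ hφ => (hR φ hφ).trans (le_max_left _ _)⟩
  obtain ⟨Ce, hCe, hemb⟩ := PR_emb (Ω := Ω) hb
  obtain ⟨δ₀, hδ₀, hgau⟩ := gau_le (Ω := Ω) hb hψ hε
  set κ : ℝ := min 1 δ₀ with hκ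
  have hκ0 : 0 < κ := lt_min one_pos hδ₀
  have hκ1 : κ ≤ 1 := min_le_left _ _
  have hκδ : κ ≤ δ₀ := min_le_right _ _
  set δ₃ : ℝ := min (κ / (16 * (Ce + 1))) (ε / (8 * (R + 1))) with hδ₃
  have hδ₃0 : 0 < δ₃ := lt_min (by positivity) (by positivity)
  have hδ₃a : Ce * (2 * δ₃) ≤ κ / 8 := by
    have h1 : δ₃ ≤ κ / (16 * (Ce + 1)) := min_le_left _ _
    have h2 : (Ce + 1) * (2 * δ₃) ≤ (Ce + 1) * (2 * (κ / (16 * (Ce + 1)))) := by gcongr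
    have h3 : (Ce + 1) * (2 * (κ / (16 * (Ce + 1)))) = κ / 8 := by field_simp; ring
    nlinarith
  have hδ₃b : δ₃ * R ≤ ε / 8 := by
    have h1 : δ₃ ≤ ε / (8 * (R + 1)) := min_le_right _ _
    have h2 : δ₃ * (R + 1) ≤ ε / (8 * (R + 1)) * (R + 1) := by gcongr
    have h3 : ε / (8 * (R + 1)) * (R + 1) = ε / 8 := by field_simp
    nlinarith
  set δ : ℝ := min (κ / 128) (ε / (16 * (R + 1))) with hδ
  have hδ0 : 0 < δ := lt_min (by positivity) (by positivity)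
  have hδa : δ ≤ κ / 128 := min_le_left _ _
  have hδb : δ * (R + 1) ≤ ε / 16 := by
    have h1 : δ ≤ ε / (16 * (R + 1)) := min_le_right _ _
    have h2 : δ * (R + 1) ≤ ε / (16 * (R + 1)) * (R + 1) := by gcongr
    have h3 : ε / (16 * (R + 1)) * (R + 1) = ε / 16 := by field_simp
    linarith
  have hδ7 : 7 * δ ≤ ε := by nlinarith [mul_pos hδ0 hR0]
  refine ⟨δ₃, hδ₃0, fun u₁ hmem => ?_⟩
  obtain ⟨n, Gk, pk, hG, hp, hn⟩ := vDense_all Ω hΩ hb η hη _ hmem δ₃ hδ₃0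
  obtain ⟨Q, hQ, hlac⟩ := lac_g (weak_proof pairXi_proof) hΩ hb hGd hv0 hG hp hK
  obtain ⟨D, hD, hgauD⟩ := hgau Q hQ
  obtain ⟨x, hx, h2, h3⟩ := hlac D (ε / 4) (ε / 8) hD (by positivity) (by positivity)
  obtain ⟨x', hx'mem, ⟨B, hxB, hBP, hBd⟩, h4, h5, h6⟩ := finish_r hΩ hb hη hS hM hT hpre hε hδ0 hδ7 hx
  set y : V Ω := v₀ + ∑ i, pk i with hy
  have hyu : ‖y - u₁‖ ≤ δ₃ := by
    have e1 : y - u₁ = (∑ i, pk i) - (u₁ - v₀) := by rw [hy]; abel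
    rw [e1]
    exact hn
  refine ⟨x', hx'mem, fun r hr => ?_, fun φ hφ => ?_, h4, h5, h6⟩
  · have e1 : x' - u₁ + r = (x - y) + ((y - u₁ + r) + B) := by rw [hxB]; abel
    rw [e1]
    refine hgauD _ _ h3 ?_
    have hnr : ‖y - u₁ + r‖ ≤ 2 * δ₃ := (norm_add_le _ _).trans (by linarith)
    have hc : Ce * ‖y - u₁ + r‖ ≤ κ / 8 := (mul_le_mul_of_nonneg_left hnr hCe).trans hδ₃a
    have hc0 : 0 ≤ Ce * ‖y - u₁ + r‖ := by positivity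
    have hc2 : (Ce * ‖y - u₁ + r‖) ^ 2 ≤ (κ / 8) ^ 2 := pow_le_pow_left₀ hc0 hc 2
    have hd2 : δ ^ 2 ≤ (κ / 128) ^ 2 := pow_le_pow_left₀ hδ0.le hδa 2
    have hκ2 : κ ^ 2 ≤ κ := by nlinarith
    refine ((hemb (y - u₁ + r)).add hb (by positivity) (by positivity) hBP).mono ?_ ?_
    · push_cast
      linarith
    · push_cast
      nlinarith
  · have a1 := h2 φ hφ
    have a2 := hBd φ
    have a3 : ((6 : ℕ) : ℝ) * δ * ‖φ‖ ≤ 6 * δ * R := by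
      have e3 : ((6 : ℕ) : ℝ) = 6 := by norm_num
      rw [e3]
      exact mul_le_mul_of_nonneg_left (hR φ hφ) (by positivity)
    have a5 : |⟪fld (y - u₁), fld φ⟫| ≤ δ₃ * R := by
      calc |⟪fld (y - u₁), fld φ⟫| ≤ ‖fld (y - u₁)‖ * ‖fld φ‖ := abs_real_inner_le_norm _ _
        _ ≤ ‖y - u₁‖ * ‖φ‖ := mul_le_mul (norm_fld_le _) (norm_fld_le _) (norm_nonneg _) (norm_nonneg _)
        _ ≤ δ₃ * R := mul_le_mul hyu (hR φ hφ) (norm_nonneg _) hδ₃0.le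
    have a4 : ⟪fld x', fld φ⟫ - ⟪fld u₁, fld φ⟫
        = ⟪fld B, fld φ⟫ + ((⟪fld x, fld φ⟫ - ⟪fld y, fld φ⟫) + ⟪fld (y - u₁), fld φ⟫) := by
      have e5 : fld (y - u₁) = fld y - fld u₁ := rfl
      rw [hxB, fld_add', inner_add_left, e5, inner_sub_left]
      ring
    rw [a4]
    refine (abs_add_le _ _).trans_lt ?_
    have a6 := abs_add_le (⟪fld x, fld φ⟫ - ⟪fld y, fld φ⟫) ⟪fld (y - u₁), fld φ⟫
    nlinarith [mul_pos hδ0 hR0]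

/-- The general case. -/
theorem gen_r (hΩ : IsOpen Ω) (hb : Bornology.IsBounded Ω) {η : ℝ} (hη : 0 < η) {Gd : ℝ → Set (V Ω)}
    (hGd : KickClosed Ω η Gd) (hS : SoftClosed Ω Gd) (hM : MultiClosed Ω η Gd)
    (hT : ∀ ε, 0 < ε → ∀ x ∈ Gd ε, InTest x)
    {v₀ : V Ω} (hv0 : ∀ ε, 0 < ε → v₀ ∈ Gd ε) (u₀ : V Ω)
    {U : Set E} {g : E → E} {Γ : E → G} {p : ℝ} (hpre : PreQ Ω U g Γ p) {C : Set E} (hC : IsCompact C) (hCΩ : C ⊆ Ω)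
    {K : Set (V Ω)} (hK : IsCompact K) {ψ : ENNReal → ENNReal} (hψ : IsGau ψ) {ε : ℝ} (hε : 0 < ε) :
    ∃ z : V Ω, InTest z ∧ Van z C ∧ (u₀ - v₀ ∈ curlW Ω → z = 0) ∧
    ∃ x ∈ Gd ε, gau (x - u₀ - z) ψ ≤ ENNReal.ofReal ε ∧
      (∀ φ ∈ K, |⟪fld x, fld φ⟫ - ⟪fld (u₀ + z), fld φ⟫| < ε) ∧ Ex x U g ≤ ENNReal.ofReal ε ∧
      Dv x g p ≤ ENNReal.ofReal ε ∧ DgQ x U Γ p ≤ ENNReal.ofReal ε := by
  by_cases hmem : u₀ - v₀ ∈ curlW Ω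
  · obtain ⟨δ₃, hδ₃, H⟩ := core_r hΩ hb hη hGd hS hM hT hv0 hpre hK hψ hε
    obtain ⟨x, hx, h1, h2, h3, h4, h5⟩ := H u₀ hmem
    have h1' := h1 0 (by rw [norm_zero]; exact hδ₃.le)
    rw [add_zero] at h1'
    exact ⟨0, inTest_zero Ω, van_zero hCΩ hC.measurableSet, fun _ => rfl, x, hx, by rwa [sub_zero],
      by rwa [add_zero], h3, h4, h5⟩
  · obtain ⟨R, hR0, hR⟩ : ∃ R : ℝ, 0 < R ∧ ∀ φ ∈ K, ‖φ‖ ≤ R := by
      obtain ⟨R, hR⟩ := hK.isBounded.exists_norm_le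
      exact ⟨max R 1, lt_max_of_lt_right one_pos, fun φ hφ => (hR φ hφ).trans (le_max_left _ _)⟩
    obtain ⟨δ₃, hδ₃, H⟩ := core_r hΩ hb hη hGd hS hM hT hv0 hpre hK hψ (half_pos hε)
    set δ : ℝ := min δ₃ (ε / (4 * R)) with hδ
    have hδ0 : 0 < δ := lt_min hδ₃ (by positivity)
    have hδR : δ * R ≤ ε / 4 := by
      have h1 : δ ≤ ε / (4 * R) := min_le_right _ _
      have h2 : δ * R ≤ ε / (4 * R) * R := by gcongr
      have h3 : ε / (4 * R) * R = ε / 4 := by field_simp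
      linarith
    obtain ⟨φ₀, G, hφ₀, hG, hGn⟩ := test_dense (u₀ - v₀) hδ0
    obtain ⟨ζ, hζ, hζC, hζW⟩ := zfix hΩ hb hC hCΩ hφ₀
    obtain ⟨z, hz⟩ := Rep_proof Ω _ hζ
    have hGz : G + z ∈ curlW Ω := hζW (G + z) (Layer66.rep_add hφ₀ hζ hG hz)
    set u₁ : V Ω := v₀ + (G + z) with hu₁
    have hmem₁ : u₁ - v₀ ∈ curlW Ω := by rw [hu₁, add_sub_cancel_left]; exact hGz
    obtain ⟨x, hx, h1, h2, h3, h4, h5⟩ := H u₁ hmem₁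
    have hle : ENNReal.ofReal (ε / 2) ≤ ENNReal.ofReal ε := ENNReal.ofReal_le_ofReal (by linarith)
    refine ⟨z, ⟨ζ, hζ, hz⟩, van_of_rep hCΩ hz hζC hC.measurableSet, fun h => absurd h hmem, x,
      soft_mono hS (half_pos hε) (half_lt_self hε) hx, ?_, fun φ hφ => ?_, h3.trans hle, h4.trans hle, h5.trans hle⟩
    · have e1 : x - u₀ - z = x - u₁ + (G - (u₀ - v₀)) := by rw [hu₁]; abel
      rw [e1]
      exact (h1 _ (hGn.trans (min_le_left _ _))).trans hle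
    · have g1 := h2 φ hφ
      have g2 : |⟪fld (G - (u₀ - v₀)), fld φ⟫| ≤ δ * R := by
        calc |⟪fld (G - (u₀ - v₀)), fld φ⟫| ≤ ‖fld (G - (u₀ - v₀))‖ * ‖fld φ‖ := abs_real_inner_le_norm _ _
          _ ≤ ‖G - (u₀ - v₀)‖ * ‖φ‖ := mul_le_mul (norm_fld_le _) (norm_fld_le _) (norm_nonneg _) (norm_nonneg _)
          _ ≤ δ * R := mul_le_mul hGn (hR φ hφ) (norm_nonneg _) hδ0.le
      have e1 : fld u₁ = fld (u₀ + z) + fld (G - (u₀ - v₀)) := by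
        rw [← fld_add']
        congr 1
        rw [hu₁]; abel
      have e2 : ⟪fld x, fld φ⟫ - ⟪fld (u₀ + z), fld φ⟫
          = (⟪fld x, fld φ⟫ - ⟪fld u₁, fld φ⟫) + ⟪fld (G - (u₀ - v₀)), fld φ⟫ := by
        rw [e1, inner_add_left]; ring
      rw [e2]
      refine (abs_add_le _ _).trans_lt ?_
      linarith

/-- Elements of `V'`. -/
theorem dual_r (hΩ : IsOpen Ω) (hb : Bornology.IsBounded Ω) {η : ℝ} (hη : 0 < η) {Gd : ℝ → Set (V Ω)}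
    (hGd : KickClosed Ω η Gd) (hS : SoftClosed Ω Gd) (hM : MultiClosed Ω η Gd)
    (hT : ∀ ε, 0 < ε → ∀ x ∈ Gd ε, InTest x)
    {v₀ : V Ω} (hv0 : ∀ ε, 0 < ε → v₀ ∈ Gd ε) (l : V Ω →L[ℝ] ℝ)
    {U : Set E} {g : E → E} {Γ : E → G} {p : ℝ} (hpre : PreQ Ω U g Γ p) {K : Set (V Ω)} (hK : IsCompact K)
    {ψ : ENNReal → ENNReal} (hψ : IsGau ψ) {ε : ℝ} (hε : 0 < ε) :
    ∃ x ∈ Gd ε, ∃ y : V Ω, (∀ φ : V Ω, |⟪fld y, fld φ⟫ - l φ| ≤ ε * ‖φ‖) ∧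
      (∀ φ ∈ K, |⟪fld x, fld φ⟫ - l φ| < ε) ∧ gau (x - y) ψ ≤ ENNReal.ofReal ε ∧
      Ex x U g ≤ ENNReal.ofReal ε ∧ Dv x g p ≤ ENNReal.ofReal ε ∧ DgQ x U Γ p ≤ ENNReal.ofReal ε := by
  obtain ⟨R, hR0, hR⟩ : ∃ R : ℝ, 0 < R ∧ ∀ φ ∈ K, ‖φ‖ ≤ R := by
    obtain ⟨R, hR⟩ := hK.isBounded.exists_norm_le
    exact ⟨max R 1, lt_max_of_lt_right one_pos, fun φ hφ => (hR φ hφ).trans (le_max_left _ _)⟩
  obtain ⟨δ₀, hδ₀, hgau⟩ := gau_le (Ω := Ω) hb hψ hε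
  set κ : ℝ := min 1 δ₀ with hκ
  have hκ0 : 0 < κ := lt_min one_pos hδ₀
  have hκ1 : κ ≤ 1 := min_le_left _ _
  have hκδ : κ ≤ δ₀ := min_le_right _ _
  set δ₃ : ℝ := ε / (8 * (R + 1)) with hδ₃
  have hδ₃0 : 0 < δ₃ := by positivity
  have hδ₃b : δ₃ * (R + 1) = ε / 8 := by
    rw [hδ₃]; field_simp
  set δ : ℝ := min (κ / 128) (ε / (16 * (R + 1))) with hδ
  have hδ0 : 0 < δ := lt_min (by positivity) (by positivity)
  have hδa : δ ≤ κ / 128 := min_le_left _ _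
  have hδb : δ * (R + 1) ≤ ε / 16 := by
    have h1 : δ ≤ ε / (16 * (R + 1)) := min_le_right _ _
    have h2 : δ * (R + 1) ≤ ε / (16 * (R + 1)) * (R + 1) := by gcongr
    have h3 : ε / (16 * (R + 1)) * (R + 1) = ε / 16 := by field_simp
    linarith
  have hδ7 : 7 * δ ≤ ε := by nlinarith [mul_pos hδ0 hR0]
  obtain ⟨n, Gk, pk, hG, hp, hl⟩ := kDense_all Ω hΩ hb η hη (l - (innerSL ℝ (fld v₀)).comp (fldLM Ω)) δ₃ hδ₃0
  obtain ⟨Q, hQ, hlac⟩ := lac_g (weak_proof pairXi_proof) hΩ hb hGd hv0 hG hp hK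
  obtain ⟨D, hD, hgauD⟩ := hgau Q hQ
  obtain ⟨x, hx, h2, h3⟩ := hlac D (ε / 4) (ε / 8) hD (by positivity) (by positivity)
  obtain ⟨x', hx'mem, ⟨B, hxB, hBP, hBd⟩, h4, h5, h6⟩ := finish_r hΩ hb hη hS hM hT hpre hε hδ0 hδ7 hx
  set y : V Ω := v₀ + ∑ i, pk i with hy
  have hyl : ∀ φ : V Ω, |⟪fld y, fld φ⟫ - l φ| ≤ δ₃ * ‖φ‖ := by
    intro φ
    have h1 := hl φ
    have e1 : fld y = fld v₀ + ∑ i, fld (pk i) := by
      rw [hy, fld_add']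
      congr 1
      exact map_sum (fldLM Ω) pk Finset.univ
    have e2 : (l - (innerSL ℝ (fld v₀)).comp (fldLM Ω)) φ = l φ - ⟪fld v₀, fld φ⟫ := rfl
    rw [e2] at h1
    rw [e1, inner_add_left, sum_inner]
    have e3 : ⟪fld v₀, fld φ⟫ + ∑ i, ⟪fld (pk i), fld φ⟫ - l φ
        = ∑ i, ⟪fld (pk i), fld φ⟫ - (l φ - ⟪fld v₀, fld φ⟫) := by ring
    rw [e3]
    exact h1
  have hδ₃ε : δ₃ ≤ ε := by nlinarith [mul_pos hδ₃0 hR0]
  refine ⟨x', hx'mem, y, fun φ => (hyl φ).trans ?_, fun φ hφ => ?_, ?_, h4, h5, h6⟩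
  · exact mul_le_mul_of_nonneg_right hδ₃ε (norm_nonneg _)
  · have a1 := h2 φ hφ
    have a2 := hBd φ
    have a3 : ((6 : ℕ) : ℝ) * δ * ‖φ‖ ≤ 6 * δ * R := by
      have e3 : ((6 : ℕ) : ℝ) = 6 := by norm_num
      rw [e3]
      exact mul_le_mul_of_nonneg_left (hR φ hφ) (by positivity)
    have a5 : |⟪fld y, fld φ⟫ - l φ| ≤ δ₃ * R := (hyl φ).trans (mul_le_mul_of_nonneg_left (hR φ hφ) hδ₃0.le)
    have a4 : ⟪fld x', fld φ⟫ - l φ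
        = ⟪fld B, fld φ⟫ + ((⟪fld x, fld φ⟫ - ⟪fld y, fld φ⟫) + (⟪fld y, fld φ⟫ - l φ)) := by
      rw [hxB, fld_add', inner_add_left]
      ring
    rw [a4]
    refine (abs_add_le _ _).trans_lt ?_
    have a6 := abs_add_le (⟪fld x, fld φ⟫ - ⟪fld y, fld φ⟫) (⟪fld y, fld φ⟫ - l φ)
    nlinarith [mul_pos hδ0 hR0]
  · have e1 : x' - y = (x - y) + B := by rw [hxB]; abel
    rw [e1]
    refine hgauD _ _ h3 (hBP.mono ?_ ?_)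
    · push_cast
      linarith
    · have hd2 : δ ^ 2 ≤ (κ / 128) ^ 2 := pow_le_pow_left₀ hδ0.le hδa 2
      have hκ2 : κ ^ 2 ≤ κ := by nlinarith
      nlinarith

end Pool.Agent.NSL
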