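import Pool.Agent.NSL.State

/-!
# MP_fd8964_an, soft waves: the iteration
-/

open MeasureTheory Set Filter Topology
open scoped RealInnerProductSpace ContDiff

noncomputable section

namespace Pool.Agent.NSL

open Pool.Agent.NSD Pool.Agent.NSK Pool.Agent.NSK.Layer66 Pool.Agent.NSN Pool.Agent.NSN.Lacun

section
variable {X : Type*} [NormedAddCommGroup X] [NormedSpace ℝ X]

/-- Additive functionals `Obs` of test fields. -/
structure IsObs (Ω : Set E) (Obs : (E → E) → E → X) : Prop where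
  add : ∀ F G, IsTest Ω F → IsTest Ω G → ∀ x, Obs (F + G) x = Obs F x + Obs G x
  cont : ∀ F, IsTest Ω F → Continuous (Obs F)

/-- The soft waves are seen by `Obs` as `cos (N k·x + φ) c(x) T`. -/
def Sees (Ω : Set E) (Obs : (E → E) → E → X) (r : ℕ) (φ : ℝ) (k ξ : E) (T : X) : Prop :=
  ∀ c : E → ℝ, IsBump Ω c → ∃ C : ℝ, 0 ≤ C ∧ ∀ N : ℝ, 1 ≤ N → ∀ x,
    ‖Obs (softW r N k ξ c) x - (Real.cos (N * ⟪k, x⟫ + φ) * c x) • T‖ ≤ C / N

theorem bump_mul_cos {Ω : Set E} {R : E → ℝ} (hR : IsBump Ω R) (N : ℝ) (k : E) (φ : ℝ) :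
    IsBump Ω (fun x => R x * (1 + Real.cos (N * ⟪k, x⟫ + φ))) := by
  have h1 : ContDiff ℝ ∞ fun x : E => 1 + Real.cos (N * ⟪k, x⟫ + φ) := by
    have h2 : ContDiff ℝ ∞ fun y : E => N * ⟪k, y⟫ + φ :=
      (contDiff_const.mul (contDiff_const.inner ℝ contDiff_id)).add contDiff_const
    exact contDiff_const.add h2.cos
  refine ⟨hR.1.mul h1, hR.2.1.mul_right, ?_⟩
  exact (tsupport_mul_subset_left (f := R) (g := fun x : E => 1 + Real.cos (N * ⟪k, x⟫ + φ))).trans hR.2.2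

theorem bump_neg {Ω : Set E} {R : E → ℝ} (hR : IsBump Ω R) : IsBump Ω (fun x => - R x) := by
  have h := hR
  refine ⟨hR.1.neg, hR.2.1.neg, ?_⟩
  have : tsupport (fun x => - R x) = tsupport R := by
    unfold tsupport
    congr 1
    ext x; simp
  rw [this]; exact hR.2.2

theorem iter {Ω : Set E} (hΩ : IsOpen Ω) (hb : Bornology.IsBounded Ω) {Gd : ℝ → Set (V Ω)}
    (hS : SoftClosed Ω Gd) {Obs : (E → E) → E → X} (hO : IsObs Ω Obs) {r : ℕ} {φ : ℝ} {k ξ : E} {T : X}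
    (hk : ‖k‖ = 1) (hξ : ‖ξ‖ = 1) (hkξ : ⟪k, ξ⟫ = 0) (hT : Sees Ω Obs r φ k ξ T)
    {p : ℝ} (hp0 : 0 < p) (hp1 : p < 1) {b : E → ℝ} (hbb : IsBump Ω b)
    {ε : ℝ} {x : V Ω} {D : ℝ} (hD : 0 < D) {m : ℕ} {W : V Ω} {F : E → E} (h : St Gd ε x D m W F) :
    ∀ (n : ℕ) (κ : ℝ), 0 < κ → ∃ (W' : V Ω) (F' : E → E) (R : E → ℝ), St Gd ε x D (m + n) W' F' ∧ IsBump Ω R ∧
      ∫ y, |R y| ^ p ≤ (1 - p * (1 - p) / 16) ^ n * (∫ y, |b y| ^ p) + κ ∧
      ∀ y, ‖Obs F' y - Obs F y - (b y - R y) • T‖ ≤ κ := by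
  have hθ0 : 0 ≤ 1 - p * (1 - p) / 16 := by nlinarith
  have hθ1 : 1 - p * (1 - p) / 16 ≤ 1 := by nlinarith
  have hk0 : k ≠ 0 := by
    intro h0; rw [h0, norm_zero] at hk; exact zero_ne_one hk
  intro n
  induction n with
  | zero =>
    intro κ hκ
    refine ⟨W, F, b, h, hbb, ?_, fun y => ?_⟩
    · simp only [pow_zero, one_mul]; linarith
    · simp only [sub_self, zero_smul, norm_zero]; exact hκ.le
  | succ n ih =>
    intro κ hκ
    obtain ⟨W₁, F₁, R, h₁, hR, hRi, hRy⟩ := ih (κ / 2) (by positivity)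
    obtain ⟨N₁, hN₁, hst⟩ := h₁.step hΩ hb hS hD r hk hξ hkξ (bump_neg hR)
    obtain ⟨C, hC, hw⟩ := hT _ (bump_neg hR)
    obtain ⟨N₂, hN₂⟩ := contr hp0 hp1 hR.1.continuous hR.2.1 hk0 φ (half_pos hκ)
    set N : ℝ := max N₁ (max N₂ (2 * C / κ)) with hN
    have e1 : N₁ ≤ N := le_max_left _ _
    have e2 : N₂ ≤ N := (le_max_left _ _).trans (le_max_right _ _)
    have e3 : 2 * C / κ ≤ N := (le_max_right _ _).trans (le_max_right _ _)
    have h1N : 1 ≤ N := hN₁.trans e1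
    have hN0 : 0 < N := by linarith
    obtain ⟨W', hW'⟩ := hst N e1
    have htest := isTest_softW (k := k) (ξ := ξ) r N (bump_neg hR)
    refine ⟨W', _, _, hW', bump_mul_cos hR N k φ, ?_, fun y => ?_⟩
    · refine (hN₂ N e2).trans ?_
      have h2 : (1 - p * (1 - p) / 16) * (∫ y, |R y| ^ p)
          ≤ (1 - p * (1 - p) / 16) * ((1 - p * (1 - p) / 16) ^ n * (∫ y, |b y| ^ p) + κ / 2) :=
        mul_le_mul_of_nonneg_left hRi hθ0
      have h3 : (1 - p * (1 - p) / 16) * (κ / 2) ≤ κ / 2 := by nlinarith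
      rw [pow_succ]
      nlinarith
    · rw [hO.add _ _ h₁.test htest]
      have h2 := hRy y
      have h3 := hw N h1N y
      have h4 : C / N ≤ κ / 2 := by
        rw [div_le_iff₀ hκ] at e3
        rw [div_le_iff₀ hN0]
        linarith
      have h5 : Obs F₁ y + Obs (softW r N k ξ fun x => -R x) y - Obs F y
          - (b y - R y * (1 + Real.cos (N * ⟪k, y⟫ + φ))) • T
          = (Obs F₁ y - Obs F y - (b y - R y) • T)
            + (Obs (softW r N k ξ fun x => -R x) y - (Real.cos (N * ⟪k, y⟫ + φ) * -R y) • T) := by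
        module
      rw [h5]
      refine (norm_add_le _ _).trans ?_
      linarith

/-- `∫_Ω ‖f‖^p`. -/
def Ip (Ω : Set E) (p : ℝ) (f : E → X) : ENNReal := ∫⁻ x in Ω, ‖f x‖ₑ ^ p

omit [NormedSpace ℝ X] in
theorem Ip_add {Ω : Set E} {p : ℝ} (hp0 : 0 ≤ p) (hp1 : p ≤ 1) {f g : E → X}
    (hf : AEStronglyMeasurable f (volume.restrict Ω)) :
    Ip Ω p (fun x => f x + g x) ≤ Ip Ω p f + Ip Ω p g := by
  unfold Ip
  rw [← lintegral_add_left' (hf.enorm.pow_const p)]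
  refine lintegral_mono fun x => ?_
  exact (ENNReal.rpow_le_rpow (enorm_add_le _ _) hp0).trans (ENNReal.rpow_add_le_add_rpow _ _ hp0 hp1)

omit [NormedSpace ℝ X] in
theorem Ip_mono {Y : Type*} [NormedAddCommGroup Y] {Ω : Set E} {p : ℝ} (hp0 : 0 ≤ p) {f : E → X} {g : E → Y}
    (h : ∀ x, ‖f x‖ ≤ ‖g x‖) : Ip Ω p f ≤ Ip Ω p g :=
  lintegral_mono fun x => ENNReal.rpow_le_rpow (enorm_le_iff_norm_le.2 (h x)) hp0

omit [NormedSpace ℝ X] in
theorem Ip_const {Ω : Set E} (p : ℝ) (c : X) : Ip Ω p (fun _ => c) = ‖c‖ₑ ^ p * volume Ω := by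
  unfold Ip
  rw [lintegral_const, Measure.restrict_apply_univ]

theorem Ip_bump {Ω : Set E} {p : ℝ} (hp0 : 0 < p) {R : E → ℝ} (hR : IsBump Ω R) :
    Ip Ω p R ≤ ENNReal.ofReal (∫ y, |R y| ^ p) := by
  have hfc : Continuous fun y => |R y| ^ p := hR.1.continuous.abs.rpow_const fun _ => Or.inr hp0.le
  have hfs : HasCompactSupport fun y => |R y| ^ p := by
    refine HasCompactSupport.intro hR.2.1 fun x hx => ?_
    have : R x = 0 := image_eq_zero_of_notMem_tsupport hx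
    simp only [this, abs_zero, Real.zero_rpow hp0.ne']
  have hfi : Integrable fun y => |R y| ^ p := hfc.integrable_of_hasCompactSupport hfs
  rw [ofReal_integral_eq_lintegral_ofReal hfi (Eventually.of_forall fun x => Real.rpow_nonneg (abs_nonneg _) _)]
  unfold Ip
  refine (lintegral_mono fun x => ?_).trans (setLIntegral_le_lintegral Ω _)
  rw [← Real.enorm_abs, Real.enorm_of_nonneg (abs_nonneg _), ENNReal.ofReal_rpow_of_nonneg (abs_nonneg _) hp0.le]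

/-- One direction. -/
theorem dirStep {Ω : Set E} (hΩ : IsOpen Ω) (hb : Bornology.IsBounded Ω) {Gd : ℝ → Set (V Ω)}
    (hS : SoftClosed Ω Gd) {Obs : (E → E) → E → X} (hO : IsObs Ω Obs) {r : ℕ} {φ : ℝ} {k ξ : E} {T : X}
    (hk : ‖k‖ = 1) (hξ : ‖ξ‖ = 1) (hkξ : ⟪k, ξ⟫ = 0) (hT : Sees Ω Obs r φ k ξ T)
    {p : ℝ} (hp0 : 0 < p) (hp1 : p < 1) {b : E → ℝ} (hbb : IsBump Ω b) {δ : ℝ} (hδ : 0 < δ) :
    ∃ n : ℕ, ∀ (ε : ℝ) (x : V Ω) (D : ℝ), 0 < D → ∀ (m : ℕ) (W : V Ω) (F : E → E), St Gd ε x D m W F →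
      ∃ (W' : V Ω) (F' : E → E), St Gd ε x D (m + n) W' F' ∧
        Ip Ω p (fun y => Obs F' y - Obs F y - b y • T) ≤ ENNReal.ofReal δ := by
  have hθ0 : 0 ≤ 1 - p * (1 - p) / 16 := by nlinarith
  have hθ1 : 1 - p * (1 - p) / 16 < 1 := by nlinarith
  set I : ℝ := ∫ y, |b y| ^ p with hI
  have hI0 : 0 ≤ I := integral_nonneg fun y => Real.rpow_nonneg (abs_nonneg _) _
  set t : ℝ := ‖T‖ ^ p with ht
  have ht0 : 0 ≤ t := Real.rpow_nonneg (norm_nonneg _) _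
  -- choose `n`
  have hlim : Tendsto (fun n : ℕ => (1 - p * (1 - p) / 16) ^ n * I * t) atTop (𝓝 (0 * I * t)) :=
    ((tendsto_pow_atTop_nhds_zero_of_lt_one hθ0 hθ1).mul_const I).mul_const t
  rw [zero_mul, zero_mul] at hlim
  obtain ⟨n, hn⟩ := (hlim.eventually_lt_const (show (0 : ℝ) < δ / 3 by positivity)).exists
  -- choose `κ`
  have hv : volume Ω ≠ ⊤ := hb.measure_lt_top.ne
  set v : ℝ := (volume Ω).toReal with hvdef
  have hv0 : 0 ≤ v := ENNReal.toReal_nonneg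
  have hlim2 : Tendsto (fun κ : ℝ => κ * t + κ ^ p * v) (𝓝[>] 0) (𝓝 (0 * t + 0 ^ p * v)) := by
    have h1 : Tendsto (fun κ : ℝ => κ) (𝓝[>] 0) (𝓝 0) := tendsto_id.mono_left nhdsWithin_le_nhds
    have h2 : Tendsto (fun κ : ℝ => κ ^ p) (𝓝[>] 0) (𝓝 (0 ^ p)) :=
      ((Real.continuous_rpow_const hp0.le).tendsto 0).mono_left nhdsWithin_le_nhds
    exact (h1.mul_const t).add (h2.mul_const v)
  rw [Real.zero_rpow hp0.ne', zero_mul, zero_mul, add_zero] at hlim2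
  obtain ⟨κ, hκ1, hκ0⟩ := ((hlim2.eventually_lt_const (show (0 : ℝ) < δ / 3 by positivity)).and
    self_mem_nhdsWithin).exists
  have hκ0 : 0 < κ := hκ0
  refine ⟨n, fun ε x D hD m W F h => ?_⟩
  obtain ⟨W', F', R, h1, hR, h2, h3⟩ := iter hΩ hb hS hO hk hξ hkξ hT hp0 hp1 hbb hD h n κ hκ0
  refine ⟨W', F', h1, ?_⟩
  -- the bound
  have e1 : ∀ y, ‖Obs F' y - Obs F y - b y • T‖ ≤ |R y| * ‖T‖ + κ := by
    intro y
    have e2 : Obs F' y - Obs F y - b y • T = (Obs F' y - Obs F y - (b y - R y) • T) + (-R y) • T := by module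
    rw [e2]
    refine (norm_add_le _ _).trans ?_
    rw [norm_smul, norm_neg, Real.norm_eq_abs]
    have := h3 y
    linarith
  have e3 : Ip Ω p (fun y => Obs F' y - Obs F y - b y • T)
      ≤ Ip Ω p (fun y => |R y| * ‖T‖ + κ) := by
    refine Ip_mono hp0.le fun y => ?_
    rw [Real.norm_of_nonneg (by positivity)]
    exact e1 y
  have e4 : Ip Ω p (fun y => |R y| * ‖T‖ + κ) ≤ Ip Ω p (fun y => |R y| * ‖T‖) + Ip Ω p (fun _ : E => κ) := by
    refine Ip_add hp0.le hp1.le ?_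
    exact (hR.1.continuous.abs.mul continuous_const).aestronglyMeasurable
  have e5 : Ip Ω p (fun y => |R y| * ‖T‖) ≤ ENNReal.ofReal ((∫ y, |R y| ^ p) * t) := by
    have e6 : Ip Ω p (fun y => |R y| * ‖T‖) = Ip Ω p R * ENNReal.ofReal t := by
      unfold Ip
      rw [← lintegral_mul_const' _ _ ENNReal.ofReal_ne_top]
      refine lintegral_congr fun y => ?_
      have e7 : ‖|R y| * ‖T‖‖ₑ = ‖R y‖ₑ * ENNReal.ofReal ‖T‖ := by
        rw [enorm_mul, Real.enorm_abs, Real.enorm_of_nonneg (norm_nonneg _)]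
      rw [e7, ENNReal.mul_rpow_of_nonneg _ _ hp0.le, ENNReal.ofReal_rpow_of_nonneg (norm_nonneg _) hp0.le]
    rw [e6, ENNReal.ofReal_mul (integral_nonneg fun y => Real.rpow_nonneg (abs_nonneg _) _)]
    gcongr
    exact Ip_bump hp0 hR
  have e6 : Ip Ω p (fun _ : E => κ) = ENNReal.ofReal (κ ^ p * v) := by
    rw [Ip_const, Real.enorm_of_nonneg hκ0.le, ENNReal.ofReal_rpow_of_nonneg hκ0.le hp0.le,
      ENNReal.ofReal_mul (by positivity), hvdef, ENNReal.ofReal_toReal hv]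
  refine e3.trans (e4.trans ((add_le_add e5 e6.le).trans ?_))
  have hRi0 : 0 ≤ ∫ y, |R y| ^ p := integral_nonneg fun y => Real.rpow_nonneg (abs_nonneg _) _
  rw [← ENNReal.ofReal_add (by positivity) (by positivity)]
  refine ENNReal.ofReal_le_ofReal ?_
  have h4 : (∫ y, |R y| ^ p) * t ≤ ((1 - p * (1 - p) / 16) ^ n * I + κ) * t :=
    mul_le_mul_of_nonneg_right h2 ht0
  have h5 : 0 ≤ κ ^ p * v := by positivity
  nlinarith

/-- Several directions. -/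
theorem dirs {Ω : Set E} (hΩ : IsOpen Ω) (hb : Bornology.IsBounded Ω) {Gd : ℝ → Set (V Ω)}
    (hS : SoftClosed Ω Gd) {Obs : (E → E) → E → X} (hO : IsObs Ω Obs) {r : ℕ} {φ : ℝ}
    {p : ℝ} (hp0 : 0 < p) (hp1 : p < 1) {ι : Type*} (s : Finset ι) {k ξ : ι → E} {T : ι → X}
    (hk : ∀ j, ‖k j‖ = 1) (hξ : ∀ j, ‖ξ j‖ = 1) (hkξ : ∀ j, ⟪k j, ξ j⟫ = 0)
    (hT : ∀ j, Sees Ω Obs r φ (k j) (ξ j) (T j)) {b : ι → E → ℝ} (hbb : ∀ j, IsBump Ω (b j)) :
    ∀ δ : ℝ, 0 < δ →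
    ∃ n : ℕ, ∀ (ε : ℝ) (x : V Ω) (D : ℝ), 0 < D → ∀ (m : ℕ) (W : V Ω) (F : E → E), St Gd ε x D m W F →
      ∃ (W' : V Ω) (F' : E → E), St Gd ε x D (m + n) W' F' ∧
        Ip Ω p (fun y => Obs F' y - Obs F y - ∑ j ∈ s, b j y • T j) ≤ ENNReal.ofReal δ := by
  classical
  induction s using Finset.induction_on with
  | empty =>
    intro δ hδ
    refine ⟨0, fun ε x D hD m W F h => ⟨W, F, h, ?_⟩⟩
    have : Ip Ω p (fun y => Obs F y - Obs F y - ∑ j ∈ (∅ : Finset ι), b j y • T j) = 0 := by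
      unfold Ip
      simp [hp0]
    rw [this]; exact zero_le
  | insert j s hj ih =>
    intro δ hδ
    obtain ⟨n₁, h₁⟩ := ih (δ / 2) (by positivity)
    obtain ⟨n₂, h₂⟩ := dirStep hΩ hb hS hO (hk j) (hξ j) (hkξ j) (hT j) hp0 hp1 (hbb j) (half_pos hδ)
    refine ⟨n₁ + n₂, fun ε x D hD m W F h => ?_⟩
    obtain ⟨W₁, F₁, a1, a2⟩ := h₁ ε x D hD m W F h
    obtain ⟨W₂, F₂, b1, b2⟩ := h₂ ε x D hD _ W₁ F₁ a1
    refine ⟨W₂, F₂, by rwa [← add_assoc], ?_⟩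
    have e1 : (fun y => Obs F₂ y - Obs F y - ∑ i ∈ insert j s, b i y • T i)
        = fun y => (Obs F₂ y - Obs F₁ y - b j y • T j) + (Obs F₁ y - Obs F y - ∑ i ∈ s, b i y • T i) := by
      funext y
      rw [Finset.sum_insert hj]
      abel
    rw [e1]
    refine (Ip_add hp0.le hp1.le ?_).trans ?_
    · refine Continuous.aestronglyMeasurable ?_
      exact ((hO.cont _ b1.test).sub (hO.cont _ a1.test)).sub ((hbb j).1.continuous.smul continuous_const)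
    · refine (add_le_add b2 a2).trans ?_
      rw [← ENNReal.ofReal_add (by positivity) (by positivity), add_halves]

end

end Pool.Agent.NSL
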