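import Pool.Agent.NSL.Obs
import Pool.Agent.NSL.Approx

/-!
# MP_fd8964_an, soft waves: one phase of the construction
-/

open MeasureTheory Set Filter Topology
open scoped RealInnerProductSpace ContDiff

noncomputable section

namespace Pool.Agent.NSL

open Pool.Agent.NSD Pool.Agent.NSK Pool.Agent.NSK.Layer66 Pool.Agent.NSN Pool.Agent.NSN.Lacun

variable {Ω : Set E}

theorem soft_mono {Gd : ℝ → Set (V Ω)} (hS : SoftClosed Ω Gd) {ε ε' : ℝ} (hε : 0 < ε) (h : ε < ε') {x : V Ω}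
    (hx : x ∈ Gd ε) : x ∈ Gd ε' := by
  have hort : ⟪e 0, e 1⟫ = 0 := by rw [e_inner]; simp [e]
  obtain ⟨N₀, _, hN⟩ := hS ε ε' hε h x hx 0 (e 0) (e 1) (fun _ => 0) (norm_e 0) (norm_e 1) hort isBump_zero
  have h0 : softW 0 N₀ (e 0) (e 1) (fun _ => 0) = fun _ => (0 : E) := by
    funext y
    unfold softW
    have h1 : gS N₀ (e 0) (fun _ => (0 : ℝ)) = fun _ => (0 : ℝ) := by funext z; simp [gS]
    rw [h1]
    have h2 : ∀ v : E, dd v (fun _ : E => (0 : ℝ)) y = 0 := fun v => by simp [dd]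
    simp [stream, h2]
  have := hN N₀ le_rfl 0 (by rw [h0]; exact rep_zero' Ω)
  simpa using this

/-- A heat profile which is small in `B^{-1}_{∞,q}`. -/
def SmallHeat (q δ : ℝ) (W : V Ω) : Prop :=
  ∃ (D : ℝ) (l : List ℝ), 0 ≤ D ∧ Lac l ∧ (2 * D) ^ (q - 1) * (D * (2 * l.length)) ≤ δ ∧
    ∀ t y, 0 < t → √t * ‖heatExt W t y‖ ≤ D * lacF l √t

theorem besov_add_small (hb : Bornology.IsBounded Ω) {a W : V Ω} {q δ : ℝ} (hq : 1 ≤ q) (hW : SmallHeat q δ W) :
    besov (a + W) q ≤ 2 ^ (q - 1) * (besov a q + ENNReal.ofReal δ) := by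
  obtain ⟨D, l, hD, hl, hδ, hh⟩ := hW
  have hq0 : 0 ≤ q := by linarith
  set g : ℝ → ENNReal := fun t => ENNReal.ofReal ((2 * D) ^ (q - 1) * D) * ENNReal.ofReal (lacF l √t / t) with hg
  have hlm : Measurable fun t : ℝ => lacF l √t := by
    clear hl hδ hh hg g
    induction l with
    | nil => simp only [lacF, List.map_nil, List.sum_nil]; exact measurable_const
    | cons N l ih =>
      have e : (fun t : ℝ => lacF (N :: l) √t) = fun t => kap (N * √t) + lacF l √t := by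
        funext t; simp [lacF]
      rw [e]
      refine Measurable.add ?_ ih
      unfold kap
      fun_prop
  have hgm : Measurable g := by
    rw [hg]
    fun_prop
  have h1 : ∀ t ∈ Ioi (0 : ℝ),
      (⨆ x : E, ENNReal.ofReal (√t * ‖heatExt (a + W) t x‖)) ^ q * ENNReal.ofReal (1 / t)
      ≤ 2 ^ (q - 1) * ((⨆ x : E, ENNReal.ofReal (√t * ‖heatExt a t x‖)) ^ q * ENNReal.ofReal (1 / t) + g t) := by
    intro t ht
    have ht' : 0 < t := ht
    have hs : 0 < √t := Real.sqrt_pos.2 ht'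
    have hF := lacF_le hl hs
    have hF0 := lacF_nonneg hl hs.le
    set A := ⨆ x : E, ENNReal.ofReal (√t * ‖heatExt a t x‖) with hA
    set B := ENNReal.ofReal (D * lacF l √t) with hB
    have h2 : (⨆ x : E, ENNReal.ofReal (√t * ‖heatExt (a + W) t x‖)) ≤ A + B := by
      refine iSup_le fun x => ?_
      rw [heatExt_add hb]
      calc ENNReal.ofReal (√t * ‖heatExt a t x + heatExt W t x‖)
          ≤ ENNReal.ofReal (√t * ‖heatExt a t x‖ + √t * ‖heatExt W t x‖) := by
            refine ENNReal.ofReal_le_ofReal ?_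
            rw [← mul_add]
            gcongr
            exact norm_add_le _ _
        _ = ENNReal.ofReal (√t * ‖heatExt a t x‖) + ENNReal.ofReal (√t * ‖heatExt W t x‖) :=
            ENNReal.ofReal_add (by positivity) (by positivity)
        _ ≤ A + B := by
            refine add_le_add (le_iSup (fun x => ENNReal.ofReal (√t * ‖heatExt a t x‖)) x) ?_
            exact ENNReal.ofReal_le_ofReal (hh t x ht')
    have h3 : B ^ q * ENNReal.ofReal (1 / t) ≤ g t := by
      rw [hB, ENNReal.ofReal_rpow_of_nonneg (by positivity) hq0, hg]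
      simp only
      rw [← ENNReal.ofReal_mul (by positivity), ← ENNReal.ofReal_mul (by positivity)]
      refine ENNReal.ofReal_le_ofReal ?_
      have e1 : (D * lacF l √t) ^ q ≤ (2 * D) ^ (q - 1) * (D * lacF l √t) := by
        by_cases h0 : D * lacF l √t = 0
        · rw [h0, Real.zero_rpow (by linarith), mul_zero]
        · have hpos : 0 < D * lacF l √t := lt_of_le_of_ne (by positivity) (Ne.symm h0)
          have e2 : (D * lacF l √t) ^ q = (D * lacF l √t) ^ (q - 1) * (D * lacF l √t) := by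
            rw [← Real.rpow_add_one h0]
            congr 1; ring
          rw [e2]
          have e3 : (D * lacF l √t) ^ (q - 1) ≤ (2 * D) ^ (q - 1) :=
            Real.rpow_le_rpow hpos.le (by nlinarith) (by linarith)
          gcongr
      calc (D * lacF l √t) ^ q * (1 / t) ≤ ((2 * D) ^ (q - 1) * (D * lacF l √t)) * (1 / t) := by gcongr
        _ = _ := by ring
    calc (⨆ x : E, ENNReal.ofReal (√t * ‖heatExt (a + W) t x‖)) ^ q * ENNReal.ofReal (1 / t)
        ≤ (A + B) ^ q * ENNReal.ofReal (1 / t) := by gcongr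
      _ ≤ (2 ^ (q - 1) * (A ^ q + B ^ q)) * ENNReal.ofReal (1 / t) := by
          gcongr
          exact ENNReal.rpow_add_le_mul_rpow_add_rpow _ _ hq
      _ = 2 ^ (q - 1) * (A ^ q * ENNReal.ofReal (1 / t) + B ^ q * ENNReal.ofReal (1 / t)) := by ring
      _ ≤ _ := by gcongr
  unfold besov
  calc ∫⁻ t in Ioi (0 : ℝ), (⨆ x : E, ENNReal.ofReal (√t * ‖heatExt (a + W) t x‖)) ^ q * ENNReal.ofReal (1 / t)
      ≤ ∫⁻ t in Ioi (0 : ℝ),
        2 ^ (q - 1) * ((⨆ x : E, ENNReal.ofReal (√t * ‖heatExt a t x‖)) ^ q * ENNReal.ofReal (1 / t) + g t) :=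
        setLIntegral_mono' measurableSet_Ioi h1
    _ = 2 ^ (q - 1) * ∫⁻ t in Ioi (0 : ℝ),
        ((⨆ x : E, ENNReal.ofReal (√t * ‖heatExt a t x‖)) ^ q * ENNReal.ofReal (1 / t) + g t) :=
        lintegral_const_mul' _ _ (ENNReal.rpow_ne_top_of_nonneg (by linarith) (by norm_num))
    _ = 2 ^ (q - 1) * ((∫⁻ t in Ioi (0 : ℝ),
        (⨆ x : E, ENNReal.ofReal (√t * ‖heatExt a t x‖)) ^ q * ENNReal.ofReal (1 / t)) + ∫⁻ t in Ioi (0 : ℝ), g t) := by
        rw [lintegral_add_right _ hgm]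
    _ ≤ _ := by
        gcongr
        calc ∫⁻ t in Ioi (0 : ℝ), g t
            = ENNReal.ofReal ((2 * D) ^ (q - 1) * D) * ∫⁻ t in Ioi (0 : ℝ), ENNReal.ofReal (lacF l √t / t) :=
              lintegral_const_mul' _ _ ENNReal.ofReal_ne_top
          _ ≤ ENNReal.ofReal ((2 * D) ^ (q - 1) * D) * ENNReal.ofReal (2 * l.length) := by
              gcongr
              exact int_lacF hl
          _ = ENNReal.ofReal ((2 * D) ^ (q - 1) * (D * (2 * l.length))) := by
              rw [← ENNReal.ofReal_mul (by positivity)]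
              congr 1; ring
          _ ≤ _ := ENNReal.ofReal_le_ofReal hδ

/-- One phase. -/
theorem phase {X : Type*} [NormedAddCommGroup X] [NormedSpace ℝ X]
    (hΩ : IsOpen Ω) (hb : Bornology.IsBounded Ω) {Gd : ℝ → Set (V Ω)}
    (hS : SoftClosed Ω Gd) {Obs : (E → E) → E → X} (hO : IsObs Ω Obs) {r : ℕ} {φ : ℝ}
    {p : ℝ} (hp0 : 0 < p) (hp1 : p < 1) {ι : Type*} [Fintype ι] {k ξ : ι → E} {T : ι → X}
    (hk : ∀ j, ‖k j‖ = 1) (hξ : ∀ j, ‖ξ j‖ = 1) (hkξ : ∀ j, ⟪k j, ξ j⟫ = 0)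
    (hT : ∀ j, Sees Ω Obs r φ (k j) (ξ j) (T j)) {c : ι → E → ℝ}
    (hc : ∀ j, AEStronglyMeasurable (c j) (volume.restrict Ω)) (hci : ∀ j, Ip Ω p (c j) < ⊤)
    {ε ε' : ℝ} (hε : 0 < ε) (hεε' : ε < ε') {x : V Ω} (hx : x ∈ Gd ε) {q δ : ℝ} (hq : 1 ≤ q) (hδ : 0 < δ) :
    ∃ (W : V Ω) (F : E → E), IsTest Ω F ∧ Represents Ω F W ∧ x + W ∈ Gd ε' ∧ SmallHeat q δ W ∧
      (∀ φ : V Ω, |⟪fld W, fld φ⟫| ≤ δ * ‖φ‖) ∧
      Ip Ω p (fun y => Obs F y - ∑ j, c j y • T j) ≤ ENNReal.ofReal δ := by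
  obtain ⟨b, hbb, hbc⟩ := approx_target hΩ hb hp0 hp1 hc hci T (half_pos hδ)
  obtain ⟨n, hn⟩ := dirs hΩ hb hS hO hp0 hp1 Finset.univ hk hξ hkξ hT hbb (δ / 2) (half_pos hδ)
  -- the constant `D`
  set A : ℝ := 2 ^ (q - 1) * (2 * (n + 1)) with hA
  have h2q : (1 : ℝ) ≤ 2 ^ (q - 1) := Real.one_le_rpow (by norm_num) (by linarith)
  have hA0 : 0 < A := by positivity
  set D : ℝ := min 1 (δ / A) with hDdef
  have hD : 0 < D := lt_min one_pos (by positivity)
  have hD1 : D ≤ 1 := min_le_left _ _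
  have hDA : A * D ≤ δ := by
    have : D ≤ δ / A := min_le_right _ _
    rw [le_div_iff₀ hA0] at this
    linarith
  obtain ⟨W, F, hst, hI⟩ := hn ε' x D hD 0 0 _ (St.zero hε hεε' hx D)
  obtain ⟨ε₁, h1, h2, h3⟩ := hst.mem
  obtain ⟨l, hl, hlm, hheat⟩ := hst.heat
  refine ⟨W, F, hst.test, hst.rep, soft_mono hS h1 h2 h3, ⟨D, l, hD.le, hl, ?_, hheat⟩, fun φ => ?_, ?_⟩
  · rw [hlm, zero_add]
    have e1 : (2 * D) ^ (q - 1) ≤ 2 ^ (q - 1) := Real.rpow_le_rpow (by positivity) (by linarith) (by linarith)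
    calc (2 * D) ^ (q - 1) * (D * (2 * n)) ≤ 2 ^ (q - 1) * (D * (2 * (n + 1))) := by
          gcongr; linarith
      _ = A * D := by rw [hA]; ring
      _ ≤ δ := hDA
  · have e1 := hst.dual φ
    rw [zero_add] at e1
    refine e1.trans (mul_le_mul_of_nonneg_right ?_ (norm_nonneg _))
    refine le_trans ?_ hDA
    refine mul_le_mul_of_nonneg_right ?_ hD.le
    rw [hA]
    have hn0 : (0 : ℝ) ≤ n := Nat.cast_nonneg n
    nlinarith
  · have hzero : ∀ y, Obs (fun _ => 0) y = 0 := by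
      intro y
      have := hO.add (fun _ => 0) (fun _ => 0) (isTest_zero Ω) (isTest_zero Ω) y
      have e : ((fun _ => 0 : E → E) + fun _ => 0) = fun _ => 0 := by funext z; simp
      rw [e] at this
      exact left_eq_add.1 this
    have e1 : (fun y => Obs F y - ∑ j, c j y • T j)
        = fun y => (Obs F y - Obs (fun _ => 0) y - ∑ j, b j y • T j)
          + (-(∑ j, c j y • T j - ∑ j, b j y • T j)) := by
      funext y
      rw [hzero]; abel
    rw [e1]
    refine (Ip_add hp0.le hp1.le ?_).trans ?_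
    · refine Continuous.aestronglyMeasurable ?_
      refine ((hO.cont _ hst.test).sub (hO.cont _ (isTest_zero Ω))).sub ?_
      exact continuous_finsetSum _ fun j _ => (hbb j).1.continuous.smul continuous_const
    · have e2 : Ip Ω p (fun y => -(∑ j, c j y • T j - ∑ j, b j y • T j))
          = Ip Ω p (fun y => ∑ j, c j y • T j - ∑ j, b j y • T j) := by
        unfold Ip
        simp only [enorm_neg]
      rw [e2]
      refine (add_le_add hI hbc).trans ?_
      rw [← ENNReal.ofReal_add (by positivity) (by positivity), add_halves]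

end Pool.Agent.NSL
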