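import Pool.Agent.NSL.PotBall

/-!
# MP_fd8964_an, freezing: potentials with compact support
-/

open MeasureTheory Set Filter Topology
open scoped RealInnerProductSpace ContDiff

noncomputable section

namespace Pool.Agent.NSL

open Pool.Agent.NSD Pool.Agent.NSK

/-- The shell between a closed ball and the slightly smaller open ball is small. -/
theorem shell_small (c : E) (r δ : ℝ) (hr : 0 < r) (hδ : 0 < δ) (hδ' : δ < 1) :
    volume (Metric.closedBall c r \ Metric.ball c ((1 - δ) * r)) ≤
      ENNReal.ofReal (3 * δ) * volume (Metric.closedBall c r) := by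
  have hθ : 0 < 1 - δ := by linarith
  have hsub : Metric.ball c ((1 - δ) * r) ⊆ Metric.closedBall c r := by
    refine Metric.ball_subset_closedBall.trans (Metric.closedBall_subset_closedBall ?_)
    nlinarith
  have hfin : volume (Metric.ball c ((1 - δ) * r)) ≠ ⊤ := measure_ball_lt_top.ne
  rw [measure_sdiff hsub measurableSet_ball.nullMeasurableSet hfin, tsub_le_iff_right]
  have h1 : volume (Metric.ball c ((1 - δ) * r)) =
      ENNReal.ofReal ((1 - δ) ^ 3) * volume (Metric.closedBall c r) := by
    rw [Measure.addHaar_ball_mul_of_pos volume c hθ r, finrank_euclideanSpace_fin,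
      Measure.addHaar_closedBall_eq_addHaar_ball, Measure.addHaar_ball_center volume c r]
  rw [h1, ← add_mul, ← ENNReal.ofReal_add (by positivity) (by positivity)]
  have h2 : (1 : ENNReal) ≤ ENNReal.ofReal (3 * δ + (1 - δ) ^ 3) := by
    rw [ENNReal.one_le_ofReal]
    nlinarith [mul_pos hδ hδ, mul_pos (mul_pos hδ hδ) hθ]
  calc volume (Metric.closedBall c r) = 1 * volume (Metric.closedBall c r) := (one_mul _).symm
    _ ≤ _ := mul_le_mul_left h2 _

/-- A bounded open set is filled by finitely many balls up to a small part. -/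
theorem fin_cover {U : Set E} (hU : IsOpen U) (hfin : volume U ≠ ⊤) (ε : ℝ) (hε : 0 < ε) :
    ∃ (F : Finset E) (r : E → ℝ) (θ : ℝ), 0 < θ ∧ θ < 1 ∧
      (∀ c ∈ F, 0 < r c ∧ Metric.closedBall c (r c) ⊆ U) ∧
      ((F : Set E).PairwiseDisjoint fun c => Metric.closedBall c (r c)) ∧
      volume (U \ ⋃ c ∈ F, Metric.ball c (θ * r c)) ≤ ENNReal.ofReal ε := by
  classical
  have hR0 : ∀ x, ∃ R : ℝ, x ∈ U → 0 < R ∧ Metric.ball x R ⊆ U := by
    intro x
    by_cases hx : x ∈ U
    · obtain ⟨R, hR, hsub⟩ := Metric.isOpen_iff.1 hU x hx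
      exact ⟨R, fun _ => ⟨hR, hsub⟩⟩
    · exact ⟨1, fun h => absurd h hx⟩
  choose R hR using hR0
  obtain ⟨t, r, htc, htU, htr, ht0, htd⟩ := Besicovitch.exists_disjoint_closedBall_covering_ae
    (volume : Measure E) (fun _ => Set.univ) U
    (fun x _ δ hδ => ⟨δ / 2, Set.mem_univ _, by constructor <;> linarith⟩) R (fun x hx => (hR x hx).1)
  have hballU : ∀ x ∈ t, Metric.closedBall x (r x) ⊆ U := by
    intro x hx
    have h1 := (htr x hx).2.2
    exact (Metric.closedBall_subset_ball h1).trans (hR x (htU hx)).2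
  have : Countable t := htc.to_subtype
  set g : t → ENNReal := fun x => volume (Metric.closedBall (x : E) (r x)) with hg
  have hsum : ∑' x, g x ≠ ⊤ := by
    have h1 : volume (⋃ x : t, Metric.closedBall (x : E) (r x)) = ∑' x, g x := by
      apply measure_iUnion
      · intro x y hxy
        exact htd x.2 y.2 (fun h => hxy (Subtype.ext h))
      · intro x
        exact Metric.isClosed_closedBall.measurableSet
    rw [← h1]
    refine ne_top_of_le_ne_top hfin (measure_mono ?_)
    exact Set.iUnion_subset fun x => hballU x x.2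
  have hlim := ENNReal.tendsto_tsum_compl_atTop_zero hsum
  have hε2 : (0 : ENNReal) < ENNReal.ofReal (ε / 2) := ENNReal.ofReal_pos.2 (by linarith)
  obtain ⟨s, hs⟩ := ((tendsto_order.1 hlim).2 _ hε2).exists
  set F : Finset E := s.image Subtype.val with hF
  have hFt : ∀ c ∈ F, c ∈ t := by
    intro c hc
    rw [hF, Finset.mem_image] at hc
    obtain ⟨x, _, rfl⟩ := hc
    exact x.2
  set M : ℝ := (volume U).toReal with hM
  have hM0 : 0 ≤ M := ENNReal.toReal_nonneg
  set δ : ℝ := min (1 / 2) (ε / (6 * (M + 1))) with hδdef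
  have hδ : 0 < δ := lt_min (by norm_num) (by positivity)
  have hδ1 : δ < 1 := lt_of_le_of_lt (min_le_left _ _) (by norm_num)
  have hδM : 3 * δ * M ≤ ε / 2 := by
    have h1 : δ ≤ ε / (6 * (M + 1)) := min_le_right _ _
    rw [le_div_iff₀ (by positivity)] at h1
    nlinarith
  refine ⟨F, r, 1 - δ, by linarith, by linarith, ?_, ?_, ?_⟩
  · intro c hc
    exact ⟨(htr c (hFt c hc)).2.1, hballU c (hFt c hc)⟩
  · intro x hx y hy hxy
    exact htd (hFt x hx) (hFt y hy) hxy
  · have hsub : U \ ⋃ c ∈ F, Metric.ball c ((1 - δ) * r c) ⊆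
        ((U \ ⋃ x ∈ t, Metric.closedBall x (r x)) ∪
          ⋃ b : {x : t // x ∉ s}, Metric.closedBall ((b : t) : E) (r (b : t))) ∪
        ⋃ c ∈ F, (Metric.closedBall c (r c) \ Metric.ball c ((1 - δ) * r c)) := by
      rintro x ⟨hxU, hx⟩
      by_cases h1 : x ∈ ⋃ x ∈ t, Metric.closedBall x (r x)
      · simp only [Set.mem_iUnion, exists_prop] at h1
        obtain ⟨c, hct, hxc⟩ := h1
        by_cases h2 : (⟨c, hct⟩ : t) ∈ s
        · right
          have hcF : c ∈ F := by
            rw [hF, Finset.mem_image]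
            exact ⟨⟨c, hct⟩, h2, rfl⟩
          simp only [Set.mem_iUnion, exists_prop, not_exists, not_and] at hx ⊢
          exact ⟨c, hcF, hxc, hx c hcF⟩
        · left; right
          simp only [Set.mem_iUnion]
          exact ⟨⟨⟨c, hct⟩, h2⟩, hxc⟩
      · left; left
        exact ⟨hxU, h1⟩
    refine (measure_mono hsub).trans ?_
    refine (measure_union_le _ _).trans ?_
    have e1 : volume ((U \ ⋃ x ∈ t, Metric.closedBall x (r x)) ∪
          ⋃ b : {x : t // x ∉ s}, Metric.closedBall ((b : t) : E) (r (b : t))) ≤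
        ENNReal.ofReal (ε / 2) := by
      refine (measure_union_le _ _).trans ?_
      rw [ht0, zero_add]
      refine (measure_iUnion_le _).trans ?_
      exact hs.le
    have e2 : volume (⋃ c ∈ F, (Metric.closedBall c (r c) \ Metric.ball c ((1 - δ) * r c))) ≤
        ENNReal.ofReal (ε / 2) := by
      refine (measure_biUnion_finset_le _ _).trans ?_
      have h1 : ∀ c ∈ F, volume (Metric.closedBall c (r c) \ Metric.ball c ((1 - δ) * r c)) ≤
          ENNReal.ofReal (3 * δ) * volume (Metric.closedBall c (r c)) := fun c hc =>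
        shell_small c (r c) δ (htr c (hFt c hc)).2.1 hδ hδ1
      refine (Finset.sum_le_sum h1).trans ?_
      rw [← Finset.mul_sum]
      have h2 : ∑ c ∈ F, volume (Metric.closedBall c (r c)) ≤ volume U := by
        rw [← measure_biUnion_finset (fun x hx y hy hxy => htd (hFt x hx) (hFt y hy) hxy)
          (fun c _ => Metric.isClosed_closedBall.measurableSet)]
        refine measure_mono ?_
        exact Set.iUnion₂_subset fun c hc => hballU c (hFt c hc)
      calc ENNReal.ofReal (3 * δ) * ∑ c ∈ F, volume (Metric.closedBall c (r c))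
          ≤ ENNReal.ofReal (3 * δ) * volume U := mul_le_mul_right h2 _
        _ = ENNReal.ofReal (3 * δ) * ENNReal.ofReal M := by rw [hM, ENNReal.ofReal_toReal hfin]
        _ = ENNReal.ofReal (3 * δ * M) := (ENNReal.ofReal_mul (by positivity)).symm
        _ ≤ _ := ENNReal.ofReal_le_ofReal hδM
    calc _ ≤ ENNReal.ofReal (ε / 2) + ENNReal.ofReal (ε / 2) := add_le_add e1 e2
      _ = ENNReal.ofReal ε := by
        rw [← ENNReal.ofReal_add (by linarith) (by linarith)]
        congr 1
        ring

/-- Equal germs have the same stream field. -/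
theorem stream_congr {k ξ x : E} {f g : E → ℝ} (h : f =ᶠ[𝓝 x] g) : stream k ξ f x = stream k ξ g x := by
  unfold stream dd
  rw [h.fderiv_eq]

/-- A smooth divergence free field on a bounded open set `U` is a sum of two stream fields with potentials of
compact support in `U`, except on a small part of `U`. -/
theorem pot_local {U : Set E} (hU : IsOpen U) (hb : Bornology.IsBounded U) (w : E → E)
    (hw : ContDiffOn ℝ ∞ w U) (hdiv : ∀ x ∈ U, divField w x = 0) (ε : ℝ) (hε : 0 < ε) :
    ∃ A B : E → ℝ, IsBump U A ∧ IsBump U B ∧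
      volume {x | x ∈ U ∧ stream (e 0) (e 2) A x + stream (e 1) (e 2) B x ≠ w x} ≤ ENNReal.ofReal ε := by
  classical
  obtain ⟨F, r, θ, hθ0, hθ1, hF, hdisj, hvol⟩ := fin_cover hU hb.measure_lt_top.ne ε hε
  have hAB0 : ∀ c, ∃ A B : E → ℝ, c ∈ F → ContDiff ℝ ∞ A ∧ ContDiff ℝ ∞ B ∧
      ∀ x ∈ Metric.ball c (r c), stream (e 0) (e 2) A x + stream (e 1) (e 2) B x = w x := by
    intro c
    by_cases hc : c ∈ F
    · obtain ⟨A, B, h⟩ := pot_ball hU w hw hdiv c (r c) (hF c hc).1 (hF c hc).2
      exact ⟨A, B, fun _ => h⟩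
    · exact ⟨0, 0, fun h => absurd h hc⟩
  choose A B hAB using hAB0
  have hψ0 : ∀ c, ∃ ψ : E → ℝ, c ∈ F → ContDiff ℝ ∞ ψ ∧ (∀ x ∈ Metric.ball c (θ * r c), ψ x = 1) ∧
      ∀ x, x ∉ Metric.closedBall c (r c) → ψ x = 0 := by
    intro c
    by_cases hc : c ∈ F
    · have hrc := (hF c hc).1
      let b : ContDiffBump c :=
        { rIn := θ * r c
          rOut := r c
          rIn_pos := mul_pos hθ0 hrc
          rIn_lt_rOut := by nlinarith }
      refine ⟨b, fun _ => ⟨b.contDiff, ?_, ?_⟩⟩
      · intro x hx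
        exact b.one_of_mem_closedBall (Metric.ball_subset_closedBall hx)
      · intro x hx
        apply b.zero_of_le_dist
        rw [Metric.mem_closedBall, not_le] at hx
        exact hx.le
    · exact ⟨0, fun h => absurd h hc⟩
  choose ψ hψ using hψ0
  set K : Set E := ⋃ c ∈ F, Metric.closedBall c (r c) with hK
  have hKc : IsCompact K := F.isCompact_biUnion fun c _ => isCompact_closedBall c (r c)
  have hKU : K ⊆ U := Set.iUnion₂_subset fun c hc => (hF c hc).2
  have bump : ∀ D : E → E → ℝ, (∀ c ∈ F, ContDiff ℝ ∞ (D c)) →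
      IsBump U (fun x => ∑ c ∈ F, ψ c x * D c x) := by
    intro D hD
    have hsupp : Function.support (fun x => ∑ c ∈ F, ψ c x * D c x) ⊆ K := by
      intro x hx
      by_contra hxK
      apply hx
      apply Finset.sum_eq_zero
      intro c hc
      have : x ∉ Metric.closedBall c (r c) := fun h => hxK (Set.mem_biUnion hc h)
      rw [(hψ c hc).2.2 x this, zero_mul]
    refine ⟨ContDiff.sum fun c hc => (hψ c hc).1.mul (hD c hc),
      HasCompactSupport.of_support_subset_isCompact hKc hsupp, ?_⟩
    exact (closure_minimal hsupp hKc.isClosed).trans hKU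
  have loc : ∀ D : E → E → ℝ, ∀ c ∈ F, ∀ x ∈ Metric.ball c (θ * r c),
      (fun x => ∑ c ∈ F, ψ c x * D c x) =ᶠ[𝓝 x] D c := by
    intro D c hc x hx
    filter_upwards [Metric.isOpen_ball.mem_nhds hx] with y hy
    rw [Finset.sum_eq_single c]
    · rw [(hψ c hc).2.1 y hy, one_mul]
    · intro b hb hbc
      have h1 : y ∈ Metric.closedBall c (r c) := by
        have h2 : θ * r c ≤ r c := by nlinarith [(hF c hc).1]
        exact Metric.closedBall_subset_closedBall h2 (Metric.ball_subset_closedBall hy)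
      have h3 : y ∉ Metric.closedBall b (r b) := fun h4 =>
        Set.disjoint_left.1 (hdisj hb hc hbc) h4 h1
      rw [(hψ b hb).2.2 y h3, zero_mul]
    · intro h
      exact absurd hc h
  refine ⟨fun x => ∑ c ∈ F, ψ c x * A c x, fun x => ∑ c ∈ F, ψ c x * B c x,
    bump A fun c hc => (hAB c hc).1, bump B fun c hc => (hAB c hc).2.1, ?_⟩
  refine (measure_mono ?_).trans hvol
  rintro x ⟨hxU, hx⟩
  refine ⟨hxU, fun hmem => hx ?_⟩
  simp only [Set.mem_iUnion, exists_prop] at hmem
  obtain ⟨c, hc, hxc⟩ := hmem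
  rw [stream_congr (loc A c hc x hxc), stream_congr (loc B c hc x hxc)]
  apply (hAB c hc).2.2
  have h2 : θ * r c ≤ r c := by nlinarith [(hF c hc).1]
  exact Metric.ball_subset_ball h2 hxc

end Pool.Agent.NSL
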