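import Mathlib

/-!
# MP_fd8964_an, freezing: a smooth sawtooth and its sine series
-/

open MeasureTheory Set Filter Topology
open scoped ContDiff FourierTransform

noncomputable section

namespace Pool.Agent.NSL

/-- rapid decay of the cosine coefficients of a smooth function with compact support -/
lemma saw_decay (m : ℝ → ℝ) (hm : ContDiff ℝ ∞ m) (hc : HasCompactSupport m) (k : ℕ) :
    ∃ C : ℝ, 0 ≤ C ∧ ∀ j : ℕ, (j : ℝ) ^ k * |∫ z, m z * Real.cos (j * z)| ≤ C := by
  have hg : ContDiff ℝ ∞ (fun z => (m z : ℂ)) := Complex.ofRealCLM.contDiff.comp hm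
  have hgc : HasCompactSupport (fun z => (m z : ℂ)) :=
    hc.comp_left (g := fun x : ℝ => (x : ℂ)) Complex.ofReal_zero
  obtain ⟨S, hS⟩ : ∃ S : SchwartzMap ℝ ℂ, ∀ z, S z = (m z : ℂ) := ⟨hgc.toSchwartzMap hg, fun z => rfl⟩
  obtain ⟨C, hC0, hC⟩ := (𝓕 S).decay k 0
  refine ⟨C * (2 * Real.pi) ^ k, by positivity, fun j => ?_⟩
  have h1 := hC (j / (2 * Real.pi))
  rw [norm_iteratedFDeriv_zero] at h1
  have hpi : (0 : ℝ) < 2 * Real.pi := by positivity
  have h2 : (𝓕 S) ((j : ℝ) / (2 * Real.pi)) =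
      ∫ z : ℝ, Complex.exp (↑(-((j : ℝ) * z)) * Complex.I) * (m z : ℂ) := by
    rw [SchwartzMap.fourier_coe, Real.fourier_real_eq_integral_exp_smul]
    congr 1
    ext z
    rw [hS, smul_eq_mul]
    congr 3
    field_simp
  have hint : Integrable (fun z : ℝ => Complex.exp (↑(-((j : ℝ) * z)) * Complex.I) * (m z : ℂ)) := by
    apply Continuous.integrable_of_hasCompactSupport
    · have := hm.continuous
      fun_prop
    · exact hgc.mul_left
  have h3 : (∫ z : ℝ, Complex.exp (↑(-((j : ℝ) * z)) * Complex.I) * (m z : ℂ)).re =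
      ∫ z, m z * Real.cos (j * z) := by
    have h4 := integral_re hint
    simp only [RCLike.re_to_complex] at h4
    rw [← h4]
    congr 1
    ext z
    rw [Complex.re_mul_ofReal, Complex.exp_ofReal_mul_I_re, Real.cos_neg, mul_comm]
  have h5 : |∫ z, m z * Real.cos (j * z)| ≤ ‖(𝓕 S) ((j : ℝ) / (2 * Real.pi))‖ := by
    rw [h2, ← h3]
    exact Complex.abs_re_le_norm _
  rw [Real.norm_eq_abs, abs_of_nonneg (by positivity), div_pow, div_mul_eq_mul_div, div_le_iff₀ (by positivity)] at h1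
  refine le_trans ?_ h1
  exact mul_le_mul_of_nonneg_left h5 (by positivity)

lemma saw_term_bound (c : ℝ) (j : ℕ) (k : ℕ) (y : ℝ) :
    ‖iteratedFDeriv ℝ k (fun y : ℝ => c * Real.sin (j * y)) y‖ ≤ (j : ℝ) ^ k * |c| := by
  rw [norm_iteratedFDeriv_eq_norm_iteratedDeriv, iteratedDeriv_const_mul_field,
    iteratedDeriv_comp_const_mul Real.contDiff_sin]
  have h := Real.abs_iteratedDeriv_sin_le_one k ((j : ℝ) * y)
  rw [norm_mul, Real.norm_eq_abs, Real.norm_eq_abs, abs_mul, abs_of_nonneg (by positivity : (0 : ℝ) ≤ (j : ℝ) ^ k)]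
  calc |c| * ((j : ℝ) ^ k * |iteratedDeriv k Real.sin ((j : ℝ) * y)|) ≤ |c| * ((j : ℝ) ^ k * 1) := by gcongr
    _ = (j : ℝ) ^ k * |c| := by ring

lemma saw_term_contDiff (c : ℝ) (j : ℕ) (N : WithTop ℕ∞) :
    ContDiff ℝ N (fun y : ℝ => c * Real.sin (j * y)) :=
  contDiff_const.mul (Real.contDiff_sin.comp (contDiff_const.mul contDiff_id))

/-- rapidly converging sine series are smooth and converge together with their derivatives -/
lemma saw_series (s : ℕ → ℝ) (hs : ∀ k : ℕ, Summable fun j : ℕ => (j : ℝ) ^ k * |s j|) :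
    ContDiff ℝ ∞ (fun y : ℝ => ∑' j : ℕ, s j * Real.sin (j * y)) ∧
    ∀ τ : ℝ, 0 < τ → ∃ n : ℕ, ∀ i : ℕ, i ≤ 3 → ∀ y : ℝ,
      |iteratedDeriv i (fun y => (∑' j : ℕ, s j * Real.sin (j * y)) -
        ∑ j ∈ Finset.range n, s j * Real.sin (j * y)) y| ≤ τ := by
  constructor
  · exact contDiff_tsum (𝕜 := ℝ) (N := (⊤ : ℕ∞)) (f := fun (j : ℕ) (y : ℝ) => s j * Real.sin (j * y))
      (v := fun (k j : ℕ) => (j : ℝ) ^ k * |s j|)
      (fun i => saw_term_contDiff (s i) i _) (fun k _ => hs k)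
      (fun k i x _ => saw_term_bound (s i) i k x)
  · intro τ hτ
    have hW : Summable fun j : ℕ => ∑ i ∈ Finset.range 4, (j : ℝ) ^ i * |s j| :=
      summable_sum fun i _ => hs i
    have hlim := tendsto_sum_nat_add (fun j : ℕ => ∑ i ∈ Finset.range 4, (j : ℝ) ^ i * |s j|)
    obtain ⟨n, hn⟩ := (hlim.eventually (gt_mem_nhds hτ)).exists
    refine ⟨n, fun i hi y => ?_⟩
    have hsum : ∀ y : ℝ, Summable fun j : ℕ => s j * Real.sin (j * y) := by
      intro y
      refine Summable.of_norm_bounded (hs 0) fun j => ?_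
      rw [Real.norm_eq_abs, abs_mul, pow_zero, one_mul]
      exact mul_le_of_le_one_right (abs_nonneg _) (Real.abs_sin_le_one _)
    have hfun : (fun y => (∑' j : ℕ, s j * Real.sin (j * y)) -
        ∑ j ∈ Finset.range n, s j * Real.sin (j * y)) =
        fun y => ∑' j : ℕ, s (j + n) * Real.sin ((j + n : ℕ) * y) := by
      ext y
      rw [← (hsum y).sum_add_tsum_nat_add n, add_sub_cancel_left]
    rw [hfun]
    have hv : ∀ k : ℕ, Summable fun j : ℕ => ((j + n : ℕ) : ℝ) ^ k * |s (j + n)| := fun k =>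
      (summable_nat_add_iff n).2 (hs k)
    have hit := iteratedFDeriv_tsum_apply (𝕜 := ℝ) (N := (⊤ : ℕ∞))
      (f := fun (j : ℕ) (y : ℝ) => s (j + n) * Real.sin ((j + n : ℕ) * y))
      (v := fun (k j : ℕ) => ((j + n : ℕ) : ℝ) ^ k * |s (j + n)|)
      (fun j => saw_term_contDiff (s (j + n)) (j + n) _) (fun k _ => hv k)
      (fun k j x _ => saw_term_bound (s (j + n)) (j + n) k x) (k := i) le_top y
    rw [← Real.norm_eq_abs, ← norm_iteratedFDeriv_eq_norm_iteratedDeriv, hit]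
    refine (tsum_of_norm_bounded (hv i).hasSum fun j => saw_term_bound (s (j + n)) (j + n) i y).trans ?_
    refine le_trans ?_ hn.le
    have hW' : Summable fun j : ℕ => ∑ i ∈ Finset.range 4, ((j + n : ℕ) : ℝ) ^ i * |s (j + n)| :=
      (summable_nat_add_iff (f := fun j : ℕ => ∑ i ∈ Finset.range 4, (j : ℝ) ^ i * |s j|) n).2 hW
    have hle : ∀ j : ℕ, ((j + n : ℕ) : ℝ) ^ i * |s (j + n)| ≤
        ∑ i ∈ Finset.range 4, ((j + n : ℕ) : ℝ) ^ i * |s (j + n)| := fun j =>
      Finset.single_le_sum (f := fun i => ((j + n : ℕ) : ℝ) ^ i * |s (j + n)|)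
        (fun i _ => by positivity) (Finset.mem_range.2 (by omega))
    exact Summable.tsum_le_tsum hle (hv i) hW'

/-- the quadratic function is the sum of its cosine series -/
lemma saw_quad (u : ℝ) (h0 : 0 ≤ u) (h1 : u ≤ 2 * Real.pi) :
    HasSum (fun j : ℕ => 2 / (j : ℝ) ^ 2 * Real.cos (j * u))
      (u ^ 2 / 2 - Real.pi * u + Real.pi ^ 2 / 3) := by
  have hpi : (0 : ℝ) < 2 * Real.pi := by positivity
  have hx : u / (2 * Real.pi) ∈ Icc (0 : ℝ) 1 := ⟨by positivity, (div_le_one hpi).2 h1⟩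
  have h := (hasSum_one_div_nat_pow_mul_cos (one_ne_zero) hx).mul_left 2
  have hB : (Polynomial.map (algebraMap ℚ ℝ) (Polynomial.bernoulli (2 * 1))).eval (u / (2 * Real.pi)) =
      (u / (2 * Real.pi)) ^ 2 - u / (2 * Real.pi) + 1 / 6 := by
    rw [Polynomial.bernoulli_def]
    simp [Finset.sum_range_succ, Polynomial.eval_add, bernoulli_one, bernoulli_two]
    ring
  rw [hB] at h
  have e1 : (fun j : ℕ => 2 / (j : ℝ) ^ 2 * Real.cos (j * u)) =
      fun j : ℕ => 2 * (1 / (j : ℝ) ^ (2 * 1) * Real.cos (2 * Real.pi * j * (u / (2 * Real.pi)))) := by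
    ext j
    rw [show (2 : ℝ) * Real.pi * j * (u / (2 * Real.pi)) = j * u by field_simp]
    ring
  have e2 : u ^ 2 / 2 - Real.pi * u + Real.pi ^ 2 / 3 =
      2 * ((-1) ^ (1 + 1) * (2 * Real.pi) ^ (2 * 1) / 2 / (Nat.factorial (2 * 1) : ℕ) *
        ((u / (2 * Real.pi)) ^ 2 - u / (2 * Real.pi) + 1 / 6)) := by
    rw [show Nat.factorial (2 * 1) = 2 from rfl]
    push_cast
    field_simp
    ring
  rw [e1, e2]
  exact h

/-- odd functions have integral zero -/
lemma saw_odd (m g : ℝ → ℝ) (hm : ∀ z, m (-z) = m z) (hg : ∀ z, g (-z) = - g z) :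
    ∫ z, m z * g z = 0 := by
  have h := integral_neg_eq_self (fun z => m z * g z) volume
  simp only [hm, hg, mul_neg, integral_neg] at h
  linarith

/-- the smoothed cosine series -/
lemma saw_conv (m : ℝ → ℝ) (hc : Continuous m) (hcs : HasCompactSupport m) (hm : ∀ z, m (-z) = m z)
    (hm0 : ∀ z, 0 ≤ m z) (hm1 : ∫ z, m z = 1) (δ : ℝ) (hδ : ∀ z, m z ≠ 0 → |z| < δ)
    (y : ℝ) (h0 : δ < y) (h1 : y < 2 * Real.pi - δ) :
    HasSum (fun j : ℕ => 2 / (j : ℝ) ^ 2 * (∫ z, m z * Real.cos (j * z)) * Real.cos (j * y))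
      (y ^ 2 / 2 - Real.pi * y + (Real.pi ^ 2 / 3 + ∫ z, m z * (z ^ 2 / 2))) := by
  have hI : ∀ g : ℝ → ℝ, Continuous g → Integrable (fun z => m z * g z) := fun g hg =>
    (hc.mul hg).integrable_of_hasCompactSupport hcs.mul_right
  have hF : ∀ j : ℕ, ∫ z, 2 / (j : ℝ) ^ 2 * (m z * Real.cos (j * (y - z))) =
      2 / (j : ℝ) ^ 2 * (∫ z, m z * Real.cos (j * z)) * Real.cos (j * y) := by
    intro j
    have e1 : ∀ z, m z * Real.cos (j * (y - z)) =
        Real.cos (j * y) * (m z * Real.cos (j * z)) + Real.sin (j * y) * (m z * Real.sin (j * z)) := by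
      intro z
      rw [mul_sub, Real.cos_sub]
      ring
    simp_rw [e1]
    rw [integral_const_mul, integral_add, integral_const_mul, integral_const_mul,
      saw_odd m (fun z => Real.sin (j * z)) hm (fun z => by rw [mul_neg, Real.sin_neg])]
    · ring
    · exact (hI _ (by fun_prop)).const_mul _
    · exact (hI _ (by fun_prop)).const_mul _
  have hint : ∀ j : ℕ, Integrable (fun z => 2 / (j : ℝ) ^ 2 * (m z * Real.cos (j * (y - z)))) :=
    fun j => (hI _ (by fun_prop)).const_mul _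
  have hsum : Summable fun j : ℕ => ∫ z, ‖2 / (j : ℝ) ^ 2 * (m z * Real.cos (j * (y - z)))‖ := by
    refine Summable.of_nonneg_of_le (fun j => integral_nonneg fun z => norm_nonneg _) (fun j => ?_)
      ((Real.summable_one_div_nat_pow.2 one_lt_two).mul_left 2)
    calc ∫ z, ‖2 / (j : ℝ) ^ 2 * (m z * Real.cos (j * (y - z)))‖ ≤ ∫ z, 2 * (1 / (j : ℝ) ^ 2) * m z := by
          refine integral_mono (hint j).norm (((hI (fun _ => 1) continuous_const).const_mul
            (2 * (1 / (j : ℝ) ^ 2))).congr (Eventually.of_forall fun z => ?_)) fun z => ?_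
          · simp only [mul_one]
          · have h2 := Real.abs_cos_le_one ((j : ℝ) * (y - z))
            simp only [Real.norm_eq_abs, abs_mul, abs_of_nonneg (hm0 z)]
            rw [abs_of_nonneg (by positivity : (0 : ℝ) ≤ 2 / (j : ℝ) ^ 2)]
            calc 2 / (j : ℝ) ^ 2 * (m z * |Real.cos ((j : ℝ) * (y - z))|) ≤ 2 / (j : ℝ) ^ 2 * (m z * 1) := by
                  have := hm0 z
                  gcongr
              _ = 2 * (1 / (j : ℝ) ^ 2) * m z := by ring
      _ = 2 * (1 / (j : ℝ) ^ 2) := by rw [integral_const_mul, hm1, mul_one]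
  have h := hasSum_integral_of_summable_integral_norm hint hsum
  simp only [hF] at h
  suffices e3 : (y ^ 2 / 2 - Real.pi * y + (Real.pi ^ 2 / 3 + ∫ z, m z * (z ^ 2 / 2))) =
      ∫ z, ∑' j : ℕ, 2 / (j : ℝ) ^ 2 * (m z * Real.cos (j * (y - z))) by
    rw [e3]
    exact h
  have e2 : ∀ z, (∑' j : ℕ, 2 / (j : ℝ) ^ 2 * (m z * Real.cos (j * (y - z)))) =
      (y ^ 2 / 2 - Real.pi * y + Real.pi ^ 2 / 3) * m z + (Real.pi - y) * (m z * z) + m z * (z ^ 2 / 2) := by
    intro z
    by_cases hz : m z = 0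
    · simp [hz]
    · have h2 := abs_lt.1 (hδ z hz)
      have h3 := (saw_quad (y - z) (by linarith) (by linarith)).mul_left (m z)
      have h4 : (fun j : ℕ => 2 / (j : ℝ) ^ 2 * (m z * Real.cos (j * (y - z)))) =
          fun j : ℕ => m z * (2 / (j : ℝ) ^ 2 * Real.cos (j * (y - z))) := by
        ext j
        ring
      rw [h4, h3.tsum_eq]
      ring
  simp_rw [e2]
  rw [integral_add, integral_add, integral_const_mul, integral_const_mul, hm1,
    saw_odd m (fun z => z) hm (fun z => rfl)]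
  · ring
  · exact ((hI (fun _ => 1) continuous_const).const_mul (y ^ 2 / 2 - Real.pi * y + Real.pi ^ 2 / 3)).congr
      (Eventually.of_forall fun z => by simp)
  · exact (hI (fun z => z) continuous_id).const_mul _
  · exact (((hI (fun _ => 1) continuous_const).const_mul (y ^ 2 / 2 - Real.pi * y + Real.pi ^ 2 / 3)).add
      ((hI (fun z => z) continuous_id).const_mul (Real.pi - y))).congr (Eventually.of_forall fun z => by simp)
  · exact hI (fun z => z ^ 2 / 2) (by fun_prop)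

/-- A smooth periodic function which is `y - π` on the period `(0, 2π)` except near its end points,
and is the sum of a rapidly converging sine series. -/
theorem saw_exists (δ : ℝ) (h0 : 0 < δ) (h1 : δ < Real.pi) :
    ∃ (ρ : ℝ → ℝ) (s : ℕ → ℝ), ContDiff ℝ ∞ ρ ∧ (∀ y, ρ (y + 2 * Real.pi) = ρ y) ∧
      (∀ y, δ < y → y < 2 * Real.pi - δ → ρ y = y - Real.pi) ∧
      Summable (fun j : ℕ => (j : ℝ) ^ 4 * |s j|) ∧
      ∀ τ : ℝ, 0 < τ → ∃ n : ℕ, ∀ i : ℕ, i ≤ 3 → ∀ y : ℝ,
        |iteratedDeriv i (fun y => ρ y - ∑ j ∈ Finset.range n, s j * Real.sin (j * y)) y| ≤ τ := by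
  obtain ⟨φ, hφ⟩ : ∃ φ : ContDiffBump (0 : ℝ), φ.rOut = δ := ⟨⟨δ / 2, δ, by positivity, by linarith⟩, rfl⟩
  obtain ⟨m, hm⟩ : ∃ m, m = φ.normed volume := ⟨_, rfl⟩
  have hsm : ContDiff ℝ ∞ m := by
    rw [hm]
    exact φ.contDiff_normed
  have hcs : HasCompactSupport m := by
    rw [hm]
    exact φ.hasCompactSupport_normed
  have hev : ∀ z, m (-z) = m z := fun z => by rw [hm, ContDiffBump.normed_neg]
  have hm0 : ∀ z, 0 ≤ m z := fun z => by
    rw [hm]
    exact φ.nonneg_normed z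
  have hm1 : ∫ z, m z = 1 := by
    rw [hm]
    exact φ.integral_normed
  have hδ : ∀ z, m z ≠ 0 → |z| < δ := by
    intro z hz
    have h2 : z ∈ Function.support (φ.normed volume) := by
      rw [Function.mem_support, ← hm]
      exact hz
    rw [φ.support_normed_eq, hφ, mem_ball_zero_iff] at h2
    exact h2
  obtain ⟨M, hM⟩ : ∃ M : ℕ → ℝ, ∀ j, M j = ∫ z, m z * Real.cos (j * z) := ⟨_, fun j => rfl⟩
  obtain ⟨s, hs⟩ : ∃ s : ℕ → ℝ, ∀ j, s j = -2 * M j / j := ⟨_, fun j => rfl⟩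
  have hdec : ∀ k : ℕ, Summable fun j : ℕ => (j : ℝ) ^ k * |s j| := by
    intro k
    obtain ⟨C, hC0, hC⟩ := saw_decay m hsm hcs (k + 1)
    refine Summable.of_nonneg_of_le (fun j => by positivity) (fun j => ?_)
      ((Real.summable_one_div_nat_pow.2 one_lt_two).mul_left (2 * C))
    rcases Nat.eq_zero_or_pos j with rfl | hj
    · rw [hs]
      simp
    · have hj' : (0 : ℝ) < j := by exact_mod_cast hj
      have h2 := hC j
      rw [← hM] at h2
      rw [hs, abs_div, abs_mul, abs_neg, abs_of_nonneg (by norm_num : (0 : ℝ) ≤ 2), abs_of_pos hj']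
      have h3 : (j : ℝ) ^ k * (2 * |M j| / j) = 2 * ((j : ℝ) ^ (k + 1) * |M j|) * (1 / (j : ℝ) ^ 2) := by
        field_simp
        ring
      rw [h3]
      gcongr
  obtain ⟨hρ, hτ⟩ := saw_series s hdec
  refine ⟨fun y => ∑' j : ℕ, s j * Real.sin (j * y), s, hρ, fun y => ?_, fun y hy1 hy2 => ?_, hdec 4, hτ⟩
  · refine tsum_congr fun j => ?_
    rw [mul_add, Real.sin_add_nat_mul_two_pi]
  · have hser : ∀ z : ℝ, δ < z → z < 2 * Real.pi - δ →
        HasSum (fun j : ℕ => 2 / (j : ℝ) ^ 2 * M j * Real.cos (j * z))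
          (z ^ 2 / 2 - Real.pi * z + (Real.pi ^ 2 / 3 + ∫ z, m z * (z ^ 2 / 2))) := by
      intro z hz1 hz2
      have h2 := saw_conv m hsm.continuous hcs hev hm0 hm1 δ hδ z hz1 hz2
      simp only [← hM] at h2
      exact h2
    have hd : HasDerivAt (fun z => ∑' j : ℕ, 2 / (j : ℝ) ^ 2 * M j * Real.cos (j * z))
        (∑' j : ℕ, s j * Real.sin (j * y)) y := by
      have hu : Summable fun j : ℕ => |s j| := by
        have h2 := hdec 0
        simp only [pow_zero, one_mul] at h2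
        exact h2
      refine hasDerivAt_tsum (g := fun (j : ℕ) (z : ℝ) => 2 / (j : ℝ) ^ 2 * M j * Real.cos (j * z))
        (g' := fun (j : ℕ) (z : ℝ) => s j * Real.sin (j * z)) (u := fun j : ℕ => |s j|) hu
        (fun j z => ?_) (fun j z => ?_) (hser y hy1 hy2).summable y
      · have h2 : HasDerivAt (fun z : ℝ => Real.cos (j * z)) (-Real.sin (j * z) * (j * 1)) z :=
          (Real.hasDerivAt_cos _).comp z ((hasDerivAt_id z).const_mul (j : ℝ))
        refine (h2.const_mul (2 / (j : ℝ) ^ 2 * M j)).congr_deriv ?_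
        rw [hs]
        rcases Nat.eq_zero_or_pos j with rfl | hj
        · simp
        · have hj' : (j : ℝ) ≠ 0 := by exact_mod_cast hj.ne'
          field_simp
      · rw [Real.norm_eq_abs, abs_mul]
        exact mul_le_of_le_one_right (abs_nonneg _) (Real.abs_sin_le_one _)
    have hq : HasDerivAt (fun z : ℝ => z ^ 2 / 2 - Real.pi * z +
        (Real.pi ^ 2 / 3 + ∫ z, m z * (z ^ 2 / 2))) (y - Real.pi) y := by
      have h2 := (((hasDerivAt_pow 2 y).div_const 2).sub ((hasDerivAt_id y).const_mul Real.pi)).add_const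
        (Real.pi ^ 2 / 3 + ∫ z, m z * (z ^ 2 / 2))
      refine h2.congr_deriv ?_
      simp
    refine HasDerivAt.unique (hd.congr_of_eventuallyEq ?_) hq
    filter_upwards [Ioo_mem_nhds hy1 hy2] with z hz
    exact (hser z hz.1 hz.2).tsum_eq.symm

end Pool.Agent.NSL
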