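import Pool.Agent.NSK.Conc

/-!
# MP_fd8964_an, freezing: the bad slabs
-/

open MeasureTheory Set Filter Topology
open scoped RealInnerProductSpace ContDiff

noncomputable section

namespace Pool.Agent.NSL

open Pool.Agent.NSD Pool.Agent.NSK

/-- The bad set on a line. -/
def badLine (R δ N : ℝ) : Set ℝ := {t : ℝ | |t| ≤ R ∧ ∃ k : ℤ, |N * t - 2 * Real.pi * k| ≤ δ}

theorem badLine_small (R : ℝ) (hR : 0 ≤ R) (δ : ℝ) (hδ : 0 < δ) (hδ' : δ < Real.pi) (N : ℝ) (hN : 1 ≤ N) :
    volume (badLine R δ N) ≤ ENNReal.ofReal ((2 * R / Real.pi + 4) * δ) := by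
  have hpi := Real.pi_pos
  have hN0 : 0 < N := by linarith
  set K : ℕ := ⌊(N * R + Real.pi) / (2 * Real.pi)⌋₊ with hK
  have hsub : badLine R δ N ⊆ ⋃ k ∈ Finset.Icc (-(K : ℤ)) (K : ℤ),
      Set.Icc ((2 * Real.pi * (k : ℝ) - δ) / N) ((2 * Real.pi * (k : ℝ) + δ) / N) := by
    rintro t ⟨ht, k, hk⟩
    have hk2 := abs_le.1 hk
    have ht2 := abs_le.1 ht
    have h1 : (k : ℝ) ≤ (N * R + Real.pi) / (2 * Real.pi) := by
      rw [le_div_iff₀ (by positivity)]
      nlinarith [mul_le_mul_of_nonneg_left ht2.2 hN0.le]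
    have h2 : (-(k : ℝ)) ≤ (N * R + Real.pi) / (2 * Real.pi) := by
      rw [le_div_iff₀ (by positivity)]
      nlinarith [mul_le_mul_of_nonneg_left ht2.1 hN0.le]
    have hkK : |k| ≤ (K : ℤ) := by
      have h3 : ((k.natAbs : ℕ) : ℝ) ≤ (N * R + Real.pi) / (2 * Real.pi) := by
        have h4 : ((k.natAbs : ℕ) : ℝ) = |(k : ℝ)| := by
          rw [Nat.cast_natAbs, Int.cast_abs]
        rw [h4]
        exact abs_le.2 ⟨by linarith, h1⟩
      have h5 : k.natAbs ≤ K := Nat.le_floor h3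
      have h6 : |k| = (k.natAbs : ℤ) := Int.abs_eq_natAbs k
      rw [h6]
      exact_mod_cast h5
    have hk3 := abs_le.1 hkK
    simp only [Set.mem_iUnion, Set.mem_Icc, Finset.mem_Icc, exists_prop]
    refine ⟨k, ⟨hk3.1, hk3.2⟩, ?_, ?_⟩
    · rw [div_le_iff₀ hN0]; nlinarith
    · rw [le_div_iff₀ hN0]; nlinarith
  refine (measure_mono hsub).trans ?_
  refine (measure_biUnion_finset_le _ _).trans ?_
  have hv : ∀ k ∈ Finset.Icc (-(K : ℤ)) (K : ℤ),
      volume (Set.Icc ((2 * Real.pi * (k : ℝ) - δ) / N) ((2 * Real.pi * (k : ℝ) + δ) / N)) =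
        ENNReal.ofReal (2 * δ / N) := by
    intro k _
    rw [Real.volume_Icc]
    congr 1
    ring
  rw [Finset.sum_congr rfl hv, Finset.sum_const, nsmul_eq_mul]
  have hcard : ((Finset.Icc (-(K : ℤ)) (K : ℤ)).card : ℝ) = 2 * (K : ℝ) + 1 := by
    rw [Int.card_Icc]
    have : ((K : ℤ) + 1 - -(K : ℤ)).toNat = 2 * K + 1 := by omega
    rw [this]
    push_cast
    ring
  rw [← ENNReal.ofReal_natCast, ← ENNReal.ofReal_mul (by positivity), hcard]
  apply ENNReal.ofReal_le_ofReal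
  have hKle : (K : ℝ) ≤ (N * R + Real.pi) / (2 * Real.pi) := Nat.floor_le (by positivity)
  have h7 : 2 * (K : ℝ) + 1 ≤ N * R / Real.pi + 2 := by
    have : (N * R + Real.pi) / (2 * Real.pi) = N * R / Real.pi / 2 + 1 / 2 := by
      field_simp
    rw [this] at hKle
    linarith
  calc (2 * (K : ℝ) + 1) * (2 * δ / N) ≤ (N * R / Real.pi + 2) * (2 * δ / N) :=
        mul_le_mul_of_nonneg_right h7 (by positivity)
    _ = 2 * R / Real.pi * δ + 4 * δ / N := by
        field_simp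
        ring
    _ ≤ 2 * R / Real.pi * δ + 4 * δ := by
        have : 4 * δ / N ≤ 4 * δ := div_le_self (by positivity) hN
        linarith
    _ = (2 * R / Real.pi + 4) * δ := by ring

theorem deriv_one {δ : ℝ} {ρ : ℝ → ℝ} (hper : ∀ y, ρ (y + 2 * Real.pi) = ρ y)
    (hρ : ∀ y, δ < y → y < 2 * Real.pi - δ → ρ y = y - Real.pi) (y : ℝ)
    (hy : ∀ k : ℤ, δ < |y - 2 * Real.pi * k|) : deriv ρ y = 1 := by
  have hpi := Real.pi_pos
  set k : ℤ := ⌊y / (2 * Real.pi)⌋ with hk
  have h1 : (k : ℝ) ≤ y / (2 * Real.pi) := Int.floor_le _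
  have h2 : y / (2 * Real.pi) < (k : ℝ) + 1 := Int.lt_floor_add_one _
  rw [le_div_iff₀ (by positivity)] at h1
  rw [div_lt_iff₀ (by positivity)] at h2
  have h3 : δ < y - 2 * Real.pi * k := by
    have := hy k
    rwa [abs_of_nonneg (by linarith)] at this
  have h4 : y - 2 * Real.pi * k < 2 * Real.pi - δ := by
    have := hy (k + 1)
    push_cast at this
    rw [abs_of_neg (by linarith)] at this
    linarith
  have hperk : ∀ z, ρ z = ρ (z - 2 * Real.pi * k) := by
    intro z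
    have hP : Function.Periodic ρ (2 * Real.pi) := hper
    have := hP.sub_int_mul_eq (x := z) k
    rw [← this]
    congr 1
    ring
  have hev : ρ =ᶠ[𝓝 y] fun z => z - 2 * Real.pi * k - Real.pi := by
    have hopen : IsOpen {z : ℝ | δ < z - 2 * Real.pi * k ∧ z - 2 * Real.pi * k < 2 * Real.pi - δ} := by
      have hc : Continuous fun z : ℝ => z - 2 * Real.pi * k := by fun_prop
      exact (isOpen_lt continuous_const hc).inter (isOpen_lt hc continuous_const)
    filter_upwards [hopen.mem_nhds ⟨h3, h4⟩] with z hz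
    rw [hperk z]
    exact hρ _ hz.1 hz.2
  rw [hev.deriv_eq]
  simp

/-- The slabs on which the staircase is not flat are small. -/
theorem slab_small {Ω : Set E} (hΩ : IsOpen Ω) (hb : Bornology.IsBounded Ω) :
    ∃ C : ℝ, 0 ≤ C ∧ ∀ (δ : ℝ), 0 < δ → δ < Real.pi → ∀ ρ : ℝ → ℝ, (∀ y, ρ (y + 2 * Real.pi) = ρ y) →
      (∀ y, δ < y → y < 2 * Real.pi - δ → ρ y = y - Real.pi) → ∀ (i : Fin 3) (N : ℝ), 1 ≤ N →
      volume {x : E | x ∈ Ω ∧ deriv ρ (N * ⟪e i, x⟫) ≠ 1} ≤ ENNReal.ofReal (C * δ) := by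
  obtain ⟨R0, hR0⟩ := hb.subset_closedBall (0 : E)
  set R : ℝ := max R0 0 with hRdef
  have hR : 0 ≤ R := le_max_right _ _
  have hpi := Real.pi_pos
  refine ⟨(2 * R / Real.pi + 4) * (2 * R) ^ 2, by positivity, ?_⟩
  intro δ hδ hδ' ρ hper hρ i N hN
  set s : Fin 3 → Set ℝ := fun j => if j = i then badLine R δ N else Set.Icc (-R) R with hs
  have hsub : {x : E | x ∈ Ω ∧ deriv ρ (N * ⟪e i, x⟫) ≠ 1} ⊆
      (WithLp.ofLp : E → (Fin 3 → ℝ)) ⁻¹' (Set.pi Set.univ s) := by
    rintro x ⟨hx, hd⟩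
    have hcoord : ∀ j, |x j| ≤ R := by
      intro j
      have h1 : ‖x j‖ ≤ ‖x‖ := PiLp.norm_apply_le x j
      have h2 : ‖x‖ ≤ R0 := by simpa using hR0 hx
      rw [Real.norm_eq_abs] at h1
      exact h1.trans (h2.trans (le_max_left _ _))
    have hin : ⟪e i, x⟫ = x i := by
      simp [e, EuclideanSpace.inner_single_left]
    rw [hin] at hd
    intro j _
    by_cases hj : j = i
    · subst hj
      simp only [hs, if_true]
      refine ⟨hcoord j, ?_⟩
      by_contra hcon
      push Not at hcon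
      exact hd (deriv_one hper hρ _ hcon)
    · simp only [hs, if_neg hj]
      exact abs_le.1 (hcoord j)
  refine (measure_mono hsub).trans ?_
  have hpre : volume ((WithLp.ofLp : E → (Fin 3 → ℝ)) ⁻¹' (Set.pi Set.univ s)) =
      volume (Set.pi Set.univ s) := by
    have hmp := (EuclideanSpace.volume_preserving_symm_measurableEquiv_toLp (Fin 3))
    exact hmp.measure_preimage_equiv (Set.pi Set.univ s)
  rw [hpre, volume_pi_pi]
  have hprod : ∏ j, volume (s j) ≤ ENNReal.ofReal ((2 * R / Real.pi + 4) * δ) * ENNReal.ofReal (2 * R) ^ 2 := by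
    rw [← Finset.mul_prod_erase Finset.univ _ (Finset.mem_univ i)]
    apply mul_le_mul'
    · simp only [hs, if_true]
      exact badLine_small R hR δ hδ hδ' N hN
    · have : ∀ j ∈ Finset.univ.erase i, volume (s j) ≤ ENNReal.ofReal (2 * R) := by
        intro j hj
        have hj' : j ≠ i := (Finset.mem_erase.1 hj).1
        simp only [hs, if_neg hj']
        rw [Real.volume_Icc]
        apply ENNReal.ofReal_le_ofReal
        linarith
      refine (Finset.prod_le_prod' this).trans ?_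
      rw [Finset.prod_const]
      simp
  refine hprod.trans ?_
  rw [← ENNReal.ofReal_pow (by positivity), ← ENNReal.ofReal_mul (by positivity)]
  apply ENNReal.ofReal_le_ofReal
  apply le_of_eq
  ring

end Pool.Agent.NSL
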