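import Pool.Agent.NSL.Freeze
import Pool.Agent.NSL.Phase
import Pool.Agent.NSL.Saw
import Pool.Agent.NSL.Slab
import Pool.Agent.NSL.PotLocal

/-!
# MP_fd8964_an, freezing: good data which agree with a given field outside a small set
-/

open MeasureTheory Set Filter Topology
open scoped RealInnerProductSpace ContDiff

noncomputable section

namespace Pool.Agent.NSL

open Pool.Agent.NSD Pool.Agent.NSK Pool.Agent.NSK.Layer66 Pool.Agent.NSN Pool.Agent.NSN.Lacun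

variable {Ω : Set E}

/-- One freezing step. -/
theorem freeze_step (hΩ : IsOpen Ω) (hb : Bornology.IsBounded Ω) {η : ℝ} (hη : 0 < η) {Gd : ℝ → Set (V Ω)}
    (hM : MultiClosed Ω η Gd) {U : Set E} (hU : IsOpen U) (hUΩ : U ⊆ Ω)
    {ε ε' : ℝ} (hε : 0 < ε) (hεε' : ε < ε') {x : V Ω} (hx : x ∈ Gd ε)
    {a : E → ℝ} (ha : IsBump U a) {k ξ : E} (hk : ‖k‖ = 1) (hξ : ‖ξ‖ = 1) (hkξ : ⟪k, ξ⟫ = 0)
    {ρ : ℝ → ℝ} {s : ℕ → ℝ} (hS : Saw ρ s) {q δ : ℝ} (hq : 1 ≤ q) (hδ : 0 < δ) :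
    ∃ N : ℝ, 1 ≤ N ∧ IsBump U (frz N ρ k a) ∧ ∃ W : V Ω,
      Represents Ω (stream k ξ (fun y => a y - frz N ρ k a y)) W ∧ x + W ∈ Gd ε' ∧ SmallHeat q δ W ∧
      ∀ φ : V Ω, |⟪fld W, fld φ⟫| ≤ δ * ‖φ‖ := by
  obtain ⟨NU, hNU, hfU⟩ := frz_bump hU hS hk ha
  obtain ⟨B, C, N₁, hB, hC, hN₁, hsys⟩ := freeze_sys hΩ hb hη (bump_mono hUΩ ha) hk hξ hkξ hS
  obtain ⟨N₂, hN₂, hgd⟩ := hM ε ε' B hε hεε' hB x hx
  set m : ℝ := min (1 / 2) (δ / 4) with hm
  have hm0 : 0 < m := lt_min (by norm_num) (by positivity)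
  set N : ℝ := max (max NU N₁) (max (max N₂ 2) (C / m)) with hN
  have g1 : NU ≤ N := (le_max_left _ _).trans (le_max_left _ _)
  have g2 : N₁ ≤ N := (le_max_right _ _).trans (le_max_left _ _)
  have g3 : N₂ ≤ N := ((le_max_left _ _).trans (le_max_left _ _)).trans (le_max_right _ _)
  have g4 : 2 ≤ N := ((le_max_right _ _).trans (le_max_left _ _)).trans (le_max_right _ _)
  have g5 : C / m ≤ N := (le_max_right _ _).trans (le_max_right _ _)
  have hN0 : 0 < N := by linarith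
  have hCN : C / N ≤ m := by
    rw [div_le_iff₀ hm0] at g5
    rw [div_le_iff₀ hN0]; linarith
  have hCN0 : 0 ≤ C / N := by positivity
  obtain ⟨-, n, μ, w, g, hg, hsum, hbd⟩ := hsys N g2
  obtain ⟨W, hW⟩ := Rep_proof Ω _ (Layer66.isTest_sum hg.test)
  obtain ⟨hheat, hdual⟩ := hbd W hW
  refine ⟨N, by linarith, hfU N g1, W, by rw [← hsum]; exact hW, hgd N g3 n μ w g hg W hW, ?_, fun φ => ?_⟩
  · refine ⟨C / N, [N, 1], hCN0, ⟨?_, ?_⟩, ?_, hheat⟩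
    · intro M hM
      simp only [List.mem_cons, List.not_mem_nil, or_false] at hM
      rcases hM with h | h
      · rw [h]; linarith
      · rw [h]
    · exact List.isChain_cons_cons.2 ⟨by linarith, by simp⟩
    · have e1 : (2 * (C / N)) ^ (q - 1) ≤ 1 := by
        refine Real.rpow_le_one (by positivity) ?_ (by linarith)
        have := hCN.trans (min_le_left _ _)
        linarith
      have e2 : C / N ≤ δ / 4 := hCN.trans (min_le_right _ _)
      have e3 : ((([N, 1] : List ℝ).length : ℕ) : ℝ) = 2 := by norm_num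
      rw [e3]
      calc (2 * (C / N)) ^ (q - 1) * (C / N * (2 * 2)) ≤ 1 * (C / N * (2 * 2)) := by gcongr
        _ ≤ δ := by linarith
  · refine (hdual φ).trans (mul_le_mul_of_nonneg_right ?_ (norm_nonneg _))
    have e2 : C / N ≤ δ / 4 := hCN.trans (min_le_right _ _)
    linarith

theorem hasFDerivAt_shift {ρ : ℝ → ℝ} (hρ : ContDiff ℝ ∞ ρ) (N : ℝ) (k : E) (x : E) :
    HasFDerivAt (fun y : E => (N⁻¹ * ρ (N * ⟪k, y⟫)) • k)
      (((N⁻¹ * (deriv ρ (N * ⟪k, x⟫) * N)) • innerSL ℝ k).smulRight k) x := by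
  have h1 : HasFDerivAt (fun y : E => ⟪k, y⟫) (innerSL ℝ k) x := (innerSL ℝ k).hasFDerivAt
  have h2 : HasFDerivAt (fun y : E => N * ⟪k, y⟫) (N • innerSL ℝ k) x := h1.const_mul N
  have h3 : HasDerivAt ρ (deriv ρ (N * ⟪k, x⟫)) (N * ⟪k, x⟫) :=
    (hρ.differentiable (by simp) _).hasDerivAt
  have h4 := (h3.comp_hasFDerivAt x h2).const_mul N⁻¹
  have h5 := h4.smul_const k
  refine h5.congr_fderiv ?_
  congr 1
  rw [smul_smul, smul_smul]
  congr 1
  ring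

/-- Twice frozen potentials have no stream field outside the slabs. -/
theorem stream_frozen {ρ : ℝ → ℝ} (hρ : ContDiff ℝ ∞ ρ) {k ξ : E} (hk : ‖k‖ = 1) (hξ : ‖ξ‖ = 1) (hkξ : ⟪k, ξ⟫ = 0)
    {N₁ N₂ : ℝ} (hN₁ : 1 ≤ N₁) (hN₂ : 1 ≤ N₂) {A : E → ℝ} (hA : ContDiff ℝ ∞ A) {x : E}
    (h1 : deriv ρ (N₁ * ⟪k, x⟫) = 1) (h2 : deriv ρ (N₂ * ⟪ξ, x⟫) = 1) :
    stream k ξ (frz N₂ ρ ξ (frz N₁ ρ k A)) x = 0 := by
  have hN₁0 : N₁ ≠ 0 := by positivity
  have hN₂0 : N₂ ≠ 0 := by positivity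
  have hξk : ⟪ξ, k⟫ = 0 := by rw [real_inner_comm]; exact hkξ
  have hkk : ⟪k, k⟫ = 1 := by rw [real_inner_self_eq_norm_sq, hk, one_pow]
  have hξξ : ⟪ξ, ξ⟫ = 1 := by rw [real_inner_self_eq_norm_sq, hξ, one_pow]
  have e1 : frz N₂ ρ ξ (frz N₁ ρ k A)
      = fun y => A (y - (N₂⁻¹ * ρ (N₂ * ⟪ξ, y⟫)) • ξ - (N₁⁻¹ * ρ (N₁ * ⟪k, y⟫)) • k) := by
    funext y
    simp only [frz]
    have : ⟪k, y - (N₂⁻¹ * ρ (N₂ * ⟪ξ, y⟫)) • ξ⟫ = ⟪k, y⟫ := by
      rw [inner_sub_right, real_inner_smul_right, hkξ, mul_zero, sub_zero]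
    rw [this]
  have hd := (((hasFDerivAt_id x).sub (hasFDerivAt_shift hρ N₂ ξ x)).sub (hasFDerivAt_shift hρ N₁ k x))
  have hc := ((hA.differentiable (by simp) _).hasFDerivAt).comp x hd
  have hc' := hc.congr_of_eventuallyEq (f₁ := frz N₂ ρ ξ (frz N₁ ρ k A))
    (Filter.Eventually.of_forall fun y => congrFun e1 y)
  unfold stream dd
  rw [hc'.fderiv]
  simp only [ContinuousLinearMap.comp_apply, _root_.sub_apply, ContinuousLinearMap.id_apply,
    ContinuousLinearMap.smulRight_apply, _root_.smul_apply, innerSL_apply_apply, hkξ, hξk, hkk, hξξ, h1, h2,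
    smul_eq_mul]
  simp [hN₁0, hN₂0]

theorem stream_swap (k ξ : E) (g : E → ℝ) : stream ξ k (fun y => -g y) = stream k ξ g := by
  funext x
  simp only [stream, dd]
  rw [fderiv_fun_neg]
  simp only [_root_.neg_apply]
  module

/-- `x'` is reached from `x` by `n` small steps. -/
def Near (q δ : ℝ) (n : ℕ) (x x' : V Ω) : Prop :=
  (∀ a : V Ω, besov (x' - a) q ≤ (2 ^ (q - 1)) ^ n * (besov (x - a) q + n * ENNReal.ofReal δ)) ∧
    ∀ φ : V Ω, |⟪fld x', fld φ⟫ - ⟪fld x, fld φ⟫| ≤ n * δ * ‖φ‖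

theorem Near.refl (q δ : ℝ) (x : V Ω) : Near q δ 0 x x := by
  refine ⟨fun a => by simp, fun φ => by simp⟩

theorem Near.step (hb : Bornology.IsBounded Ω) {q δ : ℝ} (hq : 1 ≤ q) {n : ℕ} {x x' W : V Ω}
    (h : Near q δ n x x') (hW : SmallHeat q δ W) (hd : ∀ φ : V Ω, |⟪fld W, fld φ⟫| ≤ δ * ‖φ‖) :
    Near q δ (n + 1) x (x' + W) := by
  obtain ⟨h1, h2⟩ := h
  refine ⟨fun a => ?_, fun φ => ?_⟩
  · have e1 : x' + W - a = (x' - a) + W := by abel
    have hB1 : (1 : ENNReal) ≤ 2 ^ (q - 1) := by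
      have := ENNReal.rpow_le_rpow (show (1 : ENNReal) ≤ 2 by norm_num) (show 0 ≤ q - 1 by linarith)
      rwa [ENNReal.one_rpow] at this
    have hBn : (1 : ENNReal) ≤ (2 ^ (q - 1)) ^ n := one_le_pow₀ hB1
    rw [e1]
    calc besov (x' - a + W) q ≤ 2 ^ (q - 1) * (besov (x' - a) q + ENNReal.ofReal δ) := besov_add_small hb hq hW
      _ ≤ 2 ^ (q - 1) * ((2 ^ (q - 1)) ^ n * (besov (x - a) q + n * ENNReal.ofReal δ)
            + (2 ^ (q - 1)) ^ n * ENNReal.ofReal δ) := by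
          gcongr
          · exact h1 a
          · exact le_mul_of_one_le_left zero_le hBn
      _ = _ := by push_cast; ring
  · rw [fld_add', inner_add_left]
    have e1 := h2 φ
    have e2 := hd φ
    have e3 : ⟪fld x', fld φ⟫ + ⟪fld W, fld φ⟫ - ⟪fld x, fld φ⟫
        = (⟪fld x', fld φ⟫ - ⟪fld x, fld φ⟫) + ⟪fld W, fld φ⟫ := by ring
    rw [e3]
    refine (abs_add_le _ _).trans ((add_le_add e1 e2).trans (le_of_eq ?_))
    push_cast; ring

/-- Two freezing steps. -/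
theorem freeze_pair (hΩ : IsOpen Ω) (hb : Bornology.IsBounded Ω) {η : ℝ} (hη : 0 < η) {Gd : ℝ → Set (V Ω)}
    (hM : MultiClosed Ω η Gd) {U : Set E} (hU : IsOpen U) (hUΩ : U ⊆ Ω)
    {ε ε' : ℝ} (hε : 0 < ε) (hεε' : ε < ε') {n : ℕ} {x₀ x : V Ω} (hx : x ∈ Gd ε)
    {a : E → ℝ} (ha : IsBump U a) {k ξ : E} (hk : ‖k‖ = 1) (hξ : ‖ξ‖ = 1) (hkξ : ⟪k, ξ⟫ = 0)
    {ρ : ℝ → ℝ} {s : ℕ → ℝ} (hS : Saw ρ s) {q δ : ℝ} (hq : 1 ≤ q) (hδ : 0 < δ) (hN : Near q δ n x₀ x) :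
    ∃ (N₁ N₂ : ℝ) (a₂ : E → ℝ) (W : V Ω), 1 ≤ N₁ ∧ 1 ≤ N₂ ∧ IsBump U a₂ ∧
      Represents Ω (stream k ξ (fun y => a y - a₂ y)) W ∧ x + W ∈ Gd ε' ∧ Near q δ (n + 2) x₀ (x + W) ∧
      ∀ y, deriv ρ (N₁ * ⟪k, y⟫) = 1 → deriv ρ (N₂ * ⟪ξ, y⟫) = 1 → stream k ξ a₂ y = 0 := by
  have hξk : ⟪ξ, k⟫ = 0 := by rw [real_inner_comm]; exact hkξ
  obtain ⟨N₁, hN₁, hb₁, W₁, hW₁, hm₁, hh₁, hd₁⟩ := freeze_step hΩ hb hη hM hU hUΩ hε
    (show ε < (ε + ε') / 2 by linarith) hx ha hk hξ hkξ hS hq hδ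
  have hneg : IsBump U (fun y => -frz N₁ ρ k a y) := by
    have := isBump_smul (-1) hb₁
    have e : (fun y => -frz N₁ ρ k a y) = fun y => -1 * frz N₁ ρ k a y := by funext y; ring
    rw [e]; exact this
  obtain ⟨N₂, hN₂, hb₂, W₂, hW₂, hm₂, hh₂, hd₂⟩ := freeze_step hΩ hb hη hM hU hUΩ
    (show 0 < (ε + ε') / 2 by linarith) (show (ε + ε') / 2 < ε' by linarith) hm₁ hneg hξ hk hξk hS hq hδ
  have hb₂' : IsBump U (frz N₂ ρ ξ (frz N₁ ρ k a)) := by
    have := isBump_smul (-1) hb₂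
    have e : frz N₂ ρ ξ (frz N₁ ρ k a) = fun y => -1 * frz N₂ ρ ξ (fun y => -frz N₁ ρ k a y) y := by
      funext y; simp only [frz]; ring
    rw [e]; exact this
  have e2 : stream ξ k (fun y => (fun y => -frz N₁ ρ k a y) y - frz N₂ ρ ξ (fun y => -frz N₁ ρ k a y) y)
      = stream k ξ (fun y => frz N₁ ρ k a y - frz N₂ ρ ξ (frz N₁ ρ k a) y) := by
    rw [← stream_swap]
    congr 1
    funext y
    simp only [frz]
    ring
  rw [e2] at hW₂
  have t1 : IsTest Ω (stream k ξ (fun y => a y - frz N₁ ρ k a y)) :=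
    Layer66.isTest_stream k ξ (bump_mono hUΩ (isBump_sub' ha hb₁))
  have t2 : IsTest Ω (stream k ξ (fun y => frz N₁ ρ k a y - frz N₂ ρ ξ (frz N₁ ρ k a) y)) :=
    Layer66.isTest_stream k ξ (bump_mono hUΩ (isBump_sub' hb₁ hb₂'))
  refine ⟨N₁, N₂, frz N₂ ρ ξ (frz N₁ ρ k a), W₁ + W₂, hN₁, hN₂, hb₂', ?_, ?_, ?_, ?_⟩
  · have h := Layer66.rep_add t1 t2 hW₁ hW₂
    have e3 : stream k ξ (fun y => a y - frz N₁ ρ k a y)
        + stream k ξ (fun y => frz N₁ ρ k a y - frz N₂ ρ ξ (frz N₁ ρ k a) y)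
        = stream k ξ (fun y => a y - frz N₂ ρ ξ (frz N₁ ρ k a) y) := by
      rw [← stream_add ((isBump_sub' ha hb₁).1.differentiable (by simp))
        ((isBump_sub' hb₁ hb₂').1.differentiable (by simp))]
      congr 1
      funext y
      ring
    rw [e3] at h
    exact h
  · rw [← add_assoc]; exact hm₂
  · rw [← add_assoc]
    exact (hN.step hb hq hh₁ hd₁).step hb hq hh₂ hd₂
  · intro y h1 h2
    exact stream_frozen hS.smooth hk hξ hkξ hN₁ hN₂ ha.1 h1 h2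

/-- From a good datum to a good datum which agrees with `w` on `U`, outside a small set, and is unchanged
outside `U`. -/
theorem lusin (hΩ : IsOpen Ω) (hb : Bornology.IsBounded Ω) {η : ℝ} (hη : 0 < η) {Gd : ℝ → Set (V Ω)}
    (hM : MultiClosed Ω η Gd) {U : Set E} (hU : IsOpen U) (hUΩ : U ⊆ Ω) {w : E → E} (hw : ContDiffOn ℝ ∞ w U)
    (hdiv : ∀ x ∈ U, divField w x = 0)
    {ε ε' : ℝ} (hε : 0 < ε) (hεε' : ε < ε') {n : ℕ} {x₀ x : V Ω} (hx : x ∈ Gd ε) (hxt : InTest x)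
    {q δ τ : ℝ} (hq : 1 ≤ q) (hδ : 0 < δ) (hτ : 0 < τ) (hN : Near q δ n x₀ x) :
    ∃ x' ∈ Gd ε', Near q δ (n + 4) x₀ x' ∧
      volume {y | y ∈ U ∧ (fld x' : E → E) y ≠ w y} ≤ ENNReal.ofReal τ ∧
      ∀ᵐ y ∂(volume.restrict Ω), y ∉ U → (fld x' : E → E) y = (fld x : E → E) y ∧
        (grd x' : E → G) y = (grd x : E → G) y := by
  obtain ⟨s₀, hs₀, hxs⟩ := hxt
  -- potentials
  have hUb : Bornology.IsBounded U := hb.subset hUΩ
  have hw' : ContDiffOn ℝ ∞ (fun y => w y - s₀ y) U := hw.sub hs₀.smooth.contDiffOn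
  have hdiv' : ∀ y ∈ U, divField (fun y => w y - s₀ y) y = 0 := by
    intro y hy
    have h1 : DifferentiableAt ℝ w y := ((hw y hy).contDiffAt (hU.mem_nhds hy)).differentiableAt (by simp)
    have h2 : DifferentiableAt ℝ s₀ y := hs₀.smooth.differentiable (by simp) y
    have h3 := hdiv y hy
    have h4 := hs₀.div y
    unfold divField at h3 h4 ⊢
    rw [fderiv_fun_sub h1 h2]
    have : ∀ i : Fin 3, (fderiv ℝ w y - fderiv ℝ s₀ y) (e i) i = fderiv ℝ w y (e i) i - fderiv ℝ s₀ y (e i) i :=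
      fun i => rfl
    simp only [this, Finset.sum_sub_distrib, h3, h4, sub_zero]
  obtain ⟨A, B, hA, hB, hAB⟩ := pot_local hU hUb _ hw' hdiv' (τ / 2) (half_pos hτ)
  -- the profile
  obtain ⟨C, hC, hslab⟩ := slab_small hΩ hb
  set σ : ℝ := min 1 (τ / (8 * (C + 1))) with hσ
  have hσ0 : 0 < σ := lt_min one_pos (by positivity)
  have hσπ : σ < Real.pi := (min_le_left _ _).trans_lt (by linarith [Real.pi_gt_three])
  have hCσ : C * σ ≤ τ / 8 := by
    have h1 : σ ≤ τ / (8 * (C + 1)) := min_le_right _ _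
    have h2 : C * σ ≤ (C + 1) * σ := by nlinarith
    have h3 : (C + 1) * σ ≤ (C + 1) * (τ / (8 * (C + 1))) := mul_le_mul_of_nonneg_left h1 (by positivity)
    have h4 : (C + 1) * (τ / (8 * (C + 1))) = τ / 8 := by field_simp
    linarith
  obtain ⟨ρ, s, hρs, hρp, hρ1, hsum, htail⟩ := saw_exists σ hσ0 hσπ
  have hS : Saw ρ s := ⟨hρs, hρp, hsum, htail⟩
  have hort : ∀ i j : Fin 3, i ≠ j → ⟪e i, e j⟫ = 0 := by
    intro i j hij
    rw [e_inner]
    simp [e, hij]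
  obtain ⟨N₁, N₂, A₂, W₁, hN₁, hN₂, hA₂, hW₁, hm₁, hn₁, hz₁⟩ := freeze_pair hΩ hb hη hM hU hUΩ hε
    (show ε < (ε + ε') / 2 by linarith) hx hA (norm_e 0) (norm_e 2) (hort 0 2 (by decide)) hS hq hδ hN
  obtain ⟨N₃, N₄, B₂, W₂, hN₃, hN₄, hB₂, hW₂, hm₂, hn₂, hz₂⟩ := freeze_pair hΩ hb hη hM hU hUΩ
    (show 0 < (ε + ε') / 2 by linarith) (show (ε + ε') / 2 < ε' by linarith) hm₁ hB (norm_e 1) (norm_e 2)
    (hort 1 2 (by decide)) hS hq hδ hn₁
  refine ⟨x + W₁ + W₂, hm₂, hn₂, ?_, ?_⟩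
  · set bad : ℝ → Fin 3 → Set E := fun N i => {y | y ∈ Ω ∧ deriv ρ (N * ⟪e i, y⟫) ≠ 1} with hbad
    have hbd : ∀ N i, 1 ≤ N → volume (bad N i) ≤ ENNReal.ofReal (τ / 8) := fun N i hN =>
      (hslab σ hσ0 hσπ ρ hρp hρ1 i N hN).trans (ENNReal.ofReal_le_ofReal hCσ)
    have hf1 : ∀ᵐ y ∂(volume.restrict Ω), (fld (x + W₁ + W₂) : E → E) y
        = s₀ y + stream (e 0) (e 2) (fun y => A y - A₂ y) y + stream (e 1) (e 2) (fun y => B y - B₂ y) y := by
      have h1 : (fld (x + W₁ + W₂) : E → E) =ᵐ[volume.restrict Ω]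
          fun y => (fld (x + W₁) : E → E) y + (fld W₂ : E → E) y := Lp.coeFn_add (fld (x + W₁)) (fld W₂)
      have h2 : (fld (x + W₁) : E → E) =ᵐ[volume.restrict Ω]
          fun y => (fld x : E → E) y + (fld W₁ : E → E) y := Lp.coeFn_add (fld x) (fld W₁)
      filter_upwards [h1, h2, hxs.1, hW₁.1, hW₂.1] with y h3 h4 h5 h6 h7
      have h5' : (fld x : E → E) y = s₀ y := h5
      have h6' : (fld W₁ : E → E) y = _ := h6
      have h7' : (fld W₂ : E → E) y = _ := h7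
      rw [h3, h4, h5', h6', h7']
    have hnull : volume {y | y ∈ Ω ∧ (fld (x + W₁ + W₂) : E → E) y
        ≠ s₀ y + stream (e 0) (e 2) (fun y => A y - A₂ y) y + stream (e 1) (e 2) (fun y => B y - B₂ y) y} = 0 := by
      rw [ae_restrict_iff' hΩ.measurableSet] at hf1
      have h2 := ae_iff.1 hf1
      refine measure_mono_null (fun y hy => ?_) h2
      rintro h3
      exact hy.2 (h3 hy.1)
    have hcover : {y | y ∈ U ∧ (fld (x + W₁ + W₂) : E → E) y ≠ w y}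
        ⊆ {y | y ∈ Ω ∧ (fld (x + W₁ + W₂) : E → E) y ≠ s₀ y + stream (e 0) (e 2) (fun y => A y - A₂ y) y
            + stream (e 1) (e 2) (fun y => B y - B₂ y) y}
          ∪ {y | y ∈ U ∧ stream (e 0) (e 2) A y + stream (e 1) (e 2) B y ≠ w y - s₀ y}
          ∪ (bad N₁ 0 ∪ bad N₂ 2) ∪ (bad N₃ 1 ∪ bad N₄ 2) := by
      rintro y ⟨hyU, hy⟩
      by_contra hcon
      simp only [mem_union, mem_ofPred_eq, not_or, not_and, not_not, hbad] at hcon
      obtain ⟨⟨⟨h1, h2⟩, h3, h4⟩, h5, h6⟩ := hcon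
      have hyΩ := hUΩ hyU
      apply hy
      rw [h1 hyΩ]
      have g1 := hz₁ y (h3 hyΩ) (h4 hyΩ)
      have g2 := hz₂ y (h5 hyΩ) (h6 hyΩ)
      rw [stream_sub (hA.1.differentiable (by simp)) (hA₂.1.differentiable (by simp)),
        stream_sub (hB.1.differentiable (by simp)) (hB₂.1.differentiable (by simp)), Pi.sub_apply, Pi.sub_apply,
        g1, g2, sub_zero, sub_zero, add_assoc, h2 hyU]
      abel
    refine (measure_mono hcover).trans ?_
    refine (measure_union_le _ _).trans ?_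
    refine (add_le_add ((measure_union_le _ _).trans (add_le_add ((measure_union_le _ _).trans
      (add_le_add hnull.le hAB)) ((measure_union_le _ _).trans (add_le_add (hbd N₁ 0 hN₁) (hbd N₂ 2 hN₂)))))
      ((measure_union_le _ _).trans (add_le_add (hbd N₃ 1 hN₃) (hbd N₄ 2 hN₄)))).trans ?_
    have ht8 : 0 ≤ τ / 8 := by positivity
    rw [zero_add, ← ENNReal.ofReal_add ht8 ht8, ← ENNReal.ofReal_add (by positivity) (by positivity),
      ← ENNReal.ofReal_add (by positivity) (by positivity)]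
    exact ENNReal.ofReal_le_ofReal (by linarith)
  · have hzero : ∀ (k ξ : E) {g : E → ℝ}, IsBump U g → ∀ y, y ∉ U →
        stream k ξ g y = 0 ∧ gradField (stream k ξ g) y = 0 := by
      intro k ξ g hg y hy
      have ht := Layer66.isTest_stream k ξ hg
      have h1 : y ∉ tsupport (stream k ξ g) := fun h => hy (ht.supp h)
      refine ⟨image_eq_zero_of_notMem_tsupport h1, ?_⟩
      have h2 : fderiv ℝ (stream k ξ g) y = 0 := by
        have := support_fderiv_subset ℝ (f := stream k ξ g)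
        by_contra h3
        exact h1 (this h3)
      unfold gradField
      rw [h2]
      rfl
    have h1 : (fld (x + W₁ + W₂) : E → E) =ᵐ[volume.restrict Ω]
        fun y => (fld (x + W₁) : E → E) y + (fld W₂ : E → E) y := Lp.coeFn_add (fld (x + W₁)) (fld W₂)
    have h2 : (fld (x + W₁) : E → E) =ᵐ[volume.restrict Ω]
        fun y => (fld x : E → E) y + (fld W₁ : E → E) y := Lp.coeFn_add (fld x) (fld W₁)
    have h1' : (grd (x + W₁ + W₂) : E → G) =ᵐ[volume.restrict Ω]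
        fun y => (grd (x + W₁) : E → G) y + (grd W₂ : E → G) y := Lp.coeFn_add (grd (x + W₁)) (grd W₂)
    have h2' : (grd (x + W₁) : E → G) =ᵐ[volume.restrict Ω]
        fun y => (grd x : E → G) y + (grd W₁ : E → G) y := Lp.coeFn_add (grd x) (grd W₁)
    filter_upwards [h1, h2, h1', h2', hW₁.1, hW₂.1, hW₁.2, hW₂.2] with y g1 g2 g3 g4 g5 g6 g7 g8 hyU
    have z1 := hzero (e 0) (e 2) (isBump_sub' hA hA₂) y hyU
    have z2 := hzero (e 1) (e 2) (isBump_sub' hB hB₂) y hyU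
    have g5' : (fld W₁ : E → E) y = _ := g5
    have g6' : (fld W₂ : E → E) y = _ := g6
    have g7' : (grd W₁ : E → G) y = _ := g7
    have g8' : (grd W₂ : E → G) y = _ := g8
    constructor
    · rw [g1, g2, g5', g6', z1.1, z2.1, add_zero, add_zero]
    · rw [g3, g4, g7', g8', z1.2, z2.2, add_zero, add_zero]

end Pool.Agent.NSL
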