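import Pool.Agent.NSL.SoftLayer

/-!
# MP_fd8964_an, freezing: initial layers with many frequencies
-/

open MeasureTheory Set Filter Topology
open scoped RealInnerProductSpace ContDiff

noncomputable section

namespace Pool.Agent.NSL

open Pool.Agent.NSD Pool.Agent.NSK Pool.Agent.NSK.Layer66

/-- The time factors. -/
def ef (η μ t : ℝ) : ℝ := Real.exp (-(η * μ * t))

theorem ef_nonneg (η μ t : ℝ) : 0 ≤ ef η μ t := (Real.exp_pos _).le

theorem ef_zero (η μ : ℝ) : ef η μ 0 = 1 := by simp [ef]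

theorem ef_mul (η μ ν t : ℝ) : ef η μ t * ef η ν t = ef η (μ + ν) t := by
  unfold ef
  rw [← Real.exp_add]
  congr 1; ring

theorem ef_le {η N μ t : ℝ} (hη : 0 < η) (hμ : N ^ 2 ≤ μ) (ht : 0 ≤ t) : ef η μ t ≤ ex η N t := by
  unfold ef ex
  refine Real.exp_le_exp.2 (neg_le_neg ?_)
  have : η * N ^ 2 ≤ η * μ := mul_le_mul_of_nonneg_left hμ hη.le
  exact mul_le_mul_of_nonneg_right this ht

theorem ef_diff {η N μ t h : ℝ} (hη : 0 < η) (hμ : N ^ 2 ≤ μ) (ht : 0 ≤ t) (hh : 0 ≤ h) :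
    |ef η μ (t + h) - ef η μ t| ≤ η * μ * h * ex η N t := by
  have hμ0 : 0 ≤ μ := (sq_nonneg N).trans hμ
  have h1 : ef η μ (t + h) = ef η μ t * Real.exp (-(η * μ * h)) := by
    unfold ef
    rw [← Real.exp_add]
    congr 1; ring
  have h2 : Real.exp (-(η * μ * h)) ≤ 1 := Real.exp_le_one_iff.2 (by
    have : 0 ≤ η * μ * h := by positivity
    linarith)
  have h3 : 1 - η * μ * h ≤ Real.exp (-(η * μ * h)) := by
    have := Real.add_one_le_exp (-(η * μ * h))
    linarith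
  have h4 := ef_le hη hμ ht
  have h5 := ef_nonneg η μ t
  have e1 : ef η μ (t + h) - ef η μ t = -(ef η μ t * (1 - Real.exp (-(η * μ * h)))) := by
    rw [h1]; ring
  rw [e1, abs_neg, abs_of_nonneg (mul_nonneg h5 (by linarith))]
  calc ef η μ t * (1 - Real.exp (-(η * μ * h))) ≤ ex η N t * (η * μ * h) :=
        mul_le_mul h4 (by linarith) (by linarith) (h5.trans h4)
    _ = _ := by ring

theorem hasDerivAt_ef (η μ t : ℝ) : HasDerivAt (fun t => ef η μ t) (-(η * μ) * ef η μ t) t := by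
  have h := ((hasDerivAt_id t).const_mul (-(η * μ))).exp
  have e1 : (fun t => ef η μ t) = fun t => Real.exp (-(η * μ) * id t) := by
    funext s
    simp only [ef, id]
    congr 1; ring
  rw [e1]
  convert h using 1
  simp only [ef, id]
  rw [mul_comm]
  congr 1
  · congr 1; ring
  · ring

theorem cont_ef (η μ : ℝ) : Continuous (fun t => ef η μ t) := by
  unfold ef
  fun_prop

section sums
variable {ι : Type*} [Fintype ι] {X : Type*} [NormedAddCommGroup X] [NormedSpace ℝ X]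
  {η N B R : ℝ} {μ w : ι → ℝ} {x : ι → X}

theorem es1 (hη : 0 < η) (hN : 1 ≤ N) (hR : 0 ≤ R) (hμ : ∀ i, N ^ 2 ≤ μ i) (hsum : ∑ i, w i ≤ B)
    (hx : ∀ i, μ i * ‖x i‖ ≤ w i * (N ^ 2 * R)) {t : ℝ} (ht : 0 ≤ t) :
    ‖∑ i, ef η (μ i) t • x i‖ ≤ B * R * ex η N t := by
  have hN2 : 0 < N ^ 2 := by positivity
  have hex : 0 ≤ ex η N t := (Real.exp_pos _).le
  have h1 : ∀ i, ‖x i‖ ≤ w i * R := by
    intro i
    have e1 := mul_le_mul_of_nonneg_right (hμ i) (norm_nonneg (x i))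
    have e2 := e1.trans (hx i)
    have e3 : N ^ 2 * ‖x i‖ ≤ N ^ 2 * (w i * R) := e2.trans (le_of_eq (by ring))
    exact le_of_mul_le_mul_left e3 hN2
  calc ‖∑ i, ef η (μ i) t • x i‖ ≤ ∑ i, ‖ef η (μ i) t • x i‖ := norm_sum_le _ _
    _ ≤ ∑ i, ex η N t * (w i * R) := by
        refine Finset.sum_le_sum fun i _ => ?_
        rw [norm_smul, Real.norm_of_nonneg (ef_nonneg _ _ _)]
        exact mul_le_mul (ef_le hη (hμ i) ht) (h1 i) (norm_nonneg _) hex
    _ = (∑ i, w i) * (R * ex η N t) := by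
        rw [Finset.sum_mul]
        exact Finset.sum_congr rfl fun i _ => by ring
    _ ≤ B * (R * ex η N t) := mul_le_mul_of_nonneg_right hsum (by positivity)
    _ = _ := by ring

theorem es2 (hη : 0 < η) (hR : 0 ≤ R) (hμ : ∀ i, N ^ 2 ≤ μ i) (hsum : ∑ i, w i ≤ B)
    (hx : ∀ i, μ i * ‖x i‖ ≤ w i * (N ^ 2 * R)) {t h : ℝ} (ht : 0 ≤ t) (hh : 0 ≤ h) :
    ‖∑ i, ef η (μ i) (t + h) • x i - ∑ i, ef η (μ i) t • x i‖ ≤ η * B * R * N ^ 2 * h * ex η N t := by
  have hex : 0 ≤ ex η N t := (Real.exp_pos _).le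
  rw [← Finset.sum_sub_distrib]
  calc ‖∑ i, (ef η (μ i) (t + h) • x i - ef η (μ i) t • x i)‖
      ≤ ∑ i, ‖ef η (μ i) (t + h) • x i - ef η (μ i) t • x i‖ := norm_sum_le _ _
    _ ≤ ∑ i, η * h * ex η N t * (w i * (N ^ 2 * R)) := by
        refine Finset.sum_le_sum fun i _ => ?_
        rw [← sub_smul, norm_smul, Real.norm_eq_abs]
        calc |ef η (μ i) (t + h) - ef η (μ i) t| * ‖x i‖ ≤ (η * μ i * h * ex η N t) * ‖x i‖ :=
              mul_le_mul_of_nonneg_right (ef_diff hη (hμ i) ht hh) (norm_nonneg _)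
          _ = η * h * ex η N t * (μ i * ‖x i‖) := by ring
          _ ≤ _ := mul_le_mul_of_nonneg_left (hx i) (by positivity)
    _ = (∑ i, w i) * (η * R * N ^ 2 * h * ex η N t) := by
        rw [Finset.sum_mul]
        exact Finset.sum_congr rfl fun i _ => by ring
    _ ≤ B * (η * R * N ^ 2 * h * ex η N t) := mul_le_mul_of_nonneg_right hsum (by positivity)
    _ = _ := by ring

end sums

/-- Systems of many waves with frequencies at least `N`. -/
structure Multi (Ω : Set E) (η B N : ℝ) (n : ℕ) (μ w : Fin n → ℝ) (f : Fin n → E → E) : Prop where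
  test : ∀ i, IsTest Ω (f i)
  mu : ∀ i, N ^ 2 ≤ μ i
  w0 : ∀ i, 0 ≤ w i
  sum : ∑ i, w i ≤ B
  bd : ∀ i x, μ i * ‖f i x‖ ≤ w i * N ^ 2
  dbd : ∀ i x, μ i * ‖fderiv ℝ (f i) x‖ ≤ w i * N ^ 3
  lbd : ∀ i x, μ i * ‖(-(η * μ i)) • f i x - η • lap (f i) x‖ ≤ w i * N ^ 3

theorem rep_sum {Ω : Set E} {n : ℕ} {f : Fin n → E → E} {a : Fin n → V Ω} (hf : ∀ i, IsTest Ω (f i))
    (ha : ∀ i, Represents Ω (f i) (a i : H1 Ω)) : Represents Ω (∑ i, f i) ((∑ i, a i : V Ω) : H1 Ω) := by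
  classical
  have h : ∀ s : Finset (Fin n), IsTest Ω (∑ i ∈ s, f i) ∧
      Represents Ω (∑ i ∈ s, f i) ((∑ i ∈ s, a i : V Ω) : H1 Ω) := by
    intro s
    induction s using Finset.induction_on with
    | empty =>
      simp only [Finset.sum_empty]
      refine ⟨isTest_zero Ω, ⟨Lp.coeFn_zero E 2 _, ?_⟩⟩
      have : gradField (fun _ => (0 : E)) = 0 := gradField_zero
      show ((0 : V Ω) : H1 Ω).snd =ᵐ[volume.restrict Ω] gradField (fun _ => (0 : E))
      rw [this]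
      exact Lp.coeFn_zero G 2 _
    | insert i s hi ih =>
      rw [Finset.sum_insert hi, Finset.sum_insert hi]
      exact ⟨(hf i).add ih.1, Layer66.rep_add (hf i) ih.1 (ha i) ih.2⟩
  exact (h Finset.univ).2

theorem eq_multi {V K : Type} [NormedAddCommGroup V] [InnerProductSpace ℝ V]
    [NormedAddCommGroup K] [InnerProductSpace ℝ K] (D : Data V K) (η : ℝ) {n : ℕ} (μ c : Fin n → ℝ)
    (A : Fin n → V) (s v : V) (lA sA As : Fin n → K) (AA : Fin n → Fin n → K)
    (hlA : ∀ i, D.a (A i) v = -⟪lA i, D.ι v⟫)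
    (hAA : ∀ i j, D.b (A i) (A j) v = ⟪AA i j, D.ι v⟫) (hsA : ∀ i, D.b s (A i) v = ⟪sA i, D.ι v⟫)
    (hAs : ∀ i, D.b (A i) s v = ⟪As i, D.ι v⟫) :
    ⟪D.ι (∑ i, (-(η * μ i) * c i) • A i), D.ι v⟫
    + η * D.a (∑ i, c i • A i) v
    + D.b (∑ i, c i • A i) (∑ i, c i • A i) v
    + D.b s (∑ i, c i • A i) v
    + D.b (∑ i, c i • A i) s v
    = ⟪∑ i, c i • ((-(η * μ i)) • D.ι (A i) - η • lA i + sA i + As i)
      + ∑ p : Fin n × Fin n, (c p.1 * c p.2) • AA p.1 p.2, D.ι v⟫ := by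
  have hb : ∀ (x y : V), D.b (∑ i, c i • A i) y v = ∑ i, c i * D.b (A i) y v := by
    intro _ y
    simp only [map_sum, map_smul, _root_.sum_apply, _root_.smul_apply, smul_eq_mul]
  have hb2 : ∀ (x : V), D.b x (∑ i, c i • A i) v = ∑ i, c i * D.b x (A i) v := by
    intro x
    simp only [map_sum, map_smul, _root_.sum_apply, _root_.smul_apply, smul_eq_mul]
  have ha : D.a (∑ i, c i • A i) v = ∑ i, c i * D.a (A i) v := by
    simp only [map_sum, map_smul, _root_.sum_apply, _root_.smul_apply, smul_eq_mul]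
  have hι : ⟪D.ι (∑ i, (-(η * μ i) * c i) • A i), D.ι v⟫ = ∑ i, -(η * μ i) * c i * ⟪D.ι (A i), D.ι v⟫ := by
    simp only [map_sum, map_smul, sum_inner, real_inner_smul_left]
  have hR : ⟪∑ i, c i • ((-(η * μ i)) • D.ι (A i) - η • lA i + sA i + As i)
      + ∑ p : Fin n × Fin n, (c p.1 * c p.2) • AA p.1 p.2, D.ι v⟫
      = ∑ i, c i * (-(η * μ i) * ⟪D.ι (A i), D.ι v⟫ - η * ⟪lA i, D.ι v⟫ + ⟪sA i, D.ι v⟫ + ⟪As i, D.ι v⟫)
        + ∑ i, ∑ j, c i * c j * ⟪AA i j, D.ι v⟫ := by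
    rw [inner_add_left, sum_inner, sum_inner, Fintype.sum_prod_type]
    congr 1
    · refine Finset.sum_congr rfl fun i _ => ?_
      rw [real_inner_smul_left, inner_add_left, inner_add_left, inner_sub_left, real_inner_smul_left,
        real_inner_smul_left]
    · refine Finset.sum_congr rfl fun i _ => Finset.sum_congr rfl fun j _ => ?_
      rw [real_inner_smul_left]
  have hq : D.b (∑ i, c i • A i) (∑ i, c i • A i) v = ∑ i, ∑ j, c i * c j * ⟪AA i j, D.ι v⟫ := by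
    rw [hb 0]
    refine Finset.sum_congr rfl fun i _ => ?_
    rw [hb2, Finset.mul_sum]
    refine Finset.sum_congr rfl fun j _ => ?_
    rw [hAA]; ring
  rw [hR, hq, hι, ha, hb2, hb 0]
  simp only [hlA, hsA, hAs]
  have key : ∑ i, c i * (-(η * μ i) * ⟪D.ι (A i), D.ι v⟫ - η * ⟪lA i, D.ι v⟫ + ⟪sA i, D.ι v⟫ + ⟪As i, D.ι v⟫)
      = ∑ i, -(η * μ i) * c i * ⟪D.ι (A i), D.ι v⟫ + η * ∑ i, c i * -⟪lA i, D.ι v⟫
        + ∑ i, c i * ⟪sA i, D.ι v⟫ + ∑ i, c i * ⟪As i, D.ι v⟫ := by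
    rw [Finset.mul_sum, ← Finset.sum_add_distrib, ← Finset.sum_add_distrib, ← Finset.sum_add_distrib]
    refine Finset.sum_congr rfl fun i _ => ?_
    ring
  rw [key]
  ring

/-- The layer with many frequencies. -/
theorem multi_layer {Ω : Set E} (hΩo : IsOpen Ω) (hΩb : Bornology.IsBounded Ω) {D : Data (V Ω) (L2 Ω)}
    (hD : IsNSData Ω D) {η : ℝ} (hη : 0 < η) {B : ℝ} (hB : 0 ≤ B)
    {s : E → E} {sV : V Ω} (hs : IsTest Ω s) (hsV : Represents Ω s sV) :
    ∃ M c : ℝ, 0 ≤ M ∧ 0 < c ∧ ∀ N : ℝ, 1 ≤ N → ∀ (n : ℕ) (μ w : Fin n → ℝ) (f : Fin n → E → E),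
      Multi Ω η B N n μ w f → ∃ (P P' : ℝ → V Ω) (ρ : ℝ → L2 Ω),
      Layer D η M c N sV P P' ρ ∧ Represents Ω (∑ i, f i) (P 0) := by
  obtain ⟨hDι, hDa, hDb⟩ := hD
  obtain ⟨K, hK, hKn⟩ := norm_cls (Ω := Ω) E hΩb
  obtain ⟨K', hK', hKn'⟩ := norm_cls (Ω := Ω) G hΩb
  obtain ⟨C₀, hC₀, hs0⟩ := BN_test hs
  obtain ⟨C₁, hC₁, hs1⟩ := BN_dtest hs
  have cadv : ∀ {p r : E → E}, IsTest Ω p → IsTest Ω r → Cls Ω (adv p r) (cls Ω (adv p r)) := fun hp hr =>
    cls_spec Ω (contDiff_adv hp.smooth hr.smooth).continuous (hasCompactSupport_adv hr.compact)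
  have clap : ∀ {p : E → E}, IsTest Ω p → Cls Ω (lap p) (cls Ω (lap p)) := fun hp =>
    cls_spec Ω (contDiff_lap hp.smooth).continuous (hasCompactSupport_lap hp.compact)
  -- the constants
  set R₁ : ℝ := K * (1 + C₀ + C₁) with hR₁
  have hR₁0 : 0 ≤ R₁ := by positivity
  set M : ℝ := (1 + η) * (B + B * R₁ + 2 * B ^ 2 * K + B * K + 2 * B * K') with hM
  have hM0 : 0 ≤ M := by positivity
  have hMa : ∀ x : ℝ, 0 ≤ x → x ≤ B + B * R₁ + 2 * B ^ 2 * K + B * K + 2 * B * K' → x ≤ M ∧ η * x ≤ M := by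
    intro x hx hx'
    have e1 : (1 + η) * x ≤ M := mul_le_mul_of_nonneg_left hx' (by positivity)
    constructor
    · nlinarith
    · nlinarith
  refine ⟨M, η, hM0, hη, fun N hN n μ w f hf => ?_⟩
  have hN0 : 0 < N := by linarith
  have hN12 : N ≤ N ^ 2 := by nlinarith
  have hN23 : N ^ 2 ≤ N ^ 3 := by nlinarith [sq_nonneg N]
  have hμ0 : ∀ i, 0 < μ i := fun i => lt_of_lt_of_le (by positivity) (hf.mu i)
  have hw0 := hf.w0
  have hwB : ∀ i, w i ≤ B := fun i =>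
    (Finset.single_le_sum (fun j _ => hw0 j) (Finset.mem_univ i)).trans hf.sum
  choose a ha using fun i => Rep_proof Ω _ (hf.test i)
  -- pointwise forms
  have pf : ∀ i x, ‖f i x‖ ≤ w i * N ^ 2 / μ i := fun i x => by
    rw [le_div_iff₀ (hμ0 i), mul_comm]; exact hf.bd i x
  have pdf : ∀ i x, ‖fderiv ℝ (f i) x‖ ≤ w i * N ^ 3 / μ i := fun i x => by
    rw [le_div_iff₀ (hμ0 i), mul_comm]; exact hf.dbd i x
  have plf : ∀ i x, ‖(-(η * μ i)) • f i x - η • lap (f i) x‖ ≤ w i * N ^ 3 / μ i := fun i x => by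
    rw [le_div_iff₀ (hμ0 i), mul_comm]; exact hf.lbd i x
  -- L2 classes
  let r : Fin n → L2 Ω := fun i => (-(η * μ i)) • fld (a i) - η • cls Ω (lap (f i))
    + cls Ω (adv s (f i)) + cls Ω (adv (f i) s)
  let q : Fin n → Fin n → L2 Ω := fun i j => cls Ω (adv (f i) (f j))
  have cA : ∀ i, Cls Ω (f i) (fld (a i)) := fun i => (ha i).1
  have cr : ∀ i, Cls Ω (fun x => (-(η * μ i)) • f i x - η • lap (f i) x + adv s (f i) x + adv (f i) s x) (r i) :=
    fun i => ((((cA i).smul _).sub ((clap (hf.test i)).smul _)).add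
      (cadv hs (hf.test i))).add (cadv (hf.test i) hs)
  have bι : ∀ i, μ i * ‖fld (a i)‖ ≤ w i * (N ^ 2 * K) := by
    intro i
    have e1 := hKn (f i) (fld (a i)) (w i * N ^ 2 / μ i) (ha i).1 (by have := hw0 i; have := hμ0 i; positivity)
      (pf i)
    calc μ i * ‖fld (a i)‖ ≤ μ i * (K * (w i * N ^ 2 / μ i)) := mul_le_mul_of_nonneg_left e1 (hμ0 i).le
      _ = w i * (N ^ 2 * K) := by have := hμ0 i; field_simp
  have bg : ∀ i, μ i * ‖grd (a i)‖ ≤ w i * (N ^ 2 * (2 * K' * N)) := by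
    intro i
    have e1 := hKn' (gradField (f i)) (grd (a i)) (2 * (w i * N ^ 3 / μ i)) (ha i).2
      (by have := hw0 i; have := hμ0 i; positivity)
      (fun x => (norm_gradField_le _ _).trans (mul_le_mul_of_nonneg_left (pdf i x) (by norm_num)))
    calc μ i * ‖grd (a i)‖ ≤ μ i * (K' * (2 * (w i * N ^ 3 / μ i))) := mul_le_mul_of_nonneg_left e1 (hμ0 i).le
      _ = w i * (N ^ 2 * (2 * K' * N)) := by have := hμ0 i; field_simp
  have br : ∀ i, μ i * ‖r i‖ ≤ w i * (N ^ 2 * (R₁ * N)) := by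
    intro i
    have hwi := hw0 i
    have hμi := hμ0 i
    have e1 := hKn _ (r i) (w i * N ^ 3 / μ i * (1 + C₀ + C₁)) (cr i) (by positivity) (fun x => by
      have h1 := plf i x
      have h2 : ‖adv s (f i) x‖ ≤ w i * N ^ 3 / μ i * C₀ := by
        refine (norm_adv_le _ _ x).trans ?_
        have := hs0 1 le_rfl x
        simp only [pow_zero, mul_one] at this
        exact mul_le_mul (pdf i x) this (norm_nonneg _) (by positivity)
      have h3 : ‖adv (f i) s x‖ ≤ w i * N ^ 3 / μ i * C₁ := by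
        refine (norm_adv_le _ _ x).trans ?_
        have := hs1 1 le_rfl x
        simp only [pow_zero, mul_one] at this
        have h4 : w i * N ^ 2 / μ i ≤ w i * N ^ 3 / μ i := by gcongr
        calc ‖fderiv ℝ s x‖ * ‖f i x‖ ≤ C₁ * (w i * N ^ 2 / μ i) :=
              mul_le_mul this (pf i x) (norm_nonneg _) hC₁
          _ ≤ C₁ * (w i * N ^ 3 / μ i) := mul_le_mul_of_nonneg_left h4 hC₁
          _ = _ := by ring
      calc _ ≤ ‖(-(η * μ i)) • f i x - η • lap (f i) x‖ + ‖adv s (f i) x‖ + ‖adv (f i) s x‖ :=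
            (norm_add_le _ _).trans (add_le_add_left (norm_add_le _ _) _)
        _ ≤ _ := by linarith)
    calc μ i * ‖r i‖ ≤ μ i * (K * (w i * N ^ 3 / μ i * (1 + C₀ + C₁))) :=
          mul_le_mul_of_nonneg_left e1 hμi.le
      _ = w i * (N ^ 2 * (R₁ * N)) := by rw [hR₁]; field_simp
  -- the pairs
  let μ₂ : Fin n × Fin n → ℝ := fun p => μ p.1 + μ p.2
  let w₂ : Fin n × Fin n → ℝ := fun p => 2 * (w p.1 * w p.2)
  have hμ₂ : ∀ p, N ^ 2 ≤ μ₂ p := fun p => by
    have := hf.mu p.1; have := hμ0 p.2; simp only [μ₂]; linarith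
  have hs₂ : ∑ p, w₂ p ≤ 2 * B ^ 2 := by
    have e1 : ∑ p, w₂ p = 2 * ((∑ i, w i) * ∑ j, w j) := by
      rw [Finset.sum_mul_sum, Fintype.sum_prod_type, Finset.mul_sum]
      refine Finset.sum_congr rfl fun i _ => ?_
      rw [Finset.mul_sum]
    rw [e1]
    have h0 : 0 ≤ ∑ i, w i := Finset.sum_nonneg fun i _ => hw0 i
    have := mul_le_mul hf.sum hf.sum h0 hB
    nlinarith
  have bq : ∀ p : Fin n × Fin n, μ₂ p * ‖q p.1 p.2‖ ≤ w₂ p * (N ^ 2 * (K * N)) := by
    rintro ⟨i, j⟩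
    have hwi := hw0 i
    have hwj := hw0 j
    have hμi := hμ0 i
    have hμj := hμ0 j
    have e1 := hKn _ (q i j) ((w i * N ^ 2 / μ i) * (w j * N ^ 3 / μ j)) (cadv (hf.test i) (hf.test j))
      (by positivity) (fun x => by
        refine (norm_adv_le _ _ x).trans ?_
        rw [mul_comm (w i * N ^ 2 / μ i)]
        exact mul_le_mul (pdf j x) (pf i x) (norm_nonneg _) (by positivity))
    have hμi' : N ^ 2 / μ i ≤ 1 := by rw [div_le_one hμi]; exact hf.mu i
    have hμj' : N ^ 2 / μ j ≤ 1 := by rw [div_le_one hμj]; exact hf.mu j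
    show (μ i + μ j) * ‖q i j‖ ≤ 2 * (w i * w j) * (N ^ 2 * (K * N))
    calc (μ i + μ j) * ‖q i j‖ ≤ (μ i + μ j) * (K * ((w i * N ^ 2 / μ i) * (w j * N ^ 3 / μ j))) :=
          mul_le_mul_of_nonneg_left e1 (by positivity)
      _ = K * w i * w j * N ^ 3 * (N ^ 2 / μ j + N ^ 2 / μ i) := by field_simp
      _ ≤ K * w i * w j * N ^ 3 * (1 + 1) := by gcongr
      _ = _ := by ring
  -- the layer
  let c : Fin n → ℝ → ℝ := fun i t => ef η (μ i) t
  let P : ℝ → V Ω := fun t => ∑ i, c i t • a i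
  let P' : ℝ → V Ω := fun t => ∑ i, (-(η * μ i) * c i t) • a i
  let ρ : ℝ → L2 Ω := fun t => ∑ i, c i t • r i + ∑ p : Fin n × Fin n, (c p.1 t * c p.2 t) • q p.1 p.2
  have hρ : ∀ t, ρ t = ∑ i, ef η (μ i) t • r i + ∑ p : Fin n × Fin n, ef η (μ₂ p) t • q p.1 p.2 := by
    intro t
    show _ + _ = _
    congr 1
    exact Finset.sum_congr rfl fun p _ => by rw [← ef_mul]
  let p : ℝ → E → E := fun t => ∑ i, c i t • f i
  have tp : ∀ t, IsTest Ω (p t) := fun t => isTest_sum fun i => (hf.test i).smul _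
  have rp : ∀ t, Represents Ω (p t) (P t : H1 Ω) := fun t =>
    rep_sum (fun i => (hf.test i).smul _) fun i => Layer66.rep_smul _ (hf.test i) (ha i)
  have hex : ∀ t, 0 ≤ ex η N t := fun t => (Real.exp_pos _).le
  have fι : ∀ t, D.ι (P t) = ∑ i, ef η (μ i) t • fld (a i) := fun t => by
    simp only [P, c, map_sum, map_smul]
    exact Finset.sum_congr rfl fun i _ => by rw [hDι]
  have grdL : ∀ t, grd (P t) = ∑ i, ef η (μ i) t • grd (a i) := fun t => by
    have h1 : grd (P t) = grdLM Ω (P t) := rfl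
    rw [h1]
    simp only [P, c, map_sum, map_smul]
    rfl
  have fsig : ∀ v, D.sig v = ‖grd v‖ := by
    intro v
    unfold Data.sig
    rw [hDa, real_inner_self_eq_norm_sq, Real.sqrt_sq (norm_nonneg _)]
  have px : ∀ t x, p t x = ∑ i, ef η (μ i) t • f i x := fun t x => by
    simp only [p, c, Finset.sum_apply, Pi.smul_apply]
  have star0 : ∀ t, 0 ≤ t → StarBd D (P t) (M * N * ex η N t) := by
    intro t ht
    refine star_proof Ω hΩo hΩb D ⟨hDι, hDa, hDb⟩ (p t) (P t) _ (tp t) (rp t) fun x => ?_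
    rw [px]
    refine (es1 hη hN zero_le_one hf.mu hf.sum (fun i => by rw [mul_one]; exact hf.bd i x) ht).trans ?_
    rw [mul_one]
    have h1 := (hMa B hB (by have : 0 ≤ B * R₁ + 2 * B ^ 2 * K + B * K + 2 * B * K' := by positivity
                             linarith)).1
    have h2 : B ≤ M * N := h1.trans (le_mul_of_one_le_right hM0 hN)
    exact mul_le_mul_of_nonneg_right h2 (hex t)
  have starD : ∀ t h, 0 ≤ t → 0 ≤ h → h ≤ 1 →
      StarBd D (P (t + h) - P t) (M * N ^ 3 * h * ex η N t) := by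
    intro t h ht hh _
    have e1 : P (t + h) - P t = P (t + h) + (-1 : ℝ) • P t := by module
    rw [e1]
    refine star_proof Ω hΩo hΩb D ⟨hDι, hDa, hDb⟩ (p (t + h) + (-1 : ℝ) • p t) _ _ ((tp _).add ((tp t).smul _))
      (Layer66.rep_add (tp _) ((tp t).smul _) (rp _) (Layer66.rep_smul _ (tp t) (rp t))) fun x => ?_
    have e2 : (p (t + h) + (-1 : ℝ) • p t) x
        = ∑ i, ef η (μ i) (t + h) • f i x - ∑ i, ef η (μ i) t • f i x := by
      simp only [Pi.add_apply, Pi.smul_apply, px]; module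
    rw [e2]
    refine (es2 hη zero_le_one hf.mu hf.sum (fun i => by rw [mul_one]; exact hf.bd i x) ht hh).trans ?_
    rw [mul_one]
    have h1 := (hMa B hB (by have : 0 ≤ B * R₁ + 2 * B ^ 2 * K + B * K + 2 * B * K' := by positivity
                             linarith)).2
    have h2 : η * B * N ^ 2 ≤ M * N ^ 3 := mul_le_mul h1 hN23 (by positivity) hM0
    exact mul_le_mul_of_nonneg_right (mul_le_mul_of_nonneg_right h2 hh) (hex t)
  have derivP : ∀ t, HasDerivAt P (P' t) t := fun t => by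
    refine HasDerivAt.fun_sum fun i _ => ?_
    exact (hasDerivAt_ef η (μ i) t).smul_const (a i)
  have contP' : Continuous P' := by
    refine continuous_finsetSum _ fun i _ => ?_
    exact ((continuous_const.mul (cont_ef η (μ i)))).smul continuous_const
  have contρ : Continuous ρ := by
    refine Continuous.add (continuous_finsetSum _ fun i _ => (cont_ef η (μ i)).smul continuous_const)
      (continuous_finsetSum _ fun p _ => ?_)
    exact ((cont_ef η (μ p.1)).mul (cont_ef η (μ p.2))).smul continuous_const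
  have rep0 : Represents Ω (∑ i, f i) (P 0 : H1 Ω) := by
    have h := rp 0
    have e1 : p 0 = ∑ i, f i := by
      simp only [p, c, ef_zero, one_smul]
    rw [← e1]; exact h
  have eqP : ∀ t, 0 ≤ t → ∀ v, ⟪D.ι (P' t), D.ι v⟫ + η * D.a (P t) v + D.b (P t) (P t) v
      + D.b sV (P t) v + D.b (P t) sV v = ⟪ρ t, D.ι v⟫ := by
    intro t _ v
    have la : ∀ {p : E → E} {pV : V Ω}, IsTest Ω p → Represents Ω p (pV : H1 Ω) →
        D.a pV v = -⟪cls Ω (lap p), D.ι v⟫ := by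
      intro p pV hp hpV
      rw [hDa, lap_proof Ω hΩo hΩb p pV hp hpV v, hDι v, inner_cls (clap hp)]
    have ad : ∀ {p r : E → E} {pV rV : V Ω}, IsTest Ω p → IsTest Ω r → Represents Ω p (pV : H1 Ω) →
        Represents Ω r (rV : H1 Ω) → D.b pV rV v = ⟪cls Ω (adv p r), D.ι v⟫ := by
      intro p r pV rV hp hr hpV hrV
      rw [hDb, adv_proof Ω hΩo hΩb p r pV rV hp hr hpV hrV v, hDι v, inner_cls (cadv hp hr)]
    have key := eq_multi D η μ (fun i => c i t) a sV v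
      (fun i => cls Ω (lap (f i))) (fun i => cls Ω (adv s (f i))) (fun i => cls Ω (adv (f i) s)) q
      (fun i => la (hf.test i) (ha i)) (fun i j => ad (hf.test i) (hf.test j) (ha i) (ha j))
      (fun i => ad hs (hf.test i) hsV (ha i)) (fun i => ad (hf.test i) hs (ha i) hsV)
    simp only [hDι (a _)] at key
    exact key
  have hA : B * R₁ + 2 * B ^ 2 * K ≤ B + B * R₁ + 2 * B ^ 2 * K + B * K + 2 * B * K' := by
    have : 0 ≤ B + B * K + 2 * B * K' := by positivity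
    linarith
  have hBK : B * K ≤ B + B * R₁ + 2 * B ^ 2 * K + B * K + 2 * B * K' := by
    have : 0 ≤ B + B * R₁ + 2 * B ^ 2 * K + 2 * B * K' := by positivity
    linarith
  have hBG : 2 * B * K' ≤ B + B * R₁ + 2 * B ^ 2 * K + B * K + 2 * B * K' := by
    have : 0 ≤ B + B * R₁ + 2 * B ^ 2 * K + B * K := by positivity
    linarith
  refine ⟨P, P', ρ, ⟨fun t _ => (derivP t).hasDerivWithinAt, contP'.continuousOn, contρ.continuousOn, eqP, star0,
    starD, ?_, ?_, ?_, ?_, ?_⟩, rep0⟩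
  · intro t ht
    have h1 := es1 hη hN (by positivity : (0:ℝ) ≤ R₁ * N) hf.mu hf.sum br ht
    have h2 := es1 hη hN (by positivity : (0:ℝ) ≤ K * N) hμ₂ hs₂ bq ht
    rw [hρ]
    refine (norm_add_le _ _).trans ((add_le_add h1 h2).trans ?_)
    have h3 := (hMa _ (by positivity) hA).1
    calc _ = (B * R₁ + 2 * B ^ 2 * K) * (N * ex η N t) := by ring
      _ ≤ M * (N * ex η N t) := mul_le_mul_of_nonneg_right h3 (mul_nonneg hN0.le (hex t))
      _ = _ := by ring
  · intro t h ht hh _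
    have h1 := es2 hη (by positivity : (0:ℝ) ≤ R₁ * N) hf.mu hf.sum br ht hh
    have h2 := es2 hη (by positivity : (0:ℝ) ≤ K * N) hμ₂ hs₂ bq ht hh
    rw [hρ, hρ]
    have e1 : ∀ x y z u : L2 Ω, x + y - (z + u) = (x - z) + (y - u) := fun x y z u => by abel
    rw [e1]
    refine (norm_add_le _ _).trans ((add_le_add h1 h2).trans ?_)
    have h3 := (hMa _ (by positivity) hA).2
    calc _ = (η * (B * R₁ + 2 * B ^ 2 * K)) * (N ^ 3 * h * ex η N t) := by ring
      _ ≤ M * (N ^ 3 * h * ex η N t) := mul_le_mul_of_nonneg_right h3 (mul_nonneg (by positivity) (hex t))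
      _ = _ := by ring
  · intro t ht
    rw [fι]
    refine (es1 hη hN hK hf.mu hf.sum bι ht).trans ?_
    have h3 := (hMa _ (by positivity) hBK).1
    exact mul_le_mul_of_nonneg_right (h3.trans (le_mul_of_one_le_right hM0 hN)) (hex t)
  · intro t h ht hh _
    rw [map_sub, fι, fι]
    refine (es2 hη hK hf.mu hf.sum bι ht hh).trans ?_
    have h3 := (hMa _ (by positivity) hBK).2
    have h4 : η * B * K * N ^ 2 ≤ M * N ^ 3 := by
      rw [mul_assoc η]
      exact mul_le_mul h3 hN23 (by positivity) hM0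
    exact mul_le_mul_of_nonneg_right (mul_le_mul_of_nonneg_right h4 hh) (hex t)
  · intro t ht
    rw [fsig, grdL]
    refine (es1 hη hN (by positivity : (0:ℝ) ≤ 2 * K' * N) hf.mu hf.sum bg ht).trans ?_
    have h3 := (hMa _ (by positivity) hBG).1
    have h4 : B * (2 * K' * N) ≤ M * N ^ 2 := by
      calc B * (2 * K' * N) = (2 * B * K') * N := by ring
        _ ≤ M * N ^ 2 := mul_le_mul h3 hN12 hN0.le hM0
    exact mul_le_mul_of_nonneg_right h4 (hex t)

end Pool.Agent.NSL
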