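import Pool.Agent.NSL.Iter

/-!
# MP_fd8964_an, soft waves: values and gradients
-/

open MeasureTheory Set Filter Topology
open scoped RealInnerProductSpace ContDiff

noncomputable section

namespace Pool.Agent.NSL

open Pool.Agent.NSD Pool.Agent.NSK Pool.Agent.NSK.Layer66 Pool.Agent.NSN Pool.Agent.NSN.Lacun

variable {Ω : Set E}

/-- The values. -/
theorem isObs_val : IsObs Ω (fun F : E → E => F) :=
  ⟨fun _ _ _ _ _ => rfl, fun _ hF => hF.smooth.continuous⟩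

theorem sees_val {k ξ : E} (hk : ‖k‖ = 1) (hkξ : ⟪k, ξ⟫ = 0) :
    Sees Ω (fun F : E → E => F) 0 0 k ξ ξ := by
  intro c hc
  obtain ⟨C, hC, hC'⟩ := (hc.isBV.stream k ξ).bound
  refine ⟨C, hC, fun N hN x => ?_⟩
  have hN0 : 0 < N := by linarith
  have e1 : softW 0 N k ξ c x - (Real.cos (N * ⟪k, x⟫ + 0) * c x) • ξ
      = (N⁻¹ * Real.sin (N * ⟪k, x⟫)) • stream k ξ c x := by
    unfold softW
    rw [stream_gS N hk hkξ hc.isBV]
    simp only [Pi.smul_apply, Wv, zero_add, pow_one, add_zero, smul_add, smul_smul]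
    have : N⁻¹ * (Real.cos (N * ⟪k, x⟫) * (N * c x)) = Real.cos (N * ⟪k, x⟫) * c x := by
      field_simp
    rw [this]
    abel
  beta_reduce
  rw [e1, norm_smul, norm_mul, Real.norm_eq_abs, Real.norm_eq_abs, abs_inv, abs_of_pos hN0]
  calc N⁻¹ * |Real.sin (N * ⟪k, x⟫)| * ‖stream k ξ c x‖ ≤ N⁻¹ * 1 * C := by
        gcongr
        · exact Real.abs_sin_le_one _
        · exact hC' x
    _ = C / N := by rw [mul_one, div_eq_inv_mul]

/-- The values and the gradients. -/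
def obs1 (F : E → E) (x : E) : E × G := (F x, gradField F x)

theorem isObs_grad : IsObs Ω obs1 := by
  refine ⟨fun F F' hF hF' x => ?_, fun F hF => ?_⟩
  · unfold obs1
    rw [gradField_add hF.differentiable hF'.differentiable]
    rfl
  · exact hF.smooth.continuous.prodMk (continuous_gradField hF.smooth)

/-- The tensor `k ⊗ ξ`. -/
def tens (k ξ : E) : G := WithLp.toLp 2 (fun i : Fin 3 => k i • ξ)

theorem norm_G_le {g : G} {B : ℝ} (h : ∀ i, ‖g i‖ ≤ B) : ‖g‖ ≤ 2 * B := by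
  have hB : 0 ≤ B := (norm_nonneg _).trans (h 0)
  have h2 : ‖g‖ ^ 2 ≤ (2 * B) ^ 2 := by
    rw [PiLp.norm_sq_eq_of_L2]
    calc ∑ i : Fin 3, ‖g i‖ ^ 2 ≤ ∑ _i : Fin 3, B ^ 2 :=
          Finset.sum_le_sum fun i _ => pow_le_pow_left₀ (norm_nonneg _) (h i) 2
      _ = 3 * B ^ 2 := by simp
      _ ≤ (2 * B) ^ 2 := by nlinarith [sq_nonneg B]
  exact (sq_le_sq₀ (norm_nonneg _) (by positivity)).1 h2

theorem norm_e (i : Fin 3) : ‖e i‖ = 1 := by simp [e]

theorem sees_grad {k ξ : E} (hk : ‖k‖ = 1) (hξ : ‖ξ‖ = 1) (hkξ : ⟪k, ξ⟫ = 0) :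
    Sees Ω obs1 1 (Real.pi / 2) k ξ (0, tens k ξ) := by
  intro c hc
  obtain ⟨C₁, hC₁, h1⟩ := bd_soft (Ω := Ω) 0 hk hξ hkξ hc
  have hp : IsBV (stream k ξ c) := hc.isBV.stream k ξ
  obtain ⟨C₂, hC₂, h2⟩ := hp.bound
  obtain ⟨C₃, hC₃, h3⟩ := hp.fderiv_bound
  obtain ⟨C₄, hC₄, h4⟩ := hc.isBV.fderiv_bound
  refine ⟨C₁ + 2 * (C₂ + C₃ + C₄), by positivity, fun N hN x => ?_⟩
  have hN0 : 0 < N := by linarith
  have hcos : Real.cos (N * ⟪k, x⟫ + Real.pi / 2) = - Real.sin (N * ⟪k, x⟫) := Real.cos_add_pi_div_two _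
  have e0 : obs1 (softW 1 N k ξ c) x - (Real.cos (N * ⟪k, x⟫ + Real.pi / 2) * c x) • ((0 : E), tens k ξ)
      = (softW 1 N k ξ c x, gradField (softW 1 N k ξ c) x + (Real.sin (N * ⟪k, x⟫) * c x) • tens k ξ) := by
    rw [hcos]
    unfold obs1
    refine Prod.ext ?_ ?_
    · simp
    · simp
  rw [e0]
  -- the value
  have v1 : ‖softW 1 N k ξ c x‖ ≤ C₁ / N := by
    have e1 : softW 1 N k ξ c x = N⁻¹ • softW 0 N k ξ c x := by
      unfold softW
      simp only [Pi.smul_apply, smul_smul]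
      congr 1
      rw [← mul_inv]
      ring_nf
    have h := h1 N hN x
    rw [e1, norm_smul, Real.norm_of_nonneg (by positivity), div_eq_inv_mul]
    rw [pow_zero, mul_one] at h
    gcongr
  -- the gradient
  have v2 : ‖gradField (softW 1 N k ξ c) x + (Real.sin (N * ⟪k, x⟫) * c x) • tens k ξ‖
      ≤ 2 * ((C₂ + C₃ + C₄) / N) := by
    refine norm_G_le fun i => ?_
    have hq : IsBV (fun y => (N * c y) • ξ) := by
      have : (fun y => (N * c y) • ξ) = fun y => N • (c y • ξ) := by funext y; rw [smul_smul]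
      rw [this]
      exact (hc.isBV.smul_const ξ).const_smul N
    have e1 : softW 1 N k ξ c = (N ^ 2)⁻¹ • Wv N k (stream k ξ c) (fun y => (N * c y) • ξ) := by
      unfold softW
      rw [stream_gS N hk hkξ hc.isBV]
    have e2 : fderiv ℝ (softW 1 N k ξ c) x (e i)
        = (N ^ 2)⁻¹ • (Real.sin (N * ⟪k, x⟫) • (fderiv ℝ (stream k ξ c) x (e i) - (N * k i) • ((N * c x) • ξ))
          + Real.cos (N * ⟪k, x⟫) • (N • (fderiv ℝ c x (e i) • ξ) + (N * k i) • stream k ξ c x)) := by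
      rw [e1, fderiv_const_smul (differentiableAt_Wv N k x (hp.diffAt x) (hq.diffAt x)), smul_apply,
        fderiv_Wv N k x (e i) (hp.diffAt x) (hq.diffAt x), e_inner]
      congr 4
      have : (fun y => (N * c y) • ξ) = fun y => N • (c y • ξ) := by funext y; rw [smul_smul]
      rw [this]
      have h5 : HasFDerivAt (fun y => N • (c y • ξ)) (N • ((fderiv ℝ c x).smulRight ξ)) x :=
        ((hc.isBV.diffAt x).hasFDerivAt.smul_const ξ).const_smul N
      rw [h5.fderiv]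
      simp
    have e3 : (gradField (softW 1 N k ξ c) x + (Real.sin (N * ⟪k, x⟫) * c x) • tens k ξ) i
        = N⁻¹ • (Real.sin (N * ⟪k, x⟫) • (N⁻¹ • fderiv ℝ (stream k ξ c) x (e i))
          + Real.cos (N * ⟪k, x⟫) • (fderiv ℝ c x (e i) • ξ + k i • stream k ξ c x)) := by
      have e4 : (gradField (softW 1 N k ξ c) x + (Real.sin (N * ⟪k, x⟫) * c x) • tens k ξ) i
          = fderiv ℝ (softW 1 N k ξ c) x (e i) + (Real.sin (N * ⟪k, x⟫) * c x) • (k i • ξ) := rfl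
      rw [e4, e2]
      have hN2 : (N ^ 2)⁻¹ = N⁻¹ * N⁻¹ := by rw [← mul_inv]; ring_nf
      rw [hN2]
      have hNN : N⁻¹ * N = 1 := inv_mul_cancel₀ hN0.ne'
      simp only [smul_add, smul_sub, smul_smul]
      have a1 : N⁻¹ * N⁻¹ * (Real.sin (N * ⟪k, x⟫) * (N * k i * (N * c x))) = Real.sin (N * ⟪k, x⟫) * c x * k i := by
        field_simp
      have a2 : N⁻¹ * N⁻¹ * (Real.cos (N * ⟪k, x⟫) * (N * (fderiv ℝ c x) (e i)))
          = N⁻¹ * (Real.cos (N * ⟪k, x⟫) * (fderiv ℝ c x) (e i)) := by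
        field_simp
      have a3 : N⁻¹ * N⁻¹ * (Real.cos (N * ⟪k, x⟫) * (N * k i)) = N⁻¹ * (Real.cos (N * ⟪k, x⟫) * k i) := by
        field_simp
      have a4 : N⁻¹ * N⁻¹ * Real.sin (N * ⟪k, x⟫) = N⁻¹ * (Real.sin (N * ⟪k, x⟫) * N⁻¹) := by ring
      rw [a1, a2, a3, a4]
      abel
    rw [e3, norm_smul, Real.norm_of_nonneg (by positivity), div_eq_inv_mul]
    gcongr
    refine (norm_sc_le _ _ _).trans ?_
    have hei := norm_e i
    have hki : ‖k i‖ ≤ 1 := by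
      rw [← hk]; exact PiLp.norm_apply_le k i
    have b1 : ‖N⁻¹ • fderiv ℝ (stream k ξ c) x (e i)‖ ≤ C₃ := by
      rw [norm_smul, Real.norm_of_nonneg (by positivity)]
      have h5 := norm_dd_le h3 (e i) x
      rw [hei, mul_one] at h5
      have h6 : N⁻¹ ≤ 1 := inv_le_one_of_one_le₀ hN
      calc N⁻¹ * ‖fderiv ℝ (stream k ξ c) x (e i)‖ ≤ 1 * C₃ :=
            mul_le_mul h6 h5 (norm_nonneg _) zero_le_one
        _ = C₃ := one_mul _
    have b2 : ‖fderiv ℝ c x (e i) • ξ + k i • stream k ξ c x‖ ≤ C₄ + C₂ := by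
      refine (norm_add_le _ _).trans ?_
      rw [norm_smul, norm_smul, hξ, mul_one]
      have h5 : ‖fderiv ℝ c x (e i)‖ ≤ C₄ := by
        have := (fderiv ℝ c x).le_of_opNorm_le (h4 x) (e i)
        rwa [hei, mul_one] at this
      have h6 : ‖k i‖ * ‖stream k ξ c x‖ ≤ 1 * C₂ := mul_le_mul hki (h2 x) (norm_nonneg _) zero_le_one
      linarith
    linarith
  rw [Prod.norm_def]
  have hsum : (C₁ + 2 * (C₂ + C₃ + C₄)) / N = C₁ / N + 2 * ((C₂ + C₃ + C₄) / N) := by ring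
  rw [hsum]
  have p1 : 0 ≤ C₁ / N := by positivity
  have p2 : 0 ≤ 2 * ((C₂ + C₃ + C₄) / N) := by positivity
  exact max_le (v1.trans (by linarith)) (v2.trans (by linarith))

end Pool.Agent.NSL
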