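import Pool.Agent.NSK.Conc

/-!
# MP_fd8964_an, freezing: potentials with compact support
-/

open MeasureTheory Set Filter Topology
open scoped RealInnerProductSpace ContDiff

noncomputable section

namespace Pool.Agent.NSL

open Pool.Agent.NSD Pool.Agent.NSK

/-- The primitive of `g` over a segment in the direction `e 2`. -/
def potPrim (g : E → ℝ) (L : ℝ) (x : E) : ℝ := ∫ s in (0 : ℝ)..L, g (x + s • e 2)

/-- The segment, as a measure. -/
def potSeg (L : ℝ) : Measure E := (volume.restrict (Ioc (0 : ℝ) L)).map (fun s : ℝ => -(s • e 2))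

instance potSeg_finite (L : ℝ) : IsFiniteMeasure (potSeg L) := by
  unfold potSeg
  infer_instance

theorem pot_prim_cont_seg (g : E → ℝ) (hg : Continuous g) {L : ℝ} (hL : 0 ≤ L) (x : E) :
    (convolution (fun _ : E => (1 : ℝ)) g (ContinuousLinearMap.lsmul ℝ ℝ) (potSeg L)) x = potPrim g L x := by
  unfold convolution potPrim potSeg
  rw [integral_map]
  · rw [intervalIntegral.integral_of_le hL]
    refine integral_congr_ae (Eventually.of_forall fun s => ?_)
    simp [sub_neg_eq_add]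
  · exact (by fun_prop : Continuous fun s : ℝ => -(s • e 2)).aemeasurable
  · refine Continuous.aestronglyMeasurable ?_
    simp only [ContinuousLinearMap.lsmul_apply, one_smul]
    exact hg.comp (continuous_const.sub continuous_id)

theorem prim_contDiff {g : E → ℝ} (hg : ContDiff ℝ ∞ g) (hc : HasCompactSupport g) {L : ℝ} (hL : 0 ≤ L) :
    ContDiff ℝ ∞ (potPrim g L) := by
  have h := hc.contDiff_convolution_right (ContinuousLinearMap.lsmul ℝ ℝ) (μ := potSeg L)
    (f := fun _ : E => (1 : ℝ)) (n := ⊤) (locallyIntegrable_const 1) hg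
  have he : (convolution (fun _ : E => (1 : ℝ)) g (ContinuousLinearMap.lsmul ℝ ℝ) (potSeg L)) = potPrim g L :=
    funext fun x => pot_prim_cont_seg g hg.continuous hL x
  rw [he] at h
  exact h

theorem fderiv_prim {g : E → ℝ} (hg : ContDiff ℝ ∞ g) (hc : HasCompactSupport g) {L : ℝ} (x v : E) :
    fderiv ℝ (potPrim g L) x v = ∫ s in (0 : ℝ)..L, fderiv ℝ g (x + s • e 2) v := by
  have h1 : ContDiff ℝ 1 g := hg.of_le (by exact_mod_cast le_top)
  have hcd : Continuous (fderiv ℝ g) := h1.continuous_fderiv one_ne_zero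
  obtain ⟨C, hC⟩ := (hc.fderiv ℝ).exists_bound_of_continuous hcd
  have h : HasFDerivAt (potPrim g L) (∫ s in (0 : ℝ)..L, fderiv ℝ g (x + s • e 2)) x := by
    refine intervalIntegral.hasFDerivAt_integral_of_dominated_of_fderiv_le (𝕜 := ℝ) (bound := fun _ => C)
      (F := fun y s => g (y + s • e 2)) (F' := fun y s => fderiv ℝ g (y + s • e 2)) (s := univ) univ_mem
      ?_ ?_ ?_ ?_ ?_ ?_
    · exact Eventually.of_forall fun y =>
        (hg.continuous.comp (by fun_prop : Continuous fun s : ℝ => y + s • e 2)).aestronglyMeasurable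
    · exact (hg.continuous.comp (by fun_prop : Continuous fun s : ℝ => x + s • e 2)).intervalIntegrable _ _
    · exact (hcd.comp (by fun_prop : Continuous fun s : ℝ => x + s • e 2)).aestronglyMeasurable
    · exact Eventually.of_forall fun s _ y _ => hC _
    · exact intervalIntegrable_const
    · refine Eventually.of_forall fun s _ y _ => ?_
      have h2 : HasFDerivAt g (fderiv ℝ g (y + s • e 2)) (y + s • e 2) :=
        ((h1.differentiable one_ne_zero) _).hasFDerivAt
      have h3 : HasFDerivAt (fun y : E => y + s • e 2) (ContinuousLinearMap.id ℝ E) y :=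
        (hasFDerivAt_id y).add_const _
      have h4 := h2.comp y h3
      rw [ContinuousLinearMap.comp_id] at h4
      exact h4
  rw [h.fderiv, ContinuousLinearMap.intervalIntegral_apply]
  exact (hcd.comp (by fun_prop : Continuous fun s : ℝ => x + s • e 2)).intervalIntegrable _ _

theorem pot_seg_int {g : E → ℝ} (hg : ContDiff ℝ ∞ g) (L : ℝ) (x : E) :
    ∫ s in (0 : ℝ)..L, fderiv ℝ g (x + s • e 2) (e 2) = g (x + L • e 2) - g x := by
  have h1 : ContDiff ℝ 1 g := hg.of_le (by exact_mod_cast le_top)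
  have hd : ∀ s ∈ uIcc (0 : ℝ) L, HasDerivAt (fun s : ℝ => g (x + s • e 2)) (fderiv ℝ g (x + s • e 2) (e 2)) s := by
    intro s _
    have h2 : HasFDerivAt g (fderiv ℝ g (x + s • e 2)) (x + s • e 2) :=
      ((h1.differentiable one_ne_zero) _).hasFDerivAt
    have h3 : HasDerivAt (fun s : ℝ => x + s • e 2) (e 2) s := by
      simpa using ((hasDerivAt_id s).smul_const (e 2)).const_add x
    exact h2.comp_hasDerivAt s h3
  rw [intervalIntegral.integral_eq_sub_of_hasDerivAt hd]
  · simp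
  · refine Continuous.intervalIntegrable ?_ _ _
    exact ((h1.continuous_fderiv one_ne_zero).clm_apply continuous_const).comp (by fun_prop)

theorem pot_fderiv_prim_two {g : E → ℝ} (hg : ContDiff ℝ ∞ g) (hc : HasCompactSupport g) {L : ℝ} (x : E) :
    fderiv ℝ (potPrim g L) x (e 2) = g (x + L • e 2) - g x := by
  rw [fderiv_prim hg hc]
  exact pot_seg_int hg L x
theorem pot_comp_contDiff {w : E → E} (hw : ContDiff ℝ ∞ w) (i : Fin 3) : ContDiff ℝ ∞ (fun x => w x i) :=
  (EuclideanSpace.proj (𝕜 := ℝ) i).contDiff.comp hw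

theorem pot_comp_fderiv {w : E → E} (hw : ContDiff ℝ ∞ w) (i : Fin 3) (x v : E) :
    fderiv ℝ (fun x => w x i) x v = fderiv ℝ w x v i := by
  have h1 : DifferentiableAt ℝ w x := (hw.differentiable (by simp)) x
  have h2 := ((EuclideanSpace.proj (𝕜 := ℝ) i).hasFDerivAt).comp x h1.hasFDerivAt
  have h3 : fderiv ℝ (fun x => w x i) x = (EuclideanSpace.proj (𝕜 := ℝ) i).comp (fderiv ℝ w x) := h2.fderiv
  rw [h3]
  rfl

theorem pot_comp_compact {w : E → E} (hc : HasCompactSupport w) (i : Fin 3) :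
    HasCompactSupport (fun x => w x i) :=
  hc.comp_left (g := fun y : E => y i) rfl

/-- Cut-off functions. -/
theorem pot_cutoff {Ω K : Set E} (hΩ : IsOpen Ω) (hK : IsCompact K) (hKΩ : K ⊆ Ω) :
    ∃ χ : E → ℝ, ContDiff ℝ ∞ χ ∧ HasCompactSupport χ ∧ tsupport χ ⊆ Ω ∧ ∀ x ∈ K, ∀ᶠ y in 𝓝 x, χ y = 1 := by
  obtain ⟨K', hK'c, hKK', hK'Ω⟩ := exists_compact_between hK hΩ hKΩ
  obtain ⟨f, h1, h2, -⟩ := exists_contMDiffMap_one_nhds_of_subset_interior (n := ⊤) (modelWithCornersSelf ℝ E)
    hK.isClosed hKK'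
  have hsub : tsupport (f : E → ℝ) ⊆ K' := by
    refine closure_minimal ?_ hK'c.isClosed
    intro x hx
    by_contra hxK
    exact hx (h2 x hxK)
  refine ⟨f, f.contMDiff.contDiff, hK'c.of_isClosed_subset (isClosed_tsupport _) hsub, hsub.trans hK'Ω, ?_⟩
  · intro x hx
    exact (eventually_nhdsSet_iff_forall.1 h1) x hx

/-- A smooth divergence free field is a sum of two stream fields with potentials of compact support in `Ω`,
except on a small part of `Ω`. -/
theorem pot_exists {Ω : Set E} (hΩ : IsOpen Ω) (hb : Bornology.IsBounded Ω) (w : E → E) (hw : ContDiff ℝ ∞ w)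
    (hc : HasCompactSupport w) (hdiv : ∀ x, divField w x = 0) (ε : ℝ) (hε : 0 < ε) :
    ∃ A B : E → ℝ, IsBump Ω A ∧ IsBump Ω B ∧
      volume {x | x ∈ Ω ∧ stream (e 0) (e 2) A x + stream (e 1) (e 2) B x ≠ w x} ≤ ENNReal.ofReal ε := by
  obtain ⟨R₁, hR₁⟩ := hb.subset_closedBall 0
  obtain ⟨R, hR⟩ := hc.isCompact.isBounded.subset_closedBall 0
  have hfin : volume Ω ≠ ⊤ := hb.measure_lt_top.ne
  obtain ⟨K, hKΩ, hK, hKε⟩ := hΩ.measurableSet.exists_isCompact_sdiff_lt hfin
    (ε := ENNReal.ofReal ε) (by simpa using hε)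
  obtain ⟨χ, hχs, hχc, hχΩ, hχ1⟩ := pot_cutoff hΩ hK hKΩ
  have hcs : ∀ i : Fin 3, ContDiff ℝ ∞ (fun x => w x i) := fun i => pot_comp_contDiff hw i
  have hcc : ∀ i : Fin 3, HasCompactSupport (fun x => w x i) := fun i => pot_comp_compact hc i
  set L : ℝ := |R| + |R₁| + 1 with hLdef
  have hL : 0 ≤ L := by positivity
  have hne : ‖(e 2 : E)‖ = 1 := by simp [e]
  have hzero : ∀ x ∈ Ω, w (x + L • e 2) = 0 := by
    intro x hx
    by_contra hne0
    have h1 : x + L • e 2 ∈ tsupport w := subset_closure hne0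
    have h2 := hR h1
    rw [mem_closedBall_zero_iff] at h2
    have h3 := hR₁ hx
    rw [mem_closedBall_zero_iff] at h3
    have h4 : ‖L • (e 2 : E)‖ ≤ ‖x + L • e 2‖ + ‖x‖ := by
      calc ‖L • (e 2 : E)‖ = ‖(x + L • e 2) - x‖ := by congr 1; abel
        _ ≤ _ := norm_sub_le _ _
    rw [norm_smul, hne, mul_one, Real.norm_eq_abs, abs_of_nonneg hL] at h4
    have h5 := le_abs_self R
    have h6 := le_abs_self R₁
    linarith
  have key : ∀ (f : E → ℝ) (x : E), x ∈ K → ∀ v, fderiv ℝ (fun y => χ y * f y) x v = fderiv ℝ f x v := by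
    intro f x hx v
    have : (fun y => χ y * f y) =ᶠ[𝓝 x] f := by
      filter_upwards [hχ1 x hx] with y hy
      rw [hy, one_mul]
    rw [this.fderiv_eq]
  have hbump : ∀ f : E → ℝ, ContDiff ℝ ∞ f → IsBump Ω (fun y => χ y * f y) := by
    intro f hf
    refine ⟨hχs.mul hf, hχc.mul_right, ?_⟩
    exact (tsupport_mul_subset_left).trans hχΩ
  refine ⟨fun y => χ y * potPrim (fun x => w x 0) L y, fun y => χ y * potPrim (fun x => w x 1) L y,
    hbump _ (prim_contDiff (hcs 0) (hcc 0) hL), hbump _ (prim_contDiff (hcs 1) (hcc 1) hL), ?_⟩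
  refine (measure_mono ?_).trans hKε.le
  rintro x ⟨hxΩ, hx⟩
  refine ⟨hxΩ, fun hxK => hx ?_⟩
  have hz : ∀ i : Fin 3, w (x + L • e 2) i = 0 := fun i => by rw [hzero x hxΩ]; rfl
  have E0 : fderiv ℝ (potPrim (fun x => w x 0) L) x (e 2) = - w x 0 := by
    rw [pot_fderiv_prim_two (hcs 0) (hcc 0), hz 0]; ring
  have E1 : fderiv ℝ (potPrim (fun x => w x 1) L) x (e 2) = - w x 1 := by
    rw [pot_fderiv_prim_two (hcs 1) (hcc 1), hz 1]; ring
  have hint : ∀ (i j : Fin 3), IntervalIntegrable (fun s : ℝ => fderiv ℝ (fun x => w x i) (x + s • e 2) (e j))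
      volume 0 L := by
    intro i j
    refine Continuous.intervalIntegrable ?_ _ _
    have h1 : ContDiff ℝ 1 (fun x => w x i) := (hcs i).of_le (by exact_mod_cast le_top)
    exact ((h1.continuous_fderiv one_ne_zero).clm_apply continuous_const).comp (by fun_prop)
  have E2 : fderiv ℝ (potPrim (fun x => w x 0) L) x (e 0) + fderiv ℝ (potPrim (fun x => w x 1) L) x (e 1) = w x 2 := by
    rw [fderiv_prim (hcs 0) (hcc 0), fderiv_prim (hcs 1) (hcc 1),
      ← intervalIntegral.integral_add (hint 0 0) (hint 1 1)]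
    have h7 : ∀ s : ℝ, fderiv ℝ (fun x => w x 0) (x + s • e 2) (e 0) + fderiv ℝ (fun x => w x 1) (x + s • e 2) (e 1)
        = - fderiv ℝ (fun x => w x 2) (x + s • e 2) (e 2) := by
      intro s
      have h8 := hdiv (x + s • e 2)
      unfold divField at h8
      rw [Fin.sum_univ_three] at h8
      rw [pot_comp_fderiv hw, pot_comp_fderiv hw, pot_comp_fderiv hw]
      linarith
    simp only [h7]
    rw [intervalIntegral.integral_neg, pot_seg_int (hcs 2), hz 2]
    ring
  unfold stream dd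
  rw [key _ x hxK, key _ x hxK, key _ x hxK, key _ x hxK, E0, E1, ← sub_eq_zero]
  ext i
  fin_cases i
  · simp [e]
  · simp [e]
  · simp only [e] at E2
    simp [e]
    linarith

end Pool.Agent.NSL
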