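import Pool.Agent.NSK.Conc

/-!
# MP_fd8964_an, freezing: local potentials
-/

open MeasureTheory Set Filter Topology
open scoped RealInnerProductSpace ContDiff

noncomputable section

namespace Pool.Agent.NSL

open Pool.Agent.NSD Pool.Agent.NSK

/-- The primitive of `g` over a segment in the direction `d`. -/
def pbPrim (d : E) (g : E → ℝ) (L : ℝ) (x : E) : ℝ := ∫ s in (0 : ℝ)..L, g (x + s • d)

/-- The segment, as a measure. -/
def pbSeg (d : E) (L : ℝ) : Measure E := (volume.restrict (Ioc (0 : ℝ) L)).map (fun s : ℝ => -(s • d))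

instance pbSeg_finite (d : E) (L : ℝ) : IsFiniteMeasure (pbSeg d L) := by
  unfold pbSeg
  infer_instance

theorem pb_cont_seg (d : E) (g : E → ℝ) (hg : Continuous g) {L : ℝ} (hL : 0 ≤ L) (x : E) :
    (convolution (fun _ : E => (1 : ℝ)) g (ContinuousLinearMap.lsmul ℝ ℝ) (pbSeg d L)) x = pbPrim d g L x := by
  unfold convolution pbPrim pbSeg
  rw [integral_map]
  · rw [intervalIntegral.integral_of_le hL]
    refine integral_congr_ae (Eventually.of_forall fun s => ?_)
    simp [sub_neg_eq_add]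
  · exact (by fun_prop : Continuous fun s : ℝ => -(s • d)).aemeasurable
  · refine Continuous.aestronglyMeasurable ?_
    simp only [ContinuousLinearMap.lsmul_apply, one_smul]
    exact hg.comp (continuous_const.sub continuous_id)

theorem pb_contDiff (d : E) {g : E → ℝ} (hg : ContDiff ℝ ∞ g) (hc : HasCompactSupport g) {L : ℝ}
    (hL : 0 ≤ L) : ContDiff ℝ ∞ (pbPrim d g L) := by
  have h := hc.contDiff_convolution_right (ContinuousLinearMap.lsmul ℝ ℝ) (μ := pbSeg d L)
    (f := fun _ : E => (1 : ℝ)) (n := ⊤) (locallyIntegrable_const 1) hg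
  have he : (convolution (fun _ : E => (1 : ℝ)) g (ContinuousLinearMap.lsmul ℝ ℝ) (pbSeg d L)) = pbPrim d g L :=
    funext fun x => pb_cont_seg d g hg.continuous hL x
  rw [he] at h
  exact h

theorem pb_fderiv (d : E) {g : E → ℝ} (hg : ContDiff ℝ ∞ g) (hc : HasCompactSupport g) {L : ℝ} (x v : E) :
    fderiv ℝ (pbPrim d g L) x v = ∫ s in (0 : ℝ)..L, fderiv ℝ g (x + s • d) v := by
  have h1 : ContDiff ℝ 1 g := hg.of_le (by exact_mod_cast le_top)
  have hcd : Continuous (fderiv ℝ g) := h1.continuous_fderiv one_ne_zero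
  obtain ⟨C, hC⟩ := (hc.fderiv ℝ).exists_bound_of_continuous hcd
  have h : HasFDerivAt (pbPrim d g L) (∫ s in (0 : ℝ)..L, fderiv ℝ g (x + s • d)) x := by
    refine intervalIntegral.hasFDerivAt_integral_of_dominated_of_fderiv_le (𝕜 := ℝ) (bound := fun _ => C)
      (F := fun y s => g (y + s • d)) (F' := fun y s => fderiv ℝ g (y + s • d)) (s := univ) univ_mem
      ?_ ?_ ?_ ?_ ?_ ?_
    · exact Eventually.of_forall fun y =>
        (hg.continuous.comp (by fun_prop : Continuous fun s : ℝ => y + s • d)).aestronglyMeasurable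
    · exact (hg.continuous.comp (by fun_prop : Continuous fun s : ℝ => x + s • d)).intervalIntegrable _ _
    · exact (hcd.comp (by fun_prop : Continuous fun s : ℝ => x + s • d)).aestronglyMeasurable
    · exact Eventually.of_forall fun s _ y _ => hC _
    · exact intervalIntegrable_const
    · refine Eventually.of_forall fun s _ y _ => ?_
      have h2 : HasFDerivAt g (fderiv ℝ g (y + s • d)) (y + s • d) :=
        ((h1.differentiable one_ne_zero) _).hasFDerivAt
      have h3 : HasFDerivAt (fun y : E => y + s • d) (ContinuousLinearMap.id ℝ E) y :=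
        (hasFDerivAt_id y).add_const _
      have h4 := h2.comp y h3
      rw [ContinuousLinearMap.comp_id] at h4
      exact h4
  rw [h.fderiv, ContinuousLinearMap.intervalIntegral_apply]
  exact (hcd.comp (by fun_prop : Continuous fun s : ℝ => x + s • d)).intervalIntegrable _ _

/-- The fundamental theorem of calculus on a segment. -/
theorem pb_seg_int (d : E) {g : E → ℝ} (hg : ContDiff ℝ ∞ g) (L : ℝ) (x : E) :
    ∫ s in (0 : ℝ)..L, fderiv ℝ g (x + s • d) d = g (x + L • d) - g x := by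
  have h1 : ContDiff ℝ 1 g := hg.of_le (by exact_mod_cast le_top)
  have hd : ∀ s ∈ uIcc (0 : ℝ) L, HasDerivAt (fun s : ℝ => g (x + s • d)) (fderiv ℝ g (x + s • d) d) s := by
    intro s _
    have h2 : HasFDerivAt g (fderiv ℝ g (x + s • d)) (x + s • d) :=
      ((h1.differentiable one_ne_zero) _).hasFDerivAt
    have h3 : HasDerivAt (fun s : ℝ => x + s • d) d s := by
      simpa using ((hasDerivAt_id s).smul_const d).const_add x
    exact h2.comp_hasDerivAt s h3
  rw [intervalIntegral.integral_eq_sub_of_hasDerivAt hd]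
  · simp
  · refine Continuous.intervalIntegrable ?_ _ _
    exact ((h1.continuous_fderiv one_ne_zero).clm_apply continuous_const).comp (by fun_prop)

theorem pb_fderiv_dir (d : E) {g : E → ℝ} (hg : ContDiff ℝ ∞ g) (hc : HasCompactSupport g) {L : ℝ} (x : E) :
    fderiv ℝ (pbPrim d g L) x d = g (x + L • d) - g x := by
  rw [pb_fderiv d hg hc]
  exact pb_seg_int d hg L x

theorem pb_comp_contDiff {w : E → E} (hw : ContDiff ℝ ∞ w) (i : Fin 3) : ContDiff ℝ ∞ (fun x => w x i) :=
  (EuclideanSpace.proj (𝕜 := ℝ) i).contDiff.comp hw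

theorem pb_comp_fderiv {w : E → E} (hw : ContDiff ℝ ∞ w) (i : Fin 3) (x v : E) :
    fderiv ℝ (fun x => w x i) x v = fderiv ℝ w x v i := by
  have h1 : DifferentiableAt ℝ w x := (hw.differentiable (by simp)) x
  have h2 := ((EuclideanSpace.proj (𝕜 := ℝ) i).hasFDerivAt).comp x h1.hasFDerivAt
  have h3 : fderiv ℝ (fun x => w x i) x = (EuclideanSpace.proj (𝕜 := ℝ) i).comp (fderiv ℝ w x) := h2.fderiv
  rw [h3]
  rfl

theorem pb_comp_compact {w : E → E} (hc : HasCompactSupport w) (i : Fin 3) :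
    HasCompactSupport (fun x => w x i) :=
  hc.comp_left (g := fun y : E => y i) rfl

/-- Cut-off functions. -/
theorem pb_cutoff {Ω K : Set E} (hΩ : IsOpen Ω) (hK : IsCompact K) (hKΩ : K ⊆ Ω) :
    ∃ χ : E → ℝ, ContDiff ℝ ∞ χ ∧ HasCompactSupport χ ∧ tsupport χ ⊆ Ω ∧ ∀ x ∈ K, ∀ᶠ y in 𝓝 x, χ y = 1 := by
  obtain ⟨K', hK'c, hKK', hK'Ω⟩ := exists_compact_between hK hΩ hKΩ
  obtain ⟨f, h1, h2, -⟩ := exists_contMDiffMap_one_nhds_of_subset_interior (n := ⊤) (modelWithCornersSelf ℝ E)
    hK.isClosed hKK'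
  have hsub : tsupport (f : E → ℝ) ⊆ K' := by
    refine closure_minimal ?_ hK'c.isClosed
    intro x hx
    by_contra hxK
    exact hx (h2 x hxK)
  refine ⟨f, f.contMDiff.contDiff, hK'c.of_isClosed_subset (isClosed_tsupport _) hsub, hsub.trans hK'Ω, ?_⟩
  intro x hx
  exact (eventually_nhdsSet_iff_forall.1 h1) x hx

/-- The projection to the plane through `c`. -/
def pbP (c x : E) : E := x + (c 2 - x 2) • e 2

theorem pbP_contDiff (c : E) : ContDiff ℝ ∞ (pbP c) := by
  have h : ContDiff ℝ ∞ (fun x : E => c 2 - x 2) :=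
    contDiff_const.sub (EuclideanSpace.proj (𝕜 := ℝ) (2 : Fin 3)).contDiff
  exact contDiff_id.add (h.smul contDiff_const)

theorem pbP_hasFDerivAt (c x : E) :
    HasFDerivAt (pbP c) (ContinuousLinearMap.id ℝ E -
      ((EuclideanSpace.proj (𝕜 := ℝ) (2 : Fin 3) : E →L[ℝ] ℝ)).smulRight (e 2)) x := by
  have h1 : HasFDerivAt (fun x : E => c 2 - x 2) (- (EuclideanSpace.proj (𝕜 := ℝ) (2 : Fin 3) : E →L[ℝ] ℝ)) x :=
    ((EuclideanSpace.proj (𝕜 := ℝ) (2 : Fin 3) : E →L[ℝ] ℝ).hasFDerivAt).const_sub (c 2)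
  have h2 := (hasFDerivAt_id x).add (h1.smul_const (e 2))
  refine h2.congr_fderiv ?_
  ext v i
  simp [sub_eq_add_neg]

theorem pb_fderiv_comp_P {f : E → ℝ} (hf : ContDiff ℝ ∞ f) (c x v : E) :
    fderiv ℝ (fun y => f (pbP c y)) x v = fderiv ℝ f (pbP c x) (v - (v 2) • e 2) := by
  have h1 : HasFDerivAt f (fderiv ℝ f (pbP c x)) (pbP c x) := ((hf.differentiable (by simp)) _).hasFDerivAt
  have h2 := h1.comp x (pbP_hasFDerivAt c x)
  have h3 : fderiv ℝ (fun y => f (pbP c y)) x = _ := h2.fderiv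
  rw [h3]
  simp

/-- Extension by zero of a smooth field which is cut off. -/
theorem pb_ext {U : Set E} (hU : IsOpen U) {w : E → E} (hw : ContDiffOn ℝ ∞ w U) {χ : E → ℝ}
    (hχ : ContDiff ℝ ∞ χ) (hs : tsupport χ ⊆ U) : ContDiff ℝ ∞ (fun x => χ x • w x) := by
  rw [contDiff_iff_contDiffAt]
  intro x
  by_cases hx : x ∈ U
  · exact hχ.contDiffAt.smul (hw.contDiffAt (hU.mem_nhds hx))
  · have h1 : x ∉ tsupport χ := fun h => hx (hs h)
    have h2 : (fun x => χ x • w x) =ᶠ[𝓝 x] fun _ => 0 := by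
      filter_upwards [notMem_tsupport_iff_eventuallyEq.1 h1] with y hy
      rw [hy]
      simp
    exact contDiffAt_const.congr_of_eventuallyEq h2

/-- A smooth divergence free field is a sum of two stream fields on every ball. -/
theorem pot_ball {U : Set E} (hU : IsOpen U) (w : E → E) (hw : ContDiffOn ℝ ∞ w U)
    (hdiv : ∀ x ∈ U, divField w x = 0) (c : E) (r : ℝ) (hr : 0 < r) (hc : Metric.closedBall c r ⊆ U) :
    ∃ A B : E → ℝ, ContDiff ℝ ∞ A ∧ ContDiff ℝ ∞ B ∧
      ∀ x ∈ Metric.ball c r, stream (e 0) (e 2) A x + stream (e 1) (e 2) B x = w x := by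
  obtain ⟨χ, hχs, hχc, hχU, hχ1⟩ := pb_cutoff hU (isCompact_closedBall c r) hc
  set W : E → E := fun x => χ x • w x with hWdef
  have hW : ContDiff ℝ ∞ W := pb_ext hU hw hχs hχU
  have hWc : HasCompactSupport W := hχc.smul_right
  have hWw : ∀ x ∈ Metric.closedBall c r, W =ᶠ[𝓝 x] w := by
    intro x hx
    filter_upwards [hχ1 x hx] with y hy
    rw [hWdef]
    simp [hy]
  have hdivW : ∀ x ∈ Metric.closedBall c r, divField W x = 0 := by
    intro x hx
    have h := hdiv x (hc hx)
    unfold divField at h ⊢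
    rw [(hWw x hx).fderiv_eq]
    exact h
  have hcs : ∀ i : Fin 3, ContDiff ℝ ∞ (fun x => W x i) := fun i => pb_comp_contDiff hW i
  have hcc : ∀ i : Fin 3, HasCompactSupport (fun x => W x i) := fun i => pb_comp_compact hWc i
  obtain ⟨R, hR⟩ := hWc.isCompact.isBounded.subset_closedBall 0
  have hout : ∀ y : E, R < ‖y‖ → y ∉ tsupport W := by
    intro y hy h
    have := hR h
    rw [mem_closedBall_zero_iff] at this
    linarith
  have hne : ∀ i : Fin 3, ‖(e i : E)‖ = 1 := by intro i; simp [e]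
  have hball : ∀ x ∈ Metric.closedBall c r, ‖x‖ ≤ ‖c‖ + r := by
    intro x hx
    rw [mem_closedBall_iff_norm] at hx
    have : x = c + (x - c) := by abel
    calc ‖x‖ = ‖c + (x - c)‖ := by rw [← this]
      _ ≤ ‖c‖ + ‖x - c‖ := norm_add_le _ _
      _ ≤ ‖c‖ + r := by linarith
  set L : ℝ := |R| + ‖c‖ + 3 * r + 1 with hLdef
  have hL : 0 ≤ L := by positivity
  -- far away on the rays
  have hfar : ∀ (i : Fin 3) (x : E), x ∈ Metric.closedBall c r → ∀ s : ℝ, L - 2 * r ≤ s → R < ‖x + s • e i‖ := by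
    intro i x hx s hs
    have h1 := hball x hx
    have h2 : ‖s • (e i : E)‖ ≤ ‖x + s • e i‖ + ‖x‖ := by
      calc ‖s • (e i : E)‖ = ‖(x + s • e i) - x‖ := by congr 1; abel
        _ ≤ _ := norm_sub_le _ _
    rw [norm_smul, hne, mul_one, Real.norm_eq_abs] at h2
    have h3 := le_abs_self s
    have h4 := le_abs_self R
    linarith
  have hWfar : ∀ (i : Fin 3) (x : E), x ∈ Metric.closedBall c r → W (x + L • e i) = 0 := by
    intro i x hx
    exact image_eq_zero_of_notMem_tsupport (hout _ (hfar i x hx L (by linarith)))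
  -- the potentials
  set A0 : E → ℝ := pbPrim (e 2) (fun x => W x 0) L with hA0
  set B0 : E → ℝ := pbPrim (e 2) (fun x => W x 1) L with hB0
  set C0 : E → ℝ := pbPrim (e 1) (fun x => W x 2) L with hC0
  have sA0 : ContDiff ℝ ∞ A0 := pb_contDiff _ (hcs 0) (hcc 0) hL
  have sB0 : ContDiff ℝ ∞ B0 := pb_contDiff _ (hcs 1) (hcc 1) hL
  have sC0 : ContDiff ℝ ∞ C0 := pb_contDiff _ (hcs 2) (hcc 2) hL
  refine ⟨fun x => A0 x - A0 (pbP c x), fun x => B0 x - B0 (pbP c x) - C0 (pbP c x),
    sA0.sub (sA0.comp (pbP_contDiff c)),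
    (sB0.sub (sB0.comp (pbP_contDiff c))).sub (sC0.comp (pbP_contDiff c)), ?_⟩
  intro x hx
  have hxc : x ∈ Metric.closedBall c r := Metric.ball_subset_closedBall hx
  have dif : ∀ {f : E → ℝ}, ContDiff ℝ ∞ f → ∀ y, DifferentiableAt ℝ f y :=
    fun hf y => (hf.differentiable (by simp)) y
  have difP : ∀ {f : E → ℝ}, ContDiff ℝ ∞ f → ∀ y, DifferentiableAt ℝ (fun y => f (pbP c y)) y :=
    fun hf y => dif (hf.comp (pbP_contDiff c)) y
  have fA : ∀ v, fderiv ℝ (fun x => A0 x - A0 (pbP c x)) x v =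
      fderiv ℝ A0 x v - fderiv ℝ A0 (pbP c x) (v - (v 2) • e 2) := by
    intro v
    have h := ((dif sA0 x).hasFDerivAt.sub (difP sA0 x).hasFDerivAt).fderiv
    have h' : fderiv ℝ (fun x => A0 x - A0 (pbP c x)) x = _ := h
    rw [h', ← pb_fderiv_comp_P sA0]
    rfl
  have fB : ∀ v, fderiv ℝ (fun x => B0 x - B0 (pbP c x) - C0 (pbP c x)) x v =
      fderiv ℝ B0 x v - fderiv ℝ B0 (pbP c x) (v - (v 2) • e 2) - fderiv ℝ C0 (pbP c x) (v - (v 2) • e 2) := by
    intro v
    have h := (((dif sB0 x).hasFDerivAt.sub (difP sB0 x).hasFDerivAt).sub (difP sC0 x).hasFDerivAt).fderiv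
    have h' : fderiv ℝ (fun x => B0 x - B0 (pbP c x) - C0 (pbP c x)) x = _ := h
    rw [h', ← pb_fderiv_comp_P sB0, ← pb_fderiv_comp_P sC0]
    rfl
  have v0 : (e 0 : E) - ((e 0 : E) 2) • e 2 = e 0 := by simp [e]
  have v1 : (e 1 : E) - ((e 1 : E) 2) • e 2 = e 1 := by simp [e]
  have v2 : (e 2 : E) - ((e 2 : E) 2) • e 2 = 0 := by simp [e]
  -- the point `y = P x` lies in the ball, and so does the segment
  set δ : ℝ := x 2 - c 2 with hδ
  set y : E := pbP c x with hy
  have hxy : x = y + δ • e 2 := by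
    rw [hy, hδ]
    unfold pbP
    rw [add_assoc, ← add_smul]
    simp
  have hseg : ∀ s : ℝ, |s| ≤ |δ| → y + s • e 2 ∈ Metric.closedBall c r := by
    intro s hs
    rw [mem_closedBall_iff_norm]
    have h1 : ‖y + s • e 2 - c‖ ≤ ‖x - c‖ := by
      rw [EuclideanSpace.norm_eq, EuclideanSpace.norm_eq]
      refine Real.sqrt_le_sqrt ?_
      rw [Fin.sum_univ_three, Fin.sum_univ_three]
      have a0 : (y + s • e 2 - c) 0 = (x - c) 0 := by rw [hy]; simp [pbP, e]
      have a1 : (y + s • e 2 - c) 1 = (x - c) 1 := by rw [hy]; simp [pbP, e]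
      have a2 : (y + s • e 2 - c) 2 = s := by rw [hy]; simp [pbP, e]
      have a3 : (x - c) 2 = δ := by rw [hδ]; simp
      rw [a0, a1, a2, a3]
      have : ‖s‖ ^ 2 ≤ ‖δ‖ ^ 2 := by
        rw [Real.norm_eq_abs, Real.norm_eq_abs]
        exact pow_le_pow_left₀ (abs_nonneg _) hs 2
      linarith
    have h2 : ‖x - c‖ ≤ r := by rwa [mem_closedBall_iff_norm] at hxc
    linarith
  have hyc : y ∈ Metric.closedBall c r := by
    have := hseg 0 (by simp)
    simpa using this
  have hδr : |δ| ≤ r := by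
    have h2 : ‖x - c‖ ≤ r := by rwa [mem_closedBall_iff_norm] at hxc
    have h3 : ‖(x - c) 2‖ ≤ ‖x - c‖ := PiLp.norm_apply_le _ _
    have a3 : (x - c) 2 = δ := by rw [hδ]; simp
    rw [a3, Real.norm_eq_abs] at h3
    linarith
  -- the derivatives in the direction `e 2`
  have E0 : fderiv ℝ A0 x (e 2) = - W x 0 := by
    rw [hA0, pb_fderiv_dir (e 2) (hcs 0) (hcc 0), hWfar 2 x hxc]
    simp
  have E1 : fderiv ℝ B0 x (e 2) = - W x 1 := by
    rw [hB0, pb_fderiv_dir (e 2) (hcs 1) (hcc 1), hWfar 2 x hxc]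
    simp
  have E2 : fderiv ℝ C0 y (e 1) = - W y 2 := by
    rw [hC0, pb_fderiv_dir (e 1) (hcs 2) (hcc 2), hWfar 1 y hyc]
    simp
  -- the horizontal divergence
  set D : E → ℝ := fun z => fderiv ℝ (fun x => W x 0) z (e 0) + fderiv ℝ (fun x => W x 1) z (e 1) with hD
  have hdc : ∀ (i : Fin 3) (v : E), Continuous fun z : E => fderiv ℝ (fun x => W x i) z v := by
    intro i v
    have h1 : ContDiff ℝ 1 (fun x => W x i) := (hcs i).of_le (by exact_mod_cast le_top)
    exact (h1.continuous_fderiv one_ne_zero).clm_apply continuous_const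
  have hDc : Continuous D := (hdc 0 (e 0)).add (hdc 1 (e 1))
  have hG : ∀ z : E, fderiv ℝ A0 z (e 0) + fderiv ℝ B0 z (e 1) = ∫ s in (0 : ℝ)..L, D (z + s • e 2) := by
    intro z
    rw [hA0, hB0, pb_fderiv (e 2) (hcs 0) (hcc 0), pb_fderiv (e 2) (hcs 1) (hcc 1),
      ← intervalIntegral.integral_add]
    · exact ((hdc 0 (e 0)).comp (by fun_prop : Continuous fun s : ℝ => z + s • e 2)).intervalIntegrable _ _
    · exact ((hdc 1 (e 1)).comp (by fun_prop : Continuous fun s : ℝ => z + s • e 2)).intervalIntegrable _ _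
  set F : ℝ → ℝ := fun s => D (y + s • e 2) with hF
  have hFc : Continuous F := hDc.comp (by fun_prop)
  have hFi : ∀ a b : ℝ, IntervalIntegrable F volume a b := fun a b => hFc.intervalIntegrable _ _
  have hGy : ∫ s in (0 : ℝ)..L, D (y + s • e 2) = ∫ s in (0 : ℝ)..L, F s := rfl
  have hGx : ∫ s in (0 : ℝ)..L, D (x + s • e 2) = ∫ s in δ..(L + δ), F s := by
    have h1 : ∫ s in (0 : ℝ)..L, F (s + δ) = ∫ s in (0 + δ)..(L + δ), F s :=
      intervalIntegral.integral_comp_add_right F δ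
    rw [zero_add] at h1
    rw [← h1]
    refine intervalIntegral.integral_congr fun s _ => ?_
    have h2 : x + s • e 2 = y + (s + δ) • e 2 := by
      rw [hxy, add_smul]
      abel
    simp only [hF]
    rw [← h2]
  have hsplit : ∫ s in δ..(L + δ), F s = (∫ s in (0 : ℝ)..L, F s) + (∫ s in L..(L + δ), F s)
      - ∫ s in (0 : ℝ)..δ, F s := by
    rw [← intervalIntegral.integral_add_adjacent_intervals (hFi δ 0) (hFi 0 (L + δ)),
      ← intervalIntegral.integral_add_adjacent_intervals (hFi 0 L) (hFi L (L + δ)),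
      intervalIntegral.integral_symm 0 δ]
    ring
  have hfar0 : ∫ s in L..(L + δ), F s = 0 := by
    have h1 : ∫ s in L..(L + δ), F s = ∫ s in L..(L + δ), (0 : ℝ) := by
      refine intervalIntegral.integral_congr fun s hs => ?_
      have hs' : L - 2 * r ≤ s := by
        rw [uIcc_eq_union, mem_union, mem_Icc, mem_Icc] at hs
        have := abs_le.1 hδr
        rcases hs with h | h
        · linarith [h.1]
        · linarith [h.1]
      have h2 := hout _ (hfar 2 y hyc s hs')
      have h3 : ∀ i : Fin 3, fderiv ℝ (fun x => W x i) (y + s • e 2) = 0 := by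
        intro i
        have h4 : (fun x => W x i) =ᶠ[𝓝 (y + s • e 2)] fun _ => 0 := by
          filter_upwards [notMem_tsupport_iff_eventuallyEq.1 h2] with z hz
          rw [hz]
          rfl
        rw [h4.fderiv_eq]
        simp
      simp only [hF, hD]
      rw [h3 0, h3 1]
      simp
    rw [h1]
    simp
  have hnear : ∫ s in (0 : ℝ)..δ, F s = - (W x 2 - W y 2) := by
    have h1 : ∫ s in (0 : ℝ)..δ, F s = ∫ s in (0 : ℝ)..δ, - fderiv ℝ (fun x => W x 2) (y + s • e 2) (e 2) := by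
      refine intervalIntegral.integral_congr fun s hs => ?_
      have hs' : |s| ≤ |δ| := by
        rw [uIcc_eq_union, mem_union, mem_Icc, mem_Icc] at hs
        rcases hs with h | h
        · rw [abs_of_nonneg h.1, abs_of_nonneg (h.1.trans h.2)]
          exact h.2
        · rw [abs_of_nonpos h.2, abs_of_nonpos (h.1.trans h.2)]
          linarith [h.1]
      have h8 := hdivW _ (hseg s hs')
      unfold divField at h8
      rw [Fin.sum_univ_three] at h8
      simp only [hF, hD]
      rw [pb_comp_fderiv hW, pb_comp_fderiv hW, pb_comp_fderiv hW]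
      linarith
    rw [h1, intervalIntegral.integral_neg, pb_seg_int (e 2) (hcs 2), ← hxy]
  have hsum : fderiv ℝ A0 x (e 0) - fderiv ℝ A0 y (e 0) + (fderiv ℝ B0 x (e 1) - fderiv ℝ B0 y (e 1)
      - fderiv ℝ C0 y (e 1)) = W x 2 := by
    have h1 := hG x
    have h2 := hG y
    rw [hGx, hsplit, hfar0, hnear] at h1
    rw [hGy] at h2
    rw [E2]
    linarith
  have hWx : W x = w x := (hWw x hxc).eq_of_nhds
  rw [← hWx]
  unfold stream dd
  rw [fA, fA, fB, fB, v0, v1, v2, map_zero, map_zero, map_zero, E0, E1, ← sub_eq_zero]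
  ext i
  fin_cases i
  · simp [e]
  · simp [e]
  · simp only [e] at hsum
    simp [e]
    linarith

end Pool.Agent.NSL
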