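import Pool.Agent.NSN.Good

/-!
# MP_fd8964_an, soft waves: initial layers of bounded amplitude
-/

open MeasureTheory Set Filter Topology
open scoped RealInnerProductSpace ContDiff

noncomputable section

namespace Pool.Agent.NSL

open Pool.Agent.NSD Pool.Agent.NSK Pool.Agent.NSK.Layer66

/-- The soft wave of frequency `N` and amplitude `N^{-r}`. -/
def softW (r : ℕ) (N : ℝ) (k ξ : E) (a : E → ℝ) : E → E := (N ^ (r + 1))⁻¹ • stream k ξ (gS N k a)

theorem BN_soft {X : Type*} [NormedAddCommGroup X] [NormedSpace ℝ X] {j : ℕ} (r : ℕ) {F : ℝ → E → X}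
    (hF : BN (j + 1) F) : BN j (fun N x => (N ^ (r + 1))⁻¹ • F N x) := by
  obtain ⟨C, hC, h⟩ := hF
  refine ⟨C, hC, fun N hN x => ?_⟩
  have hN0 : 0 < N := by linarith
  have h1 : 0 < N ^ (r + 1) := by positivity
  have h2 : (1 : ℝ) ≤ N ^ r := one_le_pow₀ hN
  rw [norm_smul, norm_inv, Real.norm_of_nonneg h1.le]
  rw [inv_mul_le_iff₀ h1]
  calc ‖F N x‖ ≤ C * N ^ (j + 1) := h N hN x
    _ = 1 * (N * (C * N ^ j)) := by ring
    _ ≤ N ^ r * (N * (C * N ^ j)) := mul_le_mul_of_nonneg_right h2 (by positivity)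
    _ = N ^ (r + 1) * (C * N ^ j) := by ring

section
variable {Ω : Set E} {k ξ : E} {a : E → ℝ}

theorem isTest_softW (r : ℕ) (N : ℝ) (ha : IsBump Ω a) : IsTest Ω (softW r N k ξ a) :=
  (isTest_stream k ξ (isBump_gS N k ha)).smul _

theorem smooth_wave (N : ℝ) (ha : IsBump Ω a) : ContDiff ℝ ∞ (stream k ξ (gS N k a)) :=
  (isTest_stream k ξ (isBump_gS N k ha)).smooth

theorem bd_soft (r : ℕ) (hk : ‖k‖ = 1) (hξ : ‖ξ‖ = 1) (hkξ : ⟪k, ξ⟫ = 0) (ha : IsBump Ω a) :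
    BN 0 (fun N => softW r N k ξ a) := by
  have h : BN 1 (fun N => stream k ξ (gS N k a)) := by
    obtain ⟨C, hC, h⟩ := wBd_proof k ξ a a hk hξ hkξ (bump_mono (subset_univ _) ha) (bump_mono (subset_univ _) ha)
    exact ⟨C, hC, fun N hN x => by rw [pow_one]; exact (h N hN x).1⟩
  exact BN_soft r h

theorem bd_dsoft (r : ℕ) (hk : ‖k‖ = 1) (hξ : ‖ξ‖ = 1) (hkξ : ⟪k, ξ⟫ = 0) (ha : IsBump Ω a) :
    BN 1 (fun N => fderiv ℝ (softW r N k ξ a)) := by
  have h : BN 2 (fun N => fderiv ℝ (stream k ξ (gS N k a))) := by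
    obtain ⟨C, hC, h⟩ := wBd_proof k ξ a a hk hξ hkξ (bump_mono (subset_univ _) ha) (bump_mono (subset_univ _) ha)
    exact ⟨C, hC, fun N hN x => (h N hN x).2.1⟩
  refine (BN_soft r h).congr fun N x => ?_
  unfold softW
  rw [fderiv_const_smul ((smooth_wave N ha).differentiable (by simp) x)]

/-- The linear residual. -/
theorem bd_lsoft (r : ℕ) {η : ℝ} (hη : 0 < η) (hk : ‖k‖ = 1) (hξ : ‖ξ‖ = 1) (hkξ : ⟪k, ξ⟫ = 0)
    (ha : IsBump Ω a) :
    BN 1 (fun N x => (-(η * N ^ 2)) • softW r N k ξ a x - η • lap (softW r N k ξ a) x) := by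
  have hau : IsBump univ a := bump_mono (subset_univ _) ha
  have hc : IsBump univ (c1 η k a 0) := isBump_c1 η k hau contDiff_const
  have h : BN 2 (fun N x => (-(η * N ^ 2)) • stream k ξ (gS N k a) x - η • lap (stream k ξ (gS N k a)) x) := by
    obtain ⟨C, hC, h⟩ := r1_proof η k ξ a 0 hη hk hξ hkξ hau contDiff_const
    obtain ⟨C', hC', h'⟩ := wBd_proof k ξ a (c1 η k a 0) hk hξ hkξ hau hc
    refine ⟨C + C', by positivity, fun N hN x => ?_⟩
    have h1 := h N hN x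
    have h2 := (h' N hN x).2.2.1
    have e1 : adv (0 : E → E) (stream k ξ (gS N k a)) x = 0 := by simp [adv]
    have e2 : adv (stream k ξ (gS N k a)) (0 : E → E) x = 0 := by
      unfold adv
      have : fderiv ℝ (0 : E → E) x = 0 := by simp
      rw [this]; rfl
    rw [e1, e2, add_zero, add_zero] at h1
    have e3 : (-(η * N ^ 2)) • stream k ξ (gS N k a) x - η • lap (stream k ξ (gS N k a)) x
        = ((-(η * N ^ 2)) • stream k ξ (gS N k a) x - η • lap (stream k ξ (gS N k a)) x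
          + N ^ 2 • stream k ξ (gC N k (c1 η k a 0)) x) - N ^ 2 • stream k ξ (gC N k (c1 η k a 0)) x := by abel
    beta_reduce
    rw [e3]
    have h3 : ‖N ^ 2 • stream k ξ (gC N k (c1 η k a 0)) x‖ ≤ C' * N ^ 2 := by
      rw [norm_smul, Real.norm_of_nonneg (by positivity), mul_comm]
      exact mul_le_mul_of_nonneg_right h2 (by positivity)
    have h4 : C * N ≤ C * N ^ 2 := mul_le_mul_of_nonneg_left (by nlinarith) hC
    calc _ ≤ _ := norm_sub_le _ _
      _ ≤ (C + C') * N ^ 2 := by linarith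
  refine (BN_soft r h).congr fun N x => ?_
  unfold softW
  rw [lap_smul (smooth_wave N ha)]
  simp only [Pi.smul_apply]
  rw [smul_sub, smul_comm, smul_comm η]

end

/-- The algebraic identity. -/
theorem eq_soft {V K : Type} [NormedAddCommGroup V] [InnerProductSpace ℝ V]
    [NormedAddCommGroup K] [InnerProductSpace ℝ K] (D : Data V K) (η N τ : ℝ) (A s v : V)
    (lA AA sA As : K)
    (hlA : D.a A v = -⟪lA, D.ι v⟫)
    (hAA : D.b A A v = ⟪AA, D.ι v⟫) (hsA : D.b s A v = ⟪sA, D.ι v⟫) (hAs : D.b A s v = ⟪As, D.ι v⟫) :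
    ⟪D.ι ((N ^ 2 * (-(η * b1 η τ))) • A), D.ι v⟫
    + η * D.a (b1 η τ • A) v
    + D.b (b1 η τ • A) (b1 η τ • A) v
    + D.b s (b1 η τ • A) v
    + D.b (b1 η τ • A) s v
    = ⟪b1 η τ • ((-(η * N ^ 2)) • D.ι A - η • lA + sA + As)
      + b4 η τ • AA, D.ι v⟫ := by
  simp only [map_smul, _root_.smul_apply, smul_eq_mul, inner_add_left, inner_sub_left,
    real_inner_smul_left, hlA, hAA, hsA, hAs]
  simp only [b1, b4]
  generalize Real.exp (-(η * τ)) = ee
  ring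

theorem soft_layer {Ω : Set E} (hΩo : IsOpen Ω) (hΩb : Bornology.IsBounded Ω) {D : Data (V Ω) (L2 Ω)}
    (hD : IsNSData Ω D) {η : ℝ} (hη : 0 < η) (r : ℕ) {k ξ : E} {a : E → ℝ} (hk : ‖k‖ = 1) (hξ : ‖ξ‖ = 1)
    (hkξ : ⟪k, ξ⟫ = 0) (ha : IsBump Ω a) {s : E → E} {sV : V Ω} (hs : IsTest Ω s) (hsV : Represents Ω s sV) :
    ∃ M c : ℝ, 0 ≤ M ∧ 0 < c ∧ ∀ N : ℝ, 1 ≤ N → ∃ (P P' : ℝ → V Ω) (ρ : ℝ → L2 Ω),
      Layer D η M c N sV P P' ρ ∧ Represents Ω (softW r N k ξ a) (P 0) := by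
  obtain ⟨hDι, hDa, hDb⟩ := hD
  have tA := fun N => isTest_softW (Ω := Ω) (k := k) (ξ := ξ) r N ha
  choose AV hAV using fun N => Rep_proof Ω _ (tA N)
  set A : ℝ → E → E := fun N => softW r N k ξ a with hAdef
  have cA : ∀ N, Cls Ω (A N) (fld (AV N)) := fun N => (hAV N).1
  have cadv : ∀ {p r : E → E}, IsTest Ω p → IsTest Ω r → Cls Ω (adv p r) (cls Ω (adv p r)) := fun hp hr =>
    cls_spec Ω (contDiff_adv hp.smooth hr.smooth).continuous (hasCompactSupport_adv hr.compact)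
  have clap : ∀ {p : E → E}, IsTest Ω p → Cls Ω (lap p) (cls Ω (lap p)) := fun hp =>
    cls_spec Ω (contDiff_lap hp.smooth).continuous (hasCompactSupport_lap hp.compact)
  have bA : BN 0 A := bd_soft r hk hξ hkξ ha
  have bDA : BN 1 (fun N => fderiv ℝ (A N)) := bd_dsoft r hk hξ hkξ ha
  let r1 : ℝ → L2 Ω := fun N => (-(η * N ^ 2)) • fld (AV N) - η • cls Ω (lap (A N))
    + cls Ω (adv s (A N)) + cls Ω (adv (A N) s)
  have bs := BN_test hs
  have bDs := BN_dtest hs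
  have q1 := bd_of_BN (Ω := Ω) hΩb (p := r1)
    (((bd_lsoft (Ω := Ω) r hη hk hξ hkξ ha).add (BN.adv (l := 1) bs bDA (by norm_num))).add
      (BN.adv (l := 1) bA bDs (by norm_num))) (fun N =>
    (((((cA N).smul _).sub ((clap (tA N)).smul _))).add (cadv hs (tA N))).add (cadv (tA N) hs))
  let r4 : ℝ → L2 Ω := fun N => cls Ω (adv (A N) (A N))
  have q4 := bd_of_BN (Ω := Ω) hΩb (p := r4) (BN.adv (l := 1) bA bDA (by norm_num))
    (fun N => cadv (tA N) (tA N))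
  have t1 := tf1 hη
  have t4 := tf4 hη
  obtain ⟨Kρ, hKρ, gρ⟩ := (GF.of_TF t1 q1).add (GF.of_TF t4 q4)
  obtain ⟨Kι, hKι, gι⟩ := GF.of_TF t1 (bd_of_BN hΩb (bA.mono (zero_le_one (α := ℕ))) cA)
  obtain ⟨Kg, hKg, gg⟩ := GF.of_TF t1 (bd_of_BN hΩb (p := fun N => grd (AV N))
    ((BN_gradField bDA).mono (one_le_two)) fun N => (hAV N).2)
  have sw : ∀ {F : ℝ → E → E}, BN 1 F → ∃ K : ℝ, 0 ≤ K ∧ ∀ (x : E) (N : ℝ), 1 ≤ N → ‖F N x‖ ≤ K * N ^ 1 :=
    fun ⟨K, hK, h⟩ => ⟨K, hK, fun x N hN => h N hN x⟩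
  obtain ⟨Ks, hKs, gs⟩ := GF.of_TF (x := fun (x : E) N => A N x) t1 (sw (bA.mono (zero_le_one (α := ℕ))))
  refine ⟨Kρ + Kι + Kg + Ks, η / 2, by positivity, by positivity, fun N hN => ?_⟩
  have hN0 : 0 ≤ N := by linarith
  have hex : ∀ t, 0 ≤ ex (η / 2) N t := fun t => (Real.exp_pos _).le
  let P : ℝ → V Ω := fun t => b1 η (N ^ 2 * t) • AV N
  let P' : ℝ → V Ω := fun t => (N ^ 2 * (-(η * b1 η (N ^ 2 * t)))) • AV N
  let ρ : ℝ → L2 Ω := fun t => b1 η (N ^ 2 * t) • r1 N + b4 η (N ^ 2 * t) • r4 N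
  let p : ℝ → E → E := fun t => b1 η (N ^ 2 * t) • A N
  have tp : ∀ t, IsTest Ω (p t) := fun t => (tA N).smul _
  have rp : ∀ t, Represents Ω (p t) (P t : H1 Ω) := fun t => rep_smul _ (tA N) (hAV N)
  have le1 : ∀ {K u : ℝ}, 0 ≤ u → K ≤ Kρ + Kι + Kg + Ks → K * u ≤ (Kρ + Kι + Kg + Ks) * u := fun hu h =>
    mul_le_mul_of_nonneg_right h hu
  have fι : ∀ t, D.ι (P t) = b1 η (N ^ 2 * t) • fld (AV N) := fun t => hDι (P t)
  have fg : ∀ t, grd (P t) = b1 η (N ^ 2 * t) • grd (AV N) := fun t => rfl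
  have fsig : ∀ v, D.sig v = ‖grd v‖ := by
    intro v
    unfold Data.sig
    rw [hDa, real_inner_self_eq_norm_sq, Real.sqrt_sq (norm_nonneg _)]
  have star0 : ∀ t, 0 ≤ t → StarBd D (P t) ((Kρ + Kι + Kg + Ks) * N * ex (η / 2) N t) := by
    intro t ht
    refine star_proof Ω hΩo hΩb D ⟨hDι, hDa, hDb⟩ (p t) (P t) _ (tp t) (rp t) fun x => ?_
    have h := (gs x N hN).1 t ht
    rw [pow_one, mul_assoc] at h
    rw [mul_assoc]
    exact h.trans (le1 (mul_nonneg hN0 (hex t)) (by linarith))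
  have starD : ∀ t h, 0 ≤ t → 0 ≤ h → h ≤ 1 →
      StarBd D (P (t + h) - P t) ((Kρ + Kι + Kg + Ks) * N ^ 3 * h * ex (η / 2) N t) := by
    intro t h ht hh _
    have e1 : P (t + h) - P t = P (t + h) + (-1 : ℝ) • P t := by module
    rw [e1]
    refine star_proof Ω hΩo hΩb D ⟨hDι, hDa, hDb⟩ (p (t + h) + (-1 : ℝ) • p t) _ _ ((tp _).add ((tp t).smul _))
      (rep_add (tp _) ((tp t).smul _) (rp _) (rep_smul _ (tp t) (rp t))) fun x => ?_
    have h1 := (gs x N hN).2 t h ht hh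
    have e2 : (p (t + h) + (-1 : ℝ) • p t) x = p (t + h) x - p t x := by
      simp only [Pi.add_apply, Pi.smul_apply]; module
    rw [e2]
    have h2 : ‖p (t + h) x - p t x‖ ≤ Ks * (N ^ 3 * h * ex (η / 2) N t) := by
      refine le_trans (le_of_eq ?_) (h1.trans (le_of_eq ?_))
      · rfl
      · ring
    refine h2.trans ((le1 (by have := hex t; positivity) (by linarith)).trans (le_of_eq (by ring)))
  have derivP : ∀ t, HasDerivAt P (P' t) t := fun t => (d_b1 η N t).smul_const (AV N)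
  have k1 := cont_b1 η
  have k4 := cont_b4 η
  have contP' : Continuous P' := by fun_prop
  have contρ : Continuous ρ := by fun_prop
  have rep0 : Represents Ω (softW r N k ξ a) (P 0 : H1 Ω) := by
    have h := rp 0
    have e1 : p 0 = softW r N k ξ a := by
      funext x
      show b1 η (N ^ 2 * 0) • A N x = A N x
      simp only [b1, mul_zero, neg_zero, Real.exp_zero, one_smul]
    rw [← e1]; exact h
  have eqP : ∀ t, 0 ≤ t → ∀ v, ⟪D.ι (P' t), D.ι v⟫ + η * D.a (P t) v + D.b (P t) (P t) v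
      + D.b sV (P t) v + D.b (P t) sV v = ⟪ρ t, D.ι v⟫ := by
    intro t _ v
    have la : ∀ {p : E → E} {pV : V Ω}, IsTest Ω p → Represents Ω p (pV : H1 Ω) →
        D.a pV v = -⟪cls Ω (lap p), D.ι v⟫ := by
      intro p pV hp hpV
      rw [hDa, lap_proof Ω hΩo hΩb p pV hp hpV v, hDι v, inner_cls (clap hp)]
    have ad : ∀ {p r : E → E} {pV rV : V Ω}, IsTest Ω p → IsTest Ω r → Represents Ω p (pV : H1 Ω) →
        Represents Ω r (rV : H1 Ω) → D.b pV rV v = ⟪cls Ω (adv p r), D.ι v⟫ := by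
      intro p r pV rV hp hr hpV hrV
      rw [hDb, adv_proof Ω hΩo hΩb p r pV rV hp hr hpV hrV v, hDι v, inner_cls (cadv hp hr)]
    have key := eq_soft D η N (N ^ 2 * t) (AV N) sV v
      (cls Ω (lap (A N))) (cls Ω (adv (A N) (A N))) (cls Ω (adv s (A N))) (cls Ω (adv (A N) s))
      (la (tA N) (hAV N)) (ad (tA N) (tA N) (hAV N) (hAV N))
      (ad hs (tA N) hsV (hAV N)) (ad (tA N) hs (hAV N) hsV)
    simp only [hDι (AV N)] at key
    exact key
  refine ⟨P, P', ρ, ⟨fun t _ => (derivP t).hasDerivWithinAt, contP'.continuousOn, contρ.continuousOn, eqP, star0,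
    starD, ?_, ?_, ?_, ?_, ?_⟩, rep0⟩
  · intro t ht
    have h : ‖ρ t‖ ≤ Kρ * N ^ 1 * ex (η / 2) N t := (gρ () N hN).1 t ht
    refine h.trans ((le_of_eq (by ring)).trans ((le1 (K := Kρ) (mul_nonneg hN0 (hex t)) (by linarith)).trans
      (le_of_eq (by ring))))
  · intro t h ht hh _
    have h1 : ‖ρ (t + h) - ρ t‖ ≤ Kρ * N ^ (1 + 2) * h * ex (η / 2) N t := (gρ () N hN).2 t h ht hh
    refine h1.trans ((le_of_eq (by ring)).trans ((le1 (K := Kρ) (u := N ^ 3 * h * ex (η / 2) N t)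
      (by have := hex t; positivity) (by linarith)).trans (le_of_eq (by ring))))
  · intro t ht
    have h := (gι () N hN).1 t ht
    rw [fι]
    refine h.trans ((le_of_eq (by ring)).trans ((le1 (K := Kι) (mul_nonneg hN0 (hex t)) (by linarith)).trans
      (le_of_eq (by ring))))
  · intro t h ht hh _
    have h1 := (gι () N hN).2 t h ht hh
    rw [map_sub, fι, fι]
    refine h1.trans ((le_of_eq (by ring)).trans ((le1 (K := Kι) (u := N ^ 3 * h * ex (η / 2) N t)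
      (by have := hex t; positivity) (by linarith)).trans (le_of_eq (by ring))))
  · intro t ht
    have h := (gg () N hN).1 t ht
    rw [fsig, fg]
    refine h.trans ((le_of_eq (by ring)).trans ((le1 (K := Kg) (u := N ^ 2 * ex (η / 2) N t)
      (by have := hex t; positivity) (by linarith)).trans (le_of_eq (by ring))))

end Pool.Agent.NSL
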