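import Pool.Agent.NSL.GenQ
import Pool.Agent.NSL.TransferJ
import Pool.Agent.NSL.Jet

/-!
# MP_fd8964_an: transfer of the general theorem, with values and gradients prescribed in `L^p`
-/

open MeasureTheory Set Filter Topology
open scoped RealInnerProductSpace ContDiff

noncomputable section

namespace Pool.Agent.NSLT

open Pool.Agent Pool.Agent.NSKT Pool.Agent.NSCT

section
variable (VV LE LG SE GE GG : Type) [NormedAddCommGroup VV] [InnerProductSpace ℝ VV] [NormedAddCommGroup LE]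
  [InnerProductSpace ℝ LE] [NormedAddCommGroup LG] [InnerProductSpace ℝ LG]

/-- The theorem for a fixed domain, in terms of abstract spaces. -/
def AbsQ (fl : VV → LE) (gr : VV → LG) (tri : VV → VV → VV → ℝ) (Hs : Submodule ℝ LE) (Test : VV → Prop)
    (Bes : VV → ℝ → ENNReal) (W : VV → Prop) (Pre : SE → GE → GG → ℝ → Prop) (Ex : VV → SE → GE → ENNReal)
    (Dv : VV → GE → ℝ → ENNReal) (Dg : VV → SE → GG → ℝ → ENNReal) (PreC : SE → Prop) (Van : VV → SE → Prop) : Prop :=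
  ∀ (η : ℝ), 0 < η → ∀ (f : ℝ → (VV →L[ℝ] ℝ)), Adm VV LE fl Hs f →
    ∀ (J : Set ℝ), (J = Ici 0 ∨ ∃ T : ℝ, 0 < T ∧ J = Icc 0 T) →
    ∀ (v : ℝ → VV), ((f = 0 ∧ v = 0) ∨ (Test (v 0) ∧ RegJ VV LE LG fl gr tri η J f v)) →
    ∀ (u₀ : VV) (C : SE), PreC C → ∀ (U : SE) (g : GE) (Γ : GG) (p : ℝ), Pre U g Γ p →
    ∀ (K : Set VV) (q ε : ℝ), IsCompact K → 2 < q → 0 < ε →
      ∃ (z : VV) (u : ℝ → VV), Test z ∧ Van z C ∧ (W (u₀ - v 0) → z = 0) ∧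
        Test (u 0) ∧ RegJ VV LE LG fl gr tri η J f u ∧
        Ex (u 0) U g ≤ ENNReal.ofReal ε ∧ Dv (u 0) g p ≤ ENNReal.ofReal ε ∧
        Dg (u 0) U Γ p ≤ ENNReal.ofReal ε ∧
        Bes (u 0 - u₀ - z) q ≤ ENNReal.ofReal ε ∧
        (∀ φ ∈ K, |⟪fl (u 0), fl φ⟫ - ⟪fl (u₀ + z), fl φ⟫| < ε) ∧
        ∀ t ∈ J, ε ≤ t → ‖u t - v t‖ ≤ ε

end

def PreCP (Ω C : Set NSD.E) : Prop := IsCompact C ∧ C ⊆ Ω

theorem absQ_unsealed (Ω : Set NSD.E) (hΩ : IsOpen Ω) (hb : Bornology.IsBounded Ω) :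
    AbsQ (NSD.V Ω) (NSD.L2 Ω) (NSD.L2G Ω) (Set NSD.E) (NSD.E → NSD.E) (NSD.E → NSD.G) NSD.fld NSD.grd NSD.trilin
      (NSD.Hspace Ω) NSK.InTest NSN.besov WD (NSL.PreQ Ω) NSL.ExJ NSL.Dv NSL.DgQ (PreCP Ω) NSL.Van := by
  intro η hη f hf J hJ v hv u₀ C hC U g Γ p hpre K q ε hK hq hε
  obtain ⟨Gd, hGd, hS, hM, hv0, hsol⟩ := NSL.good_all Ω hΩ hb η hη f hf J hJ v hv
  have hT : ∀ ε, 0 < ε → ∀ x ∈ Gd ε, NSK.InTest x := by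
    intro ε hε x hx
    obtain ⟨u, hu0, hut, -⟩ := hsol ε hε x hx
    rw [← hu0]; exact hut
  obtain ⟨z, hz, hzC, hz0, x, hx, h1, h2, h3, h4, h5⟩ := NSL.gen_q hΩ hb hη hGd hS hM hT hv0 u₀ hpre hC.1 hC.2 hK hq hε
  obtain ⟨u, hu0, hut, hus, huv⟩ := hsol ε hε x hx
  subst hu0
  refine ⟨z, u, hz, hzC, fun h => hz0 ?_, hut, hus,
    (NSL.exJ_le hΩ hut hpre.1 hpre.2.1 hpre.2.2.1).trans h3, h4, h5, h1, h2, huv⟩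
  rcases h with ⟨⟨c, hc⟩, ha⟩ | h
  · exact NSN.mem_of_angMom hΩ hc hb ha
  · exact NSN.curlDiv_le Ω h

def PreQS (Ω U : Set NSDS.R3) (g : NSDS.R3 → NSDS.R3) (Γ : NSDS.R3 → NSDS.G3) (p : ℝ) : Prop :=
  IsOpen U ∧ U ⊆ Ω ∧ ContDiffOn ℝ ∞ g U ∧ (∀ x ∈ U, NSDS.divField g x = 0) ∧ 0 < p ∧ p < 1 ∧
    MemLp g (ENNReal.ofReal p) (volume.restrict Ω) ∧ MemLp Γ (ENNReal.ofReal p) (volume.restrict (Ω \ U)) ∧
    ∀ᵐ y ∂(volume.restrict (Ω \ U)), ∑ i : Fin 3, NSDS.coord (NSDS.row (Γ y) i) i = 0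

def DgQS {Ω : Set NSDS.R3} (x : NSDS.V Ω) (U : Set NSDS.R3) (Γ : NSDS.R3 → NSDS.G3) (p : ℝ) : ENNReal :=
  ∫⁻ y in Ω \ U, ‖NSDS.gfn (NSDS.grd x) y - Γ y‖ₑ ^ p

def ExJS {Ω : Set NSDS.R3} (x : NSDS.V Ω) (U : Set NSDS.R3) (g : NSDS.R3 → NSDS.R3) : ENNReal :=
  volume {y | y ∈ U ∧ (NSDS.fn (NSDS.fld x) y ≠ g y ∨ NSDS.gfn (NSDS.grd x) y ≠ NSDS.gradField g y)}

def PreCG (Ω C : Set NSDS.R3) : Prop := IsCompact C ∧ C ⊆ Ω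

def VanG {Ω : Set NSDS.R3} (z : NSDS.V Ω) (C : Set NSDS.R3) : Prop :=
  ∀ᵐ y ∂(volume.restrict C), NSDS.fn (NSDS.fld z) y = 0

theorem keyQ (Ω : Set NSD.E) :
    AbsQ (NSD.V Ω) (NSD.L2 Ω) (NSD.L2G Ω) (Set NSD.E) (NSD.E → NSD.E) (NSD.E → NSD.G) NSD.fld NSD.grd NSD.trilin
      (NSD.Hspace Ω) NSK.InTest NSN.besov WD (NSL.PreQ Ω) NSL.ExJ NSL.Dv NSL.DgQ (PreCP Ω) NSL.Van →
    AbsQ (NSDS.V Ω) (NSDS.L2E Ω) (NSDS.L2G Ω) (Set NSDS.R3) (NSDS.R3 → NSDS.R3) (NSDS.R3 → NSDS.G3) NSDS.fld NSDS.grd NSDS.trilin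
      (NSDS.H Ω) NSKS.IsSmooth NSBS.besov WS (PreQS Ω) ExJS DvS DgQS (PreCG Ω) VanG := by
  delta WD WS PreQS ExJS DvS DgQS PreCG VanG PreCP NSL.PreQ NSL.ExJ NSL.Dv NSL.DgQ NSL.Van NSCS.angMom NSCS.cross NSCS.curlDiv NSCS.curl
    NSCS.divMat NSN.angMom
    NSN.cross NSN.curlDiv NSN.curl NSN.divMat NSBS.besov NSBS.heatExt NSBS.heatK NSN.besov NSN.heatExt NSN.heatK
    NSKS.IsSmooth NSDS.trilin NSDS.fld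
    NSDS.grd NSDS.H NSDS.vI NSDS.vN NSDS.V NSDS.Vsub NSDS.pgrd
    NSDS.pfld NSDS.pairI NSDS.pairN NSDS.Pair NSDS.gfn NSDS.l2gI NSDS.l2gN NSDS.L2G NSDS.fn NSDS.l2I
    NSDS.l2N NSDS.L2E NSDS.IsTest NSDS.divField NSDS.gradField NSDS.row NSDS.g3I NSDS.g3N NSDS.G3
    NSDS.bas NSDS.coord NSDS.r3M NSDS.r3I NSDS.r3N NSDS.R3 NSK.InTest NSD.trilin NSD.fld NSD.grd
    NSD.Hspace NSD.V NSD.Represents NSD.IsTest NSD.divField NSD.gradField NSD.e NSD.L2 NSD.L2G NSD.H1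
    NSD.G NSD.E
  exact fun h => h

theorem absQ_all (Ω : Set NSDS.R3) (hΩ : IsOpen Ω) (hb : Bornology.IsBounded Ω) :
    AbsQ (NSDS.V Ω) (NSDS.L2E Ω) (NSDS.L2G Ω) (Set NSDS.R3) (NSDS.R3 → NSDS.R3) (NSDS.R3 → NSDS.G3) NSDS.fld NSDS.grd NSDS.trilin
      (NSDS.H Ω) NSKS.IsSmooth NSBS.besov WS (PreQS Ω) ExJS DvS DgQS (PreCG Ω) VanG := keyQ Ω (absQ_unsealed Ω hΩ hb)

end Pool.Agent.NSLT
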