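import Pool.Agent.NSL.DualQ
import Pool.Agent.NSL.TransferQ

/-!
# MP_fd8964_an: transfer of the theorem for elements of `V'`, with values and gradients prescribed in `L^p`
-/

open MeasureTheory Set Filter Topology
open scoped RealInnerProductSpace ContDiff

noncomputable section

namespace Pool.Agent.NSLT

open Pool.Agent Pool.Agent.NSKT Pool.Agent.NSCT

section
variable (VV LE LG SE GE GG : Type) [NormedAddCommGroup VV] [InnerProductSpace ℝ VV] [NormedAddCommGroup LE]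
  [InnerProductSpace ℝ LE] [NormedAddCommGroup LG] [InnerProductSpace ℝ LG]

/-- The theorem for a fixed domain, in terms of abstract spaces. -/
def AbsDQ (fl : VV → LE) (gr : VV → LG) (tri : VV → VV → VV → ℝ) (Hs : Submodule ℝ LE) (Test : VV → Prop)
    (Bes : VV → ℝ → ENNReal) (Pre : SE → GE → GG → ℝ → Prop) (Ex : VV → SE → GE → ENNReal)
    (Dv : VV → GE → ℝ → ENNReal) (Dg : VV → SE → GG → ℝ → ENNReal) : Prop :=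
  ∀ (η : ℝ), 0 < η → ∀ (f : ℝ → (VV →L[ℝ] ℝ)), Adm VV LE fl Hs f →
    ∀ (J : Set ℝ), (J = Ici 0 ∨ ∃ T : ℝ, 0 < T ∧ J = Icc 0 T) →
    ∀ (v : ℝ → VV), ((f = 0 ∧ v = 0) ∨ (Test (v 0) ∧ RegJ VV LE LG fl gr tri η J f v)) →
    ∀ (l : VV →L[ℝ] ℝ) (U : SE) (g : GE) (Γ : GG) (p : ℝ), Pre U g Γ p →
    ∀ (K : Set VV) (q ε : ℝ), IsCompact K → 2 < q → 0 < ε →
      ∃ u : ℝ → VV, Test (u 0) ∧ RegJ VV LE LG fl gr tri η J f u ∧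
        Ex (u 0) U g ≤ ENNReal.ofReal ε ∧ Dv (u 0) g p ≤ ENNReal.ofReal ε ∧
        Dg (u 0) U Γ p ≤ ENNReal.ofReal ε ∧
        (∀ φ ∈ K, |⟪fl (u 0), fl φ⟫ - l φ| < ε) ∧
        (∃ y : VV, (∀ φ : VV, |⟪fl y, fl φ⟫ - l φ| ≤ ε * ‖φ‖) ∧ Bes (u 0 - y) q ≤ ENNReal.ofReal ε) ∧
        ∀ t ∈ J, ε ≤ t → ‖u t - v t‖ ≤ ε

end

theorem absDQ_unsealed (Ω : Set NSD.E) (hΩ : IsOpen Ω) (hb : Bornology.IsBounded Ω) :
    AbsDQ (NSD.V Ω) (NSD.L2 Ω) (NSD.L2G Ω) (Set NSD.E) (NSD.E → NSD.E) (NSD.E → NSD.G) NSD.fld NSD.grd NSD.trilin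
      (NSD.Hspace Ω) NSK.InTest NSN.besov (NSL.PreQ Ω) NSL.ExJ NSL.Dv NSL.DgQ := by
  intro η hη f hf J hJ v hv l U g Γ p hpre K q ε hK hq hε
  obtain ⟨Gd, hGd, hS, hM, hv0, hsol⟩ := NSL.good_all Ω hΩ hb η hη f hf J hJ v hv
  have hT : ∀ ε, 0 < ε → ∀ x ∈ Gd ε, NSK.InTest x := by
    intro ε hε x hx
    obtain ⟨u, hu0, hut, -⟩ := hsol ε hε x hx
    rw [← hu0]; exact hut
  obtain ⟨x, hx, y, h1, h2, h3, h4, h5, h6⟩ := NSL.dual_q hΩ hb hη hGd hS hM hT hv0 l hpre hK hq hε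
  obtain ⟨u, hu0, hut, hus, huv⟩ := hsol ε hε x hx
  subst hu0
  exact ⟨u, hut, hus, (NSL.exJ_le hΩ hut hpre.1 hpre.2.1 hpre.2.2.1).trans h4, h5, h6, h2, ⟨y, h1, h3⟩, huv⟩

theorem keyDQ (Ω : Set NSD.E) :
    AbsDQ (NSD.V Ω) (NSD.L2 Ω) (NSD.L2G Ω) (Set NSD.E) (NSD.E → NSD.E) (NSD.E → NSD.G) NSD.fld NSD.grd NSD.trilin
      (NSD.Hspace Ω) NSK.InTest NSN.besov (NSL.PreQ Ω) NSL.ExJ NSL.Dv NSL.DgQ →
    AbsDQ (NSDS.V Ω) (NSDS.L2E Ω) (NSDS.L2G Ω) (Set NSDS.R3) (NSDS.R3 → NSDS.R3) (NSDS.R3 → NSDS.G3) NSDS.fld NSDS.grd NSDS.trilin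
      (NSDS.H Ω) NSKS.IsSmooth NSBS.besov (PreQS Ω) ExJS DvS DgQS := by
  delta PreQS ExJS DvS DgQS NSL.PreQ NSL.ExJ NSL.Dv NSL.DgQ NSBS.besov NSBS.heatExt NSBS.heatK NSN.besov NSN.heatExt NSN.heatK
    NSKS.IsSmooth NSDS.trilin NSDS.fld
    NSDS.grd NSDS.H NSDS.vI NSDS.vN NSDS.V NSDS.Vsub NSDS.pgrd
    NSDS.pfld NSDS.pairI NSDS.pairN NSDS.Pair NSDS.gfn NSDS.l2gI NSDS.l2gN NSDS.L2G NSDS.fn NSDS.l2I
    NSDS.l2N NSDS.L2E NSDS.IsTest NSDS.divField NSDS.gradField NSDS.row NSDS.g3I NSDS.g3N NSDS.G3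
    NSDS.bas NSDS.coord NSDS.r3M NSDS.r3I NSDS.r3N NSDS.R3 NSK.InTest NSD.trilin NSD.fld NSD.grd
    NSD.Hspace NSD.V NSD.Represents NSD.IsTest NSD.divField NSD.gradField NSD.e NSD.L2 NSD.L2G NSD.H1
    NSD.G NSD.E
  exact fun h => h

theorem absDQ_all (Ω : Set NSDS.R3) (hΩ : IsOpen Ω) (hb : Bornology.IsBounded Ω) :
    AbsDQ (NSDS.V Ω) (NSDS.L2E Ω) (NSDS.L2G Ω) (Set NSDS.R3) (NSDS.R3 → NSDS.R3) (NSDS.R3 → NSDS.G3) NSDS.fld NSDS.grd NSDS.trilin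
      (NSDS.H Ω) NSKS.IsSmooth NSBS.besov (PreQS Ω) ExJS DvS DgQS := keyDQ Ω (absDQ_unsealed Ω hΩ hb)

end Pool.Agent.NSLT
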