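import Pool.Agent.NSL.FinalL

/-!
# MP_fd8964_an: transfer of the theorem on agreement outside a small set
-/

open MeasureTheory Set Filter Topology
open scoped RealInnerProductSpace ContDiff

noncomputable section

namespace Pool.Agent.NSLT

open Pool.Agent Pool.Agent.NSKT Pool.Agent.NSCT

def PreLS (Ω U : Set NSDS.R3) (w : NSDS.R3 → NSDS.R3) : Prop :=
  IsOpen U ∧ U ⊆ Ω ∧ ContDiffOn ℝ ∞ w U ∧ ∀ x ∈ U, NSDS.divField w x = 0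

def ExS {Ω : Set NSDS.R3} (x : NSDS.V Ω) (U : Set NSDS.R3) (w : NSDS.R3 → NSDS.R3) : ENNReal :=
  volume {y | y ∈ U ∧ NSDS.fn (NSDS.fld x) y ≠ w y}

theorem keyL (Ω : Set NSD.E) :
    AbsL (NSD.V Ω) (NSD.L2 Ω) (NSD.L2G Ω) (Set NSD.E) (NSD.E → NSD.E) NSD.fld NSD.grd NSD.trilin
      (NSD.Hspace Ω) NSK.InTest NSN.besov WD (NSL.PreL Ω) NSL.Ex →
    AbsL (NSDS.V Ω) (NSDS.L2E Ω) (NSDS.L2G Ω) (Set NSDS.R3) (NSDS.R3 → NSDS.R3) NSDS.fld NSDS.grd NSDS.trilin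
      (NSDS.H Ω) NSKS.IsSmooth NSBS.besov WS (PreLS Ω) ExS := by
  delta WD WS PreLS ExS NSL.PreL NSL.Ex NSCS.angMom NSCS.cross NSCS.curlDiv NSCS.curl NSCS.divMat NSN.angMom
    NSN.cross NSN.curlDiv NSN.curl NSN.divMat NSBS.besov NSBS.heatExt NSBS.heatK NSN.besov NSN.heatExt NSN.heatK
    NSKS.IsSmooth NSDS.trilin NSDS.fld
    NSDS.grd NSDS.H NSDS.vI NSDS.vN NSDS.V NSDS.Vsub NSDS.pgrd
    NSDS.pfld NSDS.pairI NSDS.pairN NSDS.Pair NSDS.l2gI NSDS.l2gN NSDS.L2G NSDS.fn NSDS.l2I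
    NSDS.l2N NSDS.L2E NSDS.IsTest NSDS.divField NSDS.gradField NSDS.g3I NSDS.g3N NSDS.G3
    NSDS.bas NSDS.coord NSDS.r3M NSDS.r3I NSDS.r3N NSDS.R3 NSK.InTest NSD.trilin NSD.fld NSD.grd
    NSD.Hspace NSD.V NSD.Represents NSD.IsTest NSD.divField NSD.gradField NSD.e NSD.L2 NSD.L2G NSD.H1
    NSD.G NSD.E
  exact fun h => h

theorem absL_all (Ω : Set NSDS.R3) (hΩ : IsOpen Ω) (hb : Bornology.IsBounded Ω) :
    AbsL (NSDS.V Ω) (NSDS.L2E Ω) (NSDS.L2G Ω) (Set NSDS.R3) (NSDS.R3 → NSDS.R3) NSDS.fld NSDS.grd NSDS.trilin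
      (NSDS.H Ω) NSKS.IsSmooth NSBS.besov WS (PreLS Ω) ExS := keyL Ω (absL_unsealed Ω hΩ hb)

end Pool.Agent.NSLT
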