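import Pool.Agent.NSL.GenR
import Pool.Agent.NSL.TransferQ
import Pool.Agent.NSL.TransferDQ

/-!
# MP_fd8964_an: transfer of the general theorems with a gauge `φ(s) = o(s²)`
-/

open MeasureTheory Set Filter Topology
open scoped RealInnerProductSpace ContDiff

noncomputable section

namespace Pool.Agent.NSLT

open Pool.Agent Pool.Agent.NSKT Pool.Agent.NSCT

section
variable (VV LE LG SE GE GG : Type) [NormedAddCommGroup VV] [InnerProductSpace ℝ VV] [NormedAddCommGroup LE]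
  [InnerProductSpace ℝ LE] [NormedAddCommGroup LG] [InnerProductSpace ℝ LG]

/-- The theorem for a fixed domain, in terms of abstract spaces. -/
def AbsR (fl : VV → LE) (gr : VV → LG) (tri : VV → VV → VV → ℝ) (Hs : Submodule ℝ LE) (Test : VV → Prop)
    (Bes : VV → (ENNReal → ENNReal) → ENNReal) (W : VV → Prop) (Pre : SE → GE → GG → ℝ → Prop) (Ex : VV → SE → GE → ENNReal)
    (Dv : VV → GE → ℝ → ENNReal) (Dg : VV → SE → GG → ℝ → ENNReal) (PreC : SE → Prop) (Van : VV → SE → Prop) : Prop :=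
  ∀ (η : ℝ), 0 < η → ∀ (f : ℝ → (VV →L[ℝ] ℝ)), Adm VV LE fl Hs f →
    ∀ (J : Set ℝ), (J = Ici 0 ∨ ∃ T : ℝ, 0 < T ∧ J = Icc 0 T) →
    ∀ (v : ℝ → VV), ((f = 0 ∧ v = 0) ∨ (Test (v 0) ∧ RegJ VV LE LG fl gr tri η J f v)) →
    ∀ (u₀ : VV) (C : SE), PreC C → ∀ (U : SE) (g : GE) (Γ : GG) (p : ℝ), Pre U g Γ p →
    ∀ (K : Set VV) (ψ : ENNReal → ENNReal) (ε : ℝ), IsCompact K → NSL.IsGau ψ → 0 < ε →
      ∃ (z : VV) (u : ℝ → VV), Test z ∧ Van z C ∧ (W (u₀ - v 0) → z = 0) ∧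
        Test (u 0) ∧ RegJ VV LE LG fl gr tri η J f u ∧
        Ex (u 0) U g ≤ ENNReal.ofReal ε ∧ Dv (u 0) g p ≤ ENNReal.ofReal ε ∧
        Dg (u 0) U Γ p ≤ ENNReal.ofReal ε ∧
        Bes (u 0 - u₀ - z) ψ ≤ ENNReal.ofReal ε ∧
        (∀ φ ∈ K, |⟪fl (u 0), fl φ⟫ - ⟪fl (u₀ + z), fl φ⟫| < ε) ∧
        ∀ t ∈ J, ε ≤ t → ‖u t - v t‖ ≤ ε

end

theorem absR_unsealed (Ω : Set NSD.E) (hΩ : IsOpen Ω) (hb : Bornology.IsBounded Ω) :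
    AbsR (NSD.V Ω) (NSD.L2 Ω) (NSD.L2G Ω) (Set NSD.E) (NSD.E → NSD.E) (NSD.E → NSD.G) NSD.fld NSD.grd NSD.trilin
      (NSD.Hspace Ω) NSK.InTest NSL.gau WD (NSL.PreQ Ω) NSL.ExJ NSL.Dv NSL.DgQ (PreCP Ω) NSL.Van := by
  intro η hη f hf J hJ v hv u₀ C hC U g Γ p hpre K ψ ε hK hψ hε
  obtain ⟨Gd, hGd, hS, hM, hv0, hsol⟩ := NSL.good_all Ω hΩ hb η hη f hf J hJ v hv
  have hT : ∀ ε, 0 < ε → ∀ x ∈ Gd ε, NSK.InTest x := by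
    intro ε hε x hx
    obtain ⟨u, hu0, hut, -⟩ := hsol ε hε x hx
    rw [← hu0]; exact hut
  obtain ⟨z, hz, hzC, hz0, x, hx, h1, h2, h3, h4, h5⟩ := NSL.gen_r hΩ hb hη hGd hS hM hT hv0 u₀ hpre hC.1 hC.2 hK hψ hε
  obtain ⟨u, hu0, hut, hus, huv⟩ := hsol ε hε x hx
  subst hu0
  refine ⟨z, u, hz, hzC, fun h => hz0 ?_, hut, hus,
    (NSL.exJ_le hΩ hut hpre.1 hpre.2.1 hpre.2.2.1).trans h3, h4, h5, h1, h2, huv⟩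
  rcases h with ⟨⟨c, hc⟩, ha⟩ | h
  · exact NSN.mem_of_angMom hΩ hc hb ha
  · exact NSN.curlDiv_le Ω h

/-- The modular of a gauge. -/
def gauS {Ω : Set NSDS.R3} (w : NSDS.V Ω) (ψ : ENNReal → ENNReal) : ENNReal :=
  ∫⁻ t in Ioi (0 : ℝ), ψ (⨆ x : NSDS.R3, ENNReal.ofReal (√t * ‖NSBS.heatExt w t x‖)) * ENNReal.ofReal (1 / t)

theorem keyR (Ω : Set NSD.E) :
    AbsR (NSD.V Ω) (NSD.L2 Ω) (NSD.L2G Ω) (Set NSD.E) (NSD.E → NSD.E) (NSD.E → NSD.G) NSD.fld NSD.grd NSD.trilin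
      (NSD.Hspace Ω) NSK.InTest NSL.gau WD (NSL.PreQ Ω) NSL.ExJ NSL.Dv NSL.DgQ (PreCP Ω) NSL.Van →
    AbsR (NSDS.V Ω) (NSDS.L2E Ω) (NSDS.L2G Ω) (Set NSDS.R3) (NSDS.R3 → NSDS.R3) (NSDS.R3 → NSDS.G3) NSDS.fld NSDS.grd NSDS.trilin
      (NSDS.H Ω) NSKS.IsSmooth gauS WS (PreQS Ω) ExJS DvS DgQS (PreCG Ω) VanG := by
  delta WD WS PreQS ExJS DvS DgQS PreCG VanG PreCP NSL.PreQ NSL.ExJ NSL.Dv NSL.DgQ NSL.Van NSCS.angMom NSCS.cross NSCS.curlDiv NSCS.curl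
    NSCS.divMat NSN.angMom
    NSN.cross NSN.curlDiv NSN.curl NSN.divMat gauS NSL.gau NSBS.heatExt NSBS.heatK NSN.heatExt NSN.heatK
    NSKS.IsSmooth NSDS.trilin NSDS.fld
    NSDS.grd NSDS.H NSDS.vI NSDS.vN NSDS.V NSDS.Vsub NSDS.pgrd
    NSDS.pfld NSDS.pairI NSDS.pairN NSDS.Pair NSDS.gfn NSDS.l2gI NSDS.l2gN NSDS.L2G NSDS.fn NSDS.l2I
    NSDS.l2N NSDS.L2E NSDS.IsTest NSDS.divField NSDS.gradField NSDS.row NSDS.g3I NSDS.g3N NSDS.G3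
    NSDS.bas NSDS.coord NSDS.r3M NSDS.r3I NSDS.r3N NSDS.R3 NSK.InTest NSD.trilin NSD.fld NSD.grd
    NSD.Hspace NSD.V NSD.Represents NSD.IsTest NSD.divField NSD.gradField NSD.e NSD.L2 NSD.L2G NSD.H1
    NSD.G NSD.E
  exact fun h => h

theorem absR_all (Ω : Set NSDS.R3) (hΩ : IsOpen Ω) (hb : Bornology.IsBounded Ω) :
    AbsR (NSDS.V Ω) (NSDS.L2E Ω) (NSDS.L2G Ω) (Set NSDS.R3) (NSDS.R3 → NSDS.R3) (NSDS.R3 → NSDS.G3) NSDS.fld NSDS.grd NSDS.trilin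
      (NSDS.H Ω) NSKS.IsSmooth gauS WS (PreQS Ω) ExJS DvS DgQS (PreCG Ω) VanG := keyR Ω (absR_unsealed Ω hΩ hb)

section
variable (VV LE LG SE GE GG : Type) [NormedAddCommGroup VV] [InnerProductSpace ℝ VV] [NormedAddCommGroup LE]
  [InnerProductSpace ℝ LE] [NormedAddCommGroup LG] [InnerProductSpace ℝ LG]

/-- The theorem for a fixed domain, in terms of abstract spaces. -/
def AbsDR (fl : VV → LE) (gr : VV → LG) (tri : VV → VV → VV → ℝ) (Hs : Submodule ℝ LE) (Test : VV → Prop)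
    (Bes : VV → (ENNReal → ENNReal) → ENNReal) (Pre : SE → GE → GG → ℝ → Prop) (Ex : VV → SE → GE → ENNReal)
    (Dv : VV → GE → ℝ → ENNReal) (Dg : VV → SE → GG → ℝ → ENNReal) : Prop :=
  ∀ (η : ℝ), 0 < η → ∀ (f : ℝ → (VV →L[ℝ] ℝ)), Adm VV LE fl Hs f →
    ∀ (J : Set ℝ), (J = Ici 0 ∨ ∃ T : ℝ, 0 < T ∧ J = Icc 0 T) →
    ∀ (v : ℝ → VV), ((f = 0 ∧ v = 0) ∨ (Test (v 0) ∧ RegJ VV LE LG fl gr tri η J f v)) →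
    ∀ (l : VV →L[ℝ] ℝ) (U : SE) (g : GE) (Γ : GG) (p : ℝ), Pre U g Γ p →
    ∀ (K : Set VV) (ψ : ENNReal → ENNReal) (ε : ℝ), IsCompact K → NSL.IsGau ψ → 0 < ε →
      ∃ u : ℝ → VV, Test (u 0) ∧ RegJ VV LE LG fl gr tri η J f u ∧
        Ex (u 0) U g ≤ ENNReal.ofReal ε ∧ Dv (u 0) g p ≤ ENNReal.ofReal ε ∧
        Dg (u 0) U Γ p ≤ ENNReal.ofReal ε ∧
        (∀ φ ∈ K, |⟪fl (u 0), fl φ⟫ - l φ| < ε) ∧
        (∃ y : VV, (∀ φ : VV, |⟪fl y, fl φ⟫ - l φ| ≤ ε * ‖φ‖) ∧ Bes (u 0 - y) ψ ≤ ENNReal.ofReal ε) ∧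
        ∀ t ∈ J, ε ≤ t → ‖u t - v t‖ ≤ ε

end

theorem absDR_unsealed (Ω : Set NSD.E) (hΩ : IsOpen Ω) (hb : Bornology.IsBounded Ω) :
    AbsDR (NSD.V Ω) (NSD.L2 Ω) (NSD.L2G Ω) (Set NSD.E) (NSD.E → NSD.E) (NSD.E → NSD.G) NSD.fld NSD.grd NSD.trilin
      (NSD.Hspace Ω) NSK.InTest NSL.gau (NSL.PreQ Ω) NSL.ExJ NSL.Dv NSL.DgQ := by
  intro η hη f hf J hJ v hv l U g Γ p hpre K ψ ε hK hψ hε
  obtain ⟨Gd, hGd, hS, hM, hv0, hsol⟩ := NSL.good_all Ω hΩ hb η hη f hf J hJ v hv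
  have hT : ∀ ε, 0 < ε → ∀ x ∈ Gd ε, NSK.InTest x := by
    intro ε hε x hx
    obtain ⟨u, hu0, hut, -⟩ := hsol ε hε x hx
    rw [← hu0]; exact hut
  obtain ⟨x, hx, y, h1, h2, h3, h4, h5, h6⟩ := NSL.dual_r hΩ hb hη hGd hS hM hT hv0 l hpre hK hψ hε
  obtain ⟨u, hu0, hut, hus, huv⟩ := hsol ε hε x hx
  subst hu0
  exact ⟨u, hut, hus, (NSL.exJ_le hΩ hut hpre.1 hpre.2.1 hpre.2.2.1).trans h4, h5, h6, h2, ⟨y, h1, h3⟩, huv⟩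

theorem keyDR (Ω : Set NSD.E) :
    AbsDR (NSD.V Ω) (NSD.L2 Ω) (NSD.L2G Ω) (Set NSD.E) (NSD.E → NSD.E) (NSD.E → NSD.G) NSD.fld NSD.grd NSD.trilin
      (NSD.Hspace Ω) NSK.InTest NSL.gau (NSL.PreQ Ω) NSL.ExJ NSL.Dv NSL.DgQ →
    AbsDR (NSDS.V Ω) (NSDS.L2E Ω) (NSDS.L2G Ω) (Set NSDS.R3) (NSDS.R3 → NSDS.R3) (NSDS.R3 → NSDS.G3) NSDS.fld NSDS.grd NSDS.trilin
      (NSDS.H Ω) NSKS.IsSmooth gauS (PreQS Ω) ExJS DvS DgQS := by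
  delta PreQS ExJS DvS DgQS NSL.PreQ NSL.ExJ NSL.Dv NSL.DgQ gauS NSL.gau NSBS.heatExt NSBS.heatK NSN.heatExt NSN.heatK
    NSKS.IsSmooth NSDS.trilin NSDS.fld
    NSDS.grd NSDS.H NSDS.vI NSDS.vN NSDS.V NSDS.Vsub NSDS.pgrd
    NSDS.pfld NSDS.pairI NSDS.pairN NSDS.Pair NSDS.gfn NSDS.l2gI NSDS.l2gN NSDS.L2G NSDS.fn NSDS.l2I
    NSDS.l2N NSDS.L2E NSDS.IsTest NSDS.divField NSDS.gradField NSDS.row NSDS.g3I NSDS.g3N NSDS.G3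
    NSDS.bas NSDS.coord NSDS.r3M NSDS.r3I NSDS.r3N NSDS.R3 NSK.InTest NSD.trilin NSD.fld NSD.grd
    NSD.Hspace NSD.V NSD.Represents NSD.IsTest NSD.divField NSD.gradField NSD.e NSD.L2 NSD.L2G NSD.H1
    NSD.G NSD.E
  exact fun h => h

theorem absDR_all (Ω : Set NSDS.R3) (hΩ : IsOpen Ω) (hb : Bornology.IsBounded Ω) :
    AbsDR (NSDS.V Ω) (NSDS.L2E Ω) (NSDS.L2G Ω) (Set NSDS.R3) (NSDS.R3 → NSDS.R3) (NSDS.R3 → NSDS.G3) NSDS.fld NSDS.grd NSDS.trilin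
      (NSDS.H Ω) NSKS.IsSmooth gauS (PreQS Ω) ExJS DvS DgQS := keyDR Ω (absDR_unsealed Ω hΩ hb)

end Pool.Agent.NSLT
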